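import Pool.Agent.Work.MP_b51559_nt.BG.A.StmtsW

/-!
# Bounded gaps, part A, item ABW: Abel summation with a weight
-/

set_option autoImplicit false

namespace MPb51559.BG.A

open scoped BigOperators
open Filter Topology MeasureTheory

/-- the integral of the derivative from `t` to `2` -/
theorem ABW_real (w : ℝ → ℝ) (hw : Wc w) (t : ℝ) (ht : t ≤ 2) :
    ∫ u in (1 : ℝ)..2, (Set.Ici t).indicator (deriv w) u = - w t := by
  have hd : Differentiable ℝ w := (hw.smooth 1).differentiable (by norm_num)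
  have hc : Continuous (deriv w) := (hw.smooth 1).continuous_deriv (by norm_num)
  have h2 : w 2 = 0 := by
    by_contra h
    have := (hw.supp 2 h).2
    norm_num at this
  have hftc : ∀ a : ℝ, ∫ u in a..2, deriv w u = - w a := by
    intro a
    rw [intervalIntegral.integral_deriv_eq_sub (fun u _ => hd u) (hc.intervalIntegrable _ _), h2,
      zero_sub]
  rw [intervalIntegral.integral_of_le (by norm_num), setIntegral_indicator measurableSet_Ici]
  rcases le_or_gt t 1 with h1 | h1
  · have hset : Set.Ioc (1 : ℝ) 2 ∩ Set.Ici t = Set.Ioc 1 2 := by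
      apply Set.inter_eq_left.2
      intro u hu
      exact h1.trans hu.1.le
    rw [hset, ← intervalIntegral.integral_of_le (by norm_num), hftc]
    have e1 : w 1 = 0 := by
      by_contra h
      have := (hw.supp 1 h).1
      norm_num at this
    have e2 : w t = 0 := by
      by_contra h
      have := (hw.supp t h).1
      linarith
    rw [e1, e2]
  · have hset : Set.Ioc (1 : ℝ) 2 ∩ Set.Ici t = Set.Icc t 2 := by
      ext u
      simp only [Set.mem_inter_iff, Set.mem_Ioc, Set.mem_Ici, Set.mem_Icc]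
      constructor
      · rintro ⟨⟨_, h3⟩, h4⟩
        exact ⟨h4, h3⟩
      · rintro ⟨h3, h4⟩
        exact ⟨⟨lt_of_lt_of_le h1 h3, h4⟩, h3⟩
    rw [hset, integral_Icc_eq_integral_Ioc, ← intervalIntegral.integral_of_le ht, hftc]

theorem prf_ABW : StABW := by
  intro w hw a x hx
  have hc : Continuous (deriv w) := (hw.smooth 1).continuous_deriv (by norm_num)
  have hw0 : ∀ t : ℝ, t ≤ 1 → w t = 0 := by
    intro t ht
    by_contra h
    have := (hw.supp t h).1
    linarith
  -- the integrand as a finite sum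
  have hint : ∫ u in (1 : ℝ)..2, (∑ n ∈ Finset.Icc 1 ⌊u * x⌋₊, a n) * ((deriv w u : ℝ) : ℂ) =
      ∫ u in (1 : ℝ)..2, ∑ n ∈ Finset.Icc 1 ⌊2 * x⌋₊,
        a n * (((Set.Ici ((n : ℝ) / x)).indicator (deriv w) u : ℝ) : ℂ) := by
    apply intervalIntegral.integral_congr
    intro u hu
    rw [Set.uIcc_of_le (by norm_num)] at hu
    have hu0 : 0 ≤ u * x := by
      have : 0 ≤ u := by linarith [hu.1]
      positivity
    have hux : u * x ≤ 2 * x := mul_le_mul_of_nonneg_right hu.2 hx.le
    show (∑ n ∈ Finset.Icc 1 ⌊u * x⌋₊, a n) * ((deriv w u : ℝ) : ℂ) =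
      ∑ n ∈ Finset.Icc 1 ⌊2 * x⌋₊, a n * (((Set.Ici ((n : ℝ) / x)).indicator (deriv w) u : ℝ) : ℂ)
    rw [Finset.sum_mul]
    have hsub : Finset.Icc 1 ⌊u * x⌋₊ ⊆ Finset.Icc 1 ⌊2 * x⌋₊ :=
      Finset.Icc_subset_Icc_right (Nat.floor_le_floor hux)
    rw [← Finset.sum_subset hsub (f := fun n : ℕ =>
      a n * (((Set.Ici ((n : ℝ) / x)).indicator (deriv w) u : ℝ) : ℂ))]
    · apply Finset.sum_congr rfl
      intro n hn
      have h1 : n ≤ ⌊u * x⌋₊ := (Finset.mem_Icc.1 hn).2
      have h2 : (n : ℝ) ≤ u * x := (Nat.le_floor_iff hu0).1 h1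
      have h3 : u ∈ Set.Ici ((n : ℝ) / x) := (div_le_iff₀ hx).2 h2
      rw [Set.indicator_of_mem h3]
    · intro n hn hn'
      have h1 : ¬ n ≤ ⌊u * x⌋₊ := fun h => hn' (Finset.mem_Icc.2 ⟨(Finset.mem_Icc.1 hn).1, h⟩)
      have h3 : u ∉ Set.Ici ((n : ℝ) / x) := by
        intro h
        apply h1
        rw [Nat.le_floor_iff hu0]
        exact (div_le_iff₀ hx).1 h
      rw [Set.indicator_of_notMem h3]
      simp
  have hII : ∀ n : ℕ, IntervalIntegrable
      (fun u => (((Set.Ici ((n : ℝ) / x)).indicator (deriv w) u : ℝ) : ℂ)) volume 1 2 := by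
    intro n
    rw [intervalIntegrable_iff_integrableOn_Ioc_of_le (by norm_num)]
    have h1 : Integrable (deriv w) (volume.restrict (Set.Ioc (1 : ℝ) 2)) := by
      have := hc.intervalIntegrable (μ := volume) 1 2
      rwa [intervalIntegrable_iff_integrableOn_Ioc_of_le (by norm_num)] at this
    exact (h1.indicator measurableSet_Ici).ofReal
  rw [hint, intervalIntegral.integral_finsetSum (fun n _ => (hII n).const_mul _)]
  have hval : ∀ n ∈ Finset.Icc 1 ⌊2 * x⌋₊, ∫ u in (1 : ℝ)..2,
      a n * (((Set.Ici ((n : ℝ) / x)).indicator (deriv w) u : ℝ) : ℂ) =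
        - (a n * ((w ((n : ℝ) / x) : ℝ) : ℂ)) := by
    intro n hn
    rw [intervalIntegral.integral_const_mul, intervalIntegral.integral_ofReal, ABW_real w hw]
    · push_cast
      ring
    · rw [div_le_iff₀ hx]
      exact (Nat.le_floor_iff (by positivity)).1 (Finset.mem_Icc.1 hn).2
  rw [Finset.sum_congr rfl hval, Finset.sum_neg_distrib, neg_neg]
  rw [Finset.range_eq_Ico, Finset.sum_eq_sum_Ico_succ_bot (Nat.succ_pos _)]
  have h0 : w (((0 : ℕ) : ℝ) / x) = 0 := hw0 _ (by simp)
  rw [h0, Complex.ofReal_zero, mul_zero, zero_add]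
  rfl

end MPb51559.BG.A
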