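import Pool.Agent.Work.MP_b51559_nt.BG.A.StmtsL

set_option autoImplicit false

/-!
# Siegel-Walfisz in arithmetic progressions
-/

namespace MPb51559.BG.A

open scoped BigOperators ArithmeticFunction

theorem APF_sum {q : ℕ} [NeZero q] (a : ZMod q) (ha : IsUnit a) (x : ℝ) :
    ∑ χ : DirichletCharacter ℂ q, χ a⁻¹ * psi x χ = (q.totient : ℂ) *
      ((∑ n ∈ (Finset.Icc 1 ⌊x⌋₊).filter (fun n : ℕ => (n : ZMod q) = a),
        ArithmeticFunction.vonMangoldt n : ℝ) : ℂ) := by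
  simp only [psi, Finset.mul_sum]
  rw [Finset.sum_comm]
  push_cast
  rw [Finset.mul_sum, Finset.sum_filter]
  refine Finset.sum_congr rfl fun n _ => ?_
  have h1 := DirichletCharacter.sum_char_inv_mul_char_eq ℂ ha (n : ZMod q)
  have h2 : ∑ χ : DirichletCharacter ℂ q, χ a⁻¹ * (χ (n : ZMod q) *
      (ArithmeticFunction.vonMangoldt n : ℂ)) =
      (∑ χ : DirichletCharacter ℂ q, χ a⁻¹ * χ (n : ZMod q)) *
        (ArithmeticFunction.vonMangoldt n : ℂ) := by
    rw [Finset.sum_mul]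
    exact Finset.sum_congr rfl fun χ _ => by ring
  rw [h2, h1]
  by_cases h : (n : ZMod q) = a
  · simp [h]
  · have h' : ¬ a = (n : ZMod q) := fun h3 => h h3.symm
    simp [h, h']

theorem prf_APF (hSW : StSW) : StAPF := by
  intro A B hA hB
  obtain ⟨C, hC1, hC⟩ := hSW A B hA hB
  refine ⟨C, hC1, fun q _ a ha x hx hq => ?_⟩
  have hφ : 0 < (q.totient : ℝ) := by
    exact_mod_cast Nat.totient_pos.2 (Nat.pos_of_ne_zero (NeZero.ne q))
  set S : ℂ := ((∑ n ∈ (Finset.Icc 1 ⌊x⌋₊).filter (fun n : ℕ => (n : ZMod q) = a),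
        ArithmeticFunction.vonMangoldt n : ℝ) : ℂ) with hS
  have hφc : (q.totient : ℂ) ≠ 0 := by exact_mod_cast hφ.ne'
  have h1 := APF_sum a ha x
  rw [← hS, ← Finset.add_sum_erase _ _ (Finset.mem_univ (1 : DirichletCharacter ℂ q))] at h1
  have hu : IsUnit a⁻¹ := by
    rw [← ha.unit_spec, ZMod.inv_coe_unit]
    exact Units.isUnit _
  rw [MulChar.one_apply hu, one_mul] at h1
  have h2 : S - psi x (1 : DirichletCharacter ℂ q) / (q.totient : ℂ) =
      (∑ χ ∈ Finset.univ.erase (1 : DirichletCharacter ℂ q), χ a⁻¹ * psi x χ) /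
        (q.totient : ℂ) := by
    rw [eq_div_iff hφc, sub_mul, div_mul_cancel₀ _ hφc, mul_comm S, ← h1]
    ring
  rw [h2, norm_div]
  have h3 : ‖∑ χ ∈ Finset.univ.erase (1 : DirichletCharacter ℂ q), χ a⁻¹ * psi x χ‖ ≤
      (q.totient : ℝ) * (C * (x / Real.log x ^ B)) := by
    refine (norm_sum_le _ _).trans ?_
    have h4 : ∀ χ ∈ Finset.univ.erase (1 : DirichletCharacter ℂ q), ‖χ a⁻¹ * psi x χ‖ ≤
        C * (x / Real.log x ^ B) := by
      intro χ hχ
      rw [norm_mul]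
      have h5 := hC q χ (Finset.ne_of_mem_erase hχ) x hx hq
      have h6 := χ.norm_le_one a⁻¹
      calc ‖χ a⁻¹‖ * ‖psi x χ‖ ≤ 1 * ‖psi x χ‖ :=
            mul_le_mul_of_nonneg_right h6 (norm_nonneg _)
        _ ≤ _ := by rwa [one_mul]
    refine (Finset.sum_le_card_nsmul _ _ _ h4).trans ?_
    rw [nsmul_eq_mul]
    have h7 : 0 ≤ C * (x / Real.log x ^ B) := by
      have h8 : 0 ≤ Real.log x := Real.log_nonneg (by linarith)
      have h9 : 0 ≤ x := by linarith
      positivity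
    refine mul_le_mul_of_nonneg_right ?_ h7
    have h10 : (Finset.univ.erase (1 : DirichletCharacter ℂ q)).card ≤ q.totient := by
      refine (Finset.card_erase_le).trans ?_
      rw [Finset.card_univ, ← Nat.card_eq_fintype_card,
        DirichletCharacter.card_eq_totient_of_hasEnoughRootsOfUnity]
    exact_mod_cast h10
  have h4 : ‖(q.totient : ℂ)‖ = (q.totient : ℝ) := by simp
  rw [h4, div_le_iff₀ hφ, mul_comm (C * _)]
  exact h3

end MPb51559.BG.A
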