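import Pool.Agent.Work.MP_b51559_nt.BG.A.StmtsL

/-!
# Bounded gaps, part A, item LBC: lower bound of `L(s, χ)` near the real axis for quadratic characters
-/

namespace MPb51559.BG.A

open scoped BigOperators

theorem LBC_norm_sub_one (s : ℂ) (d : ℝ) (h1 : 1 < s.re) (h2 : s.re - 1 < d) (h3 : |s.im| ≤ d) :
    ‖s - 1‖ ≤ 2 * d := by
  have h := Complex.norm_le_abs_re_add_abs_im (s - 1)
  have hre : (s - 1).re = s.re - 1 := by simp
  have him : (s - 1).im = s.im := by simp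
  rw [hre, him, abs_of_pos (by linarith)] at h
  linarith

theorem LBC_rpow (q t e : ℝ) (hq : 1 ≤ q) (ht : |t| ≤ 1) (he0 : 0 ≤ e) (he1 : e ≤ 1) :
    (q * (|t| + 2)) ^ e ≤ 3 * q ^ e := by
  have h0 : (0 : ℝ) ≤ q := by linarith
  have h1 : q * (|t| + 2) ≤ q * 3 := by
    apply mul_le_mul_of_nonneg_left _ h0
    linarith
  have h2 : (q * (|t| + 2)) ^ e ≤ (q * 3) ^ e :=
    Real.rpow_le_rpow (mul_nonneg h0 (by positivity)) h1 he0
  have h3 : (q * 3 : ℝ) ^ e = q ^ e * (3 : ℝ) ^ e := Real.mul_rpow h0 (by norm_num)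
  have h4 : (3 : ℝ) ^ e ≤ 3 := by
    have := Real.rpow_le_rpow_of_exponent_le (by norm_num : (1 : ℝ) ≤ 3) he1
    simpa using this
  have h5 : (0 : ℝ) ≤ q ^ e := Real.rpow_nonneg h0 e
  calc (q * (|t| + 2)) ^ e ≤ q ^ e * (3 : ℝ) ^ e := h3 ▸ h2
    _ ≤ q ^ e * 3 := mul_le_mul_of_nonneg_left h4 h5
    _ = 3 * q ^ e := by ring

theorem prf_LBC (hUB : StUB) (hSG : StSG) (hSUM : StSUM) (hLIP : StLIP) (hMOB : StMOB) : StLBC := by
  intro η hη
  set e : ℝ := min η 1 / 2 with he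
  have he0 : 0 < e := by rw [he]; positivity
  have he1 : e ≤ 1 := by
    have : min η 1 ≤ 1 := min_le_right _ _
    rw [he]; linarith
  have he2 : 2 * e ≤ η := by
    have : min η 1 ≤ η := min_le_left _ _
    rw [he]; linarith
  obtain ⟨c1, hc1, hS⟩ := hSG e he0
  obtain ⟨C, hC, hU⟩ := hUB e he0 1
  set c0 : ℝ := min 1 (c1 / (12 * C)) with hc0
  have hc0pos : 0 < c0 := by rw [hc0]; positivity
  have hc01 : c0 ≤ 1 := by rw [hc0]; exact min_le_left _ _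
  have hc02 : c0 ≤ c1 / (12 * C) := by rw [hc0]; exact min_le_right _ _
  have hc02' : c0 * (12 * C) ≤ c1 := by
    rwa [le_div_iff₀ (by positivity)] at hc02
  have hc03 : c0 * 12 ≤ c1 := by
    have : c0 * 12 * 1 ≤ c0 * 12 * C := by
      apply mul_le_mul_of_nonneg_left hC; positivity
    linarith
  refine ⟨c0 / 2, by positivity, by linarith, ?_⟩
  intro q _ χ hχ hχ2 s hs1 hs2 him
  have hq : (1 : ℝ) ≤ (q : ℝ) := by
    exact_mod_cast Nat.one_le_iff_ne_zero.mpr (NeZero.ne q)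
  have hq0 : (0 : ℝ) < (q : ℝ) := by linarith
  have hqη : (0 : ℝ) < (q : ℝ) ^ (-η) := Real.rpow_pos_of_pos hq0 _
  have hqη1 : (q : ℝ) ^ (-η) ≤ 1 := Real.rpow_le_one_of_one_le_of_nonpos hq (by linarith)
  have hqe : (0 : ℝ) < (q : ℝ) ^ e := Real.rpow_pos_of_pos hq0 _
  have hqe' : (0 : ℝ) < (q : ℝ) ^ (-e) := Real.rpow_pos_of_pos hq0 _
  have hδ : 0 < c0 * (q : ℝ) ^ (-η) := by positivity
  have hδ1 : c0 * (q : ℝ) ^ (-η) ≤ 1 := by
    calc c0 * (q : ℝ) ^ (-η) ≤ 1 * 1 := mul_le_mul hc01 hqη1 hqη.le (by norm_num)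
      _ = 1 := by norm_num
  have him1 : |s.im| ≤ 1 := by
    have : c0 / 2 * (q : ℝ) ^ (-η) = c0 * (q : ℝ) ^ (-η) / 2 := by ring
    rw [this] at him
    linarith
  by_cases hcase : c0 * (q : ℝ) ^ (-η) ≤ s.re - 1
  · have := hMOB q χ s hs1 hs2
    have h2 : c0 / 2 * (q : ℝ) ^ (-η) = c0 * (q : ℝ) ^ (-η) / 2 := by ring
    rw [h2]
    linarith
  · push Not at hcase
    have him2 : |s.im| ≤ c0 * (q : ℝ) ^ (-η) := by
      have : c0 / 2 * (q : ℝ) ^ (-η) = c0 * (q : ℝ) ^ (-η) / 2 := by ring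
      rw [this] at him
      linarith
    have hnorm := LBC_norm_sub_one s (c0 * (q : ℝ) ^ (-η)) hs1 hcase him2
    have hell := (hSUM q χ 0 s hs1).2.2.1
    have hM : ∀ z : ℂ, 1 < z.re → z.re ≤ 2 → |z.im| ≤ 1 → ‖ell χ 1 z‖ ≤ 3 * C * (q : ℝ) ^ e := by
      intro z hz1 hz2 hz3
      have h1 := hU q χ hχ z hz1 hz2
      have h2 := LBC_rpow (q : ℝ) z.im e hq hz3 he0.le he1
      calc ‖ell χ 1 z‖ ≤ C * ((q : ℝ) * (|z.im| + 2)) ^ e := h1
        _ ≤ C * (3 * (q : ℝ) ^ e) := mul_le_mul_of_nonneg_left h2 (by linarith)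
        _ = 3 * C * (q : ℝ) ^ e := by ring
    have hL := hLIP q χ hχ (3 * C * (q : ℝ) ^ e) 1 (by norm_num) hM s 1 hs1.le hs2 him1
      (by simp) (by norm_num) (by simp)
    have hL1 := hS q χ hχ hχ2
    have hbound : ‖DirichletCharacter.LFunction χ s - DirichletCharacter.LFunction χ 1‖ ≤
        c1 / 2 * (q : ℝ) ^ (-e) := by
      have h1 : 3 * C * (q : ℝ) ^ e * ‖s - 1‖ ≤ 3 * C * (q : ℝ) ^ e * (2 * (c0 * (q : ℝ) ^ (-η))) :=
        mul_le_mul_of_nonneg_left hnorm (by positivity)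
      have h2 : (q : ℝ) ^ e * (q : ℝ) ^ (-η) ≤ (q : ℝ) ^ (-e) := by
        rw [← Real.rpow_add hq0]
        exact Real.rpow_le_rpow_of_exponent_le hq (by linarith)
      have h3 : 3 * C * (q : ℝ) ^ e * (2 * (c0 * (q : ℝ) ^ (-η))) =
          (c0 * (12 * C)) / 2 * ((q : ℝ) ^ e * (q : ℝ) ^ (-η)) := by ring
      have h4 : (c0 * (12 * C)) / 2 * ((q : ℝ) ^ e * (q : ℝ) ^ (-η)) ≤ c1 / 2 * (q : ℝ) ^ (-e) := by
        apply mul_le_mul _ h2 (by positivity) (by positivity)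
        linarith
      linarith
    have htri : ‖DirichletCharacter.LFunction χ 1‖ ≤ ‖DirichletCharacter.LFunction χ s‖ +
        ‖DirichletCharacter.LFunction χ s - DirichletCharacter.LFunction χ 1‖ := by
      have := norm_sub_norm_le (DirichletCharacter.LFunction χ 1) (DirichletCharacter.LFunction χ s)
      rw [norm_sub_rev] at this
      linarith
    have hfin : c0 / 2 * (q : ℝ) ^ (-η) ≤ c1 / 2 * (q : ℝ) ^ (-e) := by
      apply mul_le_mul _ _ hqη.le (by positivity)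
      · linarith
      · exact Real.rpow_le_rpow_of_exponent_le hq (by linarith)
    rw [hell]
    have h5 : c1 * (q : ℝ) ^ (-e) = c1 / 2 * (q : ℝ) ^ (-e) + c1 / 2 * (q : ℝ) ^ (-e) := by ring
    linarith

end MPb51559.BG.A
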