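import Pool.Agent.Work.MP_b51559_nt.BG.A.AllL
import Pool.Agent.Work.MP_b51559_nt.BG.A.LBC

set_option autoImplicit false

/-!
# Part A of BG, complete: Siegel-Walfisz and the prime number theorem, no hypotheses
-/

namespace MPb51559.BG.A

/-- the lower bound for quadratic characters near the real axis -/
theorem all_LBC : StLBC :=
  prf_LBC all_UB pr_SG prf_SUM (prf_LIP prf_SUM) (prf_MOB all_TR prf_SUM)

/-- Siegel-Walfisz for characters -/
theorem bg_SW : StSW := all_SW all_LBC

/-- Siegel-Walfisz in the form of the interface -/
theorem bg_SWF : MPb51559.BG.SWF := all_SWF all_LBC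

/-- Siegel-Walfisz in progressions -/
theorem bg_APF : StAPF := all_APF all_LBC

end MPb51559.BG.A
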