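import Pool.Agent.Work.MP_b51559_nt.BG.A.StmtsP

/-!
# P02: the kernel
-/

namespace MPb51559.BG.A

open MeasureTheory Complex

theorem P02_norm (c : ℝ) (hc : 1 ≤ c) (t : ℝ) :
    Real.sqrt (1 + t ^ 2) ≤ ‖(c : ℂ) + t * I‖ := by
  rw [Real.sqrt_le_left (norm_nonneg _), Complex.sq_norm, Complex.normSq_apply]
  simp
  nlinarith

theorem P02_re (c : ℝ) (t : ℝ) : ((c : ℂ) + t * I).re = c := by simp

theorem P02_ne (c : ℝ) (hc : 1 ≤ c) (t : ℝ) : (c : ℂ) + t * I ≠ 0 := by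
  intro h
  have h1 := congrArg Complex.re h
  rw [P02_re] at h1
  simp at h1
  linarith

theorem P02_add (c : ℝ) (t : ℝ) : (c : ℂ) + t * I + 1 = ((c + 1 : ℝ) : ℂ) + t * I := by
  push_cast
  ring

theorem P02_bound (c : ℝ) (hc : 1 ≤ c) (t : ℝ) : ‖ker c t‖ ≤ (1 + t ^ 2)⁻¹ := by
  unfold ker
  rw [norm_div, norm_one, norm_mul, one_div]
  have h1 := P02_norm c hc t
  have h2 := P02_norm (c + 1) (by linarith) t
  rw [P02_add]
  have h3 : (1 + t ^ 2) ≤ ‖(c : ℂ) + t * I‖ * ‖((c + 1 : ℝ) : ℂ) + t * I‖ := by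
    calc 1 + t ^ 2 = Real.sqrt (1 + t ^ 2) * Real.sqrt (1 + t ^ 2) :=
          (Real.mul_self_sqrt (by positivity)).symm
      _ ≤ _ := mul_le_mul h1 h2 (Real.sqrt_nonneg _) (norm_nonneg _)
  exact inv_anti₀ (by positivity) h3

theorem P02_cont (c : ℝ) (hc : 1 ≤ c) : Continuous (fun t : ℝ => ker c t) := by
  unfold ker
  have h1 : Continuous fun t : ℝ => (c : ℂ) + t * I := by fun_prop
  refine continuous_const.div (h1.mul (h1.add continuous_const)) fun t => ?_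
  refine mul_ne_zero (P02_ne c hc t) ?_
  rw [P02_add]
  exact P02_ne (c + 1) (by linarith) t

theorem prf_P02 : StP02 := by
  intro c hc
  refine ⟨P02_bound c hc, ?_⟩
  exact Integrable.mono' integrable_inv_one_add_sq (P02_cont c hc).aestronglyMeasurable
    (Filter.Eventually.of_forall fun t => P02_bound c hc t)

end MPb51559.BG.A
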