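import Pool.Agent.Work.MP_b51559_nt.BG.A.StmtsP

/-!
# Bounded gaps, part A, item P03: the Perron kernel of order one
-/

namespace MPb51559.BG.A

open MeasureTheory Complex

theorem prf_P03 (h1 : StP01) (h2 : StP02) : StP03 := by
  intro c hc u hu
  have hre : ∀ t : ℝ, 0 < ((c : ℂ) + t * I).re := by
    intro t
    simp only [add_re, ofReal_re, mul_re, I_re, mul_zero, ofReal_im, I_im, mul_one, sub_self,
      add_zero]
    linarith
  have hm : ∀ t : ℝ, mellin (fun u : ℝ => ((max 0 (1 - u) : ℝ) : ℂ)) ((c : ℂ) + t * I) = ker c t :=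
    fun t => (h1 _ (hre t)).2
  have hconv : MellinConvergent (fun u : ℝ => ((max 0 (1 - u) : ℝ) : ℂ)) (c : ℂ) := by
    refine (h1 (c : ℂ) ?_).1
    rw [ofReal_re]
    linarith
  have hV : VerticalIntegrable (mellin (fun u : ℝ => ((max 0 (1 - u) : ℝ) : ℂ))) c := by
    have h3 := (h2 c hc).2
    unfold VerticalIntegrable
    exact h3.congr (Filter.Eventually.of_forall fun t => (hm t).symm)
  have hcont : ContinuousAt (fun u : ℝ => ((max 0 (1 - u) : ℝ) : ℂ)) u := by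
    have : Continuous (fun u : ℝ => ((max 0 (1 - u) : ℝ) : ℂ)) := by fun_prop
    exact this.continuousAt
  have h4 := mellinInv_mellin_eq c (fun u : ℝ => ((max 0 (1 - u) : ℝ) : ℂ)) hu hconv hV hcont
  unfold mellinInv at h4
  have h5 : (∫ t : ℝ, (u : ℂ) ^ (-((c : ℂ) + t * I)) •
      mellin (fun u : ℝ => ((max 0 (1 - u) : ℝ) : ℂ)) ((c : ℂ) + t * I)) =
      ∫ t : ℝ, (u : ℂ) ^ (-((c : ℂ) + t * I)) * ker c t := by
    congr 1
    funext t
    rw [hm t, smul_eq_mul]
  rw [h5] at h4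
  have hpi : (0 : ℝ) < 2 * Real.pi := by positivity
  have h6 : (∫ t : ℝ, (u : ℂ) ^ (-((c : ℂ) + t * I)) * ker c t) =
      (2 * Real.pi : ℝ) • ((1 / (2 * Real.pi) : ℝ) •
        ∫ t : ℝ, (u : ℂ) ^ (-((c : ℂ) + t * I)) * ker c t) := by
    rw [smul_smul, mul_one_div_cancel hpi.ne', one_smul]
  rw [h6, h4, Complex.real_smul]
  push_cast
  ring

end MPb51559.BG.A
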