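import Pool.Agent.Work.MP_b51559_nt.BG.A.StmtsP

namespace MPb51559.BG.A

open scoped BigOperators ArithmeticFunction
open MeasureTheory Complex

lemma P04_cpow (n : ℕ) (hn : n ≠ 0) (x : ℝ) (hx : 0 < x) (s : ℂ) :
    (x : ℂ) ^ s / (n : ℂ) ^ s = (((n : ℝ) / x : ℝ) : ℂ) ^ (-s) := by
  have hn' : (0 : ℝ) < n := by exact_mod_cast Nat.pos_of_ne_zero hn
  have h1 : ((n : ℝ) / x : ℝ) = (x / n)⁻¹ := by rw [inv_div]
  rw [h1, Complex.ofReal_inv, Complex.inv_cpow_eq_ite, if_neg]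
  · rw [Complex.cpow_neg, inv_inv, Complex.ofReal_div, Complex.ofReal_natCast]
    have := Complex.div_cpow_ofReal_nonneg hx.le hn'.le s
    simpa using this.symm
  · rw [Complex.arg_ofReal_of_nonneg (by positivity)]
    exact Real.pi_pos.ne

lemma P04_term (a : ℕ → ℂ) (x : ℝ) (hx : 0 < x) (s : ℂ) (n : ℕ) (hn : n ≠ 0) :
    LSeries.term a s n * (x : ℂ) ^ s = a n * (((n : ℝ) / x : ℝ) : ℂ) ^ (-s) := by
  rw [LSeries.term_of_ne_zero hn, ← P04_cpow n hn x hx s]
  ring

lemma P04_normterm (a : ℕ → ℂ) (c t : ℝ) (n : ℕ) :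
    ‖LSeries.term a ((c : ℂ) + t * I) n‖ = ‖LSeries.term a (c : ℂ) n‖ := by
  rw [LSeries.norm_term_eq, LSeries.norm_term_eq]
  simp

lemma P04_int (h1 : StP02) (c : ℝ) (hc : 1 ≤ c) (u : ℝ) (hu : 0 < u) :
    Integrable (fun t : ℝ => (u : ℂ) ^ (-((c : ℂ) + t * I)) * ker c t) := by
  have hk := (h1 c hc).2
  have hcont : Continuous (fun t : ℝ => (u : ℂ) ^ (-((c : ℂ) + t * I))) := by
    apply Continuous.const_cpow
    · fun_prop
    · left
      exact_mod_cast hu.ne'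
  refine Integrable.mono' (hk.norm.const_mul (u ^ (-c))) (hcont.aestronglyMeasurable.mul hk.aestronglyMeasurable) ?_
  filter_upwards with t
  rw [norm_mul, Complex.norm_cpow_eq_rpow_re_of_pos hu]
  simp

theorem prf_P04 (h1 : StP02) (h2 : StP03) : StP04 := by
  intro a c x hc hx hs
  have hk := (h1 c hc).2
  set F : ℕ → ℝ → ℂ := fun n t => LSeries.term a ((c : ℂ) + t * I) n * (x : ℂ) ^ ((c : ℂ) + t * I) * ker c t with hF
  have hF0 : ∀ t, F 0 t = 0 := by intro t; simp [hF]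
  have hFn : ∀ n, n ≠ 0 → ∀ t, F n t = a n * ((((n : ℝ) / x : ℝ) : ℂ) ^ (-((c : ℂ) + t * I)) * ker c t) := by
    intro n hn t
    simp only [hF]
    rw [P04_term a x hx _ n hn]; ring
  have hint : ∀ n, Integrable (F n) := by
    intro n
    by_cases hn : n = 0
    · subst hn
      have : F 0 = fun _ => 0 := funext hF0
      rw [this]; exact integrable_zero _ _ _
    · have hn' : (0 : ℝ) < n := by exact_mod_cast Nat.pos_of_ne_zero hn
      have : F n = fun t : ℝ => a n * ((((n : ℝ) / x : ℝ) : ℂ) ^ (-((c : ℂ) + t * I)) * ker c t) := funext (hFn n hn)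
      rw [this]
      exact (P04_int h1 c hc _ (by positivity)).const_mul _
  have hnorm : ∀ n t, ‖F n t‖ = ‖LSeries.term a (c : ℂ) n‖ * (x ^ c * ‖ker c t‖) := by
    intro n t
    simp only [hF]
    rw [norm_mul, norm_mul, P04_normterm, Complex.norm_cpow_eq_rpow_re_of_pos hx]
    simp [mul_assoc]
  have hsum : Summable fun n => ∫ t, ‖F n t‖ := by
    have : (fun n => ∫ t, ‖F n t‖) = fun n => ‖LSeries.term a (c : ℂ) n‖ * ∫ t, x ^ c * ‖ker c t‖ := by
      funext n
      simp_rw [hnorm]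
      rw [integral_const_mul]
    rw [this]
    exact (Summable.norm hs).mul_right _
  have key := hasSum_integral_of_summable_integral_norm hint hsum
  have hR : (∫ t, ∑' n, F n t) = ∫ t : ℝ, LSeries a ((c : ℂ) + t * I) * (x : ℂ) ^ ((c : ℂ) + t * I) * ker c t := by
    congr 1
    funext t
    simp only [hF]
    rw [tsum_mul_right, tsum_mul_right]
    rfl
  rw [hR] at key
  have hL : ∀ n, ∫ t, F n t = if n ∈ Finset.Icc 1 ⌊x⌋₊ then a n * ((2 * Real.pi * (1 - n / x) : ℝ) : ℂ) else 0 := by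
    intro n
    by_cases hn : n = 0
    · subst hn
      simp [hF0]
    · have hn' : (0 : ℝ) < n := by exact_mod_cast Nat.pos_of_ne_zero hn
      have e : (∫ t, F n t) = a n * ((2 * Real.pi * max 0 (1 - (n : ℝ) / x) : ℝ) : ℂ) := by
        have : F n = fun t : ℝ => a n * ((((n : ℝ) / x : ℝ) : ℂ) ^ (-((c : ℂ) + t * I)) * ker c t) := funext (hFn n hn)
        rw [this, integral_const_mul, h2 c hc _ (by positivity)]
      rw [e]
      by_cases hm : n ≤ ⌊x⌋₊
      · rw [if_pos (Finset.mem_Icc.2 ⟨Nat.pos_of_ne_zero hn, hm⟩), max_eq_right]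
        have : (n : ℝ) ≤ x := (Nat.le_floor_iff hx.le).1 hm
        rw [sub_nonneg, div_le_one hx]; exact this
      · rw [if_neg, max_eq_left]
        · simp
        · have : x < n := (Nat.floor_lt hx.le).1 (not_le.1 hm)
          rw [sub_nonpos, one_le_div hx]; exact this.le
        · intro h; exact hm (Finset.mem_Icc.1 h).2
  have key2 : HasSum (fun n => ∫ t, F n t) (∑ n ∈ Finset.Icc 1 ⌊x⌋₊, a n * ((2 * Real.pi * (1 - n / x) : ℝ) : ℂ)) := by
    have h : HasSum (fun n => ∫ t, F n t) (∑ n ∈ Finset.Icc 1 ⌊x⌋₊, ∫ t, F n t) := hasSum_sum_of_ne_finset_zero (by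
      intro n hn
      rw [hL, if_neg hn])
    have e : (∑ n ∈ Finset.Icc 1 ⌊x⌋₊, ∫ t, F n t) = ∑ n ∈ Finset.Icc 1 ⌊x⌋₊, a n * ((2 * Real.pi * (1 - n / x) : ℝ) : ℂ) := by
      apply Finset.sum_congr rfl
      intro n hn
      rw [hL, if_pos hn]
    rw [e] at h
    exact h
  rw [← key2.unique key]
  unfold wsum
  rw [Finset.mul_sum]
  apply Finset.sum_congr rfl
  intro n hn
  have hpi : (Real.pi : ℂ) ≠ 0 := by exact_mod_cast Real.pi_pos.ne'
  have hx' : (x : ℂ) ≠ 0 := by exact_mod_cast hx.ne'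
  push_cast
  field_simp

end MPb51559.BG.A
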