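import Pool.Agent.Work.MP_b51559_nt.BG.A.StmtsP

set_option autoImplicit false

/-!
# Bounded gaps, part A, P05: the bound for the weighted sum
-/

namespace MPb51559.BG.A

open scoped BigOperators ArithmeticFunction
open MeasureTheory Complex

theorem P05_bound (t : ℝ) : (|t| + 2) ^ (1 / 2 : ℝ) * (1 + t ^ 2)⁻¹ ≤
    4 * (1 + ‖t‖) ^ (-(3 / 2 : ℝ)) := by
  have h0 : 0 ≤ |t| := abs_nonneg t
  have h1 : (0 : ℝ) < 1 + |t| := by linarith
  have e1 : (|t| + 2) ^ (1 / 2 : ℝ) ≤ 2 * (1 + |t|) ^ (1 / 2 : ℝ) := by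
    calc (|t| + 2) ^ (1 / 2 : ℝ) ≤ (4 * (1 + |t|)) ^ (1 / 2 : ℝ) :=
          Real.rpow_le_rpow (by linarith) (by linarith) (by norm_num)
      _ = (4 : ℝ) ^ (1 / 2 : ℝ) * (1 + |t|) ^ (1 / 2 : ℝ) := Real.mul_rpow (by norm_num) h1.le
      _ = 2 * (1 + |t|) ^ (1 / 2 : ℝ) := by
          congr 1
          rw [show (4 : ℝ) = 2 ^ (2 : ℝ) by norm_num, ← Real.rpow_mul (by norm_num)]
          norm_num
  have e2 : (1 + t ^ 2)⁻¹ ≤ 2 * ((1 + |t|) ^ 2)⁻¹ := by
    have h2 : (1 + |t|) ^ 2 ≤ 2 * (1 + t ^ 2) := by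
      have : |t| ^ 2 = t ^ 2 := sq_abs t
      nlinarith [sq_nonneg (|t| - 1)]
    rw [inv_eq_one_div, ← div_eq_mul_inv, div_le_div_iff₀ (by positivity) (by positivity)]
    linarith
  calc (|t| + 2) ^ (1 / 2 : ℝ) * (1 + t ^ 2)⁻¹
      ≤ (2 * (1 + |t|) ^ (1 / 2 : ℝ)) * (2 * ((1 + |t|) ^ 2)⁻¹) :=
        mul_le_mul e1 e2 (by positivity) (by positivity)
    _ = 4 * ((1 + |t|) ^ (1 / 2 : ℝ) * (1 + |t|) ^ (-2 : ℝ)) := by
        rw [Real.rpow_neg h1.le, show (2 : ℝ) = ((2 : ℕ) : ℝ) by norm_num, Real.rpow_natCast]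
        push_cast
        ring
    _ = 4 * (1 + ‖t‖) ^ (-(3 / 2 : ℝ)) := by
        rw [← Real.rpow_add h1, Real.norm_eq_abs]
        norm_num

theorem P05_int : Integrable (fun t : ℝ => (|t| + 2) ^ (1 / 2 : ℝ) * (1 + t ^ 2)⁻¹) := by
  have h1 : Integrable (fun t : ℝ => 4 * (1 + ‖t‖) ^ (-(3 / 2 : ℝ))) := by
    refine Integrable.const_mul ?_ 4
    refine integrable_one_add_norm ?_
    norm_num
  refine h1.mono' ?_ (Filter.Eventually.of_forall fun t => ?_)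
  · refine Continuous.aestronglyMeasurable ?_
    refine Continuous.mul ?_ ?_
    · exact Continuous.rpow_const (by fun_prop) (fun t => Or.inr (by norm_num))
    · exact Continuous.inv₀ (by fun_prop) (fun t => by positivity)
  · rw [Real.norm_of_nonneg (by positivity)]
    exact P05_bound t

theorem prf_P05 (h1 : StP02) (h2 : StP04) : StP05 := by
  set J : ℝ := ∫ t : ℝ, (|t| + 2) ^ (1 / 2 : ℝ) * (1 + t ^ 2)⁻¹ with hJ
  have hJ0 : 0 ≤ J := integral_nonneg fun t => by positivity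
  refine ⟨max 1 (Real.exp 1 / (2 * Real.pi) * J), le_max_left _ _, ?_⟩
  intro a x M hx hM hs hb
  have hx0 : 0 < x := by linarith
  have hlog : 1 < Real.log x := by
    rw [Real.lt_log_iff_exp_lt hx0]
    exact lt_of_lt_of_le Real.exp_one_lt_three hx
  set c : ℝ := 1 + 1 / Real.log x with hc
  have hc1 : 1 ≤ c := by
    rw [hc]
    have : 0 < 1 / Real.log x := by positivity
    linarith
  have hxc : x ^ c = x * Real.exp 1 := by
    rw [hc, Real.rpow_add hx0, Real.rpow_one, Real.rpow_def_of_pos hx0]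
    congr 2
    field_simp
  have hker := (h1 c hc1).1
  rw [h2 a c x hc1 hx0 hs, norm_mul, Complex.norm_real,
    Real.norm_of_nonneg (by positivity : (0 : ℝ) ≤ x / (2 * Real.pi))]
  have hI : ‖∫ t : ℝ, LSeries a ((c : ℂ) + t * I) * (x : ℂ) ^ ((c : ℂ) + t * I) * ker c t‖ ≤
      ∫ t : ℝ, M * (x * Real.exp 1) * ((|t| + 2) ^ (1 / 2 : ℝ) * (1 + t ^ 2)⁻¹) := by
    refine norm_integral_le_of_norm_le (P05_int.const_mul _) (Filter.Eventually.of_forall fun t => ?_)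
    rw [norm_mul, norm_mul, Complex.norm_cpow_eq_rpow_re_of_pos hx0]
    have hre : ((c : ℂ) + t * I).re = c := by simp
    rw [hre, hxc]
    have hbt := hb t
    have hk := hker t
    calc ‖LSeries a ((c : ℂ) + t * I)‖ * (x * Real.exp 1) * ‖ker c t‖
        ≤ (M * (|t| + 2) ^ (1 / 2 : ℝ)) * (x * Real.exp 1) * (1 + t ^ 2)⁻¹ := by
          gcongr
      _ = M * (x * Real.exp 1) * ((|t| + 2) ^ (1 / 2 : ℝ) * (1 + t ^ 2)⁻¹) := by ring
  rw [integral_const_mul, ← hJ] at hI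
  calc x / (2 * Real.pi) * ‖∫ t : ℝ, LSeries a ((c : ℂ) + t * I) * (x : ℂ) ^ ((c : ℂ) + t * I) *
        ker c t‖
      ≤ x / (2 * Real.pi) * (M * (x * Real.exp 1) * J) := by gcongr
    _ = (Real.exp 1 / (2 * Real.pi) * J) * M * x ^ 2 := by ring
    _ ≤ max 1 (Real.exp 1 / (2 * Real.pi) * J) * M * x ^ 2 := by
        gcongr
        exact le_max_right _ _

end MPb51559.BG.A
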