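import Pool.Agent.Work.MP_b51559_nt.BG.A.StmtsP

set_option autoImplicit false

/-!
# Bounded gaps, part A, P06: bound for the coefficients
-/

namespace MPb51559.BG.A

open scoped BigOperators ArithmeticFunction
open MeasureTheory Complex

theorem P06_bound (q : ℕ) [NeZero q] (χ : DirichletCharacter ℂ q) (K n : ℕ) :
    ‖cdk χ K n‖ ≤ Real.log n ^ (K + 1) := by
  have h1 : ‖χ (n : ZMod q)‖ ≤ 1 := DirichletCharacter.norm_le_one χ _
  have h2 : 0 ≤ ArithmeticFunction.vonMangoldt n := ArithmeticFunction.vonMangoldt_nonneg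
  have h3 : ArithmeticFunction.vonMangoldt n ≤ Real.log n := ArithmeticFunction.vonMangoldt_le_log
  have h4 : 0 ≤ Real.log n := Real.log_natCast_nonneg n
  unfold cdk
  rw [norm_mul, norm_mul, norm_pow, Complex.norm_real, Complex.norm_real, Real.norm_eq_abs,
    Real.norm_eq_abs, abs_of_nonneg h2, abs_of_nonneg h4, pow_succ' (Real.log n)]
  have h5 : ‖χ (n : ZMod q)‖ * ArithmeticFunction.vonMangoldt n ≤ 1 * Real.log n :=
    mul_le_mul h1 h3 h2 zero_le_one
  rw [one_mul] at h5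
  exact mul_le_mul_of_nonneg_right h5 (pow_nonneg h4 K)

theorem prf_P06 : StP06 := by
  intro q _ χ K
  refine ⟨P06_bound q χ K, fun s hs => ?_⟩
  set d0 : ℝ := (s.re - 1) / 2 with hd0
  have hpos : 0 < d0 := by rw [hd0]; linarith
  have hx : 1 + d0 < s.re := by rw [hd0]; linarith
  refine LSeriesSummable_of_le_const_mul_rpow hx ⟨(1 / (d0 / (K + 1))) ^ (K + 1), fun n _ => ?_⟩
  have hK : (0 : ℝ) < (K : ℝ) + 1 := by positivity
  have hε : 0 < d0 / (K + 1) := div_pos hpos hK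
  refine (P06_bound q χ K n).trans ?_
  have h1 : Real.log n ≤ (n : ℝ) ^ (d0 / (K + 1)) / (d0 / (K + 1)) :=
    Real.log_le_rpow_div (Nat.cast_nonneg n) hε
  have h2 := pow_le_pow_left₀ (Real.log_natCast_nonneg n) h1 (K + 1)
  refine h2.trans (le_of_eq ?_)
  rw [div_eq_mul_one_div, mul_pow, ← Real.rpow_natCast ((n : ℝ) ^ (d0 / (K + 1))) (K + 1),
    ← Real.rpow_mul (Nat.cast_nonneg n), mul_comm]
  congr 2
  push_cast
  field_simp
  ring

end MPb51559.BG.A
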