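import Pool.Agent.Work.MP_b51559_nt.BG.A.StmtsP

set_option autoImplicit false

/-!
# Item P07: bound for the weighted sums
-/

open Complex

namespace MPb51559.BG.A

theorem P07_log {x : ℝ} (hx : 3 ≤ x) : 1 ≤ Real.log x := by
  rw [Real.le_log_iff_exp_le (by linarith)]
  exact Real.exp_one_lt_three.le.trans hx

theorem P07_pow {q : ℝ} (hq : 1 ≤ q) {η t : ℝ} :
    (q * (|t| + 2)) ^ (min η (1 / 2)) ≤ q ^ η * (|t| + 2) ^ (1 / 2 : ℝ) := by
  have ht : 1 ≤ |t| + 2 := by
    have := abs_nonneg t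
    linarith
  rw [Real.mul_rpow (by linarith) (by linarith)]
  exact mul_le_mul (Real.rpow_le_rpow_of_exponent_le hq (min_le_left _ _))
    (Real.rpow_le_rpow_of_exponent_le ht (min_le_right _ _))
    (Real.rpow_nonneg (by linarith) _) (Real.rpow_nonneg (by linarith) _)

theorem prf_P07 (h1 : StDK) (h2 : StP05) (h3 : StP06) : StP07 := by
  intro η hη K
  obtain ⟨C1, hC1, hdk⟩ := h1 (min η (1 / 2)) (lt_min hη (by norm_num)) K
  obtain ⟨C2, hC2, hp⟩ := h2
  refine ⟨C2 * C1, one_le_mul_of_one_le_of_one_le hC2 hC1, fun q _ χ hχ x hx => ?_⟩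
  have hL : 1 ≤ Real.log x := P07_log hx
  have hL0 : 0 < Real.log x := by linarith
  have hq : (1 : ℝ) ≤ (q : ℝ) := by exact_mod_cast NeZero.one_le
  have hre : ∀ t : ℝ, (((1 + 1 / Real.log x : ℝ) : ℂ) + t * I).re = 1 + 1 / Real.log x := by
    intro t
    simp
  have him : ∀ t : ℝ, (((1 + 1 / Real.log x : ℝ) : ℂ) + t * I).im = t := by
    intro t
    simp
  have hpos : 0 < 1 / Real.log x := by positivity
  have hle : 1 / Real.log x ≤ 1 := by
    rw [div_le_one hL0]
    exact hL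
  have key := hp (cdk χ K) x (C1 * (q : ℝ) ^ η) hx (by positivity)
    ((h3 q χ K).2 _ (by rw [ofReal_re]; linarith)) (fun t => ?_)
  · calc ‖wsum (cdk χ K) x‖ ≤ C2 * (C1 * (q : ℝ) ^ η) * x ^ 2 := key
      _ = C2 * C1 * (q : ℝ) ^ η * x ^ 2 := by ring
  · have h4 := hdk q χ hχ (((1 + 1 / Real.log x : ℝ) : ℂ) + t * I) (by rw [hre]; linarith)
      (by rw [hre]; linarith)
    rw [him] at h4
    refine h4.trans ?_
    rw [mul_assoc]
    exact mul_le_mul_of_nonneg_left (P07_pow hq) (by linarith)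

end MPb51559.BG.A
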