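import Pool.Agent.Work.MP_b51559_nt.BG.A.StmtsP

/-!
# Bounded gaps, part A, item P08 (helper35): differencing
-/

namespace MPb51559.BG.A

open scoped BigOperators

theorem P08_icc (N : ℕ) : Finset.Icc 1 N = Finset.Ioc 0 N := by
  ext n
  rw [Finset.mem_Icc, Finset.mem_Ioc]
  omega

theorem P08_split (a : ℕ → ℂ) (x h : ℝ) (hAB : ⌊x⌋₊ ≤ ⌊x + h⌋₊) :
    wsum a (x + h) - wsum a x = (h : ℂ) * ssum a x +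
      ∑ n ∈ Finset.Ioc ⌊x⌋₊ ⌊x + h⌋₊, a n * (((x + h - n : ℝ)) : ℂ) := by
  unfold wsum ssum
  rw [P08_icc, P08_icc, ← Finset.sum_Ioc_consecutive _ (Nat.zero_le ⌊x⌋₊) hAB, Finset.mul_sum]
  have h1 : ∑ n ∈ Finset.Ioc 0 ⌊x⌋₊, a n * (((x + h - n : ℝ)) : ℂ) =
      ∑ n ∈ Finset.Ioc 0 ⌊x⌋₊, a n * (((x - n : ℝ)) : ℂ) + ∑ n ∈ Finset.Ioc 0 ⌊x⌋₊, (h : ℂ) * a n := by
    rw [← Finset.sum_add_distrib]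
    apply Finset.sum_congr rfl
    intro n _
    push_cast
    ring
  rw [h1]
  ring

theorem P08_rest (a : ℕ → ℂ) (x h M : ℝ) (hx : 0 < x) (hh : 0 < h) (hM : 0 ≤ M)
    (hb : ∀ n : ℕ, 1 ≤ n → (n : ℝ) ≤ x + h → ‖a n‖ ≤ M) (hAB : ⌊x⌋₊ ≤ ⌊x + h⌋₊) :
    ‖∑ n ∈ Finset.Ioc ⌊x⌋₊ ⌊x + h⌋₊, a n * (((x + h - n : ℝ)) : ℂ)‖ ≤ h * (h + 1) * M := by
  have hxh : 0 ≤ x + h := by linarith
  have h1 : ∑ n ∈ Finset.Ioc ⌊x⌋₊ ⌊x + h⌋₊, ‖a n * (((x + h - n : ℝ)) : ℂ)‖ ≤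
      ∑ _n ∈ Finset.Ioc ⌊x⌋₊ ⌊x + h⌋₊, M * h := by
    apply Finset.sum_le_sum
    intro n hn
    rw [Finset.mem_Ioc] at hn
    have h1 : x < n := Nat.lt_of_floor_lt hn.1
    have h2 : (n : ℝ) ≤ x + h := (Nat.le_floor_iff hxh).1 hn.2
    rw [norm_mul, Complex.norm_real, Real.norm_of_nonneg (by linarith)]
    exact mul_le_mul (hb n (by omega) h2) (by linarith) (by linarith) hM
  have h2 : ((⌊x + h⌋₊ - ⌊x⌋₊ : ℕ) : ℝ) ≤ h + 1 := by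
    rw [Nat.cast_sub hAB]
    have h3 : ((⌊x + h⌋₊ : ℕ) : ℝ) ≤ x + h := Nat.floor_le hxh
    have h4 : x < ((⌊x⌋₊ : ℕ) : ℝ) + 1 := Nat.lt_floor_add_one x
    linarith
  calc ‖∑ n ∈ Finset.Ioc ⌊x⌋₊ ⌊x + h⌋₊, a n * (((x + h - n : ℝ)) : ℂ)‖
      ≤ ∑ n ∈ Finset.Ioc ⌊x⌋₊ ⌊x + h⌋₊, ‖a n * (((x + h - n : ℝ)) : ℂ)‖ := norm_sum_le _ _
    _ ≤ ∑ _n ∈ Finset.Ioc ⌊x⌋₊ ⌊x + h⌋₊, M * h := h1
    _ = ((⌊x + h⌋₊ - ⌊x⌋₊ : ℕ) : ℝ) * (M * h) := by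
        rw [Finset.sum_const, Nat.card_Ioc, nsmul_eq_mul]
    _ ≤ (h + 1) * (M * h) := mul_le_mul_of_nonneg_right h2 (mul_nonneg hM hh.le)
    _ = h * (h + 1) * M := by ring

/-- P08 (differencing). -/
theorem prf_P08 : StP08 := by
  intro a x h M hx hh hM hb
  have hAB : ⌊x⌋₊ ≤ ⌊x + h⌋₊ := Nat.floor_mono (by linarith)
  have key := P08_split a x h hAB
  have hrest := P08_rest a x h M hx hh hM hb hAB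
  have h1 : (h : ℂ) * ssum a x = (wsum a (x + h) - wsum a x) -
      ∑ n ∈ Finset.Ioc ⌊x⌋₊ ⌊x + h⌋₊, a n * (((x + h - n : ℝ)) : ℂ) := by
    rw [key]
    ring
  calc h * ‖ssum a x‖ = ‖(h : ℂ) * ssum a x‖ := by
        rw [norm_mul, Complex.norm_real, Real.norm_of_nonneg hh.le]
    _ = ‖(wsum a (x + h) - wsum a x) -
      ∑ n ∈ Finset.Ioc ⌊x⌋₊ ⌊x + h⌋₊, a n * (((x + h - n : ℝ)) : ℂ)‖ := by rw [h1]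
    _ ≤ ‖wsum a (x + h) - wsum a x‖ +
      ‖∑ n ∈ Finset.Ioc ⌊x⌋₊ ⌊x + h⌋₊, a n * (((x + h - n : ℝ)) : ℂ)‖ := norm_sub_le _ _
    _ ≤ (‖wsum a (x + h)‖ + ‖wsum a x‖) + h * (h + 1) * M := add_le_add (norm_sub_le _ _) hrest
    _ = ‖wsum a (x + h)‖ + ‖wsum a x‖ + h * (h + 1) * M := by ring

end MPb51559.BG.A
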