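import Pool.Agent.Work.MP_b51559_nt.BG.A.StmtsP

/-!
# P09: powers of the logarithm are bounded by a constant times `x ^ (1/4)`
-/

namespace MPb51559.BG.A

/-- P09. -/
theorem prf_P09 : StP09 := by
  intro K
  rcases Nat.eq_zero_or_pos K with rfl | hK
  · refine ⟨1, le_refl _, fun x hx => ?_⟩
    simpa using Real.one_le_rpow hx (by norm_num : (0 : ℝ) ≤ 1 / 4)
  · have hK1 : (1 : ℝ) ≤ (K : ℝ) := by exact_mod_cast hK
    have hK0 : (0 : ℝ) < 4 * (K : ℝ) := by linarith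
    refine ⟨(4 * (K : ℝ)) ^ K, one_le_pow₀ (by linarith), fun x hx => ?_⟩
    have hx0 : (0 : ℝ) ≤ x := by linarith
    have h := Real.log_le_rpow_div (x := x) (ε := 1 / (4 * (K : ℝ))) hx0 (by positivity)
    have h2 : x ^ (1 / (4 * (K : ℝ))) / (1 / (4 * (K : ℝ))) = 4 * (K : ℝ) * x ^ (1 / (4 * (K : ℝ))) := by
      field_simp
    rw [h2] at h
    have h3 : (x ^ (1 / (4 * (K : ℝ)))) ^ K = x ^ (1 / 4 : ℝ) := by
      rw [← Real.rpow_natCast, ← Real.rpow_mul hx0]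
      congr 1
      field_simp
    calc Real.log x ^ K ≤ (4 * (K : ℝ) * x ^ (1 / (4 * (K : ℝ)))) ^ K :=
          pow_le_pow_left₀ (Real.log_nonneg hx) h K
      _ = (4 * (K : ℝ)) ^ K * x ^ (1 / 4 : ℝ) := by rw [mul_pow, h3]

end MPb51559.BG.A
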