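import Pool.Agent.Work.MP_b51559_nt.BG.A.StmtsP

/-!
# Bounded gaps, part A, item P10: sharp sums
-/

namespace MPb51559.BG.A

open MeasureTheory Complex

theorem P10_log (x : ℝ) (hx : 3 ≤ x) : 1 ≤ Real.log x := by
  rw [Real.le_log_iff_exp_le (by linarith)]
  have := Real.exp_one_lt_d9
  linarith

/-- the final estimate, real numbers -/
theorem P10_real (K : ℕ) (x L Q C1 C2 S : ℝ) (hx : 0 < x) (hL : 1 ≤ L) (hQ : 1 ≤ Q)
    (hC1 : 1 ≤ C1) (hC2 : 1 ≤ C2) (hLK : L ^ K ≤ C2 * x)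
    (h : x / L ^ K * S ≤ C1 * Q * (2 * x) ^ 2 + C1 * Q * x ^ 2 +
      x / L ^ K * (x / L ^ K + 1) * (2 * L) ^ (2 * K + 1)) :
    S ≤ (5 * C1 + 2 ^ (2 * K + 1) * (1 + C2)) * Q * x * L ^ (K + 1) := by
  have hL0 : 0 < L := by linarith
  have hLK0 : 0 < L ^ K := pow_pos hL0 K
  have hh : 0 < x / L ^ K := div_pos hx hLK0
  have hT : (0 : ℝ) < 2 ^ (2 * K + 1) := by positivity
  have hP : 0 < L ^ (K + 1) := pow_pos hL0 _
  have h1 : S ≤ 5 * C1 * Q * x * L ^ K + (x / L ^ K + 1) * (2 * L) ^ (2 * K + 1) := by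
    have h2 : x / L ^ K * S ≤ x / L ^ K *
        (5 * C1 * Q * x * L ^ K + (x / L ^ K + 1) * (2 * L) ^ (2 * K + 1)) := by
      refine h.trans (le_of_eq ?_)
      have h3 : x / L ^ K * (5 * C1 * Q * x * L ^ K) = 5 * C1 * Q * x ^ 2 := by
        field_simp
      rw [mul_add (x / L ^ K) (5 * C1 * Q * x * L ^ K), h3]
      ring
    exact le_of_mul_le_mul_left h2 hh
  have h4 : (x / L ^ K + 1) * (2 * L) ^ (2 * K + 1) =
      2 ^ (2 * K + 1) * (x * L ^ (K + 1)) + 2 ^ (2 * K + 1) * (L ^ (K + 1) * L ^ K) := by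
    have h5 : (2 * L) ^ (2 * K + 1) = 2 ^ (2 * K + 1) * (L ^ (K + 1) * L ^ K) := by
      rw [mul_pow, ← pow_add]
      congr 2
      ring
    rw [h5]
    field_simp
  have h6 : 5 * C1 * Q * x * L ^ K ≤ 5 * C1 * Q * x * L ^ (K + 1) := by
    refine mul_le_mul_of_nonneg_left (pow_le_pow_right₀ hL (Nat.le_succ K)) (by positivity)
  have h7 : 2 ^ (2 * K + 1) * (x * L ^ (K + 1)) ≤ 2 ^ (2 * K + 1) * (Q * (x * L ^ (K + 1))) := by
    refine mul_le_mul_of_nonneg_left ?_ hT.le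
    exact le_mul_of_one_le_left (by positivity) hQ
  have h8 : L ^ (K + 1) * L ^ K ≤ Q * (L ^ (K + 1) * (C2 * x)) := by
    calc L ^ (K + 1) * L ^ K ≤ L ^ (K + 1) * (C2 * x) := mul_le_mul_of_nonneg_left hLK hP.le
      _ ≤ Q * (L ^ (K + 1) * (C2 * x)) := le_mul_of_one_le_left (by positivity) hQ
  have h9 : 2 ^ (2 * K + 1) * (L ^ (K + 1) * L ^ K) ≤
      2 ^ (2 * K + 1) * (Q * (L ^ (K + 1) * (C2 * x))) := mul_le_mul_of_nonneg_left h8 hT.le
  calc S ≤ 5 * C1 * Q * x * L ^ K + (x / L ^ K + 1) * (2 * L) ^ (2 * K + 1) := h1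
    _ ≤ 5 * C1 * Q * x * L ^ (K + 1) + (2 ^ (2 * K + 1) * (Q * (x * L ^ (K + 1))) +
        2 ^ (2 * K + 1) * (Q * (L ^ (K + 1) * (C2 * x)))) := by rw [h4]; linarith
    _ = (5 * C1 + 2 ^ (2 * K + 1) * (1 + C2)) * Q * x * L ^ (K + 1) := by ring

theorem prf_P10 (h1 : StP06) (h2 : StP07) (h3 : StP08) (h4 : StP09) : StP10 := by
  intro η hη K
  obtain ⟨C1, hC1, h7⟩ := h2 η hη (2 * K)
  obtain ⟨C2, hC2, h9⟩ := h4 K
  have hT : (0 : ℝ) < 2 ^ (2 * K + 1) := by positivity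
  refine ⟨5 * C1 + 2 ^ (2 * K + 1) * (1 + C2), ?_, ?_⟩
  · have : 0 ≤ 2 ^ (2 * K + 1) * (1 + C2) := by positivity
    linarith
  intro q _ χ hχ x hx
  have hx0 : 0 < x := by linarith
  have hL := P10_log x hx
  set L := Real.log x with hLdef
  have hL0 : 0 < L := by linarith
  have hLK1 : 1 ≤ L ^ K := one_le_pow₀ hL
  have hLK0 : 0 < L ^ K := by linarith
  have hh0 : 0 < x / L ^ K := div_pos hx0 hLK0
  have hhx : x / L ^ K ≤ x := div_le_self hx0.le hLK1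
  have hq1 : (1 : ℝ) ≤ (q : ℝ) := by
    have : 1 ≤ q := NeZero.one_le
    exact_mod_cast this
  have hQ : 1 ≤ (q : ℝ) ^ η := Real.one_le_rpow hq1 hη.le
  have hM : ∀ n : ℕ, 1 ≤ n → (n : ℝ) ≤ x + x / L ^ K → ‖cdk χ (2 * K) n‖ ≤ (2 * L) ^ (2 * K + 1) := by
    intro n hn hnx
    have hn1 : (1 : ℝ) ≤ (n : ℝ) := by exact_mod_cast hn
    have h5 : Real.log n ≤ 2 * L := by
      have h6 : Real.log n ≤ Real.log (2 * x) := Real.log_le_log (by linarith) (by linarith)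
      rw [Real.log_mul (by norm_num) hx0.ne'] at h6
      have h8 : Real.log 2 ≤ 1 := by
        have := Real.log_two_lt_d9
        linarith
      linarith
    exact ((h1 q χ (2 * K)).1 n).trans (pow_le_pow_left₀ (Real.log_nonneg hn1) h5 _)
  have h8 := h3 (cdk χ (2 * K)) x (x / L ^ K) ((2 * L) ^ (2 * K + 1)) hx0 hh0 (by positivity) hM
  have ha := h7 q χ hχ (x + x / L ^ K) (by linarith)
  have hb := h7 q χ hχ x hx
  have hc : C1 * (q : ℝ) ^ η * (x + x / L ^ K) ^ 2 ≤ C1 * (q : ℝ) ^ η * (2 * x) ^ 2 := by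
    refine mul_le_mul_of_nonneg_left ?_ (by positivity)
    exact pow_le_pow_left₀ (by positivity) (by linarith) 2
  have hLK : L ^ K ≤ C2 * x := by
    refine (h9 x (by linarith)).trans (mul_le_mul_of_nonneg_left ?_ (by linarith))
    calc x ^ (1 / 4 : ℝ) ≤ x ^ (1 : ℝ) :=
          Real.rpow_le_rpow_of_exponent_le (by linarith) (by norm_num)
      _ = x := Real.rpow_one x
  refine P10_real K x L ((q : ℝ) ^ η) C1 C2 _ hx0 hL hQ hC1 hC2 hLK ?_
  linarith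

end MPb51559.BG.A
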