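import Pool.Agent.Work.MP_b51559_nt.BG.A.StmtsP

/-!
# Part A, item P12: the trivial bound
-/

namespace MPb51559.BG.A

theorem prf_P12 : StP12 := by
  intro q _ χ x hx
  have hx0 : (0 : ℝ) ≤ x := by linarith
  have hlog : 0 ≤ Real.log x := Real.log_nonneg hx
  unfold psi
  refine (norm_sum_le _ _).trans ?_
  have h1 : ∀ n ∈ Finset.Icc 1 ⌊x⌋₊,
      ‖χ (n : ZMod q) * (ArithmeticFunction.vonMangoldt n : ℂ)‖ ≤ Real.log x := by
    intro n hn
    rw [Finset.mem_Icc] at hn
    have hn0 : 0 < n := hn.1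
    have hnx : (n : ℝ) ≤ x := (Nat.le_floor_iff hx0).1 hn.2
    rw [norm_mul, Complex.norm_real, Real.norm_of_nonneg ArithmeticFunction.vonMangoldt_nonneg]
    have h2 : ‖χ (n : ZMod q)‖ ≤ 1 := DirichletCharacter.norm_le_one χ _
    have h3 : ArithmeticFunction.vonMangoldt n ≤ Real.log n :=
      ArithmeticFunction.vonMangoldt_le_log
    have h4 : Real.log n ≤ Real.log x := Real.log_le_log (by exact_mod_cast hn0) hnx
    have h5 : (0 : ℝ) ≤ ArithmeticFunction.vonMangoldt n := ArithmeticFunction.vonMangoldt_nonneg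
    calc ‖χ (n : ZMod q)‖ * ArithmeticFunction.vonMangoldt n
        ≤ 1 * ArithmeticFunction.vonMangoldt n := mul_le_mul_of_nonneg_right h2 h5
      _ = ArithmeticFunction.vonMangoldt n := one_mul _
      _ ≤ Real.log x := h3.trans h4
  refine (Finset.sum_le_sum h1).trans ?_
  rw [Finset.sum_const, Nat.card_Icc, Nat.add_sub_cancel, nsmul_eq_mul]
  exact mul_le_mul_of_nonneg_right (Nat.floor_le hx0) hlog

end MPb51559.BG.A
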