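import Pool.Agent.Work.MP_b51559_nt.BG.A.StmtsP

set_option autoImplicit false

/-!
# P13: the bound for psi, `x ≥ 9`
-/

namespace MPb51559.BG.A

open scoped BigOperators ArithmeticFunction

lemma P13_split (N M : ℕ) (h : M ≤ N) (f : ℕ → ℂ) :
    ∑ n ∈ Finset.Icc 1 N, f n = ∑ n ∈ Finset.Icc 1 M, f n + ∑ n ∈ Finset.Ioc M N, f n := by
  have h1 : Finset.Icc 1 N = Finset.Icc 1 M ∪ Finset.Ioc M N := by
    ext n
    simp only [Finset.mem_Icc, Finset.mem_union, Finset.mem_Ioc]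
    omega
  have h2 : Disjoint (Finset.Icc 1 M) (Finset.Ioc M N) := by
    rw [Finset.disjoint_left]
    intro n hn hn'
    rw [Finset.mem_Icc] at hn
    rw [Finset.mem_Ioc] at hn'
    omega
  rw [h1, Finset.sum_union h2]

theorem prf_P13 (h1 : StP09) (h2 : StP10) (h3 : StP11) (h4 : StP12) : StP13 := by
  intro η hη m
  obtain ⟨C1, hC1, hb⟩ := h2 η hη (m + 1)
  obtain ⟨C2, hC2, hl⟩ := h1 (m + 1)
  refine ⟨2 * C1 * 4 ^ (m + 1) + C2, ?_, ?_⟩
  · have : (0 : ℝ) ≤ 2 * C1 * 4 ^ (m + 1) := by positivity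
    linarith
  intro q hq χ hχ x hx
  have hx0 : (0 : ℝ) < x := by linarith
  have hx1 : (1 : ℝ) ≤ x := by linarith
  set Y : ℝ := Real.log x with hL
  have hL1 : 1 ≤ Y := by
    rw [hL, Real.le_log_iff_exp_le hx0]
    have := Real.exp_one_lt_d9
    linarith
  have hL0 : 0 < Y := by linarith
  have hs0 : 0 ≤ Real.sqrt x := Real.sqrt_nonneg x
  have hss : Real.sqrt x * Real.sqrt x = x := Real.mul_self_sqrt hx0.le
  have hs3 : 3 ≤ Real.sqrt x := by
    rw [show (3 : ℝ) = Real.sqrt (3 ^ 2) by rw [Real.sqrt_sq (by norm_num)]]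
    exact Real.sqrt_le_sqrt (by linarith)
  have hsx : Real.sqrt x ≤ x := by nlinarith
  set M : ℕ := ⌊Real.sqrt x⌋₊ with hM
  set N : ℕ := ⌊x⌋₊ with hN
  have hM3 : 3 ≤ M := Nat.le_floor (by exact_mod_cast hs3)
  have hMN : M ≤ N := Nat.floor_le_floor hsx
  have hNx : (N : ℝ) ≤ x := Nat.floor_le hx0.le
  have hq1 : (1 : ℝ) ≤ q := by exact_mod_cast Nat.one_le_iff_ne_zero.2 (NeZero.ne q)
  have hqη : (1 : ℝ) ≤ (q : ℝ) ^ η := Real.one_le_rpow hq1 hη.le
  have hqη0 : (0 : ℝ) < (q : ℝ) ^ η := by linarith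
  set g : ℕ → ℝ := fun n => (Real.log n ^ (2 * (m + 1)))⁻¹ with hg
  have hlogpos : ∀ n : ℕ, M < n → 0 < Real.log n := fun n hn =>
    Real.log_pos (by exact_mod_cast (show 1 < n by omega))
  -- decomposition
  have hdec : psi x χ = psi (Real.sqrt x) χ + ∑ n ∈ Finset.Ioc M N, cdk χ (2 * (m + 1)) n * ((g n : ℝ) : ℂ) := by
    rw [psi, psi, P13_split N M hMN]
    congr 1
    refine Finset.sum_congr rfl fun n hn => ?_
    rw [Finset.mem_Ioc] at hn
    have h5 : ((Real.log n : ℝ) : ℂ) ≠ 0 := by exact_mod_cast (hlogpos n hn.1).ne'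
    have h6 : ((g n : ℝ) : ℂ) = (((Real.log n : ℝ) : ℂ) ^ (2 * (m + 1)))⁻¹ := by
      rw [hg]
      simp only [Complex.ofReal_inv, Complex.ofReal_pow]
    rw [cdk, h6, mul_assoc (χ (n : ZMod q) * _), mul_inv_cancel₀ (pow_ne_zero _ h5), mul_one]
  set B : ℝ := C1 * (q : ℝ) ^ η * x * Y ^ (m + 1 + 1) with hB
  have hB0 : 0 ≤ B := by positivity
  have hbd : ∀ n, M ≤ n → n ≤ N → ‖∑ k ∈ Finset.Icc 1 n, cdk χ (2 * (m + 1)) k‖ ≤ B := by
    intro n hn1 hn2
    have hn3 : (3 : ℝ) ≤ n := by exact_mod_cast hM3.trans hn1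
    have hnx : (n : ℝ) ≤ x := le_trans (by exact_mod_cast hn2) hNx
    have h5 := hb q χ hχ n hn3
    rw [ssum, Nat.floor_natCast] at h5
    refine h5.trans ?_
    have h6 : 0 ≤ Real.log n := Real.log_nonneg (by linarith)
    have h7 : Real.log n ≤ Y := Real.log_le_log (by linarith) hnx
    rw [hB]
    exact mul_le_mul (mul_le_mul_of_nonneg_left hnx (by positivity)) (pow_le_pow_left₀ h6 h7 _) (by positivity) (by positivity)
  have hg0 : ∀ n, M < n → 0 < g n := fun n hn => inv_pos.2 (pow_pos (hlogpos n hn) _)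
  have hanti : ∀ n, M < n → n < N → g (n + 1) ≤ g n := by
    intro n hn _
    have h5 := hlogpos n hn
    have h6 : Real.log n ≤ Real.log ((n + 1 : ℕ) : ℝ) := Real.log_le_log (by exact_mod_cast (show 0 < n by omega)) (by push_cast; linarith)
    exact inv_anti₀ (pow_pos h5 _) (pow_le_pow_left₀ h5.le h6 _)
  have h8 := h3 (cdk χ (2 * (m + 1))) g M N B hB0 hbd (fun n hn _ => (hg0 n hn).le) hanti (hg0 (M + 1) (Nat.lt_succ_self M)).le
  -- the value of `g`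
  have hgM : g (M + 1) ≤ 4 ^ (m + 1) / Y ^ (2 * (m + 1)) := by
    have h5 : Real.sqrt x ≤ ((M + 1 : ℕ) : ℝ) := by
      push_cast
      exact (Nat.lt_floor_add_one (Real.sqrt x)).le
    have h6 : Y / 2 ≤ Real.log ((M + 1 : ℕ) : ℝ) := by
      have h7 : Real.log (Real.sqrt x) = Y / 2 := by rw [Real.log_sqrt hx0.le]
      rw [← h7]
      exact Real.log_le_log (by linarith) h5
    have h7 : (Y / 2) ^ (2 * (m + 1)) = Y ^ (2 * (m + 1)) / 4 ^ (m + 1) := by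
      rw [div_pow, pow_mul (2 : ℝ) 2 (m + 1)]
      norm_num
    calc g (M + 1) ≤ ((Y / 2) ^ (2 * (m + 1)))⁻¹ := inv_anti₀ (by positivity) (pow_le_pow_left₀ (by positivity) h6 _)
      _ = 4 ^ (m + 1) / Y ^ (2 * (m + 1)) := by rw [h7, inv_div]
  have h9 : ‖∑ n ∈ Finset.Ioc M N, cdk χ (2 * (m + 1)) n * ((g n : ℝ) : ℂ)‖ ≤ 2 * C1 * 4 ^ (m + 1) * (q : ℝ) ^ η * (x / Y ^ m) := by
    calc ‖∑ n ∈ Finset.Ioc M N, cdk χ (2 * (m + 1)) n * ((g n : ℝ) : ℂ)‖ ≤ 2 * B * g (M + 1) := h8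
      _ ≤ 2 * B * (4 ^ (m + 1) / Y ^ (2 * (m + 1))) := mul_le_mul_of_nonneg_left hgM (by positivity)
      _ = 2 * C1 * 4 ^ (m + 1) * (q : ℝ) ^ η * (x / Y ^ m) := by
        rw [hB, show 2 * (m + 1) = (m + 1 + 1) + m by ring, pow_add Y (m + 1 + 1) m]
        field_simp
  have h10 : ‖psi (Real.sqrt x) χ‖ ≤ C2 * (q : ℝ) ^ η * (x / Y ^ m) := by
    have h5 : ‖psi (Real.sqrt x) χ‖ ≤ Real.sqrt x * Y := by
      refine (h4 q χ (Real.sqrt x) (by linarith)).trans ?_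
      exact mul_le_mul_of_nonneg_left (Real.log_le_log (by linarith) hsx) hs0
    have h6 : Y ^ (m + 1) ≤ C2 * Real.sqrt x := by
      refine (hl x hx1).trans (mul_le_mul_of_nonneg_left ?_ (by linarith))
      rw [Real.sqrt_eq_rpow]
      exact Real.rpow_le_rpow_of_exponent_le hx1 (by norm_num)
    have h7 : Real.sqrt x * Y ≤ C2 * (x / Y ^ m) := by
      rw [← mul_div_assoc, le_div_iff₀ (by positivity)]
      calc Real.sqrt x * Y * Y ^ m = Real.sqrt x * Y ^ (m + 1) := by ring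
        _ ≤ Real.sqrt x * (C2 * Real.sqrt x) := mul_le_mul_of_nonneg_left h6 hs0
        _ = C2 * (Real.sqrt x * Real.sqrt x) := by ring
        _ = C2 * x := by rw [hss]
    refine h5.trans (h7.trans ?_)
    have h11 : 0 ≤ C2 * (x / Y ^ m) := by positivity
    calc C2 * (x / Y ^ m) = 1 * (C2 * (x / Y ^ m)) := (one_mul _).symm
      _ ≤ (q : ℝ) ^ η * (C2 * (x / Y ^ m)) := mul_le_mul_of_nonneg_right hqη h11
      _ = _ := by ring
  rw [hdec]
  refine (norm_add_le _ _).trans ((add_le_add h10 h9).trans ?_)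
  apply le_of_eq
  ring

end MPb51559.BG.A
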