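import Pool.Agent.Work.MP_b51559_nt.BG.A.StmtsP

set_option autoImplicit false

namespace MPb51559.BG.A

theorem prf_P14 (h1 : StP12) (h2 : StP13) : StP14 := by
  intro η hη m
  obtain ⟨C, hC1, hC⟩ := h2 η hη m
  refine ⟨max C (3 ^ (m + 1)), le_max_of_le_left hC1, fun q _ χ hχ x hx => ?_⟩
  have hq : (1 : ℝ) ≤ (q : ℝ) := by exact_mod_cast Nat.one_le_iff_ne_zero.2 (NeZero.ne q)
  have hqη : (1 : ℝ) ≤ (q : ℝ) ^ η := Real.one_le_rpow hq hη.le
  have hl0 : 0 < Real.log x := Real.log_pos (by linarith)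
  have hx0 : 0 < x := by linarith
  have hy : 0 ≤ x / Real.log x ^ m := by positivity
  rcases le_or_gt 9 x with h9 | h9
  · refine (hC q χ hχ x h9).trans ?_
    gcongr
    exact le_max_left _ _
  · have hl3 : Real.log x ≤ 3 := by
      rw [Real.log_le_iff_le_exp hx0]
      have h3 : (9 : ℝ) ≤ Real.exp 3 := by
        have h4 : Real.exp 3 = Real.exp 1 ^ 3 := by
          rw [← Real.exp_nat_mul]
          norm_num
        have h5 : (2.5 : ℝ) ≤ Real.exp 1 := by
          have := Real.exp_one_gt_d9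
          linarith
        rw [h4]
        have h6 : (2.5 : ℝ) ^ 3 ≤ Real.exp 1 ^ 3 := pow_le_pow_left₀ (by norm_num) h5 3
        norm_num at h6 ⊢
        linarith
      linarith
    refine (h1 q χ x (by linarith)).trans ?_
    have h3 : x * Real.log x = x / Real.log x ^ m * Real.log x ^ (m + 1) := by
      rw [pow_succ, div_mul_eq_mul_div, eq_div_iff (pow_ne_zero _ hl0.ne')]
      ring
    rw [h3]
    calc x / Real.log x ^ m * Real.log x ^ (m + 1) ≤ x / Real.log x ^ m * 3 ^ (m + 1) := by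
          gcongr
      _ = 3 ^ (m + 1) * 1 * (x / Real.log x ^ m) := by ring
      _ ≤ max C (3 ^ (m + 1)) * (q : ℝ) ^ η * (x / Real.log x ^ m) := by
          gcongr
          exact le_max_right _ _

end MPb51559.BG.A
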