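import Pool.Agent.Work.MP_b51559_nt.BG.A.StmtsP

/-!
# Bounded gaps, part A, item P15: the Siegel-Walfisz theorem from the bound for `psi`
-/

set_option autoImplicit false

namespace MPb51559.BG.A

theorem prf_P15 (h1 : StPS) : StP15 := by
  intro A B hA hB
  obtain ⟨C, hC, h⟩ := h1 (1 / A) (by positivity) (⌈B⌉₊ + 1)
  refine ⟨C, hC, ?_⟩
  intro q _ χ hχ x hx hq
  have hq1 : (1 : ℝ) ≤ q := by
    exact_mod_cast NeZero.one_le (n := q)
  have hL0 : 0 < Real.log x := Real.log_pos (by linarith)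
  have hL1 : 1 ≤ Real.log x := by
    by_contra hcon
    rw [not_le] at hcon
    have : Real.log x ^ A < 1 := Real.rpow_lt_one hL0.le hcon hA
    linarith
  have hqA : (q : ℝ) ^ (1 / A) ≤ Real.log x := by
    calc (q : ℝ) ^ (1 / A) ≤ (Real.log x ^ A) ^ (1 / A) :=
          Real.rpow_le_rpow (by linarith) hq (by positivity)
      _ = Real.log x := by
          rw [← Real.rpow_mul hL0.le, mul_one_div_cancel hA.ne', Real.rpow_one]
  have hx0 : 0 < x := by linarith
  have hpow : Real.log x ^ B ≤ Real.log x ^ ⌈B⌉₊ := by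
    rw [← Real.rpow_natCast]
    exact Real.rpow_le_rpow_of_exponent_le hL1 (Nat.le_ceil B)
  have hB0 : 0 < Real.log x ^ B := Real.rpow_pos_of_pos hL0 _
  have hm0 : 0 < Real.log x ^ ⌈B⌉₊ := pow_pos hL0 _
  calc ‖psi x χ‖ ≤ C * (q : ℝ) ^ (1 / A) * (x / Real.log x ^ (⌈B⌉₊ + 1)) := h q χ hχ x hx
    _ ≤ C * Real.log x * (x / Real.log x ^ (⌈B⌉₊ + 1)) := by gcongr
    _ = C * (x / Real.log x ^ ⌈B⌉₊) := by
        rw [pow_succ]
        field_simp
    _ ≤ C * (x / Real.log x ^ B) := by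
        gcongr

end MPb51559.BG.A
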