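import Pool.Agent.Work.MP_b51559_nt.BG.A.P01
import Pool.Agent.Work.MP_b51559_nt.BG.A.P02
import Pool.Agent.Work.MP_b51559_nt.BG.A.P03
import Pool.Agent.Work.MP_b51559_nt.BG.A.P04
import Pool.Agent.Work.MP_b51559_nt.BG.A.P05
import Pool.Agent.Work.MP_b51559_nt.BG.A.P06
import Pool.Agent.Work.MP_b51559_nt.BG.A.P07
import Pool.Agent.Work.MP_b51559_nt.BG.A.P08
import Pool.Agent.Work.MP_b51559_nt.BG.A.P09
import Pool.Agent.Work.MP_b51559_nt.BG.A.P10
import Pool.Agent.Work.MP_b51559_nt.BG.A.P11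
import Pool.Agent.Work.MP_b51559_nt.BG.A.P12
import Pool.Agent.Work.MP_b51559_nt.BG.A.P13
import Pool.Agent.Work.MP_b51559_nt.BG.A.P14
import Pool.Agent.Work.MP_b51559_nt.BG.A.P15

namespace MPb51559.BG.A

/-- P, first result: from the derivatives of `L'/L` to `psi` -/
theorem allP_ps (h : StDK) : StPS :=
  have p03 : StP03 := prf_P03 prf_P01 prf_P02
  have p04 : StP04 := prf_P04 prf_P02 p03
  have p05 : StP05 := prf_P05 prf_P02 p04
  have p07 : StP07 := prf_P07 h p05 prf_P06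
  have p10 : StP10 := prf_P10 prf_P06 p07 prf_P08 prf_P09
  have p13 : StP13 := prf_P13 prf_P09 p10 prf_P11 prf_P12
  prf_P14 prf_P12 p13

/-- P, second result: Siegel-Walfisz -/
theorem allP_sw (h : StPS) : StSW := prf_P15 h

end MPb51559.BG.A
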