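import Pool.Agent.Work.MP_b51559_nt.BG.A.StmtsS

/-!
# Bounded gaps, part A, item Sg2: the value at `2`
-/

namespace MPb51559.BG.A

open scoped BigOperators

namespace ISSg2

theorem term_norm_le {q : ℕ} (χ : DirichletCharacter ℂ q) (n : ℕ) :
    ‖LSeries.term (fun n : ℕ => χ (n : ZMod q)) 2 n‖ ≤ 1 / (n : ℝ) ^ 2 := by
  rw [LSeries.norm_term_eq]
  split_ifs with h
  · positivity
  · have h2 : (2 : ℂ).re = ((2 : ℕ) : ℝ) := by norm_num
    rw [h2, Real.rpow_natCast]
    exact div_le_div_of_nonneg_right (DirichletCharacter.norm_le_one χ _) (by positivity)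

end ISSg2

open ISSg2 in
theorem pr_Sg2 : Sg2 := by
  intro q _ χ
  have h2re : 1 < (2 : ℂ).re := by norm_num
  rw [DirichletCharacter.LFunction_eq_LSeries χ h2re, LSeries]
  set a : ℕ → ℂ := fun n => LSeries.term (fun n : ℕ => χ (n : ZMod q)) 2 n with ha
  have hz : HasSum (fun n : ℕ => (1 : ℝ) / (n : ℝ) ^ 2) (Real.pi ^ 2 / 6) := hasSum_zeta_two
  have hsn : Summable fun n => ‖a n‖ :=
    Summable.of_nonneg_of_le (fun n => norm_nonneg _) (term_norm_le χ) hz.summable
  have hs : Summable a := hsn.of_norm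
  have h1 : a 1 = 1 := by
    simp [ha, LSeries.term]
  have hdec : ∑' n, a n = 1 + ∑' n, (if n = 1 then 0 else a n) := by
    rw [hs.tsum_eq_add_tsum_ite 1, h1]
  have hle : ∀ n : ℕ, ‖(if n = 1 then 0 else a n)‖ ≤ if n = 1 then 0 else 1 / (n : ℝ) ^ 2 := by
    intro n
    split_ifs with h
    · simp
    · exact term_norm_le χ n
  have hz2 : ∑' n : ℕ, (if n = 1 then 0 else 1 / (n : ℝ) ^ 2) = Real.pi ^ 2 / 6 - 1 := by
    have := hz.summable.tsum_eq_add_tsum_ite 1
    rw [hz.tsum_eq] at this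
    simp only [Nat.cast_one, one_pow, div_one] at this
    linarith
  have hzs : Summable fun n : ℕ => (if n = 1 then (0 : ℝ) else 1 / (n : ℝ) ^ 2) := by
    refine Summable.of_nonneg_of_le (fun n => ?_) (fun n => ?_) hz.summable
    · split_ifs <;> positivity
    · split_ifs
      · positivity
      · exact le_rfl
  have hrest : ‖∑' n, (if n = 1 then 0 else a n)‖ ≤ Real.pi ^ 2 / 6 - 1 := by
    rw [← hz2]
    exact tsum_of_norm_bounded hzs.hasSum hle
  have hre := Complex.abs_re_le_norm (∑' n, (if n = 1 then 0 else a n))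
  have hre2 := (abs_le.1 (hre.trans hrest)).1
  show 1 / 3 ≤ (∑' n, a n).re
  rw [hdec, Complex.add_re, Complex.one_re]
  have hpi : Real.pi < 3.15 := Real.pi_lt_d2
  have hpi0 := Real.pi_pos
  nlinarith

end MPb51559.BG.A
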