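import Pool.Agent.Work.MP_b51559_nt.BG.A.StmtsS

set_option autoImplicit false

/-!
# Bounded gaps, part A, item SgBd: upper bounds for L functions
-/

open MeasureTheory

namespace MPb51559.BG.A

namespace ISSgBd

/-- the norm of the kernel -/
theorem norm_ker (s : ℂ) {t : ℝ} (ht : 0 < t) :
    ‖(t : ℂ) ^ (-(s + 1))‖ = t ^ (-(s.re + 1)) := by
  rw [Complex.norm_cpow_eq_rpow_re_of_pos ht]
  simp

end ISSgBd

open ISSgBd

theorem pr_SgBd (h1 : SgX) (h2 : SgMel) : SgBd := by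
  intro q _ χ hχ
  have hq : 0 < q := Nat.pos_of_ne_zero (NeZero.ne q)
  have hq1 : (1 : ℝ) ≤ q := by exact_mod_cast hq
  have hq0 : (0 : ℝ) < q := by linarith
  refine ⟨fun s hs => ?_, ?_⟩
  · rw [h2 q χ hχ s hs, norm_mul]
    have ha : -(s.re + 1) < -1 := by linarith
    have hi : IntegrableOn (fun t : ℝ => (q : ℝ) * t ^ (-(s.re + 1))) (Set.Ioi 1) :=
      (integrableOn_Ioi_rpow_of_lt ha one_pos).const_mul _
    have hn : ‖∫ t in Set.Ioi (1 : ℝ), xs χ t * (t : ℂ) ^ (-(s + 1))‖ ≤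
        ∫ t in Set.Ioi (1 : ℝ), (q : ℝ) * t ^ (-(s.re + 1)) := by
      refine norm_integral_le_of_norm_le hi ?_
      refine (ae_restrict_iff' measurableSet_Ioi).2 (Filter.Eventually.of_forall fun t ht => ?_)
      have ht0 : (0 : ℝ) < t := lt_trans one_pos ht
      rw [norm_mul, norm_ker s ht0]
      exact mul_le_mul_of_nonneg_right (h1 q χ hχ t ht0.le).1 (Real.rpow_nonneg ht0.le _)
    rw [integral_const_mul, integral_Ioi_rpow_of_lt ha one_pos, Real.one_rpow] at hn
    have e : (q : ℝ) * (-1 / (-(s.re + 1) + 1)) = q / s.re := by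
      have : -(s.re + 1) + 1 = -s.re := by ring
      rw [this]
      field_simp
    rw [e] at hn
    calc ‖s‖ * ‖∫ t in Set.Ioi (1 : ℝ), xs χ t * (t : ℂ) ^ (-(s + 1))‖ ≤ ‖s‖ * (q / s.re) :=
          mul_le_mul_of_nonneg_left hn (norm_nonneg _)
      _ = q * ‖s‖ / s.re := by ring
  · have h := h2 q χ hχ 1 (by simp)
    rw [h, one_mul]
    let g : ℝ → ℝ := fun t => if t ≤ q then t⁻¹ else (q : ℝ) * t ^ (-2 : ℝ)
    have g1 : ∀ t ∈ Set.Ioc (1 : ℝ) q, g t = t⁻¹ := fun t ht => if_pos ht.2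
    have g2 : ∀ t ∈ Set.Ioi (q : ℝ), g t = (q : ℝ) * t ^ (-2 : ℝ) := fun t ht =>
      if_neg (not_le.2 ht)
    have i1' : IntegrableOn (fun t : ℝ => t⁻¹) (Set.Ioc (1 : ℝ) q) := by
      have hc : ContinuousOn (fun t : ℝ => t⁻¹) (Set.Icc (1 : ℝ) q) :=
        continuousOn_inv₀.mono fun t ht => by
          have : (0 : ℝ) < t := by linarith [ht.1]
          exact this.ne'
      exact (hc.integrableOn_Icc).mono_set Set.Ioc_subset_Icc_self
    have i1 : IntegrableOn g (Set.Ioc (1 : ℝ) q) :=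
      i1'.congr_fun (fun t ht => (g1 t ht).symm) measurableSet_Ioc
    have i2' : IntegrableOn (fun t : ℝ => (q : ℝ) * t ^ (-2 : ℝ)) (Set.Ioi (q : ℝ)) :=
      (integrableOn_Ioi_rpow_of_lt (by norm_num) hq0).const_mul _
    have i2 : IntegrableOn g (Set.Ioi (q : ℝ)) :=
      i2'.congr_fun (fun t ht => (g2 t ht).symm) measurableSet_Ioi
    have hU : Set.Ioc (1 : ℝ) q ∪ Set.Ioi (q : ℝ) = Set.Ioi 1 := Set.Ioc_union_Ioi_eq_Ioi hq1
    have hg : IntegrableOn g (Set.Ioi (1 : ℝ)) := by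
      rw [← hU]
      exact i1.union i2
    have hI : ∫ t in Set.Ioi (1 : ℝ), g t = 1 + Real.log q := by
      rw [← hU, setIntegral_union (Set.Ioc_disjoint_Ioi le_rfl) measurableSet_Ioi i1 i2,
        setIntegral_congr_fun measurableSet_Ioc g1, setIntegral_congr_fun measurableSet_Ioi g2,
        ← intervalIntegral.integral_of_le hq1, integral_inv_of_pos one_pos hq0, div_one,
        integral_const_mul, integral_Ioi_rpow_of_lt (by norm_num) hq0]
      have e : (q : ℝ) * (-(q : ℝ) ^ ((-2 : ℝ) + 1) / ((-2 : ℝ) + 1)) = 1 := by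
        have e1 : (-2 : ℝ) + 1 = -1 := by norm_num
        rw [e1, Real.rpow_neg_one]
        field_simp
      rw [e, add_comm]
    rw [← hI]
    refine norm_integral_le_of_norm_le hg ?_
    refine (ae_restrict_iff' measurableSet_Ioi).2 (Filter.Eventually.of_forall fun t ht => ?_)
    have ht0 : (0 : ℝ) < t := lt_trans one_pos ht
    rw [norm_mul, norm_ker 1 ht0]
    have e2 : -((1 : ℂ).re + 1) = (-2 : ℝ) := by
      rw [Complex.one_re]
      norm_num
    rw [e2]
    have hb := h1 q χ hχ t ht0.le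
    have hp : 0 ≤ t ^ (-2 : ℝ) := Real.rpow_nonneg ht0.le _
    rcases le_or_gt t q with htq | htq
    · have e3 : g t = t⁻¹ := if_pos htq
      rw [e3]
      have e4 : t⁻¹ = t * t ^ (-2 : ℝ) := by
        have e5 : t ^ (-2 : ℝ) = (t ^ 2)⁻¹ := by
          rw [Real.rpow_neg ht0.le]
          norm_cast
        rw [e5]
        field_simp
      rw [e4]
      exact mul_le_mul_of_nonneg_right hb.2 hp
    · have e3 : g t = (q : ℝ) * t ^ (-2 : ℝ) := if_neg (not_le.2 htq)
      rw [e3]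
      exact mul_le_mul_of_nonneg_right hb.1 hp

end MPb51559.BG.A
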