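import Pool.Agent.Work.MP_b51559_nt.BG.A.StmtsS

set_option autoImplicit false

/-!
# Bounded gaps, part A, item SgCof: the Taylor coefficients of `ζ(s) P(s) - P(1)/(s-1)` at `2`
-/

namespace MPb51559.BG.A

open scoped BigOperators ArithmeticFunction ComplexOrder

namespace ISSgCof

theorem inv_iter (n : ℕ) : iteratedDeriv n (fun s : ℂ => (1 * s - 1)⁻¹) 2 =
    (-1) ^ n * (n.factorial : ℂ) := by
  rw [iteratedDeriv_eq_iterate, iter_deriv_inv_linear_sub]
  have h : (1 * (2 : ℂ) - 1) = 1 := by norm_num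
  simp only [h, one_pow, one_zpow, mul_one]

theorem inv_cd (n : ℕ) : ContDiffAt ℂ n (fun s : ℂ => (1 * s - 1)⁻¹) 2 := by
  have h : (1 * (2 : ℂ) - 1) ≠ 0 := by norm_num
  exact ((contDiffAt_const.mul contDiffAt_id).sub contDiffAt_const).inv h

theorem coef {P G : ℂ → ℂ} (hG : Differentiable ℂ G)
    (hGe : ∀ s : ℂ, s ≠ 1 → G s = riemannZeta s * P s - P 1 / (s - 1)) (n : ℕ) :
    iteratedDeriv n (fun s : ℂ => riemannZeta s * P s) 2 =
      iteratedDeriv n G 2 + P 1 * ((-1) ^ n * (n.factorial : ℂ)) := by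
  have h1 : (fun s : ℂ => riemannZeta s * P s) =ᶠ[nhds 2]
      fun s => G s + P 1 * (1 * s - 1)⁻¹ := by
    have h2 : ∀ᶠ s : ℂ in nhds 2, s ≠ 1 := isOpen_ne.mem_nhds (by norm_num)
    filter_upwards [h2] with s hs
    rw [hGe s hs, one_mul, div_eq_mul_inv]
    ring
  rw [h1.iteratedDeriv_eq n, iteratedDeriv_fun_add hG.contDiff.contDiffAt
    (contDiffAt_const.mul (inv_cd n)),
    iteratedDeriv_const_mul (P 1) (f := fun s : ℂ => (1 * s - 1)⁻¹) (inv_cd n), inv_iter]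

theorem bsub {P G : ℂ → ℂ} (hG : Differentiable ℂ G)
    (hGe : ∀ s : ℂ, s ≠ 1 → G s = riemannZeta s * P s - P 1 / (s - 1)) {b : ℕ → ℂ}
    (hb : ∀ n : ℕ, b n = (-1) ^ n * iteratedDeriv n (fun s : ℂ => riemannZeta s * P s) 2 /
      (n.factorial : ℂ)) (n : ℕ) :
    b n - P 1 = (-1) ^ n * iteratedDeriv n G 2 / (n.factorial : ℂ) := by
  have h0 : (n.factorial : ℂ) ≠ 0 := by exact_mod_cast n.factorial_ne_zero
  have h1 : ((-1 : ℂ)) ^ n * (-1) ^ n = 1 := by
    rw [← mul_pow]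
    norm_num
  rw [hb n, coef hG hGe n]
  field_simp
  rw [mul_add, sub_eq_iff_eq_add]
  linear_combination (P 1 * (n.factorial : ℂ)) * h1

end ISSgCof

open ISSgCof in
/-- Taylor coefficients. -/
theorem pr_SgCof (h1 : SgG1) : SgCof := by
  obtain ⟨C, hC, h⟩ := h1
  refine ⟨C, hC, fun P M hP hM hPM b hb => ?_⟩
  obtain ⟨G, hG, hGe, hGs⟩ := h P M hP hM hPM
  refine ⟨fun n => ?_, fun s hs => ?_⟩
  · rw [bsub hG hGe hb n, norm_div, norm_mul, norm_pow, norm_neg, norm_one, one_pow, one_mul,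
      Complex.norm_natCast]
    have h2 := Complex.norm_iteratedDeriv_le_of_forall_mem_sphere_norm_le n
      (by norm_num : (0 : ℝ) < 3 / 2) (hG.diffContOnCl (s := Metric.ball (2 : ℂ) (3 / 2))) hGs
    have h3 : (0 : ℝ) < (n.factorial : ℝ) := by exact_mod_cast n.factorial_pos
    rw [div_le_iff₀ h3]
    refine h2.trans (le_of_eq ?_)
    have h4 : (2 / 3 : ℝ) ^ n = 1 / (3 / 2) ^ n := by
      rw [one_div, ← inv_pow]
      norm_num
    rw [h4]
    ring
  · rw [← hGe s hs]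
    have h2 := Complex.hasSum_taylorSeries_of_entire hG 2 s
    have h3 : (fun n : ℕ => (b n - P 1) * (2 - s) ^ n) =
        fun n => (n.factorial : ℂ)⁻¹ • (s - 2) ^ n • iteratedDeriv n G 2 := by
      funext n
      have h4 : (2 - s) ^ n = (-1) ^ n * (s - 2) ^ n := by
        rw [← mul_pow]
        congr 1
        ring
      have h5 : ((-1 : ℂ)) ^ n * (-1) ^ n = 1 := by
        rw [← mul_pow]
        norm_num
      rw [bsub hG hGe hb n, h4, smul_eq_mul, smul_eq_mul]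
      linear_combination (iteratedDeriv n G 2 * (n.factorial : ℂ)⁻¹ * (s - 2) ^ n) * h5
    rw [h3]
    exact h2

end MPb51559.BG.A
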