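import Pool.Agent.Work.MP_b51559_nt.BG.A.StmtsS

set_option autoImplicit false

/-!
# Bounded gaps, part A, item SgDich: the dichotomy in the proof of Siegel's theorem
-/

namespace MPb51559.BG.A

open scoped BigOperators ArithmeticFunction ComplexOrder

/-- SgDich -/
theorem pr_SgDich (hRe : SgRe) (hIvt : SgIvt) (hZn : SgZn) (hPr : SgPr) : SgDich := by
  intro η hη hex
  obtain ⟨δ, hδ, hz⟩ := hZn
  obtain ⟨e, he0, he1, he2, he3⟩ : ∃ e : ℝ, 0 < e ∧ e ≤ η ∧ e ≤ 1 / 8 ∧ e ≤ δ :=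
    ⟨min (min η (1 / 8)) δ, lt_min (lt_min hη (by norm_num)) hδ,
      (min_le_left _ _).trans (min_le_left _ _), (min_le_left _ _).trans (min_le_right _ _),
      min_le_right _ _⟩
  by_cases h : ∃ (q : ℕ) (_ : NeZero q) (χ : DirichletCharacter ℂ q) (β : ℝ), χ ≠ 1 ∧
      χ ^ 2 = 1 ∧ 1 - e < β ∧ β < 1 ∧ DirichletCharacter.LFunction χ (β : ℂ) = 0
  · obtain ⟨q, hq, χ, β, h1, h2, h3, h4, h5⟩ := h
    refine ⟨q, hq, χ, β, h1, h2, by linarith, by linarith, h4, ?_⟩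
    intro q₂ _ χ₂ _ _ _
    unfold PP
    rw [h5]
    simp
  · obtain ⟨q, hq, χ, h1, h2⟩ := hex
    refine ⟨q, hq, χ, 1 - e / 2, h1, h2, by linarith, by linarith, by linarith, ?_⟩
    intro q₂ hq₂ χ₂ h3 h4 h5
    have key : ∀ (q : ℕ) [NeZero q] (χ : DirichletCharacter ℂ q), χ ≠ 1 → χ ^ 2 = 1 →
        ∃ r : ℝ, 0 < r ∧ DirichletCharacter.LFunction χ ((1 - e / 2 : ℝ) : ℂ) = (r : ℂ) := by
      intro q _ χ h6 h7
      have h8 := hIvt q χ h6 h7 (1 - e / 2) (by linarith) fun t ht1 ht2 h9 =>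
        h ⟨q, inferInstance, χ, t, h6, h7, by linarith, ht2, h9⟩
      have h9 := hRe q χ h6 h7 (1 - e / 2) (by linarith)
      exact ⟨_, h8, Complex.ext (by simp) (by simpa using h9)⟩
    obtain ⟨r1, hr1, e1⟩ := key q χ h1 h2
    obtain ⟨r2, hr2, e2⟩ := key q₂ χ₂ h3 h4
    obtain ⟨r3, hr3, e3⟩ := key (q * q₂) (prd χ χ₂) h5 ((hPr q q₂ χ χ₂).2 h2 h4).1
    have hzr := hz (1 - e / 2) (by linarith) (by linarith)
    unfold PP
    rw [e1, e2, e3]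
    have h10 : (riemannZeta ((1 - e / 2 : ℝ) : ℂ) * ((r1 : ℂ) * r2 * r3)).re =
        (riemannZeta ((1 - e / 2 : ℝ) : ℂ)).re * (r1 * r2 * r3) := by
      have h11 : ((r1 : ℂ) * r2 * r3) = ((r1 * r2 * r3 : ℝ) : ℂ) := by push_cast; ring
      rw [h11, Complex.re_mul_ofReal]
    rw [h10]
    exact mul_nonpos_of_nonpos_of_nonneg hzr.le (by positivity)

end MPb51559.BG.A
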