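import Pool.Agent.Work.MP_b51559_nt.BG.A.StmtsS

set_option autoImplicit false

/-!
# Item SgEst: the inequality of Estermann
-/

namespace MPb51559.BG.A

open scoped BigOperators ArithmeticFunction ComplexOrder

theorem pr_SgEst (h1 : SgCof) (h2 : SgNum) : SgEst := by
  obtain ⟨C₀, hC₀, hcof⟩ := h1
  refine ⟨16 * C₀, by linarith, ?_⟩
  intro P M lam c hP hM hbd hP1 hlam hc hc1 hc2 hpos σ hσ hσ1
  set F : ℂ → ℂ := fun s : ℂ => riemannZeta s * P s with hF
  set b : ℕ → ℂ := fun n => (-1) ^ n * iteratedDeriv n F 2 / (n.factorial : ℂ) with hb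
  have hb0 : ∀ n, 0 ≤ b n := by
    intro n
    have hf : (0 : ℂ) ≤ ((n.factorial : ℂ))⁻¹ := by
      have : ((n.factorial : ℂ))⁻¹ = (((n.factorial : ℝ))⁻¹ : ℝ) := by push_cast; rfl
      rw [this]
      exact_mod_cast (by positivity : (0 : ℝ) ≤ ((n.factorial : ℝ))⁻¹)
    show (0 : ℂ) ≤ (-1) ^ n * iteratedDeriv n F 2 / (n.factorial : ℂ)
    rw [div_eq_mul_inv]
    exact mul_nonneg (hpos n) hf
  obtain ⟨hA, hB⟩ := hcof P M hP (by linarith) hbd b (fun n => rfl)
  have hre : ∀ n, b n = ((b n).re : ℂ) := by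
    intro n
    have := Complex.le_def.1 (hb0 n)
    apply Complex.ext
    · simp
    · simpa using this.2.symm
  have hren : ∀ n, 0 ≤ (b n).re := fun n => by
    simpa using (Complex.le_def.1 (hb0 n)).1
  have hδ : 0 < 1 - σ := by linarith
  have hσne : (σ : ℂ) ≠ 1 := by
    intro h
    have : σ = 1 := by exact_mod_cast h
    linarith
  have hs := hB (σ : ℂ) hσne
  have hs2 : HasSum (fun n : ℕ => ((b n).re - lam) * (1 + (1 - σ)) ^ n)
      ((riemannZeta (σ : ℂ) * P (σ : ℂ)).re + lam / (1 - σ)) := by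
    have h3 := Complex.hasSum_re hs
    have h4 : (riemannZeta (σ : ℂ) * P (σ : ℂ) - P 1 / ((σ : ℂ) - 1)).re =
        (riemannZeta (σ : ℂ) * P (σ : ℂ)).re + lam / (1 - σ) := by
      rw [hP1, Complex.sub_re]
      have h5 : ((lam : ℂ) / ((σ : ℂ) - 1)) = ((lam / (σ - 1) : ℝ) : ℂ) := by push_cast; rfl
      rw [h5, Complex.ofReal_re]
      have h6 : lam / (σ - 1) = - (lam / (1 - σ)) := by
        rw [← neg_sub, div_neg]
      rw [h6]; ring
    rw [h4] at h3
    have h7 : (fun n : ℕ => ((b n).re - lam) * (1 + (1 - σ)) ^ n) =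
        fun n : ℕ => ((b n - P 1) * (2 - (σ : ℂ)) ^ n).re := by
      funext n
      have h8 : (b n - P 1) * (2 - (σ : ℂ)) ^ n =
          ((((b n).re - lam) * (1 + (1 - σ)) ^ n : ℝ) : ℂ) := by
        rw [hP1, hre n]
        push_cast
        rw [Complex.ofReal_re]
        ring
      rw [h8, Complex.ofReal_re]
    rw [h7]
    exact h3
  have hD : 1 ≤ C₀ * M := by nlinarith
  have hdist : ∀ n : ℕ, |(b n).re - lam| ≤ C₀ * M * (2 / 3) ^ n := by
    intro n
    have h9 := hA n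
    rw [hre n, hP1, ← Complex.ofReal_sub, Complex.norm_real, Real.norm_eq_abs] at h9
    simpa using h9
  have hb00 : c ≤ (b 0).re := by
    have : b 0 = riemannZeta 2 * P 2 := by
      show (-1 : ℂ) ^ 0 * iteratedDeriv 0 F 2 / ((0).factorial : ℂ) = _
      simp [hF]
    rw [this]
    exact hc2
  have hfin := h2 (fun n => (b n).re) lam (C₀ * M) c (1 - σ)
    ((riemannZeta (σ : ℂ) * P (σ : ℂ)).re + lam / (1 - σ)) hren hlam hc hc1 hb00 hD hdist hδ
    (by linarith) hs2
  have e1 : 16 * (C₀ * M) / c = 16 * C₀ * M / c := by ring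
  rw [e1] at hfin
  linarith

end MPb51559.BG.A
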