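import Pool.Agent.Work.MP_b51559_nt.BG.A.StmtsS

set_option autoImplicit false

/-!
# Bounded gaps, part A: Siegel's theorem, item SgF2
-/

namespace MPb51559.BG.A

open scoped BigOperators ArithmeticFunction ComplexOrder

namespace ISSgF2

/-- the value at `2` is a real number `≥ 1/3` -/
theorem val (h1 : SgRe) (h2 : Sg2) (q : ℕ) [NeZero q] (χ : DirichletCharacter ℂ q) (hχ : χ ≠ 1)
    (hq : χ ^ 2 = 1) : ∃ r : ℝ, 1 / 3 ≤ r ∧ DirichletCharacter.LFunction χ 2 = (r : ℂ) := by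
  refine ⟨(DirichletCharacter.LFunction χ 2).re, h2 q χ, ?_⟩
  have h := h1 q χ hχ hq 2 two_pos
  have e : ((2 : ℝ) : ℂ) = 2 := by norm_num
  rw [e] at h
  apply Complex.ext
  · rw [Complex.ofReal_re]
  · rw [Complex.ofReal_im, h]

end ISSgF2

theorem pr_SgF2 (h1 : SgRe) (h2 : Sg2) (h3 : SgPr) : SgF2 := by
  intro q₁ q₂ _ _ χ₁ χ₂ n1 n2 n12 k1 k2
  obtain ⟨r1, hr1, e1⟩ := ISSgF2.val h1 h2 q₁ χ₁ n1 k1
  obtain ⟨r2, hr2, e2⟩ := ISSgF2.val h1 h2 q₂ χ₂ n2 k2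
  obtain ⟨r3, hr3, e3⟩ := ISSgF2.val h1 h2 (q₁ * q₂) (prd χ₁ χ₂) n12
    ((h3 q₁ q₂ χ₁ χ₂).2 k1 k2).1
  have hπ : (1 : ℝ) ≤ Real.pi ^ 2 / 6 := by
    have := Real.pi_gt_three
    nlinarith
  have key : riemannZeta 2 * PP χ₁ χ₂ 2 = ((Real.pi ^ 2 / 6 * (r1 * r2 * r3) : ℝ) : ℂ) := by
    unfold PP
    rw [riemannZeta_two, e1, e2, e3]
    push_cast
    ring
  have h12 : 1 / 9 ≤ r1 * r2 := by nlinarith
  have h123 : 1 / 27 ≤ r1 * r2 * r3 := by nlinarith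
  have hfin : 1 / 27 ≤ Real.pi ^ 2 / 6 * (r1 * r2 * r3) := by nlinarith
  rw [key]
  refine ⟨by rw [Complex.ofReal_re]; exact hfin, ?_⟩
  rw [Complex.zero_le_real]
  linarith

end MPb51559.BG.A
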