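import Pool.Agent.Work.MP_b51559_nt.BG.A.StmtsS

set_option autoImplicit false

/-!
# Bounded gaps, part A, item SgG1: `ζ(s) P(s) - P(1)/(s-1)` is entire and bounded on the circle
-/

namespace MPb51559.BG.A

open scoped BigOperators ArithmeticFunction ComplexOrder

namespace ISSgG1

/-- the entire function `(s - 1) ζ(s)` -/
noncomputable def Z : ℂ → ℂ := DirichletCharacter.LFunctionTrivChar₁ 1

theorem Z_diff : Differentiable ℂ Z := DirichletCharacter.differentiable_LFunctionTrivChar₁ 1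

theorem Z_one : Z 1 = 1 := by
  simp [Z, DirichletCharacter.LFunctionTrivChar₁]

theorem Z_of_ne {s : ℂ} (hs : s ≠ 1) : Z s = (s - 1) * riemannZeta s := by
  simp [Z, DirichletCharacter.LFunctionTrivChar₁, Function.update_of_ne hs,
    DirichletCharacter.LFunctionTrivChar]

theorem one_le {s : ℂ} (hs : s ∈ Metric.sphere (2 : ℂ) (3 / 2)) : 1 / 2 ≤ ‖s - 1‖ := by
  rw [mem_sphere_iff_norm] at hs
  have h1 : ‖s - 2‖ ≤ ‖s - 1‖ + ‖(1 : ℂ)‖ := by
    calc ‖s - 2‖ = ‖(s - 1) - 1‖ := by congr 1; ring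
      _ ≤ ‖s - 1‖ + ‖(1 : ℂ)‖ := norm_sub_le _ _
  rw [hs, norm_one] at h1
  linarith

theorem ne_one {s : ℂ} (hs : s ∈ Metric.sphere (2 : ℂ) (3 / 2)) : s ≠ 1 := by
  intro h
  have := one_le hs
  rw [h, sub_self, norm_zero] at this
  linarith

end ISSgG1

open ISSgG1 in
/-- `ζ(s) P(s) - P(1)/(s-1)` is entire and bounded on the circle. -/
theorem pr_SgG1 : SgG1 := by
  have hcpt : IsCompact (Metric.sphere (2 : ℂ) (3 / 2)) := isCompact_sphere _ _
  have hcont : ContinuousOn riemannZeta (Metric.sphere (2 : ℂ) (3 / 2)) := fun s hs =>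
    (differentiableAt_riemannZeta (ne_one hs)).continuousAt.continuousWithinAt
  obtain ⟨C0, hC0⟩ := hcpt.exists_bound_of_continuousOn hcont
  refine ⟨|C0| + 2, by have := abs_nonneg C0; linarith, fun P M hP hM hb => ?_⟩
  have hZP : Differentiable ℂ (fun s => Z s * P s) := Z_diff.mul hP
  refine ⟨dslope (fun s => Z s * P s) 1, ?_, ?_, ?_⟩
  · rw [← differentiableOn_univ]
    exact (Complex.differentiableOn_dslope Filter.univ_mem).2 hZP.differentiableOn
  · intro s hs
    have h1 : s - 1 ≠ 0 := sub_ne_zero.2 hs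
    rw [dslope_of_ne _ hs, slope_def_field, Z_one, Z_of_ne hs, one_mul]
    field_simp
  · intro s hs
    have hs1 := ne_one hs
    have h1 : s - 1 ≠ 0 := sub_ne_zero.2 hs1
    have h2 : dslope (fun s => Z s * P s) 1 s = riemannZeta s * P s - P 1 / (s - 1) := by
      rw [dslope_of_ne _ hs1, slope_def_field, Z_one, Z_of_ne hs1, one_mul]
      field_simp
    rw [h2]
    have h3 : ‖P s‖ ≤ M := hb s (Metric.sphere_subset_closedBall hs)
    have h4 : ‖P 1‖ ≤ M := by
      refine hb 1 ?_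
      rw [mem_closedBall_iff_norm]
      norm_num
    have h5 : ‖riemannZeta s‖ ≤ |C0| := (hC0 s hs).trans (le_abs_self _)
    calc ‖riemannZeta s * P s - P 1 / (s - 1)‖
        ≤ ‖riemannZeta s * P s‖ + ‖P 1 / (s - 1)‖ := norm_sub_le _ _
      _ ≤ |C0| * M + 2 * M := by
        refine add_le_add ?_ ?_
        · rw [norm_mul]
          exact mul_le_mul h5 h3 (norm_nonneg _) (abs_nonneg _)
        · rw [norm_div, div_le_iff₀ (norm_pos_iff.2 h1)]
          have := one_le hs
          nlinarith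
      _ = (|C0| + 2) * M := by ring

end MPb51559.BG.A
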