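import Pool.Agent.Work.MP_b51559_nt.BG.A.StmtsS

set_option autoImplicit false

/-!
# Bounded gaps, part A, item SgIvt: positivity
-/

namespace MPb51559.BG.A

theorem pr_SgIvt (h1 : SgRe) (h2 : Sg2) : SgIvt := by
  intro q _ χ hχ hχ2 σ hσ hz
  have hc : Continuous (fun t : ℝ => (DirichletCharacter.LFunction χ (t : ℂ)).re) :=
    Complex.continuous_re.comp
      ((DirichletCharacter.differentiable_LFunction hχ).continuous.comp Complex.continuous_ofReal)
  by_contra hneg
  push Not at hneg
  have h3 : (1 : ℝ) / 3 ≤ (DirichletCharacter.LFunction χ ((2 : ℝ) : ℂ)).re := by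
    have := h2 q χ
    simpa using this
  have h4 : (0 : ℝ) ∈ Set.uIcc ((DirichletCharacter.LFunction χ (σ : ℂ)).re)
      ((DirichletCharacter.LFunction χ ((2 : ℝ) : ℂ)).re) := by
    rw [Set.mem_uIcc]
    left
    constructor
    · exact hneg
    · linarith
  obtain ⟨t, ht, ht0⟩ := intermediate_value_uIcc hc.continuousOn h4
  have ht0' : (DirichletCharacter.LFunction χ (t : ℂ)).re = 0 := ht0
  rw [Set.mem_uIcc] at ht
  have htpos : 0 < t := by
    rcases ht with h | h
    · linarith [h.1]
    · linarith [h.1]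
  have hzero : DirichletCharacter.LFunction χ (t : ℂ) = 0 :=
    Complex.ext ht0' (h1 q χ hχ hχ2 t htpos)
  rcases lt_or_ge t 1 with hlt | hge
  · refine hz t ?_ hlt hzero
    rcases ht with h | h
    · exact h.1
    · linarith [h.1]
  · exact DirichletCharacter.LFunction_ne_zero_of_one_le_re χ (Or.inl hχ)
      (by rw [Complex.ofReal_re]; exact hge) hzero

end MPb51559.BG.A
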