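import Pool.Agent.Work.MP_b51559_nt.BG.A.StmtsS

set_option autoImplicit false

namespace MPb51559.BG.A

open scoped BigOperators ArithmeticFunction ComplexOrder

namespace ISSgLift

theorem lower {q : ℕ} (χ : DirichletCharacter ℂ q) (p : ℕ) :
    1 - (p : ℝ)⁻¹ ≤ ‖1 - χ (p : ZMod q) * (p : ℂ) ^ (-(1 : ℂ))‖ := by
  have h1 : ‖χ (p : ZMod q) * (p : ℂ) ^ (-(1 : ℂ))‖ ≤ (p : ℝ)⁻¹ := by
    rw [Complex.cpow_neg_one, norm_mul, norm_inv, Complex.norm_natCast]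
    have h2 := χ.norm_le_one (p : ZMod q)
    have h3 : (0 : ℝ) ≤ (p : ℝ)⁻¹ := by positivity
    calc ‖χ (p : ZMod q)‖ * (p : ℝ)⁻¹ ≤ 1 * (p : ℝ)⁻¹ := mul_le_mul_of_nonneg_right h2 h3
      _ = (p : ℝ)⁻¹ := one_mul _
  have h4 := norm_sub_norm_le (1 : ℂ) (χ (p : ZMod q) * (p : ℂ) ^ (-(1 : ℂ)))
  rw [norm_one] at h4
  linarith

theorem upper {q : ℕ} (χ : DirichletCharacter ℂ q) (p : ℕ) :
    ‖1 - χ (p : ZMod q) * (p : ℂ) ^ (-(1 : ℂ))‖ ≤ 1 + (p : ℝ)⁻¹ := by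
  have h1 : ‖χ (p : ZMod q) * (p : ℂ) ^ (-(1 : ℂ))‖ ≤ (p : ℝ)⁻¹ := by
    rw [Complex.cpow_neg_one, norm_mul, norm_inv, Complex.norm_natCast]
    have h2 := χ.norm_le_one (p : ZMod q)
    have h3 : (0 : ℝ) ≤ (p : ℝ)⁻¹ := by positivity
    calc ‖χ (p : ZMod q)‖ * (p : ℝ)⁻¹ ≤ 1 * (p : ℝ)⁻¹ := mul_le_mul_of_nonneg_right h2 h3
      _ = (p : ℝ)⁻¹ := one_mul _
  have h4 := norm_sub_le (1 : ℂ) (χ (p : ZMod q) * (p : ℂ) ^ (-(1 : ℂ)))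
  rw [norm_one] at h4
  linarith

end ISSgLift

open ISSgLift in
theorem pr_SgLift : SgLift := by
  intro q₁ q₂ _ _ χ₁ χ₂ h1 h2 h22 hp
  haveI : NeZero (q₁ * q₂) := ⟨mul_ne_zero (NeZero.ne q₁) (NeZero.ne q₂)⟩
  set ψ₁ := DirichletCharacter.changeLevel (dvd_mul_right q₁ q₂) χ₁ with hψ₁
  set ψ₂ := DirichletCharacter.changeLevel (dvd_mul_left q₂ q₁) χ₂ with hψ₂
  have h3 : ψ₁ * ψ₂ = 1 := hp
  have h4 : ψ₂ * ψ₂ = 1 := by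
    rw [← pow_two, hψ₂, ← map_pow, h22, map_one]
  have h5 : ψ₁ = ψ₂ := by
    rw [← mul_one ψ₁, ← h4, ← mul_assoc, h3, one_mul]
  have e1 := DirichletCharacter.LFunction_changeLevel (dvd_mul_right q₁ q₂) χ₁ (s := 1)
    (Or.inl h1)
  have e2 := DirichletCharacter.LFunction_changeLevel (dvd_mul_left q₂ q₁) χ₂ (s := 1)
    (Or.inl h2)
  rw [← hψ₁, h5] at e1
  rw [← hψ₂, e1] at e2
  have e3 := congrArg norm e2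
  rw [norm_mul, norm_mul, norm_prod, norm_prod] at e3
  have ha : 0 < ∏ p ∈ (q₁ * q₂).primeFactors, (1 - (p : ℝ)⁻¹) := by
    refine Finset.prod_pos fun p hp => ?_
    have h6 : (2 : ℝ) ≤ p := by exact_mod_cast (Nat.prime_of_mem_primeFactors hp).two_le
    have h7 : (p : ℝ)⁻¹ ≤ 2⁻¹ := inv_anti₀ (by norm_num) h6
    linarith
  have h8 : ∏ p ∈ (q₁ * q₂).primeFactors, (1 - (p : ℝ)⁻¹) ≤
      ∏ p ∈ (q₁ * q₂).primeFactors, ‖1 - χ₁ (p : ZMod q₁) * (p : ℂ) ^ (-(1 : ℂ))‖ := by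
    refine Finset.prod_le_prod (fun p hp => ?_) fun p _ => lower χ₁ p
    have h6 : (2 : ℝ) ≤ p := by exact_mod_cast (Nat.prime_of_mem_primeFactors hp).two_le
    have h7 : (p : ℝ)⁻¹ ≤ 2⁻¹ := inv_anti₀ (by norm_num) h6
    linarith
  have h9 : ∏ p ∈ (q₁ * q₂).primeFactors, ‖1 - χ₂ (p : ZMod q₂) * (p : ℂ) ^ (-(1 : ℂ))‖ ≤
      ∏ p ∈ (q₁ * q₂).primeFactors, (1 + (p : ℝ)⁻¹) :=
    Finset.prod_le_prod (fun p _ => norm_nonneg _) fun p _ => upper χ₂ p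
  rw [Finset.prod_div_distrib, ← mul_div_assoc, le_div_iff₀ ha]
  calc ‖DirichletCharacter.LFunction χ₁ 1‖ * ∏ p ∈ (q₁ * q₂).primeFactors, (1 - (p : ℝ)⁻¹)
      ≤ ‖DirichletCharacter.LFunction χ₁ 1‖ *
        ∏ p ∈ (q₁ * q₂).primeFactors, ‖1 - χ₁ (p : ZMod q₁) * (p : ℂ) ^ (-(1 : ℂ))‖ :=
        mul_le_mul_of_nonneg_left h8 (norm_nonneg _)
    _ = ‖DirichletCharacter.LFunction χ₂ 1‖ *
        ∏ p ∈ (q₁ * q₂).primeFactors, ‖1 - χ₂ (p : ZMod q₂) * (p : ℂ) ^ (-(1 : ℂ))‖ := e3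
    _ ≤ _ := mul_le_mul_of_nonneg_left h9 (norm_nonneg _)

end MPb51559.BG.A
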