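import Pool.Agent.Work.MP_b51559_nt.BG.A.StmtsS

set_option autoImplicit false

/-!
# Bounded gaps, part A: item SgMain (lower bound when the product is not principal)
-/

namespace MPb51559.BG.A

open scoped BigOperators ArithmeticFunction ComplexOrder

namespace ISSgMain

theorem prd_sq {q₁ q₂ : ℕ} (χ₁ : DirichletCharacter ℂ q₁) (χ₂ : DirichletCharacter ℂ q₂)
    (h1 : χ₁ ^ 2 = 1) (h2 : χ₂ ^ 2 = 1) : prd χ₁ χ₂ ^ 2 = 1 := by
  rw [prd, mul_pow, ← map_pow, ← map_pow, h1, h2, map_one, map_one, mul_one]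

theorem ball_bound {s : ℂ} (hs : s ∈ Metric.closedBall (2 : ℂ) (3 / 2)) :
    ‖s‖ ≤ 7 / 2 ∧ 1 / 2 ≤ s.re := by
  rw [Metric.mem_closedBall, dist_eq_norm] at hs
  constructor
  · have h : ‖s‖ ≤ ‖s - 2‖ + ‖(2 : ℂ)‖ := by
      have h := norm_add_le (s - 2) 2
      rwa [sub_add_cancel] at h
    have h2 : ‖(2 : ℂ)‖ = 2 := by simp
    rw [h2] at h
    linarith
  · have h := Complex.abs_re_le_norm (s - 2)
    rw [Complex.sub_re, Complex.re_ofNat] at h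
    have h3 := (abs_le.1 (h.trans hs)).1
    linarith

theorem bound_one (h1 : SgBd) {q : ℕ} [NeZero q] {χ : DirichletCharacter ℂ q} (hχ : χ ≠ 1)
    {s : ℂ} (hs : s ∈ Metric.closedBall (2 : ℂ) (3 / 2)) :
    ‖DirichletCharacter.LFunction χ s‖ ≤ 7 * q := by
  obtain ⟨hn, hr⟩ := ball_bound hs
  have hpos : 0 < s.re := by linarith
  have h := (h1 q χ hχ).1 s hpos
  refine h.trans ?_
  rw [div_le_iff₀ hpos]
  have hq : (0 : ℝ) ≤ q := Nat.cast_nonneg q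
  nlinarith

end ISSgMain

open ISSgMain in
theorem pr_SgMain (h1 : SgBd) (h2 : SgRe) (h3 : SgIvt) (h4 : SgF2) (h5 : SgPosF) (h6 : SgEst) :
    SgMain := by
  intro q₁ _ χ₁ σ hχ₁ hq₁ hσ hσ1
  obtain ⟨C, hC, hE⟩ := h6
  set δ : ℝ := 1 - σ with hδ
  have hδ0 : 0 < δ := by rw [hδ]; linarith
  have hL1 : 0 < ‖DirichletCharacter.LFunction χ₁ 1‖ := by
    rw [norm_pos_iff]
    exact DirichletCharacter.LFunction_ne_zero_of_one_le_re χ₁ (Or.inl hχ₁) (by simp)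
  have hq1 : (0 : ℝ) < q₁ := Nat.cast_pos.2 (Nat.pos_of_ne_zero (NeZero.ne q₁))
  set A : ℝ := (27 * C * 343 * (q₁ : ℝ) ^ 2) ^ (4 * δ) with hA
  have hA0 : 0 < A := by
    rw [hA]
    positivity
  refine ⟨δ / (54 * A * ‖DirichletCharacter.LFunction χ₁ 1‖), by positivity, ?_⟩
  intro q₂ _ χ₂ hχ₂ hq₂ hprd hle
  have hq2 : (0 : ℝ) < q₂ := Nat.cast_pos.2 (Nat.pos_of_ne_zero (NeZero.ne q₂))
  have hpsq : prd χ₁ χ₂ ^ 2 = 1 := prd_sq χ₁ χ₂ hq₁ hq₂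
  have hdiff : Differentiable ℂ (PP χ₁ χ₂) :=
    ((DirichletCharacter.differentiable_LFunction hχ₁).mul
      (DirichletCharacter.differentiable_LFunction hχ₂)).mul
      (DirichletCharacter.differentiable_LFunction hprd)
  set M : ℝ := 343 * ((q₁ : ℝ) * q₂) ^ 2 with hM
  have hq1' : (1 : ℝ) ≤ q₁ := by
    exact_mod_cast Nat.pos_of_ne_zero (NeZero.ne q₁)
  have hq2' : (1 : ℝ) ≤ q₂ := by
    exact_mod_cast Nat.pos_of_ne_zero (NeZero.ne q₂)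
  have hM1 : 1 ≤ M := by
    have h : (1 : ℝ) ≤ (q₁ : ℝ) * q₂ := by nlinarith
    rw [hM]
    nlinarith
  have hbd : ∀ s ∈ Metric.closedBall (2 : ℂ) (3 / 2), ‖PP χ₁ χ₂ s‖ ≤ M := by
    intro s hs
    have e1 := bound_one h1 hχ₁ hs
    have e2 := bound_one h1 hχ₂ hs
    have e3 := bound_one h1 hprd hs
    rw [Nat.cast_mul] at e3
    rw [PP, norm_mul, norm_mul]
    calc _ ≤ (7 * (q₁ : ℝ)) * (7 * q₂) * (7 * (q₁ * q₂)) := by gcongr
      _ = M := by rw [hM]; ring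
  -- the values at one
  have hre : ∀ (q : ℕ) [NeZero q] (χ : DirichletCharacter ℂ q), χ ≠ 1 → χ ^ 2 = 1 →
      0 < (DirichletCharacter.LFunction χ 1).re ∧
      DirichletCharacter.LFunction χ 1 = ((DirichletCharacter.LFunction χ 1).re : ℂ) := by
    intro q _ χ hχ hsq
    have e1 := h2 q χ hχ hsq 1 one_pos
    have e2 := h3 q χ hχ hsq 1 one_pos (fun t ht ht' => absurd ht (not_le.2 ht'))
    rw [Complex.ofReal_one] at e1 e2
    refine ⟨e2, ?_⟩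
    apply Complex.ext
    · simp
    · simpa using e1
  obtain ⟨p1, r1⟩ := hre q₁ χ₁ hχ₁ hq₁
  obtain ⟨p2, r2⟩ := hre q₂ χ₂ hχ₂ hq₂
  obtain ⟨p3, r3⟩ := hre (q₁ * q₂) (prd χ₁ χ₂) hprd hpsq
  set a1 := (DirichletCharacter.LFunction χ₁ 1).re with ha1
  set a2 := (DirichletCharacter.LFunction χ₂ 1).re with ha2
  set a3 := (DirichletCharacter.LFunction (prd χ₁ χ₂) 1).re with ha3
  have hP1 : PP χ₁ χ₂ 1 = ((a1 * a2 * a3 : ℝ) : ℂ) := by
    rw [PP, r1, r2, r3]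
    push_cast
    rfl
  have hF2 := h4 q₁ q₂ χ₁ χ₂ hχ₁ hχ₂ hprd hq₁ hq₂
  have hest := hE (PP χ₁ χ₂) M (a1 * a2 * a3) (1 / 27) hdiff hM1 hbd hP1 (by positivity)
    (by norm_num) (by norm_num) hF2.1 (h5 q₁ q₂ χ₁ χ₂ hχ₁ hχ₂ hprd hq₁ hq₂) σ hσ hσ1
  have hest2 := hest.trans hle
  rw [← hδ] at hest2
  have hpow : (C * M / (1 / 27)) ^ (4 * δ) = A * (q₂ : ℝ) ^ (8 * δ) := by
    have h : C * M / (1 / 27) = (27 * C * 343 * (q₁ : ℝ) ^ 2) * (q₂ : ℝ) ^ 2 := by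
      rw [hM]
      ring
    rw [h, Real.mul_rpow (by positivity) (by positivity), hA]
    congr 1
    rw [← Real.rpow_natCast (q₂ : ℝ) 2, ← Real.rpow_mul hq2.le]
    congr 1
    push_cast
    ring
  rw [hpow] at hest2
  have hA8 : 0 < (q₂ : ℝ) ^ (8 * δ) := Real.rpow_pos_of_pos hq2 _
  have key : δ / 54 ≤ a1 * a2 * a3 * (A * (q₂ : ℝ) ^ (8 * δ)) := by
    have h : (1 : ℝ) / 27 / 2 ≤ a1 * a2 * a3 * (A * (q₂ : ℝ) ^ (8 * δ)) / δ := by linarith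
    rw [le_div_iff₀ hδ0] at h
    linarith
  have n1 : a1 ≤ ‖DirichletCharacter.LFunction χ₁ 1‖ := Complex.re_le_norm _
  have n2 : a2 ≤ ‖DirichletCharacter.LFunction χ₂ 1‖ := Complex.re_le_norm _
  have n3 : a3 ≤ 1 + Real.log ((q₁ : ℝ) * q₂) := by
    have h := (h1 (q₁ * q₂) (prd χ₁ χ₂) hprd).2
    rw [Nat.cast_mul] at h
    exact (Complex.re_le_norm _).trans h
  have key2 : δ / 54 ≤ ‖DirichletCharacter.LFunction χ₁ 1‖ *
      ‖DirichletCharacter.LFunction χ₂ 1‖ * (1 + Real.log ((q₁ : ℝ) * q₂)) *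
      (A * (q₂ : ℝ) ^ (8 * δ)) := by
    refine key.trans ?_
    have h12 : a1 * a2 ≤ ‖DirichletCharacter.LFunction χ₁ 1‖ *
        ‖DirichletCharacter.LFunction χ₂ 1‖ := mul_le_mul n1 n2 p2.le (norm_nonneg _)
    have h123 : a1 * a2 * a3 ≤ ‖DirichletCharacter.LFunction χ₁ 1‖ *
        ‖DirichletCharacter.LFunction χ₂ 1‖ * (1 + Real.log ((q₁ : ℝ) * q₂)) :=
      mul_le_mul h12 n3 p3.le (by positivity)
    exact mul_le_mul_of_nonneg_right h123 (by positivity)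
  rw [Real.rpow_neg hq2.le, ← div_eq_mul_inv, div_div, div_le_iff₀ (by positivity)]
  calc δ = 54 * (δ / 54) := by ring
    _ ≤ 54 * (‖DirichletCharacter.LFunction χ₁ 1‖ *
      ‖DirichletCharacter.LFunction χ₂ 1‖ * (1 + Real.log ((q₁ : ℝ) * q₂)) *
      (A * (q₂ : ℝ) ^ (8 * δ))) := by linarith
    _ = _ := by ring

end MPb51559.BG.A
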