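import Pool.Agent.Work.MP_b51559_nt.BG.A.StmtsS

set_option autoImplicit false

/-!
# Bounded gaps, part A, item SgMel: integral representation in the half plane `0 < Re s`
-/

namespace MPb51559.BG.A

open scoped BigOperators ArithmeticFunction
open MeasureTheory Filter Asymptotics Topology

namespace ISSgMel

variable {q : ℕ}

theorem meas (χ : DirichletCharacter ℂ q) : Measurable (xs χ) := by
  have h : xs χ = (fun n : ℕ => ∑ k ∈ Finset.Icc 1 n, χ (k : ZMod q)) ∘ (fun t : ℝ => ⌊t⌋₊) := rfl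
  rw [h]
  exact measurable_from_top.comp Nat.measurable_floor

/-- the function whose Mellin transform is taken -/
noncomputable def ff (χ : DirichletCharacter ℂ q) (t : ℝ) : ℂ :=
  (Set.Ioi (1 : ℝ)).indicator (xs χ) t

theorem ff_le (χ : DirichletCharacter ℂ q) (C : ℝ) (hC : ∀ t : ℝ, 0 ≤ t → ‖xs χ t‖ ≤ C)
    (h0 : 0 ≤ C) (t : ℝ) : ‖ff χ t‖ ≤ C := by
  unfold ff
  by_cases h : t ∈ Set.Ioi (1 : ℝ)
  · rw [Set.indicator_of_mem h]
    exact hC t (zero_le_one.trans (le_of_lt h))
  · rw [Set.indicator_of_notMem h, norm_zero]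
    exact h0

theorem mellin_eq (χ : DirichletCharacter ℂ q) (s : ℂ) :
    mellin (ff χ) (-s) = ∫ t in Set.Ioi (1 : ℝ), xs χ t * (t : ℂ) ^ (-(s + 1)) := by
  unfold mellin
  have h1 : ∀ t : ℝ, (t : ℂ) ^ (-s - 1) • ff χ t =
      (Set.Ioi (1 : ℝ)).indicator (fun t : ℝ => xs χ t * (t : ℂ) ^ (-(s + 1))) t := by
    intro t
    unfold ff
    by_cases h : t ∈ Set.Ioi (1 : ℝ)
    · rw [Set.indicator_of_mem h, Set.indicator_of_mem h, smul_eq_mul, mul_comm]
      congr 2
      ring
    · rw [Set.indicator_of_notMem h, Set.indicator_of_notMem h, smul_zero]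
  simp_rw [h1]
  rw [setIntegral_indicator measurableSet_Ioi]
  congr 2
  rw [Set.inter_eq_right]
  exact Set.Ioi_subset_Ioi zero_le_one

theorem diff (χ : DirichletCharacter ℂ q) (C : ℝ) (hC : ∀ t : ℝ, 0 ≤ t → ‖xs χ t‖ ≤ C)
    (h0 : 0 ≤ C) (s : ℂ) (hs : 0 < s.re) : DifferentiableAt ℂ (mellin (ff χ)) (-s) := by
  have hm : Measurable (ff χ) := (meas χ).indicator measurableSet_Ioi
  refine mellin_differentiableAt_of_isBigO_rpow (a := 0) (b := -s.re - 1) ?_ ?_ ?_ ?_ ?_
  · refine LocallyIntegrable.locallyIntegrableOn ?_ _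
    refine (locallyIntegrable_const (C : ℝ)).mono hm.aestronglyMeasurable ?_
    refine Eventually.of_forall fun t => ?_
    rw [Real.norm_of_nonneg h0]
    exact ff_le χ C hC h0 t
  · refine IsBigO.of_bound C (Eventually.of_forall fun t => ?_)
    rw [neg_zero, Real.rpow_zero, norm_one, mul_one]
    exact ff_le χ C hC h0 t
  · rw [Complex.neg_re]
    linarith
  · refine IsBigO.of_bound 0 ?_
    have h1 : Set.Iio (1 : ℝ) ∈ 𝓝[>] (0 : ℝ) :=
      mem_nhdsWithin_of_mem_nhds (Iio_mem_nhds zero_lt_one)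
    filter_upwards [h1] with t ht
    have ht' : t < 1 := ht
    have h2 : t ∉ Set.Ioi (1 : ℝ) := fun h => by
      have h' : 1 < t := h
      linarith
    unfold ff
    rw [Set.indicator_of_notMem h2, norm_zero, zero_mul]
  · rw [Complex.neg_re]
    linarith

end ISSgMel

open ISSgMel in
/-- SgMel -/
theorem pr_SgMel (h1 : SgX) : SgMel := by
  intro q _ χ hχ s hs
  have hX := h1 q χ hχ
  have hC : ∀ t : ℝ, 0 ≤ t → ‖xs χ t‖ ≤ (q : ℝ) := fun t ht => (hX t ht).1
  have hq : (0 : ℝ) ≤ q := Nat.cast_nonneg q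
  have hopen : IsOpen {s : ℂ | 0 < s.re} := isOpen_lt continuous_const Complex.continuous_re
  have hconv : Convex ℝ {s : ℂ | 0 < s.re} := convex_halfSpace_re_gt 0
  have hA : AnalyticOnNhd ℂ (DirichletCharacter.LFunction χ) {s : ℂ | 0 < s.re} :=
    (DirichletCharacter.differentiable_LFunction hχ).differentiableOn.analyticOnNhd hopen
  have hB : AnalyticOnNhd ℂ (fun s : ℂ => s * mellin (ff χ) (-s)) {s : ℂ | 0 < s.re} := by
    refine DifferentiableOn.analyticOnNhd (fun z hz => ?_) hopen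
    refine DifferentiableAt.differentiableWithinAt ?_
    refine differentiableAt_id.mul ?_
    exact (diff χ q hC hq z hz).comp z differentiableAt_id.neg
  have hE : DirichletCharacter.LFunction χ =ᶠ[𝓝 (2 : ℂ)] fun s : ℂ => s * mellin (ff χ) (-s) := by
    have h2 : {s : ℂ | 1 < s.re} ∈ 𝓝 (2 : ℂ) := by
      refine (isOpen_lt continuous_const Complex.continuous_re).mem_nhds ?_
      show (1 : ℝ) < (2 : ℂ).re
      norm_num
    filter_upwards [h2] with z hz
    have hz' : 1 < z.re := hz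
    rw [DirichletCharacter.LFunction_eq_LSeries χ hz', mellin_eq]
    refine LSeries_eq_mul_integral _ (le_refl 0) (by linarith)
      (DirichletCharacter.LSeriesSummable_of_one_lt_re χ hz') ?_
    refine IsBigO.of_bound (q : ℝ) (Eventually.of_forall fun n => ?_)
    rw [Real.rpow_zero, norm_one, mul_one]
    have h3 := hC (n : ℝ) (Nat.cast_nonneg n)
    unfold xs at h3
    rw [Nat.floor_natCast] at h3
    exact h3
  have hfin := hA.eqOn_of_preconnected_of_eventuallyEq hB hconv.isPreconnected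
    (show (2 : ℂ) ∈ {s : ℂ | 0 < s.re} by
      show (0 : ℝ) < (2 : ℂ).re
      norm_num) hE
  have h4 := hfin hs
  rw [h4]
  show s * mellin (ff χ) (-s) = _
  rw [mellin_eq]

end MPb51559.BG.A
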