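import Pool.Agent.Work.MP_b51559_nt.BG.A.StmtsS

set_option autoImplicit false

/-! # Siegel's theorem, item SgNum -/

namespace MPb51559.BG.A

open scoped BigOperators

theorem pr_SgNum : SgNum := by
  intro b lam D c δ S hb hlam hc hc1 hcb hD hbl hδ hδ8 hS
  have hDp : 0 < D := by linarith
  have h8 : 8 ≤ 8 * D / c := by
    rw [le_div_iff₀ hc]; nlinarith
  have h8p : 0 < 8 * D / c := by linarith
  have hl43 : 1 / 4 ≤ Real.log (4 / 3) := by
    have h1 : Real.log (3 / 4) ≤ 3 / 4 - 1 := Real.log_le_sub_one_of_pos (by norm_num)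
    have h2 : Real.log (4 / 3) = -Real.log (3 / 4) := by
      rw [← Real.log_inv]; norm_num
    rw [h2]; linarith
  have hl43p : 0 < Real.log (4 / 3) := by linarith
  set A : ℝ := Real.log (8 * D / c) with hA
  have hA0 : 0 ≤ A := Real.log_nonneg (by linarith)
  set K : ℕ := ⌈A / Real.log (4 / 3)⌉₊ with hK
  have hK1 : A / Real.log (4 / 3) ≤ K := Nat.le_ceil _
  have hK2 : (K : ℝ) < A / Real.log (4 / 3) + 1 := Nat.ceil_lt_add_one (div_nonneg hA0 hl43p.le)
  have hKpos : 0 < K := by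
    rw [hK, Nat.ceil_pos]
    have : 0 < A := Real.log_pos (by linarith)
    positivity
  -- the power of 4/3
  have hpow : 8 * D / c ≤ (4 / 3 : ℝ) ^ K := by
    have h1 : A ≤ K * Real.log (4 / 3) := by
      rwa [div_le_iff₀ hl43p] at hK1
    have h2 : A ≤ Real.log ((4 / 3 : ℝ) ^ K) := by rwa [Real.log_pow]
    exact (Real.log_le_log_iff h8p (by positivity)).mp h2
  have h34 : 4 * D * (3 / 4 : ℝ) ^ K ≤ c / 2 := by
    have h1 : (3 / 4 : ℝ) ^ K * (4 / 3 : ℝ) ^ K = 1 := by
      rw [← mul_pow]; norm_num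
    have h2 : 0 < (3 / 4 : ℝ) ^ K := by positivity
    have h3 : (3 / 4 : ℝ) ^ K * (8 * D / c) ≤ 1 := by
      rw [← h1]
      exact mul_le_mul_of_nonneg_left hpow h2.le
    have h4 : (3 / 4 : ℝ) ^ K * (8 * D) ≤ c := by
      have : (3 / 4 : ℝ) ^ K * (8 * D / c) = (3 / 4 : ℝ) ^ K * (8 * D) / c := by ring
      rw [this, div_le_one hc] at h3
      exact h3
    linarith
  have hx1 : (1 : ℝ) ≤ 1 + δ := by linarith
  have hx0 : (0 : ℝ) < 1 + δ := by linarith
  -- the terms
  have hterm : ∀ n : ℕ, |(b n - lam) * (1 + δ) ^ n| ≤ D * (3 / 4) ^ n := by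
    intro n
    rw [abs_mul, abs_of_nonneg (pow_nonneg hx0.le n)]
    calc |b n - lam| * (1 + δ) ^ n ≤ D * (2 / 3) ^ n * (9 / 8) ^ n := by
          refine mul_le_mul (hbl n) (pow_le_pow_left₀ hx0.le (by linarith) n)
            (pow_nonneg hx0.le n) (by positivity)
      _ = D * (3 / 4) ^ n := by
          rw [mul_assoc, ← mul_pow]; norm_num
  have hgeo : HasSum (fun i : ℕ => D * (3 / 4 : ℝ) ^ (i + K)) (4 * D * (3 / 4) ^ K) := by
    have h1 := (hasSum_geometric_of_lt_one (r := (3 / 4 : ℝ)) (by norm_num) (by norm_num)).mul_left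
      (D * (3 / 4) ^ K)
    have e1 : D * (3 / 4 : ℝ) ^ K * (1 - 3 / 4)⁻¹ = 4 * D * (3 / 4) ^ K := by norm_num; ring
    rw [e1] at h1
    refine h1.congr_fun ?_ |> fun h => h
    intro i
    rw [pow_add]; ring
  have htail : -(c / 2) ≤ ∑' i : ℕ, (b (i + K) - lam) * (1 + δ) ^ (i + K) := by
    have hsm : Summable fun i : ℕ => (b (i + K) - lam) * (1 + δ) ^ (i + K) :=
      (summable_nat_add_iff K).mpr hS.summable
    have h1 : ∑' i : ℕ, -(D * (3 / 4 : ℝ) ^ (i + K)) ≤
        ∑' i : ℕ, (b (i + K) - lam) * (1 + δ) ^ (i + K) := by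
      refine hgeo.summable.neg.tsum_le_tsum (fun i => ?_) hsm
      exact (abs_le.mp (hterm (i + K))).1
    rw [tsum_neg, hgeo.tsum_eq] at h1
    linarith
  have hsplit : S = ∑ i ∈ Finset.range K, (b i - lam) * (1 + δ) ^ i +
      ∑' i : ℕ, (b (i + K) - lam) * (1 + δ) ^ (i + K) := by
    rw [← hS.tsum_eq, hS.summable.sum_add_tsum_nat_add K]
  have hgs : ∑ i ∈ Finset.range K, (1 + δ) ^ i = ((1 + δ) ^ K - 1) / δ := by
    have h1 := geom_sum_eq (x := 1 + δ) (by linarith) K
    rw [h1]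
    congr 1
    ring
  have hhead : c - lam * (((1 + δ) ^ K - 1) / δ) ≤
      ∑ i ∈ Finset.range K, (b i - lam) * (1 + δ) ^ i := by
    have h1 : ∑ i ∈ Finset.range K, (b i - lam) * (1 + δ) ^ i =
        ∑ i ∈ Finset.range K, b i * (1 + δ) ^ i - lam * (((1 + δ) ^ K - 1) / δ) := by
      rw [← hgs, Finset.mul_sum, ← Finset.sum_sub_distrib]
      exact Finset.sum_congr rfl fun i _ => by ring
    have h2 : b 0 ≤ ∑ i ∈ Finset.range K, b i * (1 + δ) ^ i := by
      have h3 := Finset.single_le_sum (f := fun i => b i * (1 + δ) ^ i)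
        (fun i _ => mul_nonneg (hb i) (pow_nonneg hx0.le i)) (Finset.mem_range.mpr hKpos)
      simpa using h3
    rw [h1]
    linarith
  -- the power of 1 + δ
  have hxK : (1 + δ) ^ K ≤ (16 * D / c) ^ (4 * δ) := by
    have h16p : 0 < 16 * D / c := by positivity
    have h1 : (1 + δ) ^ K ≤ Real.exp (δ * K) := by
      have : 1 + δ ≤ Real.exp δ := by linarith [Real.add_one_le_exp δ]
      calc (1 + δ) ^ K ≤ Real.exp δ ^ K := pow_le_pow_left₀ hx0.le this K
        _ = Real.exp (δ * K) := by rw [← Real.exp_nat_mul]; ring_nf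
    have h2 : (K : ℝ) ≤ 4 * Real.log (16 * D / c) := by
      have e1 : Real.log (16 * D / c) = Real.log 2 + A := by
        rw [hA, ← Real.log_mul (by norm_num) (by positivity)]
        congr 1
        ring
      have e2 : (1 / 4 : ℝ) ≤ Real.log 2 := by
        have := Real.log_two_gt_d9
        linarith
      have e3 : A / Real.log (4 / 3) ≤ 4 * A := by
        rw [div_le_iff₀ hl43p]
        nlinarith
      rw [e1]
      linarith
    have h3 : (16 * D / c) ^ (4 * δ) = Real.exp (Real.log (16 * D / c) * (4 * δ)) :=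
      Real.rpow_def_of_pos h16p _
    rw [h3]
    refine h1.trans (Real.exp_le_exp.mpr ?_)
    nlinarith
  have hfin : lam * (1 + δ) ^ K / δ ≤ lam * (16 * D / c) ^ (4 * δ) / δ :=
    div_le_div_of_nonneg_right (mul_le_mul_of_nonneg_left hxK hlam) hδ.le
  have e5 : lam * (((1 + δ) ^ K - 1) / δ) + lam / δ = lam * (1 + δ) ^ K / δ := by
    field_simp
    ring
  rw [hsplit]
  linarith

end MPb51559.BG.A
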