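import Pool.Agent.Work.MP_b51559_nt.BG.A.StmtsS

set_option autoImplicit false

/-! # Siegel's theorem, item SgPosA -/

namespace MPb51559.BG.A

open scoped BigOperators ComplexOrder Topology

theorem pr_SgPosA : SgPosA := by
  intro F g hg hs hF hF' hF2
  have hU : IsOpen {s : ℂ | 1 < s.re} := isOpen_lt continuous_const Complex.continuous_re
  have h2U : (2 : ℂ) ∈ {s : ℂ | 1 < s.re} := by simp
  have hFan : AnalyticAt ℂ F 2 := hF.analyticAt (hU.mem_nhds h2U)
  have hab : LSeries.abscissaOfAbsConv g < ((2 : ℝ) : EReal) := by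
    have h1 : LSeriesSummable g ((3 / 2 : ℝ) : ℂ) := hs _ (by rw [Complex.ofReal_re]; norm_num)
    have h2 := h1.abscissaOfAbsConv_le
    refine h2.trans_lt ?_
    rw [Complex.ofReal_re]
    exact_mod_cast (by norm_num : (3 / 2 : ℝ) < 2)
  have hG : ∀ n : ℕ, 0 ≤ (-1) ^ n * iteratedDeriv n (LSeries g) 2 := by
    intro n
    have := LSeries.iteratedDeriv_alternating (a := g) (fun n => hg n) hab n
    simpa using this
  have hGan : AnalyticAt ℂ (LSeries g) 2 := by
    have := LSeries_analyticOnNhd g
    refine this 2 ?_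
    simpa using hab
  have hev : deriv F =ᶠ[𝓝 2] fun s => -(F s * LSeries g s) := by
    filter_upwards [hU.mem_nhds h2U] with s hs1 using hF' s hs1
  intro n
  induction n using Nat.strong_induction_on with
  | _ n ih =>
    rcases n with _ | n
    · simpa using hF2
    · have h1 : iteratedDeriv (n + 1) F 2 =
          -iteratedDeriv n (fun s => F s * LSeries g s) 2 := by
        rw [iteratedDeriv_succ', (hev.iteratedDeriv_eq n)]
        exact iteratedDeriv_fun_neg n _ _
      have h2 := iteratedDeriv_fun_mul (n := n) (x := (2 : ℂ)) (f := F) (g := LSeries g)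
        hFan.contDiffAt hGan.contDiffAt
      rw [h1, h2, mul_neg, pow_succ, mul_neg_one, neg_mul, neg_neg, Finset.mul_sum]
      refine Finset.sum_nonneg fun i hi => ?_
      have hi' : i ≤ n := Nat.lt_succ_iff.mp (Finset.mem_range.mp hi)
      have e1 : (-1 : ℂ) ^ n * ((n.choose i : ℂ) * iteratedDeriv i F 2 *
          iteratedDeriv (n - i) (LSeries g) 2) = (n.choose i : ℂ) *
          (((-1) ^ i * iteratedDeriv i F 2) * ((-1) ^ (n - i) * iteratedDeriv (n - i) (LSeries g) 2)) := by
        have e2 : (-1 : ℂ) ^ n = (-1) ^ i * (-1) ^ (n - i) := by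
          rw [← pow_add, Nat.add_sub_cancel' hi']
        rw [e2]; ring
      rw [e1]
      refine mul_nonneg ?_ (mul_nonneg (ih i (by omega)) (hG _))
      exact_mod_cast Nat.zero_le _

end MPb51559.BG.A
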