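import Pool.Agent.Work.MP_b51559_nt.BG.A.StmtsS

set_option autoImplicit false

/-!
Item SgPosF: signs of the derivatives of `F` at `2`.
-/

namespace MPb51559.BG.A

open scoped BigOperators ArithmeticFunction ComplexOrder

theorem pr_SgPosF (h1 : SgPosA) (h2 : SgFac) (h3 : SgPr) (h4 : SgF2) : SgPosF := by
  intro q₁ q₂ _ _ χ₁ χ₂ hn1 hn2 hn3 hq1 hq2 n
  have hg : ∀ n, (0 : ℂ) ≤ gg χ₁ χ₂ n := by
    intro n
    unfold gg
    refine mul_nonneg ?_ (((h3 q₁ q₂ χ₁ χ₂).2 hq1 hq2).2 n)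
    exact Complex.zero_le_real.2 ArithmeticFunction.vonMangoldt_nonneg
  refine h1 (fun s : ℂ => riemannZeta s * PP χ₁ χ₂ s) (gg χ₁ χ₂) hg
    (fun s hs => (h2 q₁ q₂ χ₁ χ₂ s hs).1) ?_ (fun s hs => (h2 q₁ q₂ χ₁ χ₂ s hs).2)
    (h4 q₁ q₂ χ₁ χ₂ hn1 hn2 hn3 hq1 hq2).2 n
  intro s hs
  have hs1 : s ≠ 1 := by
    intro h
    rw [h] at hs
    have h5 : (1 : ℝ) < (1 : ℂ).re := hs
    simp at h5
  have hP : DifferentiableAt ℂ (PP χ₁ χ₂) s := by
    unfold PP
    exact (((DirichletCharacter.differentiable_LFunction hn1) s).mul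
      ((DirichletCharacter.differentiable_LFunction hn2) s)).mul
      ((DirichletCharacter.differentiable_LFunction hn3) s)
  exact ((differentiableAt_riemannZeta hs1).mul hP).differentiableWithinAt

end MPb51559.BG.A
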