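import Pool.Agent.Work.MP_b51559_nt.BG.A.StmtsS

set_option autoImplicit false

/-!
# Bounded gaps, part A, item SgPr (helper35): the product character
-/

namespace MPb51559.BG.A

open scoped BigOperators ComplexOrder

namespace ISSgPr

theorem chg {q m n : ℕ} (hm : q ∣ m) (χ : DirichletCharacter ℂ q) (hn : IsUnit (n : ZMod m)) :
    DirichletCharacter.changeLevel hm χ (n : ZMod m) = χ (n : ZMod q) := by
  obtain ⟨u, hu⟩ := hn
  rw [← hu, DirichletCharacter.changeLevel_eq_cast_of_dvd, hu, ZMod.cast_natCast hm]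

theorem prod {q₁ q₂ : ℕ} (χ₁ : DirichletCharacter ℂ q₁) (χ₂ : DirichletCharacter ℂ q₂) (n : ℕ) :
    prd χ₁ χ₂ (n : ZMod (q₁ * q₂)) = χ₁ (n : ZMod q₁) * χ₂ (n : ZMod q₂) := by
  by_cases hn : IsUnit (n : ZMod (q₁ * q₂))
  · unfold prd
    rw [MulChar.mul_apply, chg _ _ hn, chg _ _ hn]
  · rw [MulChar.map_nonunit _ hn]
    have h1 : ¬ IsUnit (n : ZMod q₁) ∨ ¬ IsUnit (n : ZMod q₂) := by
      by_contra hc
      push Not at hc
      apply hn
      rw [ZMod.isUnit_iff_coprime] at hc ⊢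
      rw [ZMod.isUnit_iff_coprime] at hc
      exact Nat.Coprime.mul_right hc.1 hc.2
    rcases h1 with h1 | h1
    · rw [MulChar.map_nonunit _ h1, zero_mul]
    · rw [MulChar.map_nonunit _ h1, mul_zero]

theorem val {q : ℕ} (χ : DirichletCharacter ℂ q) (h : χ ^ 2 = 1) (a : ZMod q) :
    ∃ r : ℝ, 0 ≤ r ∧ 1 + χ a = (r : ℂ) := by
  by_cases ha : IsUnit a
  · have h1 : χ a ^ 2 = 1 := by
      rw [← MulChar.pow_apply' χ two_ne_zero, h, MulChar.one_apply ha]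
    rcases sq_eq_one_iff.1 h1 with h2 | h2
    · exact ⟨2, by norm_num, by rw [h2]; norm_num⟩
    · exact ⟨0, le_rfl, by rw [h2]; norm_num⟩
  · exact ⟨1, zero_le_one, by rw [MulChar.map_nonunit _ ha]; norm_num⟩

end ISSgPr

/-- SgPr: the product character. -/
theorem pr_SgPr : SgPr := by
  intro q₁ q₂ _ _ χ₁ χ₂
  refine ⟨fun n => ISSgPr.prod χ₁ χ₂ n, fun h1 h2 => ⟨?_, fun n => ?_⟩⟩
  · unfold prd
    rw [mul_pow, ← map_pow, ← map_pow, h1, h2, map_one, map_one, one_mul]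
  · obtain ⟨r, hr, hr'⟩ := ISSgPr.val χ₁ h1 (n : ZMod q₁)
    obtain ⟨t, ht, ht'⟩ := ISSgPr.val χ₂ h2 (n : ZMod q₂)
    rw [hr', ht', ← Complex.ofReal_mul]
    exact Complex.zero_le_real.2 (mul_nonneg hr ht)

end MPb51559.BG.A
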