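import Pool.Agent.Work.MP_b51559_nt.BG.A.StmtsS

set_option autoImplicit false

namespace MPb51559.BG.A

namespace ISSgRe

open scoped ComplexConjugate

theorem conj_val {q : ℕ} [NeZero q] (χ : DirichletCharacter ℂ q) (h2 : χ ^ 2 = 1) (a : ZMod q) :
    conj (χ a) = χ a := by
  by_cases ha : IsUnit a
  · have h3 : (χ a) ^ 2 = 1 := by
      have h4 : (χ ^ 2) a = (1 : DirichletCharacter ℂ q) a := by rw [h2]
      rw [MulChar.pow_apply' χ two_ne_zero, MulChar.one_apply ha] at h4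
      exact h4
    rcases sq_eq_one_iff.1 h3 with h | h <;> rw [h] <;> simp
  · rw [MulChar.map_nonunit χ ha, map_zero]

end ISSgRe

open scoped ComplexConjugate in
theorem pr_SgRe (h1 : SgMel) : SgRe := by
  intro q _ χ hχ h2 σ hσ
  have h3 := h1 q χ hχ (σ : ℂ) (by simpa using hσ)
  rw [← Complex.conj_eq_iff_im, h3, map_mul, Complex.conj_ofReal, ← integral_conj]
  congr 1
  refine MeasureTheory.setIntegral_congr_fun measurableSet_Ioi fun t ht => ?_
  have ht0 : (0 : ℝ) ≤ t := le_trans zero_le_one (le_of_lt ht)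
  have h4 : (t : ℂ) ^ (-((σ : ℂ) + 1)) = ((t ^ (-(σ + 1)) : ℝ) : ℂ) := by
    rw [Complex.ofReal_cpow ht0]
    push_cast
    rfl
  show conj (xs χ t * (t : ℂ) ^ (-((σ : ℂ) + 1))) = xs χ t * (t : ℂ) ^ (-((σ : ℂ) + 1))
  rw [map_mul, h4, Complex.conj_ofReal]
  congr 1
  unfold xs
  rw [map_sum]
  exact Finset.sum_congr rfl fun k _ => ISSgRe.conj_val χ h2 _

end MPb51559.BG.A
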