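import Pool.Agent.Work.MP_b51559_nt.BG.A.StmtsS

set_option autoImplicit false

/-!
# Bounded gaps, part A, item SgX: partial sums of a character
-/

namespace MPb51559.BG.A

namespace ISSgX

/-- sum over a set of representatives -/
theorem sum_zmod {q : ℕ} [NeZero q] (g : ZMod q → ℂ) :
    ∑ k ∈ Finset.range q, g (k : ZMod q) = ∑ x : ZMod q, g x := by
  refine Finset.sum_nbij' (fun k => (k : ZMod q)) (fun x => x.val) ?_ ?_ ?_ ?_ ?_
  · intro k _
    exact Finset.mem_univ _
  · intro x _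
    exact Finset.mem_range.2 (ZMod.val_lt x)
  · intro k hk
    exact ZMod.val_natCast_of_lt (Finset.mem_range.1 hk)
  · intro x _
    exact ZMod.natCast_zmod_val x
  · intro k _
    rfl

/-- the sum over a period is zero -/
theorem sum_period {q : ℕ} [NeZero q] (χ : DirichletCharacter ℂ q) (hχ : χ ≠ 1) :
    ∑ k ∈ Finset.range q, χ ((k : ZMod q) + 1) = 0 := by
  rw [sum_zmod (fun x => χ (x + 1))]
  rw [Fintype.sum_equiv (Equiv.addRight (1 : ZMod q)) (fun x => χ (x + 1)) (fun x => χ x)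
    (fun x => rfl)]
  exact MulChar.sum_eq_zero_of_ne_one hχ

/-- the sum over several periods is zero -/
theorem sum_periods {q : ℕ} [NeZero q] (χ : DirichletCharacter ℂ q) (hχ : χ ≠ 1) (a : ℕ) :
    ∑ k ∈ Finset.range (q * a), χ ((k : ZMod q) + 1) = 0 := by
  induction a with
  | zero => simp
  | succ a ih =>
    rw [Nat.mul_succ, Finset.sum_range_add, ih, zero_add]
    rw [← sum_period χ hχ]
    refine Finset.sum_congr rfl fun k _ => ?_
    congr 2
    push_cast
    rw [ZMod.natCast_self, zero_mul, zero_add]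

/-- a sum of terms of norm at most one -/
theorem norm_sum_range {q : ℕ} [NeZero q] (χ : DirichletCharacter ℂ q) (f : ℕ → ZMod q) (n : ℕ) :
    ‖∑ k ∈ Finset.range n, χ (f k)‖ ≤ n := by
  refine (norm_sum_le _ _).trans ?_
  refine (Finset.sum_le_sum fun k _ => DirichletCharacter.norm_le_one χ (f k)).trans ?_
  simp

theorem sum_Icc {q : ℕ} [NeZero q] (χ : DirichletCharacter ℂ q) (n : ℕ) :
    ∑ k ∈ Finset.Icc 1 n, χ (k : ZMod q) = ∑ k ∈ Finset.range n, χ ((k : ZMod q) + 1) := by
  induction n with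
  | zero => simp
  | succ n ih =>
    rw [Finset.sum_range_succ, ← ih, Finset.sum_Icc_succ_top (by omega)]
    push_cast
    rfl

end ISSgX

open ISSgX

theorem pr_SgX : SgX := by
  intro q _ χ hχ t ht
  have hq : 0 < q := Nat.pos_of_ne_zero (NeZero.ne q)
  unfold xs
  rw [sum_Icc]
  constructor
  · have e : ⌊t⌋₊ = q * (⌊t⌋₊ / q) + ⌊t⌋₊ % q := (Nat.div_add_mod _ _).symm
    rw [e, Finset.sum_range_add, sum_periods χ hχ, zero_add]
    refine (norm_sum_range χ (fun k => (((q * (⌊t⌋₊ / q) + k : ℕ) : ZMod q) + 1)) _).trans ?_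
    exact_mod_cast (Nat.mod_lt _ hq).le
  · exact (norm_sum_range χ (fun k => ((k : ZMod q) + 1)) _).trans (Nat.floor_le ht)

end MPb51559.BG.A
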