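import Pool.Agent.Work.MP_b51559_nt.BG.A.StmtsS

/-!
# Block BG-A S, item SgZn (helper72): zeta is negative to the left of one
-/

namespace MPb51559.BG.A

theorem pr_SgZn : SgZn := by
  have h1 := riemannZeta_residue_one
  have h2 : ∀ᶠ s : ℂ in nhdsWithin (1 : ℂ) {(1 : ℂ)}ᶜ, dist ((s - 1) * riemannZeta s) 1 < 1 / 2 :=
    (Metric.tendsto_nhds.1 h1) (1 / 2) (by norm_num)
  rw [eventually_nhdsWithin_iff, Metric.eventually_nhds_iff] at h2
  obtain ⟨δ, hδ, h3⟩ := h2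
  refine ⟨δ, hδ, fun σ hσ1 hσ2 => ?_⟩
  have h4 : dist (σ : ℂ) 1 < δ := by
    rw [dist_eq_norm, show ((σ : ℂ) - 1) = ((σ - 1 : ℝ) : ℂ) by push_cast; ring,
      Complex.norm_real, Real.norm_eq_abs, abs_lt]
    constructor <;> linarith
  have h5 : (σ : ℂ) ∈ ({(1 : ℂ)}ᶜ : Set ℂ) := by
    intro h
    have h6 : (σ : ℂ) = 1 := h
    have h7 : σ = 1 := by exact_mod_cast h6
    linarith
  have h6 := h3 h4 h5
  rw [dist_eq_norm] at h6
  have h7 := (Complex.abs_re_le_norm _).trans_lt h6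
  rw [Complex.sub_re, Complex.one_re, show ((σ : ℂ) - 1) = ((σ - 1 : ℝ) : ℂ) by push_cast; ring,
    Complex.re_ofReal_mul, abs_lt] at h7
  have h8 : 0 < (σ - 1) * (riemannZeta (σ : ℂ)).re := by linarith [h7.1]
  by_contra hc
  push Not at hc
  have h9 : (σ - 1) * (riemannZeta (σ : ℂ)).re ≤ 0 :=
    mul_nonpos_of_nonpos_of_nonneg (by linarith) hc
  linarith

end MPb51559.BG.A
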