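import Pool.Agent.Work.MP_b51559_nt.BG.A.FinS
import Pool.Agent.Work.MP_b51559_nt.BG.A.I_SgX
import Pool.Agent.Work.MP_b51559_nt.BG.A.I_SgMel
import Pool.Agent.Work.MP_b51559_nt.BG.A.I_SgBd
import Pool.Agent.Work.MP_b51559_nt.BG.A.I_SgRe
import Pool.Agent.Work.MP_b51559_nt.BG.A.I_Sg2
import Pool.Agent.Work.MP_b51559_nt.BG.A.I_SgIvt
import Pool.Agent.Work.MP_b51559_nt.BG.A.I_SgZn
import Pool.Agent.Work.MP_b51559_nt.BG.A.I_SgPr
import Pool.Agent.Work.MP_b51559_nt.BG.A.I_SgFac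
import Pool.Agent.Work.MP_b51559_nt.BG.A.I_SgPosA
import Pool.Agent.Work.MP_b51559_nt.BG.A.I_SgF2
import Pool.Agent.Work.MP_b51559_nt.BG.A.I_SgPosF
import Pool.Agent.Work.MP_b51559_nt.BG.A.I_SgG1
import Pool.Agent.Work.MP_b51559_nt.BG.A.I_SgCof
import Pool.Agent.Work.MP_b51559_nt.BG.A.I_SgNum
import Pool.Agent.Work.MP_b51559_nt.BG.A.I_SgEst
import Pool.Agent.Work.MP_b51559_nt.BG.A.I_SgDich
import Pool.Agent.Work.MP_b51559_nt.BG.A.I_SgMain
import Pool.Agent.Work.MP_b51559_nt.BG.A.I_SgPb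
import Pool.Agent.Work.MP_b51559_nt.BG.A.I_SgLift

set_option autoImplicit false

/-! # Siegel's theorem, without hypotheses -/

namespace MPb51559.BG.A

/-- Siegel's theorem: for every `η > 0` there is `c > 0` with `c q^(-η) ≤ |L(1, χ)|` for all non-principal
quadratic characters `χ` modulo `q`. -/
theorem pr_SG : StSG := by
  have hMel : SgMel := pr_SgMel pr_SgX
  have hBd : SgBd := pr_SgBd pr_SgX hMel
  have hRe : SgRe := pr_SgRe hMel
  have hIvt : SgIvt := pr_SgIvt hRe pr_Sg2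
  have hF2 : SgF2 := pr_SgF2 hRe pr_Sg2 pr_SgPr
  have hPosF : SgPosF := pr_SgPosF pr_SgPosA (pr_SgFac pr_SgPr) pr_SgPr hF2
  have hEst : SgEst := pr_SgEst (pr_SgCof pr_SgG1) pr_SgNum
  exact pr_SgFin (pr_SgDich hRe hIvt pr_SgZn pr_SgPr)
    (pr_SgMain hBd hRe hIvt hF2 hPosF hEst) pr_SgPb pr_SgLift

end MPb51559.BG.A
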