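import Pool.Agent.Work.MP_b51559_nt.BG.A.StmtsU

set_option autoImplicit false

/-!
# Bounded gaps, part A: character sums over intervals
-/

namespace MPb51559.BG.A

open scoped BigOperators

/-- the sum over the residues `0, ..., q - 1` -/
theorem CSU_zero (q : ℕ) [NeZero q] (χ : DirichletCharacter ℂ q) (hχ : χ ≠ 1) :
    ∑ n ∈ Finset.range q, χ (n : ZMod q) = 0 := by
  have h := MulChar.sum_eq_zero_of_ne_one hχ
  obtain ⟨k, rfl⟩ : ∃ k, q = k + 1 := Nat.exists_eq_succ_of_ne_zero (NeZero.ne q)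
  rw [← h, ← Fin.sum_univ_eq_sum_range (fun n => χ (n : ZMod (k + 1)))]
  refine Finset.sum_congr rfl fun i _ => ?_
  congr 1
  exact Fin.cast_val_eq_self i

/-- the sum over a period -/
theorem CSU_period (q : ℕ) [NeZero q] (χ : DirichletCharacter ℂ q) (hχ : χ ≠ 1) (a : ℕ) :
    ∑ n ∈ Finset.Ico a (a + q), χ (n : ZMod q) = 0 := by
  induction a with
  | zero => rw [zero_add, ← Finset.range_eq_Ico, CSU_zero q χ hχ]
  | succ a ih =>
    have hq : 0 < q := Nat.pos_of_ne_zero (NeZero.ne q)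
    have h1 : ∑ n ∈ Finset.Ico a (a + q + 1), χ (n : ZMod q) =
        χ (a : ZMod q) + ∑ n ∈ Finset.Ico (a + 1) (a + q + 1), χ (n : ZMod q) :=
      Finset.sum_eq_sum_Ico_succ_bot (by omega) _
    have h2 : ∑ n ∈ Finset.Ico a (a + q + 1), χ (n : ZMod q) =
        ∑ n ∈ Finset.Ico a (a + q), χ (n : ZMod q) + χ ((a + q : ℕ) : ZMod q) :=
      Finset.sum_Ico_succ_top (by omega) _
    have h3 : ((a + q : ℕ) : ZMod q) = (a : ZMod q) := by
      rw [Nat.cast_add, ZMod.natCast_self, add_zero]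
    rw [h3, ih, zero_add, h1] at h2
    have h4 : a + 1 + q = a + q + 1 := by omega
    rw [h4]
    have h5 : χ (a : ZMod q) + ∑ n ∈ Finset.Ico (a + 1) (a + q + 1), χ (n : ZMod q) =
        χ (a : ZMod q) + 0 := by rw [h2, add_zero]
    exact add_left_cancel h5

theorem prf_CSU : StCSU := by
  intro q _ χ hχ a b
  have hq : 0 < q := Nat.pos_of_ne_zero (NeZero.ne q)
  have key : ∀ d a b : ℕ, b - a ≤ d → ‖∑ n ∈ Finset.Ico a b, χ (n : ZMod q)‖ ≤ q := by
    intro d
    induction d using Nat.strong_induction_on with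
    | _ d ih =>
      intro a b hd
      by_cases h : b - a < q
      · refine (norm_sum_le _ _).trans ?_
        have h1 : ∑ n ∈ Finset.Ico a b, ‖χ (n : ZMod q)‖ ≤ ∑ n ∈ Finset.Ico a b, (1 : ℝ) :=
          Finset.sum_le_sum fun n _ => DirichletCharacter.norm_le_one χ _
        refine h1.trans ?_
        rw [Finset.sum_const, Nat.card_Ico, nsmul_eq_mul, mul_one]
        exact_mod_cast h.le
      · have h1 : ∑ n ∈ Finset.Ico a b, χ (n : ZMod q) =
            ∑ n ∈ Finset.Ico (a + q) b, χ (n : ZMod q) := by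
          rw [← Finset.sum_Ico_consecutive _ (show a ≤ a + q by omega)
            (show a + q ≤ b by omega), CSU_period q χ hχ a, zero_add]
        rw [h1]
        exact ih (d - q) (by omega) (a + q) b (by omega)
  exact key (b - a) a b le_rfl

end MPb51559.BG.A
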