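import Pool.Agent.Work.MP_b51559_nt.BG.A.StmtsU

/-!
# Bounded gaps, part A, item GDF: differences of `(log n)^j n^(-s)`
-/

namespace MPb51559.BG.A

open Set

/-- derivative of `u ↦ (log u)^j u^(-s)` -/
theorem GDF_deriv (j : ℕ) (s : ℂ) {u : ℝ} (hu : 0 < u) :
    HasDerivAt (fun u : ℝ => ((Real.log u : ℝ) : ℂ) ^ j * (u : ℂ) ^ (-s))
      ((j : ℂ) * ((Real.log u : ℝ) : ℂ) ^ (j - 1) * ((u⁻¹ : ℝ) : ℂ) * (u : ℂ) ^ (-s) +
        ((Real.log u : ℝ) : ℂ) ^ j * (-s * (u : ℂ) ^ (-s - 1))) u := by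
  have h1 : HasDerivAt (fun u : ℝ => ((Real.log u : ℝ) : ℂ)) ((u⁻¹ : ℝ) : ℂ) u :=
    (Real.hasDerivAt_log hu.ne').ofReal_comp
  have h2 : HasDerivAt (fun z : ℂ => z ^ (-s)) (-s * (u : ℂ) ^ (-s - 1)) (u : ℂ) := by
    have h := (hasDerivAt_id (u : ℂ)).cpow_const (c := -s) (Or.inl (by simpa using hu))
    simpa using h
  have h3 : HasDerivAt (fun y : ℝ => (y : ℂ) ^ (-s)) (-s * (u : ℂ) ^ (-s - 1)) u := h2.comp_ofReal
  exact (h1.pow j).mul h3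

/-- bound of the derivative -/
theorem GDF_bound (j : ℕ) (s : ℂ) (hs : 1 < s.re) {n : ℕ} (hn : 3 ≤ n) {u : ℝ}
    (hu : u ∈ Icc (n : ℝ) ((n : ℝ) + 1)) :
    ‖(j : ℂ) * ((Real.log u : ℝ) : ℂ) ^ (j - 1) * ((u⁻¹ : ℝ) : ℂ) * (u : ℂ) ^ (-s) +
        ((Real.log u : ℝ) : ℂ) ^ j * (-s * (u : ℂ) ^ (-s - 1))‖ ≤
      (j + ‖s‖) * (Real.log ((n : ℝ) + 1) ^ j / (n : ℝ) ^ 2) := by
  have hn3 : (3 : ℝ) ≤ n := by exact_mod_cast hn
  have hu3 : 3 ≤ u := hn3.trans hu.1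
  have hu0 : 0 < u := by linarith
  have hlog : 1 ≤ Real.log u := by
    rw [Real.le_log_iff_exp_le hu0]
    exact (Real.exp_one_lt_d9.le.trans (by norm_num)).trans hu3
  have hlog' : Real.log u ≤ Real.log ((n : ℝ) + 1) := Real.log_le_log hu0 hu.2
  have hc1 : ‖(u : ℂ) ^ (-s)‖ = u ^ (-s.re) := by
    rw [Complex.norm_cpow_eq_rpow_re_of_pos hu0, Complex.neg_re]
  have hc2 : ‖(u : ℂ) ^ (-s - 1)‖ = u ^ (-s.re - 1) := by
    rw [Complex.norm_cpow_eq_rpow_re_of_pos hu0, Complex.sub_re, Complex.neg_re, Complex.one_re]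
  have hc3 : u⁻¹ * u ^ (-s.re) = u ^ (-s.re - 1) := by
    rw [Real.rpow_sub hu0, Real.rpow_one, div_eq_mul_inv, mul_comm]
  have hc4 : u ^ (-s.re - 1) ≤ 1 / (n : ℝ) ^ 2 := by
    calc u ^ (-s.re - 1) ≤ u ^ (-2 : ℝ) :=
          Real.rpow_le_rpow_of_exponent_le (by linarith) (by linarith)
      _ = 1 / u ^ 2 := by
          rw [Real.rpow_neg hu0.le, one_div]
          norm_num
      _ ≤ 1 / (n : ℝ) ^ 2 := by
          have := hu.1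
          gcongr
  have hc5 : Real.log u ^ (j - 1) ≤ Real.log u ^ j := pow_le_pow_right₀ hlog (Nat.sub_le _ _)
  have hc6 : Real.log u ^ j ≤ Real.log ((n : ℝ) + 1) ^ j := by
    gcongr
  have hl0 : 0 ≤ Real.log u := by linarith
  have hl2 : 0 ≤ Real.log ((n : ℝ) + 1) ^ j := pow_nonneg (hl0.trans hlog') j
  have hr0 : 0 ≤ u ^ (-s.re - 1) := Real.rpow_nonneg hu0.le _
  refine (norm_add_le _ _).trans ?_
  rw [norm_mul, norm_mul, norm_mul, norm_mul, norm_mul, norm_neg, norm_pow, norm_pow, hc1, hc2,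
    Complex.norm_natCast, Complex.norm_real, Complex.norm_real, Real.norm_of_nonneg hl0,
    Real.norm_of_nonneg (by positivity : (0 : ℝ) ≤ u⁻¹)]
  calc (j : ℝ) * Real.log u ^ (j - 1) * u⁻¹ * u ^ (-s.re) +
        Real.log u ^ j * (‖s‖ * u ^ (-s.re - 1))
      = (j : ℝ) * Real.log u ^ (j - 1) * u ^ (-s.re - 1) +
        Real.log u ^ j * (‖s‖ * u ^ (-s.re - 1)) := by rw [mul_assoc _ u⁻¹, hc3]
    _ ≤ (j : ℝ) * Real.log u ^ j * u ^ (-s.re - 1) +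
        Real.log u ^ j * (‖s‖ * u ^ (-s.re - 1)) := by gcongr
    _ = (j + ‖s‖) * (Real.log u ^ j * u ^ (-s.re - 1)) := by ring
    _ ≤ (j + ‖s‖) * (Real.log ((n : ℝ) + 1) ^ j * (1 / (n : ℝ) ^ 2)) := by gcongr
    _ = _ := by rw [mul_one_div]

theorem prf_GDF : StGDF := by
  intro j s hs n hn
  have h1 := Convex.norm_image_sub_le_of_norm_hasDerivWithin_le (𝕜 := ℝ)
    (f := fun u : ℝ => ((Real.log u : ℝ) : ℂ) ^ j * (u : ℂ) ^ (-s))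
    (f' := fun u : ℝ => (j : ℂ) * ((Real.log u : ℝ) : ℂ) ^ (j - 1) * ((u⁻¹ : ℝ) : ℂ) *
      (u : ℂ) ^ (-s) + ((Real.log u : ℝ) : ℂ) ^ j * (-s * (u : ℂ) ^ (-s - 1)))
    (s := Icc (n : ℝ) ((n : ℝ) + 1)) (x := (n : ℝ)) (y := (n : ℝ) + 1)
    (C := (j + ‖s‖) * (Real.log ((n : ℝ) + 1) ^ j / (n : ℝ) ^ 2))
    (fun u hu => by
      have hn3 : (3 : ℝ) ≤ n := by exact_mod_cast hn
      exact (GDF_deriv j s (by linarith [hu.1])).hasDerivWithinAt)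
    (fun u hu => GDF_bound j s hs hn hu) (convex_Icc _ _)
    (left_mem_Icc.2 (by linarith)) (right_mem_Icc.2 (by linarith))
  have h2 : ‖(n : ℝ) + 1 - n‖ = 1 := by
    rw [add_sub_cancel_left, norm_one]
  rw [h2, mul_one] at h1
  have h3 : (((n : ℝ) + 1 : ℝ) : ℂ) = ((n + 1 : ℕ) : ℂ) := by push_cast; rfl
  have h4 : (((n : ℝ) : ℝ) : ℂ) = ((n : ℕ) : ℂ) := by push_cast; rfl
  have h5 : ((n : ℝ) + 1) = ((n + 1 : ℕ) : ℝ) := by push_cast; rfl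
  simp only [h3, h4] at h1
  rw [h5] at h1 ⊢
  exact h1

end MPb51559.BG.A
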