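import Pool.Agent.Work.MP_b51559_nt.BG.A.StmtsU

/-!
# Bounded gaps, part A, item HDS: heads of the sums
-/

namespace MPb51559.BG.A

open scoped BigOperators

theorem HDS_harm (N : ℕ) : ∑ n ∈ Finset.Icc 1 N, 1 / (n : ℝ) ≤ 1 + Real.log N := by
  have h := harmonic_le_one_add_log N
  rw [harmonic_eq_sum_Icc] at h
  push_cast at h
  simpa [one_div] using h

theorem prf_HDS (hLGE : StLGE) : StHDS := by
  intro η hη j
  obtain ⟨C, hC, h1⟩ := hLGE (η / 2) (half_pos hη) j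
  refine ⟨C * (1 + 2 / η), ?_, fun N hN => ?_⟩
  · have : 0 < 2 / η := by positivity
    nlinarith
  have hN1 : (1 : ℝ) ≤ N := by exact_mod_cast hN
  have hN0 : (0 : ℝ) < N := by linarith
  have hP : (1 : ℝ) ≤ (N : ℝ) ^ (η / 2) := Real.one_le_rpow hN1 (half_pos hη).le
  have hterm : ∀ n ∈ Finset.Icc 1 N, Real.log (n : ℝ) ^ j / (n : ℝ) ≤
      C * (N : ℝ) ^ (η / 2) * (1 / (n : ℝ)) := by
    intro n hn
    rw [Finset.mem_Icc] at hn
    have hn1 : (1 : ℝ) ≤ n := by exact_mod_cast hn.1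
    have hn0 : (0 : ℝ) < n := by linarith
    have hl0 : 0 ≤ Real.log (n : ℝ) := Real.log_nonneg hn1
    have hl1 : Real.log (n : ℝ) ≤ Real.log ((n : ℝ) + 1) := Real.log_le_log hn0 (by linarith)
    have h2 : Real.log (n : ℝ) ^ j ≤ Real.log ((n : ℝ) + 1) ^ j := pow_le_pow_left₀ hl0 hl1 j
    have h3 : (n : ℝ) ^ (η / 2) ≤ (N : ℝ) ^ (η / 2) :=
      Real.rpow_le_rpow hn0.le (by exact_mod_cast hn.2) (half_pos hη).le
    have h4 : Real.log (n : ℝ) ^ j ≤ C * (N : ℝ) ^ (η / 2) :=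
      h2.trans ((h1 n hn.1).trans (mul_le_mul_of_nonneg_left h3 (by linarith)))
    rw [div_eq_mul_one_div]
    exact mul_le_mul_of_nonneg_right h4 (by positivity)
  have hlog : Real.log N ≤ (N : ℝ) ^ (η / 2) / (η / 2) :=
    Real.log_le_rpow_div hN0.le (half_pos hη)
  have hsum : ∑ n ∈ Finset.Icc 1 N, Real.log (n : ℝ) ^ j / (n : ℝ) ≤
      C * (N : ℝ) ^ (η / 2) * (1 + Real.log N) := by
    refine (Finset.sum_le_sum hterm).trans ?_
    rw [← Finset.mul_sum]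
    exact mul_le_mul_of_nonneg_left (HDS_harm N) (by positivity)
  have hfac : 1 + Real.log N ≤ (1 + 2 / η) * (N : ℝ) ^ (η / 2) := by
    have h5 : (N : ℝ) ^ (η / 2) / (η / 2) = 2 / η * (N : ℝ) ^ (η / 2) := by
      field_simp
    rw [h5] at hlog
    nlinarith
  have hsplit : (N : ℝ) ^ (η / 2) * (N : ℝ) ^ (η / 2) = (N : ℝ) ^ η := by
    rw [← Real.rpow_add hN0]
    congr 1
    ring
  calc ∑ n ∈ Finset.Icc 1 N, Real.log (n : ℝ) ^ j / (n : ℝ)
      ≤ C * (N : ℝ) ^ (η / 2) * (1 + Real.log N) := hsum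
    _ ≤ C * (N : ℝ) ^ (η / 2) * ((1 + 2 / η) * (N : ℝ) ^ (η / 2)) :=
        mul_le_mul_of_nonneg_left hfac (by positivity)
    _ = C * (1 + 2 / η) * ((N : ℝ) ^ (η / 2) * (N : ℝ) ^ (η / 2)) := by ring
    _ = C * (1 + 2 / η) * (N : ℝ) ^ η := by rw [hsplit]

end MPb51559.BG.A
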