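import Pool.Agent.Work.MP_b51559_nt.BG.A.StmtsL

/-!
# Bounded gaps, part A, item LBB: lower bound of `L(s, χ)` for `χ² = 1` away from the real axis
-/

set_option autoImplicit false

namespace MPb51559.BG.A

open scoped BigOperators

theorem LBB_rpow_two (a e : ℝ) (ha : 1 ≤ a) (he1 : e ≤ 1) : (2 * a) ^ e ≤ 2 * a ^ e := by
  rw [Real.mul_rpow (by norm_num) (by linarith)]
  have h : (2 : ℝ) ^ e ≤ 2 := by
    calc (2 : ℝ) ^ e ≤ 2 ^ (1 : ℝ) := Real.rpow_le_rpow_of_exponent_le (by norm_num) he1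
      _ = 2 := Real.rpow_one 2
  exact mul_le_mul_of_nonneg_right h (Real.rpow_nonneg (by linarith) _)

theorem prf_LBB (hUB : StUB) (hTR : StTR) (hSUM : StSUM) (hLIP : StLIP) (hT41 : StT41) (hOPT : StOPT) :
    StLBB := by
  intro η hη
  set e : ℝ := min η 1 / 7 with he
  have he0 : 0 < e := by
    have : 0 < min η 1 := lt_min hη one_pos
    rw [he]; positivity
  have he1 : e ≤ 1 := by
    have : min η 1 ≤ 1 := min_le_right _ _
    rw [he]; linarith
  have he7 : 7 * e ≤ η := by
    have : min η 1 ≤ η := min_le_left _ _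
    rw [he]; linarith
  obtain ⟨C0, hC0, hU0⟩ := hTR.1 e he0
  obtain ⟨C1, hC1, hU1⟩ := hUB e he0 1
  set C : ℝ := max C0 C1 with hCdef
  have hCC0 : C0 ≤ C := le_max_left _ _
  have hCC1 : C1 ≤ C := le_max_right _ _
  have hC : 1 ≤ C := hC0.trans hCC0
  refine ⟨1 / (2 * (32 * C) ^ 7), by positivity, ?_⟩
  intro q _ χ hχ hχ2 δ hδ hδ1 s hs1 hs2 hsδ
  have hq : (1 : ℝ) ≤ (q : ℝ) := by
    have : 1 ≤ q := Nat.one_le_iff_ne_zero.mpr (NeZero.ne q)
    exact_mod_cast this
  set y : ℝ := s.im with hy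
  set Q : ℝ := (q : ℝ) * (|y| + 2) with hQ
  have hy0 : 0 ≤ |y| := abs_nonneg y
  have hQ1 : 1 ≤ Q := by
    rw [hQ]; nlinarith
  set E : ℝ := Q ^ e with hE
  have hE1 : 1 ≤ E := Real.one_le_rpow hQ1 he0.le
  have hE0 : 0 < E := by linarith
  -- the bound of the derivative
  have hM : ∀ w : ℂ, 1 < w.re → w.re ≤ 2 → |w.im| ≤ |y| → ‖ell χ 1 w‖ ≤ C * E := by
    intro w hw1 hw2 hw3
    refine (hU1 q χ hχ w hw1 hw2).trans ?_
    have h1 : ((q : ℝ) * (|w.im| + 2)) ^ e ≤ E := by
      rw [hE]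
      apply Real.rpow_le_rpow (by positivity) _ he0.le
      rw [hQ]
      exact mul_le_mul_of_nonneg_left (by linarith) (by linarith)
    exact mul_le_mul hCC1 h1 (Real.rpow_nonneg (by positivity) _) (by linarith)
  have hre : ∀ x : ℝ, ((1 : ℂ) + x + y * Complex.I).re = 1 + x := by
    intro x; simp
  have him : ∀ x : ℝ, ((1 : ℂ) + x + y * Complex.I).im = y := by
    intro x; simp
  have hfin := hOPT (32 * C) C E δ (fun x => ‖ell χ 0 ((1 : ℂ) + x + y * Complex.I)‖)
    (by linarith) (by linarith) (by linarith) hE1 hδ hδ1 (fun x => norm_nonneg _)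
    (by
      intro x hx hx1
      have h1 := hT41 q χ x y hx
      have h2 : ‖ell (1 : DirichletCharacter ℂ q) 0 (1 + x)‖ ≤ 2 / x := by
        have h := hTR.2 q ((1 : ℂ) + x) (by simpa using hx) (by
          have : ((1 : ℂ) + x).re = 1 + x := by simp
          rw [this]; linarith)
        have e1 : ((1 : ℂ) + x).re - 1 = x := by simp
        rwa [e1] at h
      have h3 : ‖ell (χ ^ 2) 0 (1 + x + 2 * y * Complex.I)‖ ≤ 4 * C * E / δ := by
        rw [hχ2]
        have hr : ((1 : ℂ) + x + 2 * y * Complex.I).re = 1 + x := by simp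
        have hi : ((1 : ℂ) + x + 2 * y * Complex.I).im = 2 * y := by simp
        have h := hU0 q ((1 : ℂ) + x + 2 * y * Complex.I) (by rw [hr]; linarith)
          (by rw [hr]; linarith)
        rw [hi] at h
        refine h.trans ?_
        have h4 : ((q : ℝ) * (|2 * y| + 2)) ^ e ≤ 2 * E := by
          refine le_trans ?_ (LBB_rpow_two Q e hQ1 he1)
          apply Real.rpow_le_rpow (by positivity) _ he0.le
          rw [abs_mul, abs_two, hQ]
          nlinarith
        have h5 : 2 * δ ≤ ‖((1 : ℂ) + x + 2 * y * Complex.I) - 1‖ := by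
          refine le_trans ?_ (Complex.abs_im_le_norm _)
          have hi2 : (((1 : ℂ) + x + 2 * y * Complex.I) - 1).im = 2 * y := by simp
          rw [hi2, abs_mul, abs_two]
          linarith
        have h6 : 1 + 1 / ‖((1 : ℂ) + x + 2 * y * Complex.I) - 1‖ ≤ 2 / δ := by
          have h7 : 1 / ‖((1 : ℂ) + x + 2 * y * Complex.I) - 1‖ ≤ 1 / (2 * δ) :=
            one_div_le_one_div_of_le (by positivity) h5
          have h8 : 1 + 1 / (2 * δ) ≤ 2 / δ := by
            rw [← sub_nonneg]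
            have : 2 / δ - (1 + 1 / (2 * δ)) = (3 / 2 - δ) / δ := by
              field_simp
              ring
            rw [this]
            exact div_nonneg (by linarith) hδ.le
          linarith
        have h9 : 0 ≤ 1 + 1 / ‖((1 : ℂ) + x + 2 * y * Complex.I) - 1‖ := by positivity
        calc C0 * ((q : ℝ) * (|2 * y| + 2)) ^ e *
              (1 + 1 / ‖((1 : ℂ) + x + 2 * y * Complex.I) - 1‖) ≤ (C * (2 * E)) * (2 / δ) := by
              apply mul_le_mul _ h6 h9 (by positivity)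
              exact mul_le_mul hCC0 h4 (Real.rpow_nonneg (by positivity) _) (by linarith)
          _ = 4 * C * E / δ := by
              field_simp
              ring
      set A : ℝ := ‖ell (1 : DirichletCharacter ℂ q) 0 (1 + x)‖ with hA
      set F : ℝ := ‖ell χ 0 ((1 : ℂ) + x + y * Complex.I)‖ with hF
      set B : ℝ := ‖ell (χ ^ 2) 0 (1 + x + 2 * y * Complex.I)‖ with hB
      have hA0 : 0 ≤ A := norm_nonneg _
      have hF0 : 0 ≤ F := norm_nonneg _
      have hB0 : 0 ≤ B := norm_nonneg _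
      have h5 : A ^ 3 ≤ (2 / x) ^ 3 := pow_le_pow_left₀ hA0 h2 3
      have h6 : A ^ 3 * F ^ 4 * B ≤ (2 / x) ^ 3 * F ^ 4 * (4 * C * E / δ) := by
        apply mul_le_mul _ h3 hB0 (by positivity)
        exact mul_le_mul_of_nonneg_right h5 (by positivity)
      have h7 : 1 ≤ (2 / x) ^ 3 * F ^ 4 * (4 * C * E / δ) := h1.trans h6
      have h8 : (2 / x) ^ 3 * F ^ 4 * (4 * C * E / δ) = (32 * C * E * F ^ 4) / (x ^ 3 * δ) := by
        field_simp
        ring
      rw [h8, le_div_iff₀ (by positivity)] at h7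
      linarith)
    (by
      intro x x' hx hxx hx1
      have h := hLIP q χ hχ (C * E) |y| hy0 hM ((1 : ℂ) + x' + y * Complex.I)
        ((1 : ℂ) + x + y * Complex.I) (by rw [hre]; linarith) (by rw [hre]; linarith)
        (by rw [him]) (by rw [hre]; linarith) (by rw [hre]; linarith) (by rw [him])
      have e1 : ((1 : ℂ) + x' + y * Complex.I) - ((1 : ℂ) + x + y * Complex.I) =
          ((x' - x : ℝ) : ℂ) := by
        push_cast; ring
      rw [e1, Complex.norm_real, Real.norm_eq_abs, abs_of_pos (by linarith : (0 : ℝ) < x' - x),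
        ← (hSUM q χ 0 _ (by rw [hre]; linarith)).2.2.1,
        ← (hSUM q χ 0 ((1 : ℂ) + x + y * Complex.I) (by rw [hre]; linarith)).2.2.1] at h
      have h2 := norm_sub_norm_le (ell χ 0 ((1 : ℂ) + x' + y * Complex.I))
        (ell χ 0 ((1 : ℂ) + x + y * Complex.I))
      calc _ ≤ _ := h2
        _ ≤ _ := h
        _ = _ := by ring)
    (s.re - 1) (by linarith) (by linarith)
  have es : (1 : ℂ) + ((s.re - 1 : ℝ) : ℂ) + y * Complex.I = s := by
    apply Complex.ext
    · rw [hre]; ring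
    · rw [him]
  rw [es] at hfin
  refine le_trans ?_ hfin
  have hE7 : E ^ 7 ≤ Q ^ η := by
    rw [hE, ← Real.rpow_natCast, ← Real.rpow_mul (by linarith)]
    apply Real.rpow_le_rpow_of_exponent_le hQ1
    push_cast
    linarith
  have hQη : 0 < Q ^ η := Real.rpow_pos_of_pos (by linarith) _
  have hCp : 0 < (32 * C) ^ 7 := by positivity
  have hfinal : 1 / (2 * (32 * C) ^ 7) * Q ^ (-η) ≤ 1 / (2 * (32 * C * E) ^ 7) := by
    rw [Real.rpow_neg (by linarith), mul_pow, one_div, one_div, ← mul_inv]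
    apply inv_anti₀ (by positivity)
    nlinarith
  calc 1 / (2 * (32 * C) ^ 7) * δ * Q ^ (-η) = δ * (1 / (2 * (32 * C) ^ 7) * Q ^ (-η)) := by ring
    _ ≤ δ * (1 / (2 * (32 * C * E) ^ 7)) := mul_le_mul_of_nonneg_left hfinal hδ.le
    _ = δ / (2 * (32 * C * E) ^ 7) := by ring

end MPb51559.BG.A
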