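import Pool.Agent.Work.MP_b51559_nt.BG.A.StmtsL

/-!
# Bounded gaps, part A, item LBP: assembly of the lower bound
-/

namespace MPb51559.BG.A

theorem prf_LBP (hA : StLBA) (hB : StLBB) (hC : StLBC) : StLB := by
  intro η hη
  obtain ⟨a, ha, hA'⟩ := hA η hη
  obtain ⟨b, hb, hB'⟩ := hB (η / 2) (half_pos hη)
  obtain ⟨c, hc, hc1, hC'⟩ := hC (η / 2) (half_pos hη)
  refine ⟨min a (min c (b * c)), lt_min ha (lt_min hc (mul_pos hb hc)), ?_⟩
  intro q _ χ hχ s hs1 hs2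
  have hq1 : (1 : ℝ) ≤ (q : ℝ) := by
    have : 1 ≤ q := NeZero.one_le
    exact_mod_cast this
  have hq0 : (0 : ℝ) < (q : ℝ) := by linarith
  have hQ : (q : ℝ) ≤ (q : ℝ) * (|s.im| + 2) := by
    have := abs_nonneg s.im
    nlinarith
  have hQ1 : (1 : ℝ) ≤ (q : ℝ) * (|s.im| + 2) := hq1.trans hQ
  set Q : ℝ := (q : ℝ) * (|s.im| + 2) with hQdef
  have hQ0 : 0 < Q := by linarith
  have hp : 0 ≤ Q ^ (-η) := Real.rpow_nonneg hQ0.le _
  have h1 : Q ^ (-η) ≤ Q ^ (-(η / 2)) := Real.rpow_le_rpow_of_exponent_le hQ1 (by linarith)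
  have h2 : Q ^ (-(η / 2)) ≤ (q : ℝ) ^ (-(η / 2)) :=
    Real.rpow_le_rpow_of_nonpos hq0 hQ (by linarith)
  by_cases h : χ ^ 2 = 1
  · by_cases hs : |s.im| ≤ c * (q : ℝ) ^ (-(η / 2))
    · calc min a (min c (b * c)) * Q ^ (-η) ≤ c * Q ^ (-η) :=
            mul_le_mul_of_nonneg_right ((min_le_right _ _).trans (min_le_left _ _)) hp
        _ ≤ c * (q : ℝ) ^ (-(η / 2)) := mul_le_mul_of_nonneg_left (h1.trans h2) hc.le
        _ ≤ ‖ell χ 0 s‖ := hC' q χ hχ h s hs1 hs2 hs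
    · have hδ0 : 0 < c * (q : ℝ) ^ (-(η / 2)) := mul_pos hc (Real.rpow_pos_of_pos hq0 _)
      have hδ1 : c * (q : ℝ) ^ (-(η / 2)) ≤ 1 := by
        have h3 : (q : ℝ) ^ (-(η / 2)) ≤ 1 := Real.rpow_le_one_of_one_le_of_nonpos hq1 (by linarith)
        calc c * (q : ℝ) ^ (-(η / 2)) ≤ 1 * 1 := mul_le_mul hc1 h3 (Real.rpow_nonneg hq0.le _) zero_le_one
          _ = 1 := one_mul 1
      have h4 := hB' q χ hχ h _ hδ0 hδ1 s hs1 hs2 (not_le.1 hs).le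
      have h5 : Q ^ (-η) = Q ^ (-(η / 2)) * Q ^ (-(η / 2)) := by
        rw [← Real.rpow_add hQ0]
        congr 1
        ring
      calc min a (min c (b * c)) * Q ^ (-η) ≤ (b * c) * Q ^ (-η) :=
            mul_le_mul_of_nonneg_right ((min_le_right _ _).trans (min_le_right _ _)) hp
        _ = b * (c * Q ^ (-(η / 2))) * Q ^ (-(η / 2)) := by rw [h5]; ring
        _ ≤ b * (c * (q : ℝ) ^ (-(η / 2))) * Q ^ (-(η / 2)) := by
            refine mul_le_mul_of_nonneg_right ?_ (Real.rpow_nonneg hQ0.le _)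
            exact mul_le_mul_of_nonneg_left (mul_le_mul_of_nonneg_left h2 hc.le) hb.le
        _ ≤ ‖ell χ 0 s‖ := h4
  · calc min a (min c (b * c)) * Q ^ (-η) ≤ a * Q ^ (-η) :=
          mul_le_mul_of_nonneg_right (min_le_left _ _) hp
      _ ≤ ‖ell χ 0 s‖ := hA' q χ hχ h s hs1 hs2

end MPb51559.BG.A
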