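import Pool.Agent.Work.MP_b51559_nt.BG.A.StmtsU

/-!
# Bounded gaps, part A, item LGE: powers of the logarithm are smaller than powers
-/

namespace MPb51559.BG.A

/-- `(log (n+1))^j ≤ C n^η` for `n ≥ 1` -/
theorem prf_LGE : StLGE := by
  intro η hη j
  set ε : ℝ := η / (j + 1) with hε
  have hj : (0 : ℝ) < (j : ℝ) + 1 := by positivity
  have hε0 : 0 < ε := div_pos hη hj
  refine ⟨max 1 ((2 ^ ε / ε) ^ j), le_max_left _ _, ?_⟩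
  intro n hn
  have hn1 : (1 : ℝ) ≤ n := by exact_mod_cast hn
  have hn0 : (0 : ℝ) ≤ n := by linarith
  have h1 : Real.log ((n : ℝ) + 1) ≤ (2 ^ ε / ε) * (n : ℝ) ^ ε := by
    have h2 : Real.log ((n : ℝ) + 1) ≤ ((n : ℝ) + 1) ^ ε / ε :=
      Real.log_le_rpow_div (by linarith) hε0
    have h3 : ((n : ℝ) + 1) ^ ε ≤ (2 * (n : ℝ)) ^ ε :=
      Real.rpow_le_rpow (by linarith) (by linarith) hε0.le
    rw [Real.mul_rpow (by norm_num) hn0] at h3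
    calc Real.log ((n : ℝ) + 1) ≤ ((n : ℝ) + 1) ^ ε / ε := h2
      _ ≤ (2 ^ ε * (n : ℝ) ^ ε) / ε := div_le_div_of_nonneg_right h3 hε0.le
      _ = (2 ^ ε / ε) * (n : ℝ) ^ ε := by ring
  have h0 : 0 ≤ Real.log ((n : ℝ) + 1) := Real.log_nonneg (by linarith)
  have h4 : Real.log ((n : ℝ) + 1) ^ j ≤ ((2 ^ ε / ε) * (n : ℝ) ^ ε) ^ j :=
    pow_le_pow_left₀ h0 h1 j
  have h5 : ((n : ℝ) ^ ε) ^ j ≤ (n : ℝ) ^ η := by
    rw [← Real.rpow_natCast, ← Real.rpow_mul hn0]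
    refine Real.rpow_le_rpow_of_exponent_le hn1 ?_
    rw [hε, div_mul_eq_mul_div, div_le_iff₀ hj]
    nlinarith
  calc Real.log ((n : ℝ) + 1) ^ j ≤ ((2 ^ ε / ε) * (n : ℝ) ^ ε) ^ j := h4
    _ = (2 ^ ε / ε) ^ j * ((n : ℝ) ^ ε) ^ j := mul_pow _ _ _
    _ ≤ max 1 ((2 ^ ε / ε) ^ j) * (n : ℝ) ^ η :=
        mul_le_mul (le_max_right _ _) h5 (by positivity) (by positivity)

end MPb51559.BG.A
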