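import Pool.Agent.Work.MP_b51559_nt.BG.A.StmtsL

/-!
Item LIP: Lipschitz bound for `L(s, χ)` in `1 ≤ Re s ≤ 2`.
-/

namespace MPb51559.BG.A

open Filter Topology

theorem LIP_convex (T : ℝ) : Convex ℝ {s : ℂ | 1 < s.re ∧ s.re ≤ 2 ∧ |s.im| ≤ T} := by
  intro s hs s' hs' a b ha hb hab
  obtain ⟨h1, h2, h3⟩ := hs
  obtain ⟨h4, h5, h6⟩ := hs'
  rw [abs_le] at h3 h6
  refine ⟨?_, ?_, ?_⟩
  · simp only [Complex.add_re, Complex.real_smul, Complex.mul_re, Complex.ofReal_re,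
      Complex.ofReal_im, zero_mul, sub_zero]
    rcases ha.eq_or_lt with h | h
    · subst h
      have : b = 1 := by linarith
      subst this
      linarith
    · nlinarith
  · simp only [Complex.add_re, Complex.real_smul, Complex.mul_re, Complex.ofReal_re,
      Complex.ofReal_im, zero_mul, sub_zero]
    nlinarith
  · simp only [Complex.add_im, Complex.real_smul, Complex.mul_im, Complex.ofReal_re,
      Complex.ofReal_im, zero_mul, add_zero]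
    rw [abs_le]
    constructor <;> nlinarith

theorem prf_LIP (hSUM : StSUM) : StLIP := by
  intro q _ χ hχ M T hT hM s s' hs1 hs2 hs3 hs1' hs2' hs3'
  have hd : Differentiable ℂ (DirichletCharacter.LFunction χ) :=
    DirichletCharacter.differentiable_LFunction hχ
  have key : ∀ z ∈ {s : ℂ | 1 < s.re ∧ s.re ≤ 2 ∧ |s.im| ≤ T},
      ∀ z' ∈ {s : ℂ | 1 < s.re ∧ s.re ≤ 2 ∧ |s.im| ≤ T},
      ‖DirichletCharacter.LFunction χ z - DirichletCharacter.LFunction χ z'‖ ≤ M * ‖z - z'‖ := by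
    intro z hz z' hz'
    refine Convex.norm_image_sub_le_of_norm_deriv_le (𝕜 := ℂ) (fun x _ => hd x) ?_
      (LIP_convex T) hz' hz
    intro x hx
    rw [(hSUM q χ 0 x hx.1).2.2.2, norm_neg]
    exact hM x hx.1 hx.2.1 hx.2.2
  have hmem : ∀ w : ℂ, 1 ≤ w.re → w.re ≤ 2 → |w.im| ≤ T → ∀ ε : ℝ, 0 < ε → ε ≤ 1 →
      (((1 - ε : ℝ) : ℂ) * w + ((2 * ε : ℝ) : ℂ)) ∈
        {s : ℂ | 1 < s.re ∧ s.re ≤ 2 ∧ |s.im| ≤ T} := by
    intro w h1 h2 h3 ε h4 h5
    rw [abs_le] at h3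
    refine ⟨?_, ?_, ?_⟩
    · simp only [Complex.add_re, Complex.mul_re, Complex.ofReal_re, Complex.ofReal_im, zero_mul,
        sub_zero]
      nlinarith
    · simp only [Complex.add_re, Complex.mul_re, Complex.ofReal_re, Complex.ofReal_im, zero_mul,
        sub_zero]
      nlinarith
    · simp only [Complex.add_im, Complex.mul_im, Complex.ofReal_re, Complex.ofReal_im, zero_mul,
        add_zero]
      rw [abs_le]
      constructor <;> nlinarith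
  have hcont : ∀ w : ℂ, Tendsto (fun ε : ℝ => ((1 - ε : ℝ) : ℂ) * w + ((2 * ε : ℝ) : ℂ))
      (𝓝[>] 0) (𝓝 w) := by
    intro w
    have h1 : Continuous (fun ε : ℝ => ((1 - ε : ℝ) : ℂ) * w + ((2 * ε : ℝ) : ℂ)) := by
      fun_prop
    have h2 := h1.tendsto 0
    have h3 : ((1 - (0 : ℝ) : ℝ) : ℂ) * w + ((2 * (0 : ℝ) : ℝ) : ℂ) = w := by simp
    rw [h3] at h2
    exact h2.mono_left nhdsWithin_le_nhds
  have hL : Tendsto (fun ε : ℝ =>
      ‖DirichletCharacter.LFunction χ (((1 - ε : ℝ) : ℂ) * s + ((2 * ε : ℝ) : ℂ)) -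
        DirichletCharacter.LFunction χ (((1 - ε : ℝ) : ℂ) * s' + ((2 * ε : ℝ) : ℂ))‖)
      (𝓝[>] 0) (𝓝 ‖DirichletCharacter.LFunction χ s - DirichletCharacter.LFunction χ s'‖) :=
    (((hd.continuous.tendsto s).comp (hcont s)).sub
      ((hd.continuous.tendsto s').comp (hcont s'))).norm
  have hR : Tendsto (fun ε : ℝ => M * ‖(((1 - ε : ℝ) : ℂ) * s + ((2 * ε : ℝ) : ℂ)) -
      (((1 - ε : ℝ) : ℂ) * s' + ((2 * ε : ℝ) : ℂ))‖) (𝓝[>] 0) (𝓝 (M * ‖s - s'‖)) :=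
    ((hcont s).sub (hcont s')).norm.const_mul M
  refine le_of_tendsto_of_tendsto hL hR ?_
  have h1 : ∀ᶠ ε : ℝ in 𝓝[>] 0, 0 < ε := eventually_mem_nhdsWithin
  have h2 : ∀ᶠ ε : ℝ in 𝓝[>] 0, ε ≤ 1 :=
    mem_nhdsWithin_of_mem_nhds (Iic_mem_nhds one_pos)
  filter_upwards [h1, h2] with ε h3 h4
  exact key _ (hmem s hs1 hs2 hs3 ε h3 h4) _ (hmem s' hs1' hs2' hs3' ε h3 h4)

end MPb51559.BG.A
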