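import Pool.Agent.Work.MP_b51559_nt.BG.A.StmtsL

/-!
# Item MOB of the block [b51559 BG-A]: trivial lower bound by the Moebius function
-/

namespace MPb51559.BG.A

open scoped BigOperators ArithmeticFunction ArithmeticFunction.Moebius
open LSeries

/-- the terms of the series of the trivial character -/
noncomputable def MOB_a (σ : ℝ) (n : ℕ) : ℝ := if n = 0 then 0 else 1 / (n : ℝ) ^ σ

theorem MOB_term (σ : ℝ) (n : ℕ) :
    term (cell (1 : DirichletCharacter ℂ 1) 0) (σ : ℂ) n = ((MOB_a σ n : ℝ) : ℂ) := by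
  rw [term_def, MOB_a]
  by_cases h : n = 0
  · rw [if_pos h, if_pos h, Complex.ofReal_zero]
  · rw [if_neg h, if_neg h, cell, pow_zero, mul_one]
    have h1 : (1 : DirichletCharacter ℂ 1) ((n : ℕ) : ZMod 1) = 1 :=
      MulChar.one_apply (isUnit_of_subsingleton _)
    rw [h1]
    push_cast
    rw [Complex.ofReal_cpow (Nat.cast_nonneg n)]
    simp

theorem MOB_nonneg (σ : ℝ) (n : ℕ) : 0 ≤ MOB_a σ n := by
  rw [MOB_a]
  split_ifs
  · exact le_rfl
  · positivity

theorem MOB_tsum (σ : ℝ) : ∑' n, MOB_a σ n = ‖ell (1 : DirichletCharacter ℂ 1) 0 (σ : ℂ)‖ := by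
  have h1 : ell (1 : DirichletCharacter ℂ 1) 0 (σ : ℂ) = ((∑' n, MOB_a σ n : ℝ) : ℂ) := by
    rw [ell, LSeries, Complex.ofReal_tsum]
    exact tsum_congr fun n => MOB_term σ n
  rw [h1, Complex.norm_real, Real.norm_eq_abs, abs_of_nonneg (tsum_nonneg (MOB_nonneg σ))]

theorem prf_MOB (hTR : StTR) (hSUM : StSUM) : StMOB := by
  intro q _ χ s hs hs2
  have hprod := DirichletCharacter.LSeries.mul_mu_eq_one χ hs
  obtain ⟨-, -, hL, -⟩ := hSUM q χ 0 s hs
  have he : ell χ 0 s = LSeries (fun n : ℕ => χ (n : ZMod q)) s := by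
    rw [hL, DirichletCharacter.LFunction_eq_LSeries χ hs]
  have hσ : 0 < s.re - 1 := by linarith
  have hsum1 : Summable (MOB_a s.re) := by
    have h1 := (hSUM 1 (1 : DirichletCharacter ℂ 1) 0 ((s.re : ℝ) : ℂ) (by
      rw [Complex.ofReal_re]
      exact hs)).1
    have h2 : Summable (fun n => ((MOB_a s.re n : ℝ) : ℂ)) := by
      refine Summable.congr h1 fun n => ?_
      exact MOB_term s.re n
    exact Complex.summable_ofReal.1 h2
  have hbd : ‖LSeries ((fun n : ℕ => χ (n : ZMod q)) * fun n : ℕ => ((μ n : ℤ) : ℂ)) s‖ ≤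
      2 / (s.re - 1) := by
    have hle : ∀ n, ‖term ((fun n : ℕ => χ (n : ZMod q)) * fun n : ℕ => ((μ n : ℤ) : ℂ)) s n‖ ≤
        MOB_a s.re n := by
      intro n
      rw [norm_term_eq, MOB_a]
      by_cases h : n = 0
      · rw [if_pos h, if_pos h]
      · rw [if_neg h, if_neg h]
        have h3 : ‖((fun n : ℕ => χ (n : ZMod q)) * fun n : ℕ => ((μ n : ℤ) : ℂ)) n‖ ≤ 1 := by
          rw [Pi.mul_apply, norm_mul]
          have h4 : ‖χ ((n : ℕ) : ZMod q)‖ ≤ 1 := DirichletCharacter.norm_le_one χ _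
          have h5 : ‖((μ n : ℤ) : ℂ)‖ ≤ 1 := by
            rw [Complex.norm_intCast]
            have h6 := ArithmeticFunction.abs_moebius_le_one (n := n)
            exact_mod_cast h6
          calc ‖χ ((n : ℕ) : ZMod q)‖ * ‖((μ n : ℤ) : ℂ)‖ ≤ 1 * 1 :=
                mul_le_mul h4 h5 (norm_nonneg _) zero_le_one
            _ = 1 := one_mul 1
        gcongr
    have hsn : Summable fun n => ‖term ((fun n : ℕ => χ (n : ZMod q)) *
        fun n : ℕ => ((μ n : ℤ) : ℂ)) s n‖ :=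
      Summable.of_nonneg_of_le (fun n => norm_nonneg _) hle hsum1
    have h7 := (norm_tsum_le_tsum_norm hsn).trans (hsn.tsum_le_tsum hle hsum1)
    have h8 := hTR.2 1 ((s.re : ℝ) : ℂ) (by rw [Complex.ofReal_re]; exact hs)
      (by rw [Complex.ofReal_re]; exact hs2)
    rw [← MOB_tsum, Complex.ofReal_re] at h8
    exact h7.trans h8
  have hn : ‖ell χ 0 s‖ *
      ‖LSeries ((fun n : ℕ => χ (n : ZMod q)) * fun n : ℕ => ((μ n : ℤ) : ℂ)) s‖ = 1 := by
    rw [← norm_mul, he, hprod, norm_one]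
  have h9 : 1 ≤ ‖ell χ 0 s‖ * (2 / (s.re - 1)) :=
    hn.symm.le.trans (mul_le_mul_of_nonneg_left hbd (norm_nonneg _))
  have h10 : ‖ell χ 0 s‖ * (2 / (s.re - 1)) = ‖ell χ 0 s‖ * 2 / (s.re - 1) := by ring
  rw [h10, le_div_iff₀ hσ] at h9
  linarith

end MPb51559.BG.A
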