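import Pool.Agent.Work.MP_b51559_nt.BG.A.StmtsL

namespace MPb51559.BG.A

/-- the range `x₀ ≤ x ≤ 1` -/
theorem OPT_big {R δ x v : ℝ} (hR : 1 ≤ R) (hδ : 0 < δ) (hx : δ / R ^ 8 ≤ x) (hv : 0 ≤ v)
    (h : x ^ 3 * δ ≤ R * v ^ 4) : δ / R ^ 7 ≤ v := by
  have hR0 : (0 : ℝ) < R := by linarith
  by_contra hlt
  push Not at hlt
  have h0 : 0 < δ / R ^ 8 := by positivity
  have h1 : (δ / R ^ 8) ^ 3 ≤ x ^ 3 := pow_le_pow_left₀ h0.le hx 3
  have h2 : v ^ 4 < (δ / R ^ 7) ^ 4 := pow_lt_pow_left₀ hlt hv (by norm_num)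
  have h3 : (δ / R ^ 8) ^ 3 * δ ≤ x ^ 3 * δ := mul_le_mul_of_nonneg_right h1 hδ.le
  have h4 : R * v ^ 4 < R * (δ / R ^ 7) ^ 4 := mul_lt_mul_of_pos_left h2 hR0
  have h5 : (δ / R ^ 8) ^ 3 * δ = δ ^ 4 / R ^ 24 := by
    rw [div_pow]; field_simp
  have h6 : R * (δ / R ^ 7) ^ 4 = δ ^ 4 / R ^ 27 := by
    rw [div_pow]; field_simp
  have h7 : δ ^ 4 / R ^ 27 ≤ δ ^ 4 / R ^ 24 :=
    div_le_div_of_nonneg_left (by positivity) (by positivity) (pow_le_pow_right₀ hR (by norm_num))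
  linarith

theorem prf_OPT : StOPT := by
  intro κ C E δ f hκ hC hCκ hE hδ hδ1 hf h4 hlip x hx hx1
  have hR : 1 ≤ κ * E := one_le_mul_of_one_le_of_one_le hκ hE
  have hR0 : 0 < κ * E := by linarith
  have hx0 : 0 < δ / (κ * E) ^ 8 := by positivity
  have hx01 : δ / (κ * E) ^ 8 ≤ 1 := by
    rw [div_le_one (by positivity)]
    exact hδ1.trans (one_le_pow₀ hR)
  have hhalf : δ / (2 * (κ * E) ^ 7) = δ / (κ * E) ^ 7 / 2 := by
    field_simp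
  have hpos : 0 < δ / (κ * E) ^ 7 := by positivity
  rcases le_or_gt (δ / (κ * E) ^ 8) x with hc | hc
  · have h := OPT_big hR hδ hc (hf x) (h4 x hx hx1)
    rw [hhalf]
    linarith
  · have h := OPT_big hR hδ le_rfl (hf _) (h4 _ hx0 hx01)
    have hl := hlip x _ hx hc hx01
    have hCE : 0 ≤ C * E := mul_nonneg hC (by linarith)
    have h1 : (δ / (κ * E) ^ 8 - x) * (C * E) ≤ δ / (κ * E) ^ 8 * (C * E) :=
      mul_le_mul_of_nonneg_right (by linarith) hCE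
    have h2 : δ / (κ * E) ^ 8 * (C * E) ≤ δ / (κ * E) ^ 8 * (κ * E / 2) := by
      apply mul_le_mul_of_nonneg_left _ hx0.le
      nlinarith
    have h3 : δ / (κ * E) ^ 8 * (κ * E / 2) = δ / (κ * E) ^ 7 / 2 := by
      field_simp
    rw [hhalf]
    linarith

end MPb51559.BG.A
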