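import Pool.Agent.Work.MP_b51559_nt.BG.A.StmtsW

set_option autoImplicit false

/-!
# Item PNW: the prime number theorem with a weight
-/

namespace MPb51559.BG.A

open scoped BigOperators
open Filter Topology MeasureTheory

theorem PNW_wc {w : ℝ → ℝ} (hw : Wt w) : Wc w :=
  ⟨hw.smooth, fun u hu => ⟨by have := (hw.supp u hu).1; linarith, by have := (hw.supp u hu).2; linarith⟩⟩

/-- the sum as an integral -/
theorem PNW_repr (hABW : StABW) {w : ℝ → ℝ} (hw : Wc w) {x : ℝ} (hx : 0 < x) :
    thW w x 1 0 = - ∫ u in (1 : ℝ)..2, Chebyshev.theta (u * x) * deriv w u := by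
  have h := hABW w hw (fun n => if n.Prime then ((Real.log (n : ℝ) : ℝ) : ℂ) else 0) x hx
  have h1 : ∑ n ∈ Finset.range (⌊2 * x⌋₊ + 1),
      (if n.Prime then ((Real.log (n : ℝ) : ℝ) : ℂ) else 0) * ((w ((n : ℝ) / x) : ℝ) : ℂ) =
      ((thW w x 1 0 : ℝ) : ℂ) := by
    have hf : (Finset.range (⌊2 * x⌋₊ + 1)).filter
        (fun p : ℕ => p.Prime ∧ ((p : ℕ) : ZMod 1) = ((0 : ℕ) : ZMod 1)) =
        (Finset.range (⌊2 * x⌋₊ + 1)).filter Nat.Prime := by
      apply Finset.filter_congr
      intro p _
      constructor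
      · exact fun hp => hp.1
      · exact fun hp => ⟨hp, Subsingleton.elim _ _⟩
    unfold thW
    rw [hf, Finset.sum_filter, Complex.ofReal_sum]
    refine Finset.sum_congr rfl fun n _ => ?_
    by_cases hn : n.Prime
    · simp [hn]
    · simp [hn]
  have h2 : ∀ u : ℝ, ∑ n ∈ Finset.Icc 1 ⌊u * x⌋₊,
      (if n.Prime then ((Real.log (n : ℝ) : ℝ) : ℂ) else 0) = ((Chebyshev.theta (u * x) : ℝ) : ℂ) := by
    intro u
    rw [Chebyshev.theta, Complex.ofReal_sum, ← Finset.sum_filter]
    refine Finset.sum_congr ?_ fun _ _ => rfl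
    congr 1
  rw [h1] at h
  simp only [h2] at h
  have h3 : ∫ u in (1 : ℝ)..2, ((Chebyshev.theta (u * x) : ℝ) : ℂ) * ((deriv w u : ℝ) : ℂ) =
      ((∫ u in (1 : ℝ)..2, Chebyshev.theta (u * x) * deriv w u : ℝ) : ℂ) := by
    rw [← intervalIntegral.integral_ofReal]
    refine intervalIntegral.integral_congr fun u _ => ?_
    simp
  rw [h3] at h
  exact_mod_cast h

theorem PNW_deriv_cont {w : ℝ → ℝ} (hw : ∀ m : ℕ, ContDiff ℝ m w) : Continuous (deriv w) :=
  (hw 1).continuous_deriv (by norm_num)

/-- the integral of `u w'(u)` -/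
theorem PNW_parts {w : ℝ → ℝ} (hw : Wt w) :
    - ∫ u in (1 : ℝ)..2, u * deriv w u = ∫ u, w u := by
  have hd : Differentiable ℝ w := (hw.smooth 1).differentiable (by norm_num)
  have hc := PNW_deriv_cont hw.smooth
  have h := intervalIntegral.integral_mul_deriv_eq_deriv_mul (a := 1) (b := 2) (u := fun u : ℝ => u)
    (u' := fun _ => 1) (v := w) (v' := deriv w) (fun x _ => hasDerivAt_id x)
    (fun x _ => (hd x).hasDerivAt) (intervalIntegrable_const) (hc.intervalIntegrable _ _)
  have hw1 : w 1 = 0 := by
    by_contra h1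
    have := (hw.supp 1 h1).1
    linarith
  have hw2 : w 2 = 0 := by
    by_contra h1
    have := (hw.supp 2 h1).2
    linarith
  rw [h, hw1, hw2]
  have h4 : ∫ u in (1 : ℝ)..2, 1 * w u = ∫ u, w u := by
    simp only [one_mul]
    rw [intervalIntegral.integral_of_le (by norm_num)]
    apply setIntegral_eq_integral_of_forall_compl_eq_zero
    intro u hu
    by_contra h1
    have h5 := hw.supp u h1
    exact hu ⟨by linarith [h5.1], by linarith [h5.2]⟩
  rw [h4]
  ring

theorem prf_PNW (hABW : StABW) (hTHT : StTHT) : PNTW := by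
  intro w hw
  have hc := PNW_deriv_cont hw.smooth
  have hlim : Tendsto (fun x : ℝ => ∫ u in (1 : ℝ)..2, Chebyshev.theta (u * x) / x * deriv w u) atTop
      (𝓝 (∫ u in (1 : ℝ)..2, u * deriv w u)) := by
    refine intervalIntegral.tendsto_integral_filter_of_dominated_convergence
      (fun u => Real.log 4 * 2 * |deriv w u|) ?_ ?_ ?_ ?_
    · filter_upwards [eventually_gt_atTop (0 : ℝ)] with x hx
      have hm : Measurable fun u : ℝ => Chebyshev.theta (u * x) := by
        refine Monotone.measurable fun a b hab => Chebyshev.theta_mono ?_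
        exact mul_le_mul_of_nonneg_right hab hx.le
      exact ((hm.div_const x).mul hc.measurable).aestronglyMeasurable
    · filter_upwards [eventually_gt_atTop (0 : ℝ)] with x hx
      refine Eventually.of_forall fun u hu => ?_
      rw [Set.uIoc_of_le (by norm_num)] at hu
      have hu0 : 0 < u := by linarith [hu.1]
      rw [norm_mul, Real.norm_eq_abs, Real.norm_eq_abs]
      refine mul_le_mul_of_nonneg_right ?_ (abs_nonneg _)
      rw [abs_of_nonneg (div_nonneg (Chebyshev.theta_nonneg _) hx.le), div_le_iff₀ hx]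
      have h1 := Chebyshev.theta_le_log4_mul_x (x := u * x) (by positivity)
      have hl : 0 < Real.log 4 := Real.log_pos (by norm_num)
      calc Chebyshev.theta (u * x) ≤ Real.log 4 * (u * x) := h1
        _ ≤ Real.log 4 * (2 * x) := by
            apply mul_le_mul_of_nonneg_left _ hl.le
            exact mul_le_mul_of_nonneg_right hu.2 hx.le
        _ = Real.log 4 * 2 * x := by ring
    · exact (continuous_const.mul hc.abs).intervalIntegrable _ _
    · refine Eventually.of_forall fun u hu => ?_
      rw [Set.uIoc_of_le (by norm_num)] at hu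
      have hu0 : 0 < u := by linarith [hu.1]
      refine Tendsto.mul_const _ ?_
      have h1 : Tendsto (fun x : ℝ => u * x) atTop atTop := tendsto_id.const_mul_atTop hu0
      have h2 := (hTHT.comp h1).const_mul u
      rw [mul_one] at h2
      refine h2.congr' ?_
      filter_upwards [eventually_gt_atTop (0 : ℝ)] with x hx
      simp only [Function.comp]
      field_simp
  have h5 := hlim.neg
  rw [PNW_parts hw] at h5
  refine h5.congr' ?_
  filter_upwards [eventually_gt_atTop (0 : ℝ)] with x hx
  rw [PNW_repr hABW (PNW_wc hw) hx, neg_div, ← intervalIntegral.integral_div]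
  congr 1
  refine intervalIntegral.integral_congr fun u _ => ?_
  ring

end MPb51559.BG.A
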