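import Pool.Agent.Work.MP_b51559_nt.BG.A.StmtsL

/-!
# REB: the recursion bound (real numbers)
-/

namespace MPb51559.BG.A

open scoped BigOperators

/-- REB. -/
theorem prf_REB : StREB := by
  intro U V hU hV K d hd hrec k
  have hUV : 1 ≤ U * V := one_le_mul_of_one_le_of_one_le hU hV
  induction k using Nat.strong_induction_on with
  | _ k ih =>
    intro hk
    have h2 : (1 : ℝ) ≤ 2 ^ k := one_le_pow₀ (by norm_num)
    have hW : (1 : ℝ) ≤ 2 ^ k * U * V := by
      rw [mul_assoc]; exact one_le_mul_of_one_le_of_one_le h2 hUV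
    have hW0 : (0 : ℝ) ≤ 2 ^ k * U * V := by linarith
    have hWk : (1 : ℝ) ≤ (2 ^ k * U * V) ^ k := one_le_pow₀ hW
    have hj : ∀ j ∈ Finset.range k, d j ≤ (2 ^ k * U * V) ^ k := by
      intro j hj
      have hjk : j < k := Finset.mem_range.1 hj
      refine (ih j hjk (by omega)).trans ?_
      have hb : (2 : ℝ) ^ (j + 1) * U * V ≤ 2 ^ k * U * V := by
        rw [mul_assoc, mul_assoc]
        exact mul_le_mul_of_nonneg_right (pow_le_pow_right₀ (by norm_num) (by omega)) (by linarith)
      have hb0 : (0 : ℝ) ≤ (2 : ℝ) ^ (j + 1) * U * V := by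
        rw [mul_assoc]; positivity
      exact (pow_le_pow_left₀ hb0 hb (j + 1)).trans (pow_le_pow_right₀ hW (by omega))
    have hsum : ∑ j ∈ Finset.range k, (k.choose j : ℝ) * (U * d j) ≤
        2 ^ k * (U * (2 ^ k * U * V) ^ k) := by
      calc ∑ j ∈ Finset.range k, (k.choose j : ℝ) * (U * d j)
          ≤ ∑ j ∈ Finset.range k, (k.choose j : ℝ) * (U * (2 ^ k * U * V) ^ k) := by
            refine Finset.sum_le_sum fun j hj' => ?_
            exact mul_le_mul_of_nonneg_left
              (mul_le_mul_of_nonneg_left (hj j hj') (by linarith)) (Nat.cast_nonneg _)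
        _ ≤ ∑ j ∈ Finset.range (k + 1), (k.choose j : ℝ) * (U * (2 ^ k * U * V) ^ k) := by
            refine Finset.sum_le_sum_of_subset_of_nonneg
              (Finset.range_mono (Nat.le_succ k)) fun j _ _ => ?_
            exact mul_nonneg (Nat.cast_nonneg _) (mul_nonneg (by linarith) (by linarith))
        _ = 2 ^ k * (U * (2 ^ k * U * V) ^ k) := by
            rw [← Finset.sum_mul]
            congr 1
            exact_mod_cast Nat.sum_range_choose k
    have h1 := hrec k hk
    have h3 : V * (U + ∑ j ∈ Finset.range k, (k.choose j : ℝ) * (U * d j)) ≤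
        V * (U + 2 ^ k * (U * (2 ^ k * U * V) ^ k)) :=
      mul_le_mul_of_nonneg_left (by linarith) (by linarith)
    have h4 : (1 : ℝ) ≤ 2 ^ k * (2 ^ k * U * V) ^ k := one_le_mul_of_one_le_of_one_le h2 hWk
    have h5 : V * (U + 2 ^ k * (U * (2 ^ k * U * V) ^ k)) ≤
        (2 ^ (k + 1) * U * V) * (2 ^ k * U * V) ^ k := by
      have e1 : V * (U + 2 ^ k * (U * (2 ^ k * U * V) ^ k)) =
          (U * V) * (1 + 2 ^ k * (2 ^ k * U * V) ^ k) := by ring
      have e2 : (2 ^ (k + 1) * U * V) * (2 ^ k * U * V) ^ k =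
          (U * V) * (2 * (2 ^ k * (2 ^ k * U * V) ^ k)) := by ring
      rw [e1, e2]
      exact mul_le_mul_of_nonneg_left (by linarith) (by linarith)
    have h6 : (2 ^ k * U * V) ^ k ≤ (2 ^ (k + 1) * U * V) ^ k := by
      refine pow_le_pow_left₀ hW0 ?_ k
      rw [mul_assoc, mul_assoc]
      exact mul_le_mul_of_nonneg_right (pow_le_pow_right₀ (by norm_num) (by omega)) (by linarith)
    have h7 : (0 : ℝ) ≤ 2 ^ (k + 1) * U * V := by
      rw [mul_assoc]; positivity
    calc d k ≤ _ := h1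
      _ ≤ _ := h3
      _ ≤ _ := h5
      _ ≤ (2 ^ (k + 1) * U * V) * (2 ^ (k + 1) * U * V) ^ k := mul_le_mul_of_nonneg_left h6 h7
      _ = (2 ^ (k + 1) * U * V) ^ (k + 1) := by rw [pow_succ]; ring

end MPb51559.BG.A
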