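import Pool.Agent.Work.MP_b51559_nt.BG.A.StmtsL

/-!
# Item REC of the block [b51559 BG-A]: the recursion for the derivatives of `L`
-/

namespace MPb51559.BG.A

open scoped BigOperators
open LSeries

theorem REC_coeff {q : ℕ} (χ : DirichletCharacter ℂ q) (k n : ℕ) (hn : n ≠ 0) :
    cell χ (k + 1) n = (∑ j ∈ Finset.range (k + 1),
      (k.choose j : ℂ) • LSeries.convolution (cdk χ j) (cell χ (k - j))) n := by
  have e1 : ∀ j ∈ Finset.range (k + 1),
      ((k.choose j : ℂ) • LSeries.convolution (cdk χ j) (cell χ (k - j))) n =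
      ∑ p ∈ n.divisorsAntidiagonal, χ (n : ZMod q) * (ArithmeticFunction.vonMangoldt p.1 : ℂ) *
        (((Real.log p.1 : ℝ) : ℂ) ^ j * ((Real.log p.2 : ℝ) : ℂ) ^ (k - j) * (k.choose j : ℂ)) := by
    intro j _
    rw [Pi.smul_apply, convolution_def, smul_eq_mul, Finset.mul_sum]
    refine Finset.sum_congr rfl fun p hp => ?_
    have h1 : p.1 * p.2 = n := (Nat.mem_divisorsAntidiagonal.1 hp).1
    have h2 : χ (n : ZMod q) = χ (p.1 : ZMod q) * χ (p.2 : ZMod q) := by
      rw [← h1, Nat.cast_mul, map_mul]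
    rw [cdk, cell, h2]
    ring
  rw [Finset.sum_apply, Finset.sum_congr rfl e1, Finset.sum_comm]
  have e2 : ∀ p ∈ n.divisorsAntidiagonal, ∑ j ∈ Finset.range (k + 1),
      χ (n : ZMod q) * (ArithmeticFunction.vonMangoldt p.1 : ℂ) *
        (((Real.log p.1 : ℝ) : ℂ) ^ j * ((Real.log p.2 : ℝ) : ℂ) ^ (k - j) * (k.choose j : ℂ)) =
      χ (n : ZMod q) * ((Real.log n : ℝ) : ℂ) ^ k * (ArithmeticFunction.vonMangoldt p.1 : ℂ) := by
    intro p hp
    rw [← Finset.mul_sum, ← add_pow]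
    obtain ⟨h1, h2⟩ := Nat.mem_divisorsAntidiagonal.1 hp
    have h3 : p.1 ≠ 0 := by rintro h; rw [h, zero_mul] at h1; exact h2 h1.symm
    have h4 : p.2 ≠ 0 := by rintro h; rw [h, mul_zero] at h1; exact h2 h1.symm
    have h5 : ((Real.log n : ℝ) : ℂ) = ((Real.log p.1 : ℝ) : ℂ) + ((Real.log p.2 : ℝ) : ℂ) := by
      rw [← Complex.ofReal_add, ← Real.log_mul (by exact_mod_cast h3) (by exact_mod_cast h4),
        ← Nat.cast_mul, h1]
    rw [h5]
    ring
  rw [Finset.sum_congr rfl e2, ← Finset.mul_sum]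
  have e3 : ∑ p ∈ n.divisorsAntidiagonal, (ArithmeticFunction.vonMangoldt p.1 : ℂ) =
      ((Real.log n : ℝ) : ℂ) := by
    have h1 := ArithmeticFunction.vonMangoldt_sum (n := n)
    rw [← h1, Complex.ofReal_sum]
    exact Nat.sum_divisorsAntidiagonal (fun i _ => (ArithmeticFunction.vonMangoldt i : ℂ))
  rw [e3, cell, pow_succ]
  ring

theorem prf_REC (hSUM : StSUM) : StREC := by
  intro q _ χ k s hs
  have h1 : ∀ j, LSeriesSummable (cell χ j) s := fun j => (hSUM q χ j s hs).1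
  have h2 : ∀ j, LSeriesSummable (cdk χ j) s := fun j => (hSUM q χ j s hs).2.1
  have h3 : LSeriesHasSum (∑ j ∈ Finset.range (k + 1),
      (k.choose j : ℂ) • LSeries.convolution (cdk χ j) (cell χ (k - j))) s
      (∑ j ∈ Finset.range (k + 1), (k.choose j : ℂ) • (dk χ j s * ell χ (k - j) s)) :=
    LSeriesHasSum.sum fun j _ => LSeriesHasSum.smul _
      (LSeriesHasSum.convolution (h2 j).LSeriesHasSum (h1 (k - j)).LSeriesHasSum)
  have h4 : ell χ (k + 1) s = LSeries (∑ j ∈ Finset.range (k + 1),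
      (k.choose j : ℂ) • LSeries.convolution (cdk χ j) (cell χ (k - j))) s :=
    LSeries_congr (fun {n} hn => REC_coeff χ k n hn) s
  rw [h4, h3.LSeries_eq]
  rfl

end MPb51559.BG.A
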