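import Pool.Agent.Work.MP_b51559_nt.BG.A.StmtsW

set_option autoImplicit false

/-!
# Bounded gaps, part A: Siegel-Walfisz with a smooth weight
-/

namespace MPb51559.BG.A

open scoped BigOperators
open Filter Topology MeasureTheory

theorem prf_SWF (hABW : StABW) (hSW : StSW) : StSWF := by
  intro w hw A B
  obtain ⟨C, hC1, hC⟩ := hSW ((B + 1 : ℕ) : ℝ) ((A + 1 : ℕ) : ℝ)
    (by exact_mod_cast Nat.succ_pos B) (by exact_mod_cast Nat.succ_pos A)
  have hcont : Continuous (deriv w) := (hw.smooth 1).continuous_deriv (by norm_num)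
  obtain ⟨M, hM⟩ := (isCompact_Icc (a := (1 : ℝ)) (b := 2)).exists_bound_of_continuousOn
    hcont.continuousOn
  have hM0 : 0 ≤ M := (norm_nonneg _).trans (hM 1 ⟨le_rfl, by norm_num⟩)
  refine ⟨max 3 (Real.exp (2 * M * C)), fun x hx q _ hq χ hχ => ?_⟩
  have hx3 : (3 : ℝ) ≤ x := (le_max_left _ _).trans hx
  have hxe : Real.exp (2 * M * C) ≤ x := (le_max_right _ _).trans hx
  have hx0 : (0 : ℝ) < x := by linarith
  have hl : 2 * M * C ≤ Real.log x := by
    rw [← Real.log_exp (2 * M * C)]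
    exact Real.log_le_log (Real.exp_pos _) hxe
  have hl1 : 1 ≤ Real.log x := by
    rw [Real.le_log_iff_exp_le hx0]
    exact (Real.exp_one_lt_d9.le.trans (by norm_num)).trans hx3
  have hl0 : 0 < Real.log x := by linarith
  have h1 : psC w x χ = - ∫ u in (1 : ℝ)..2, psi (u * x) χ * ((deriv w u : ℝ) : ℂ) := by
    have h2 := hABW w hw (fun n => χ (n : ZMod q) * (ArithmeticFunction.vonMangoldt n : ℂ)) x hx0
    refine Eq.trans ?_ h2
    unfold psC
    refine Finset.sum_congr rfl fun n _ => ?_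
    rw [mul_comm (ArithmeticFunction.vonMangoldt n : ℂ)]
  have hpsi : ∀ u : ℝ, 1 ≤ u → u ≤ 2 →
      ‖psi (u * x) χ‖ ≤ C * (2 * x / Real.log x ^ (A + 1)) := by
    intro u hu1 hu2
    have hux : x ≤ u * x := by nlinarith
    have hlu : Real.log x ≤ Real.log (u * x) := Real.log_le_log hx0 hux
    have hq' : (q : ℝ) ≤ Real.log (u * x) ^ ((B + 1 : ℕ) : ℝ) := by
      rw [Real.rpow_natCast]
      calc (q : ℝ) ≤ Real.log x ^ B := hq
        _ ≤ Real.log x ^ (B + 1) := pow_le_pow_right₀ hl1 (Nat.le_succ B)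
        _ ≤ Real.log (u * x) ^ (B + 1) := pow_le_pow_left₀ hl0.le hlu _
    have h2 := hC q χ hχ (u * x) (by linarith) hq'
    rw [Real.rpow_natCast] at h2
    refine h2.trans ?_
    have hp : 0 < Real.log x ^ (A + 1) := pow_pos hl0 _
    have hp' : Real.log x ^ (A + 1) ≤ Real.log (u * x) ^ (A + 1) :=
      pow_le_pow_left₀ hl0.le hlu _
    refine mul_le_mul_of_nonneg_left ?_ (by linarith)
    refine div_le_div₀ (by linarith) ?_ hp hp'
    nlinarith
  have h3 : ‖psC w x χ‖ ≤ (C * (2 * x / Real.log x ^ (A + 1)) * M) * |2 - 1| := by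
    rw [h1, norm_neg]
    refine intervalIntegral.norm_integral_le_of_norm_le_const fun u hu => ?_
    rw [Set.uIoc_of_le (by norm_num)] at hu
    rw [norm_mul, Complex.norm_real]
    refine mul_le_mul (hpsi u hu.1.le hu.2) (hM u ⟨hu.1.le, hu.2⟩) (norm_nonneg _) ?_
    exact (norm_nonneg _).trans (hpsi u hu.1.le hu.2)
  refine h3.trans ?_
  have hp : 0 < Real.log x ^ A := pow_pos hl0 _
  have e1 : |(2 : ℝ) - 1| = 1 := by norm_num
  rw [e1, mul_one, pow_succ]
  have e2 : C * (2 * x / (Real.log x ^ A * Real.log x)) * M =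
      (x / Real.log x ^ A) * (2 * M * C / Real.log x) := by
    field_simp
  rw [e2]
  have h4 : 2 * M * C / Real.log x ≤ 1 := (div_le_one hl0).mpr hl
  calc (x / Real.log x ^ A) * (2 * M * C / Real.log x) ≤ (x / Real.log x ^ A) * 1 :=
        mul_le_mul_of_nonneg_left h4 (div_nonneg hx0.le hp.le)
    _ = x / Real.log x ^ A := mul_one _

end MPb51559.BG.A
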