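import Pool.Agent.Work.MP_b51559_nt.BG.A.StmtsL

/-! Item T41: the three-four-one inequality. -/

namespace MPb51559.BG.A

open scoped BigOperators

/-- `ell χ 0` is the `L`-series of `χ` (for every `s`) -/
theorem T41_ell {q : ℕ} (χ : DirichletCharacter ℂ q) (s : ℂ) :
    ell χ 0 s = LSeries (fun n : ℕ => χ (n : ZMod q)) s := by
  unfold ell
  congr 1
  funext n
  unfold cell
  rw [pow_zero, mul_one]

/-- T41, no hypotheses. -/
theorem T41_main : StT41 := by
  intro q _ χ x y hx
  have h := DirichletCharacter.norm_LSeries_product_ge_one χ hx y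
  rw [norm_mul, norm_mul, norm_pow, norm_pow] at h
  rw [T41_ell, T41_ell, T41_ell]
  have e1 : (1 + (x : ℂ) + (y : ℂ) * Complex.I) = 1 + (x : ℂ) + Complex.I * (y : ℂ) := by ring
  have e2 : (1 + (x : ℂ) + 2 * (y : ℂ) * Complex.I) = 1 + (x : ℂ) + 2 * Complex.I * (y : ℂ) := by ring
  rw [e1, e2]
  exact h

/-- Item T41. -/
theorem prf_T41 : StT41 := T41_main

end MPb51559.BG.A
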