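import Pool.Agent.Work.MP_b51559_nt.BG.A.StmtsW
import Pool.Agent.Work.WI.W5

/-!
# Bounded gaps, part A, item THT: the prime number theorem for theta
-/

namespace MPb51559.BG.A

open Filter Topology

theorem prf_THT : StTHT := by
  have h := WI.psi_tendsto.sub WI.psi_sub_theta_div
  rw [sub_zero] at h
  refine h.congr fun x => ?_
  ring

end MPb51559.BG.A
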