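import Pool.Agent.Work.MP_b51559_nt.BG.A.StmtsL

/-!
# Item SUM of the block [b51559 BG-A]: summability of the series in `Re s > 1`
-/

namespace MPb51559.BG.A

open scoped BigOperators ArithmeticFunction
open LSeries

theorem SUM_logMul_iter (f : ℕ → ℂ) (j n : ℕ) :
    (logMul^[j] f) n = ((Real.log n : ℝ) : ℂ) ^ j * f n := by
  induction j generalizing f with
  | zero => simp
  | succ j ih =>
    rw [Function.iterate_succ_apply, ih, logMul, pow_succ, mul_assoc, Complex.natCast_log]

theorem SUM_logMul_summable (f : ℕ → ℂ) (hf : ∀ s : ℂ, 1 < s.re → LSeriesSummable f s) (j : ℕ)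
    (s : ℂ) (hs : 1 < s.re) : LSeriesSummable (logMul^[j] f) s := by
  apply LSeriesSummable_of_abscissaOfAbsConv_lt_re
  rw [absicssaOfAbsConv_logPowMul]
  have h1 : 1 < (1 + s.re) / 2 := by linarith
  have h2 : (1 + s.re) / 2 < s.re := by linarith
  have h3 : LSeriesSummable f (((1 + s.re) / 2 : ℝ) : ℂ) := hf _ (by
    rw [Complex.ofReal_re]
    exact h1)
  have h4 := h3.abscissaOfAbsConv_le
  rw [Complex.ofReal_re] at h4
  exact h4.trans_lt (by exact_mod_cast h2)

theorem SUM_cell {q : ℕ} (χ : DirichletCharacter ℂ q) (j : ℕ) :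
    cell χ j = logMul^[j] (fun n : ℕ => χ (n : ZMod q)) := by
  funext n
  rw [SUM_logMul_iter, cell, mul_comm]

theorem SUM_cdk {q : ℕ} (χ : DirichletCharacter ℂ q) (j : ℕ) :
    cdk χ j = logMul^[j] ((fun n : ℕ => χ (n : ZMod q)) *
      fun n : ℕ => (ArithmeticFunction.vonMangoldt n : ℂ)) := by
  funext n
  rw [SUM_logMul_iter, cdk, mul_comm]
  rfl

theorem prf_SUM : StSUM := by
  intro q _ χ j s hs
  have h1 : ∀ s : ℂ, 1 < s.re → LSeriesSummable (fun n : ℕ => χ (n : ZMod q)) s :=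
    fun s hs => DirichletCharacter.LSeriesSummable_of_one_lt_re χ hs
  have h2 : ∀ s : ℂ, 1 < s.re → LSeriesSummable ((fun n : ℕ => χ (n : ZMod q)) *
      fun n : ℕ => (ArithmeticFunction.vonMangoldt n : ℂ)) s :=
    fun s hs => DirichletCharacter.LSeriesSummable_twist_vonMangoldt χ hs
  refine ⟨?_, ?_, ?_, ?_⟩
  · rw [SUM_cell]
    exact SUM_logMul_summable _ h1 j s hs
  · rw [SUM_cdk]
    exact SUM_logMul_summable _ h2 j s hs
  · rw [ell, SUM_cell, DirichletCharacter.LFunction_eq_LSeries χ hs]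
    rfl
  · rw [DirichletCharacter.deriv_LFunction_eq_deriv_LSeries χ hs, ell, SUM_cell]
    have h3 : abscissaOfAbsConv (fun n : ℕ => χ (n : ZMod q)) < s.re := by
      have h4 : 1 < (1 + s.re) / 2 := by linarith
      have h5 : (1 + s.re) / 2 < s.re := by linarith
      have h6 := (h1 (((1 + s.re) / 2 : ℝ) : ℂ) (by
        rw [Complex.ofReal_re]
        exact h4)).abscissaOfAbsConv_le
      rw [Complex.ofReal_re] at h6
      exact h6.trans_lt (by exact_mod_cast h5)
    exact LSeries_deriv h3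

end MPb51559.BG.A
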