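import Pool.Agent.Work.MP_b51559_nt.BG.A.StmtsU
import Pool.Agent.Work.MP_b51559_nt.BG.A.SUM

/-!
# Item TLC of the block [b51559 BG-A]: the tail of the series
-/

namespace MPb51559.BG.A

open scoped BigOperators
open Filter Topology

/-- the smooth weight -/
noncomputable def TLC_g (j : ℕ) (s : ℂ) (n : ℕ) : ℂ :=
  ((Real.log (n : ℝ) : ℝ) : ℂ) ^ j * (n : ℂ) ^ (-s)

theorem TLC_abel (c g : ℕ → ℂ) (M : ℕ) :
    ∑ n ∈ Finset.range M, c n * g n = (∑ i ∈ Finset.range M, c i) * g M -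
      ∑ k ∈ Finset.range M, (∑ i ∈ Finset.range (k + 1), c i) * (g (k + 1) - g k) := by
  induction M with
  | zero => simp
  | succ M ih =>
    rw [Finset.sum_range_succ, ih,
      Finset.sum_range_succ (fun k => (∑ i ∈ Finset.range (k + 1), c i) * (g (k + 1) - g k)),
      Finset.sum_range_succ c]
    ring

theorem TLC_abel_le (c g : ℕ → ℂ) (Q : ℝ) (a : ℕ → ℝ)
    (hc : ∀ M, ‖∑ i ∈ Finset.range M, c i‖ ≤ Q) (hg : ∀ k, ‖g (k + 1) - g k‖ ≤ a k) (M : ℕ) :
    ‖∑ n ∈ Finset.range M, c n * g n‖ ≤ Q * ‖g M‖ + Q * ∑ k ∈ Finset.range M, a k := by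
  have hQ : 0 ≤ Q := (norm_nonneg _).trans (hc 0)
  rw [TLC_abel]
  refine (norm_sub_le _ _).trans (add_le_add ?_ ?_)
  · rw [norm_mul]
    exact mul_le_mul_of_nonneg_right (hc M) (norm_nonneg _)
  · refine (norm_sum_le _ _).trans ?_
    rw [Finset.mul_sum]
    refine Finset.sum_le_sum fun k _ => ?_
    rw [norm_mul]
    exact mul_le_mul (hc _) (hg k) (norm_nonneg _) hQ

theorem TLC_term {q : ℕ} (χ : DirichletCharacter ℂ q) (j : ℕ) (s : ℂ) (n : ℕ) (hn : n ≠ 0) :
    LSeries.term (cell χ j) s n = χ (n : ZMod q) * TLC_g j s n := by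
  rw [LSeries.term_of_ne_zero hn, cell, TLC_g, Complex.cpow_neg]
  ring

theorem TLC_g_tendsto (j : ℕ) (s : ℂ) (hs : 1 < s.re) :
    Tendsto (fun n => TLC_g j s n) atTop (𝓝 0) := by
  have h1 := (prf_SUM 1 (1 : DirichletCharacter ℂ 1) j s hs).1
  have h2 : Tendsto (fun n => LSeries.term (cell (1 : DirichletCharacter ℂ 1) j) s n) atTop (𝓝 0) :=
    Summable.tendsto_atTop_zero h1
  refine h2.congr' ?_
  filter_upwards [eventually_ne_atTop 0] with n hn
  rw [TLC_term _ _ _ _ hn, MulChar.one_apply (isUnit_of_subsingleton _), one_mul]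

theorem prf_TLC (hCSU : StCSU) (hGDF : StGDF) (hTLS : StTLS) : StTLC := by
  intro η hη hη2 j
  obtain ⟨C, hC1, hC⟩ := hTLS η hη hη2 j
  refine ⟨(j + 1) * C, ?_, ?_⟩
  · have h1 : (0 : ℝ) ≤ j := Nat.cast_nonneg j
    nlinarith
  intro q _ χ hχ s hs hs2 N hN hNq
  have hN0 : (0 : ℝ) < N := by
    have : (2 : ℝ) ≤ N := by exact_mod_cast hN
    linarith
  have hsum : Summable (LSeries.term (cell χ j) s) := (prf_SUM q χ j s hs).1
  obtain ⟨hS, hT⟩ := hC (N + 1) (by omega)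
  set a : ℕ → ℝ := fun n => Real.log ((n : ℝ) + (N + 1 : ℕ) + 1) ^ j / ((n : ℝ) + (N + 1 : ℕ)) ^ 2
    with ha
  have ha0 : ∀ n, 0 ≤ a n := by
    intro n
    apply div_nonneg (pow_nonneg (Real.log_nonneg _) _) (sq_nonneg _)
    have h1 : (0 : ℝ) ≤ n := Nat.cast_nonneg n
    have h2 : (0 : ℝ) ≤ ((N + 1 : ℕ) : ℝ) := Nat.cast_nonneg _
    linarith
  set K : ℝ := j + ‖s‖ with hK
  have hK0 : 0 ≤ K := add_nonneg (Nat.cast_nonneg j) (norm_nonneg s)
  -- the finite bound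
  have hfin : ∀ M, ‖∑ n ∈ Finset.range M, LSeries.term (cell χ j) s (n + (N + 1))‖ ≤
      (q : ℝ) * ‖TLC_g j s (M + (N + 1))‖ + (q : ℝ) * (K * (C * (N : ℝ) ^ (η - 1))) := by
    intro M
    have h1 : ∑ n ∈ Finset.range M, LSeries.term (cell χ j) s (n + (N + 1)) =
        ∑ n ∈ Finset.range M, χ ((n + (N + 1) : ℕ) : ZMod q) * TLC_g j s (n + (N + 1)) :=
      Finset.sum_congr rfl fun n _ => TLC_term χ j s _ (by omega)
    rw [h1]
    refine (TLC_abel_le (fun n => χ ((n + (N + 1) : ℕ) : ZMod q)) (fun n => TLC_g j s (n + (N + 1)))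
      q (fun k => K * a k) ?_ ?_ M).trans ?_
    · intro M
      have h2 := hCSU q χ hχ (N + 1) (N + 1 + M)
      rw [Finset.sum_Ico_eq_sum_range] at h2
      have h3 : N + 1 + M - (N + 1) = M := by omega
      rw [h3] at h2
      have h4 : ∑ i ∈ Finset.range M, χ ((i + (N + 1) : ℕ) : ZMod q) =
          ∑ i ∈ Finset.range M, χ ((N + 1 + i : ℕ) : ZMod q) :=
        Finset.sum_congr rfl fun i _ => by rw [add_comm i]
      change ‖∑ i ∈ Finset.range M, χ ((i + (N + 1) : ℕ) : ZMod q)‖ ≤ q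
      rw [h4]
      exact h2
    · intro k
      have h2 := hGDF j s hs (k + (N + 1)) (by omega)
      have h3 : k + 1 + (N + 1) = k + (N + 1) + 1 := by omega
      change ‖TLC_g j s (k + 1 + (N + 1)) - TLC_g j s (k + (N + 1))‖ ≤ K * a k
      rw [h3]
      refine h2.trans (le_of_eq ?_)
      simp only [ha, hK]
      push_cast
      ring_nf
    · refine add_le_add le_rfl (mul_le_mul_of_nonneg_left ?_ (Nat.cast_nonneg q))
      rw [← Finset.mul_sum]
      refine mul_le_mul_of_nonneg_left ?_ hK0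
      refine (hS.sum_le_tsum _ fun i _ => ha0 i).trans (hT.trans ?_)
      refine mul_le_mul_of_nonneg_left ?_ (by linarith)
      apply Real.rpow_le_rpow_of_nonpos hN0
      · push_cast
        linarith
      · linarith
  -- the limit
  have hl1 : Tendsto (fun M => ‖∑ n ∈ Finset.range M, LSeries.term (cell χ j) s (n + (N + 1))‖) atTop
      (𝓝 ‖∑' n, LSeries.term (cell χ j) s (n + (N + 1))‖) :=
    (((summable_nat_add_iff (N + 1)).2 hsum).hasSum.tendsto_sum_nat).norm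
  have hl2 : Tendsto (fun M => (q : ℝ) * ‖TLC_g j s (M + (N + 1))‖ +
      (q : ℝ) * (K * (C * (N : ℝ) ^ (η - 1)))) atTop
      (𝓝 ((q : ℝ) * 0 + (q : ℝ) * (K * (C * (N : ℝ) ^ (η - 1))))) := by
    have h1 := ((TLC_g_tendsto j s hs).comp (tendsto_add_atTop_nat (N + 1))).norm
    rw [norm_zero] at h1
    exact (h1.const_mul _).add tendsto_const_nhds
  have hlim := le_of_tendsto_of_tendsto' hl1 hl2 hfin
  -- the tail
  have htail : ell χ j s - ∑ n ∈ Finset.Icc 1 N, cell χ j n * (n : ℂ) ^ (-s) =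
      ∑' n, LSeries.term (cell χ j) s (n + (N + 1)) := by
    have h1 := hsum.sum_add_tsum_nat_add (N + 1)
    have h2 : ∑ n ∈ Finset.range (N + 1), LSeries.term (cell χ j) s n =
        ∑ n ∈ Finset.Icc 1 N, cell χ j n * (n : ℂ) ^ (-s) := by
      have h3 : ∑ n ∈ Finset.Icc 1 N, cell χ j n * (n : ℂ) ^ (-s) =
          ∑ n ∈ Finset.Icc 1 N, LSeries.term (cell χ j) s n := by
        refine Finset.sum_congr rfl fun n hn => ?_
        rw [Finset.mem_Icc] at hn
        rw [TLC_term χ j s n (by omega), cell, TLC_g, mul_assoc]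
      rw [h3]
      symm
      apply Finset.sum_subset
      · intro n hn
        rw [Finset.mem_Icc] at hn
        rw [Finset.mem_range]
        omega
      · intro n hn hn2
        rw [Finset.mem_range] at hn
        rw [Finset.mem_Icc] at hn2
        have h4 : n = 0 := by omega
        rw [h4, LSeries.term_zero]
    rw [h2] at h1
    have h5 : ell χ j s = ∑' n, LSeries.term (cell χ j) s n := rfl
    rw [h5, ← h1]
    ring
  rw [htail]
  refine hlim.trans ?_
  rw [mul_zero, zero_add]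
  have him : 0 ≤ |s.im| := abs_nonneg _
  have hsn : ‖s‖ ≤ 2 + |s.im| := by
    refine (Complex.norm_le_abs_re_add_abs_im s).trans ?_
    rw [abs_of_pos (by linarith)]
    linarith
  have hj : (0 : ℝ) ≤ j := Nat.cast_nonneg j
  have hq0 : (0 : ℝ) ≤ q := Nat.cast_nonneg q
  have hqK : (q : ℝ) * K ≤ (j + 1) * N := by
    have h1 : K ≤ (j + 1) * (|s.im| + 2) := by
      rw [hK]
      nlinarith
    calc (q : ℝ) * K ≤ q * ((j + 1) * (|s.im| + 2)) := mul_le_mul_of_nonneg_left h1 hq0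
      _ = (j + 1) * (q * (|s.im| + 2)) := by ring
      _ ≤ (j + 1) * N := mul_le_mul_of_nonneg_left hNq (by linarith)
  have hpow : (N : ℝ) * (N : ℝ) ^ (η - 1) = (N : ℝ) ^ η := by
    rw [Real.rpow_sub_one hN0.ne', mul_div_cancel₀ _ hN0.ne']
  calc (q : ℝ) * (K * (C * (N : ℝ) ^ (η - 1))) = (q * K) * (C * (N : ℝ) ^ (η - 1)) := by ring
    _ ≤ ((j + 1) * N) * (C * (N : ℝ) ^ (η - 1)) :=
        mul_le_mul_of_nonneg_right hqK (by positivity)
    _ = (j + 1) * C * ((N : ℝ) * (N : ℝ) ^ (η - 1)) := by ring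
    _ = (j + 1) * C * (N : ℝ) ^ η := by rw [hpow]

end MPb51559.BG.A
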