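import Pool.Agent.Work.MP_b51559_nt.BG.A.StmtsU

/-!
# Bounded gaps, part A, item TLS: tail sums
-/

set_option autoImplicit false

namespace MPb51559.BG.A

open scoped BigOperators

theorem TLS_key (m η : ℝ) (hm : 1 ≤ m) (h1 : η ≤ 1 / 2) :
    m ^ (η - 2) ≤ 4 * (m ^ (η - 1) - (m + 1) ^ (η - 1)) := by
  have hm0 : 0 < m := by linarith
  set x : ℝ := 1 / m with hx
  have hx0 : 0 < x := by positivity
  have hx1 : x ≤ 1 := by
    rw [hx, div_le_one hm0]
    exact hm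
  have hmx : m + 1 = m * (1 + x) := by
    rw [hx]
    field_simp
  have h2 : (m + 1) ^ (η - 1) = m ^ (η - 1) * (1 + x) ^ (η - 1) := by
    rw [hmx, Real.mul_rpow hm0.le (by linarith)]
  have h3 : (1 + x) ^ (η - 1) ≤ 1 - x / 4 := by
    have h4 : (1 + x) ^ (η - 1) ≤ (1 + x) ^ (-(1 / 2) : ℝ) :=
      Real.rpow_le_rpow_of_exponent_le (by linarith) (by linarith)
    refine h4.trans ?_
    rw [Real.rpow_neg (by linarith), ← Real.sqrt_eq_rpow]
    have h5 : 1 + x / 3 ≤ Real.sqrt (1 + x) := by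
      apply Real.le_sqrt_of_sq_le
      nlinarith
    have h6 : (Real.sqrt (1 + x))⁻¹ ≤ (1 + x / 3)⁻¹ := inv_anti₀ (by linarith) h5
    refine h6.trans ?_
    rw [inv_le_iff_one_le_mul₀ (by linarith)]
    nlinarith
  have h7 : m ^ (η - 2) = m ^ (η - 1) * x := by
    rw [hx, mul_one_div, eq_div_iff hm0.ne']
    nth_rewrite 2 [← Real.rpow_one m]
    rw [← Real.rpow_add hm0]
    congr 1
    ring
  have h8 : 0 < m ^ (η - 1) := Real.rpow_pos_of_pos hm0 _
  rw [h7, h2]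
  nlinarith

theorem prf_TLS (hLGE : StLGE) : StTLS := by
  intro η hη hη2 j
  obtain ⟨C, hC, h⟩ := hLGE η hη j
  refine ⟨4 * C, by linarith, ?_⟩
  intro N hN
  have hN1 : (1 : ℝ) ≤ (N : ℝ) := by exact_mod_cast hN
  have hpos : ∀ n : ℕ, 0 ≤ Real.log ((n : ℝ) + N + 1) ^ j / ((n : ℝ) + N) ^ 2 := by
    intro n
    have : 0 ≤ Real.log ((n : ℝ) + N + 1) := Real.log_nonneg (by
      have : (0 : ℝ) ≤ n := Nat.cast_nonneg n
      linarith)
    positivity
  have hterm : ∀ n : ℕ, Real.log ((n : ℝ) + N + 1) ^ j / ((n : ℝ) + N) ^ 2 ≤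
      4 * C * (((n : ℝ) + N) ^ (η - 1) - (((n + 1 : ℕ) : ℝ) + N) ^ (η - 1)) := by
    intro n
    have hn : (0 : ℝ) ≤ n := Nat.cast_nonneg n
    set m : ℝ := (n : ℝ) + N with hm
    have hm1 : 1 ≤ m := by linarith
    have hm0 : 0 < m := by linarith
    have h1 := h (n + N) (by omega)
    push_cast at h1
    rw [← hm] at h1
    have h2 : Real.log (m + 1) ^ j / m ^ 2 ≤ C * m ^ (η - 2) := by
      rw [div_le_iff₀ (by positivity)]
      refine h1.trans (le_of_eq ?_)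
      rw [mul_assoc]
      congr 1
      rw [← Real.rpow_natCast m 2, ← Real.rpow_add hm0]
      congr 1
      push_cast
      ring
    have h3 : (((n + 1 : ℕ) : ℝ) + N) = m + 1 := by
      rw [hm]
      push_cast
      ring
    rw [h3]
    have h4 := TLS_key m η hm1 hη2
    calc Real.log (m + 1) ^ j / m ^ 2 ≤ C * m ^ (η - 2) := h2
      _ ≤ C * (4 * (m ^ (η - 1) - (m + 1) ^ (η - 1))) :=
          mul_le_mul_of_nonneg_left h4 (by linarith)
      _ = 4 * C * (m ^ (η - 1) - (m + 1) ^ (η - 1)) := by ring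
  have hsum : ∀ M : ℕ, ∑ n ∈ Finset.range M, Real.log ((n : ℝ) + N + 1) ^ j / ((n : ℝ) + N) ^ 2 ≤
      4 * C * (N : ℝ) ^ (η - 1) := by
    intro M
    have h1 : ∑ n ∈ Finset.range M, Real.log ((n : ℝ) + N + 1) ^ j / ((n : ℝ) + N) ^ 2 ≤
        ∑ n ∈ Finset.range M,
          4 * C * (((n : ℝ) + N) ^ (η - 1) - (((n + 1 : ℕ) : ℝ) + N) ^ (η - 1)) :=
      Finset.sum_le_sum fun n _ => hterm n
    rw [← Finset.mul_sum, Finset.sum_range_sub' (fun n : ℕ => ((n : ℝ) + N) ^ (η - 1))] at h1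
    refine h1.trans ?_
    apply mul_le_mul_of_nonneg_left _ (by linarith)
    have h2 : 0 ≤ ((M : ℝ) + N) ^ (η - 1) := Real.rpow_nonneg (by positivity) _
    have h3 : (((0 : ℕ) : ℝ) + N) ^ (η - 1) = (N : ℝ) ^ (η - 1) := by simp
    rw [h3]
    linarith
  exact ⟨summable_of_sum_range_le hpos hsum, Real.tsum_le_of_sum_range_le hpos hsum⟩

end MPb51559.BG.A
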