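import Pool.Agent.Work.MP_b51559_nt.BG.A.StmtsU

/-! Item TRP: the bounds for the principal character. -/

namespace MPb51559.BG.A

open scoped BigOperators

theorem TRP_ell {q : ℕ} (χ : DirichletCharacter ℂ q) (s : ℂ) :
    ell χ 0 s = LSeries (fun n : ℕ => χ (n : ZMod q)) s := by
  unfold ell
  congr 1
  funext n
  unfold cell
  rw [pow_zero, mul_one]

theorem TRP_eq (q : ℕ) [NeZero q] (s : ℂ) (hs : 1 < s.re) :
    ell (1 : DirichletCharacter ℂ q) 0 s =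
      (∏ p ∈ q.primeFactors, (1 - (p : ℂ) ^ (-s))) * riemannZeta s := by
  have h1 : s ≠ 1 := by
    intro h
    rw [h, Complex.one_re] at hs
    exact lt_irrefl _ hs
  have h2 := DirichletCharacter.LFunctionTrivChar_eq_mul_riemannZeta (N := q) h1
  rw [DirichletCharacter.LFunctionTrivChar, DirichletCharacter.LFunction_eq_LSeries 1 hs] at h2
  rw [TRP_ell]
  exact h2

theorem TRP_factor (p : ℕ) (hp : 0 < p) (s : ℂ) (hs : 1 < s.re) :
    ‖1 - (p : ℂ) ^ (-s)‖ ≤ 1 + 1 / (p : ℝ) := by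
  have hp1 : (1 : ℝ) ≤ (p : ℝ) := by exact_mod_cast hp
  have h1 : ‖(p : ℂ) ^ (-s)‖ ≤ 1 / (p : ℝ) := by
    rw [Complex.norm_natCast_cpow_of_pos hp, Complex.neg_re]
    calc (p : ℝ) ^ (-s.re) ≤ (p : ℝ) ^ (-1 : ℝ) :=
          Real.rpow_le_rpow_of_exponent_le hp1 (by linarith)
      _ = 1 / (p : ℝ) := by rw [Real.rpow_neg_one, one_div]
  calc ‖1 - (p : ℂ) ^ (-s)‖ ≤ ‖(1 : ℂ)‖ + ‖(p : ℂ) ^ (-s)‖ := norm_sub_le _ _
    _ ≤ 1 + 1 / (p : ℝ) := by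
      rw [norm_one]
      linarith

theorem TRP_prod (q : ℕ) (s : ℂ) (hs : 1 < s.re) :
    ‖∏ p ∈ q.primeFactors, (1 - (p : ℂ) ^ (-s))‖ ≤ ∏ p ∈ q.primeFactors, (1 + 1 / (p : ℝ)) := by
  rw [norm_prod]
  refine Finset.prod_le_prod (fun _ _ => norm_nonneg _) (fun p hp => ?_)
  exact TRP_factor p (Nat.prime_of_mem_primeFactors hp).pos s hs

theorem TRP_first (hPBD : StPBD) (hZBD : StZBD) (η : ℝ) (hη : 0 < η) :
    ∃ C : ℝ, 1 ≤ C ∧ ∀ (q : ℕ) [NeZero q], ∀ s : ℂ, 1 < s.re → s.re ≤ 2 →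
      ‖ell (1 : DirichletCharacter ℂ q) 0 s‖ ≤
        C * ((q : ℝ) * (|s.im| + 2)) ^ η * (1 + 1 / ‖s - 1‖) := by
  obtain ⟨C1, hC1, h1⟩ := hPBD η hη
  obtain ⟨C2, hC2, h2⟩ := hZBD η hη
  refine ⟨C1 * C2, one_le_mul_of_one_le_of_one_le hC1 hC2, ?_⟩
  intro q _ s hs hs2
  have hq : 1 ≤ q := NeZero.one_le
  have hT : (1 : ℝ) ≤ |s.im| + 2 := by
    have := abs_nonneg s.im
    linarith
  have hTη : (1 : ℝ) ≤ (|s.im| + 2) ^ η := Real.one_le_rpow hT hη.le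
  have hinv : 0 ≤ 1 / ‖s - 1‖ := by positivity
  have hz : ‖riemannZeta s‖ ≤ C2 * (|s.im| + 2) ^ η * (1 + 1 / ‖s - 1‖) := by
    refine (h2 s hs hs2).trans ?_
    have hCT : (1 : ℝ) ≤ C2 * (|s.im| + 2) ^ η := one_le_mul_of_one_le_of_one_le hC2 hTη
    have := mul_le_mul_of_nonneg_right hCT hinv
    rw [one_mul] at this
    rw [mul_add, mul_one]
    linarith
  have hp := (TRP_prod q s hs).trans (h1 q hq).1
  rw [TRP_eq q s hs, norm_mul]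
  have hq0 : (0 : ℝ) ≤ (q : ℝ) := Nat.cast_nonneg q
  rw [Real.mul_rpow hq0 (by linarith)]
  calc ‖∏ p ∈ q.primeFactors, (1 - (p : ℂ) ^ (-s))‖ * ‖riemannZeta s‖
      ≤ (C1 * (q : ℝ) ^ η) * (C2 * (|s.im| + 2) ^ η * (1 + 1 / ‖s - 1‖)) := by
        refine mul_le_mul hp hz (norm_nonneg _) ?_
        have := Real.rpow_nonneg hq0 η
        have hC1' : (0 : ℝ) ≤ C1 := by linarith
        positivity
    _ = C1 * C2 * ((q : ℝ) ^ η * (|s.im| + 2) ^ η) * (1 + 1 / ‖s - 1‖) := by ring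

theorem TRP_second (hZRB : StZRB) (q : ℕ) [NeZero q] (s : ℂ) (hs : 1 < s.re) (hs2 : s.re ≤ 2) :
    ‖ell (1 : DirichletCharacter ℂ q) 0 s‖ ≤ 2 / (s.re - 1) := by
  obtain ⟨hsum, hle⟩ := hZRB s.re hs hs2
  rw [TRP_ell]
  have hb : ∀ n : ℕ, ‖LSeries.term (fun n : ℕ => (1 : DirichletCharacter ℂ q) (n : ZMod q)) s (n + 1)‖ ≤
      ((n : ℝ) + 1) ^ (-s.re) := by
    intro n
    rw [LSeries.norm_term_eq, if_neg (Nat.succ_ne_zero n)]
    have h1 : ‖(1 : DirichletCharacter ℂ q) ((n + 1 : ℕ) : ZMod q)‖ ≤ 1 :=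
      DirichletCharacter.norm_le_one _ _
    have h2 : (0 : ℝ) < (((n + 1 : ℕ) : ℝ)) ^ s.re := by positivity
    rw [Real.rpow_neg (by positivity), ← one_div]
    have h3 : (((n + 1 : ℕ) : ℝ)) = (n : ℝ) + 1 := by push_cast; ring
    rw [← h3]
    exact div_le_div_of_nonneg_right h1 h2.le
  have hs' : Summable (fun n : ℕ =>
      ‖LSeries.term (fun n : ℕ => (1 : DirichletCharacter ℂ q) (n : ZMod q)) s (n + 1)‖) :=
    Summable.of_nonneg_of_le (fun _ => norm_nonneg _) hb hsum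
  have hs'' : Summable (fun n : ℕ =>
      ‖LSeries.term (fun n : ℕ => (1 : DirichletCharacter ℂ q) (n : ZMod q)) s n‖) :=
    (summable_nat_add_iff 1).1 hs'
  unfold LSeries
  refine (norm_tsum_le_tsum_norm hs'').trans ?_
  rw [hs''.tsum_eq_zero_add, LSeries.term_zero, norm_zero, zero_add]
  exact (hs'.tsum_le_tsum hb hsum).trans hle

/-- Item TRP. -/
theorem prf_TRP (hPBD : StPBD) (hZRB : StZRB) (hZBD : StZBD) : StTR :=
  ⟨fun η hη => TRP_first hPBD hZBD η hη, fun q _ s hs hs2 => TRP_second hZRB q s hs hs2⟩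

end MPb51559.BG.A
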