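import Pool.Agent.Work.MP_b51559_nt.BG.A.StmtsU

/-!
# Bounded gaps, part A, item UBP: upper bounds of the derivatives of `L(s, χ)` (assembly)
-/

namespace MPb51559.BG.A

open scoped BigOperators

theorem UBP_head {q : ℕ} (χ : DirichletCharacter ℂ q) (j : ℕ) (s : ℂ) (hs : 1 < s.re) (N : ℕ) :
    ‖∑ n ∈ Finset.Icc 1 N, cell χ j n * (n : ℂ) ^ (-s)‖ ≤
      ∑ n ∈ Finset.Icc 1 N, Real.log (n : ℝ) ^ j / (n : ℝ) := by
  refine le_trans (norm_sum_le _ _) (Finset.sum_le_sum fun n hn => ?_)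
  have hn1 : 1 ≤ n := (Finset.mem_Icc.1 hn).1
  have hn0 : (0 : ℝ) < n := by exact_mod_cast hn1
  have hn1' : (1 : ℝ) ≤ n := by exact_mod_cast hn1
  have hl : 0 ≤ Real.log (n : ℝ) := Real.log_nonneg hn1'
  unfold cell
  rw [norm_mul, norm_mul, norm_pow, Complex.norm_real, Real.norm_of_nonneg hl,
    Complex.norm_natCast_cpow_of_pos hn1]
  have h1 : ‖χ (n : ZMod q)‖ ≤ 1 := DirichletCharacter.norm_le_one χ _
  have h2 : (n : ℝ) ^ (-s).re ≤ (n : ℝ) ^ (-1 : ℝ) := by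
    apply Real.rpow_le_rpow_of_exponent_le hn1'
    simp only [Complex.neg_re]
    linarith
  rw [Real.rpow_neg_one] at h2
  have h3 : 0 ≤ Real.log (n : ℝ) ^ j := pow_nonneg hl j
  calc ‖χ (n : ZMod q)‖ * Real.log (n : ℝ) ^ j * (n : ℝ) ^ (-s).re
      ≤ 1 * Real.log (n : ℝ) ^ j * (n : ℝ)⁻¹ := by
        apply mul_le_mul _ h2 (Real.rpow_nonneg hn0.le _) (by positivity)
        exact mul_le_mul_of_nonneg_right h1 h3
    _ = Real.log (n : ℝ) ^ j / (n : ℝ) := by rw [one_mul, div_eq_mul_inv]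

theorem prf_UBP (hHDS : StHDS) (hTLC : StTLC) : StUB := by
  intro η hη j
  set η' : ℝ := min η (1 / 2) with hη'
  have hη'0 : 0 < η' := lt_min hη (by norm_num)
  have hη'1 : η' ≤ 1 / 2 := min_le_right _ _
  have hη'2 : η' ≤ η := min_le_left _ _
  obtain ⟨C1, hC1, h1⟩ := hHDS η' hη'0 j
  obtain ⟨C2, hC2, h2⟩ := hTLC η' hη'0 hη'1 j
  refine ⟨2 * (C1 + C2), by linarith, ?_⟩
  intro q _ χ hχ s hs1 hs2
  set Q : ℝ := (q : ℝ) * (|s.im| + 2) with hQ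
  have hq1 : (1 : ℝ) ≤ q := by exact_mod_cast Nat.one_le_iff_ne_zero.2 (NeZero.ne q)
  have hQ2 : 2 ≤ Q := by
    have := abs_nonneg s.im
    nlinarith
  set N : ℕ := ⌈Q⌉₊ with hN
  have hNQ : Q ≤ N := Nat.le_ceil Q
  have hN2' : (2 : ℝ) ≤ N := hQ2.trans hNQ
  have hN2 : 2 ≤ N := by exact_mod_cast hN2'
  have hNlt : (N : ℝ) < Q + 1 := Nat.ceil_lt_add_one (by linarith)
  have hN2Q : (N : ℝ) ≤ 2 * Q := by linarith
  have ha := h1 N (by omega)
  have hb := h2 q χ hχ s hs1 hs2 N hN2 hNQ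
  have hc := UBP_head χ j s hs1 N
  have hd : ‖ell χ j s‖ ≤ (C1 + C2) * (N : ℝ) ^ η' := by
    have : ell χ j s = (ell χ j s - ∑ n ∈ Finset.Icc 1 N, cell χ j n * (n : ℂ) ^ (-s)) +
        ∑ n ∈ Finset.Icc 1 N, cell χ j n * (n : ℂ) ^ (-s) := by ring
    rw [this]
    refine (norm_add_le _ _).trans ?_
    linarith
  have he : (N : ℝ) ^ η' ≤ 2 * Q ^ η := by
    calc (N : ℝ) ^ η' ≤ (2 * Q) ^ η' := Real.rpow_le_rpow (by positivity) hN2Q hη'0.le
      _ = (2 : ℝ) ^ η' * Q ^ η' := Real.mul_rpow (by norm_num) (by linarith)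
      _ ≤ 2 * Q ^ η := by
        apply mul_le_mul
        · calc (2 : ℝ) ^ η' ≤ (2 : ℝ) ^ (1 : ℝ) :=
                Real.rpow_le_rpow_of_exponent_le (by norm_num) (by linarith)
            _ = 2 := Real.rpow_one 2
        · exact Real.rpow_le_rpow_of_exponent_le (by linarith) hη'2
        · positivity
        · norm_num
  calc ‖ell χ j s‖ ≤ (C1 + C2) * (N : ℝ) ^ η' := hd
    _ ≤ (C1 + C2) * (2 * Q ^ η) := mul_le_mul_of_nonneg_left he (by linarith)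
    _ = 2 * (C1 + C2) * Q ^ η := by ring

end MPb51559.BG.A
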