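import Pool.Agent.Work.MP_b51559_nt.BG.A.StmtsU

/-!
# Bounded gaps, part A, item ZBD: the zeta function near the line `Re s = 1`
-/

namespace MPb51559.BG.A

open scoped BigOperators
open Filter Topology

theorem ZBD_norm_le (s : ℂ) (hs : 1 < s.re) (n : ℕ) (hn : 1 ≤ n) (u : ℝ) (hu : (n : ℝ) ≤ u) :
    ‖(u : ℂ) ^ (-s - 1)‖ ≤ 1 / (n : ℝ) ^ 2 := by
  have hn0 : (0 : ℝ) < n := by exact_mod_cast hn
  have hn1 : (1 : ℝ) ≤ n := by exact_mod_cast hn
  have hu0 : 0 < u := hn0.trans_le hu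
  rw [Complex.norm_cpow_eq_rpow_re_of_pos hu0]
  simp only [Complex.sub_re, Complex.neg_re, Complex.one_re]
  calc u ^ (-s.re - 1) ≤ (n : ℝ) ^ (-s.re - 1) :=
        Real.rpow_le_rpow_of_nonpos hn0 hu (by linarith)
    _ ≤ (n : ℝ) ^ (-(2 : ℕ) : ℝ) := by
        apply Real.rpow_le_rpow_of_exponent_le hn1
        push_cast
        linarith
    _ = 1 / (n : ℝ) ^ 2 := by
        rw [Real.rpow_neg hn0.le, Real.rpow_natCast, one_div]

theorem ZBD_diff (s : ℂ) (hs : 1 < s.re) (n : ℕ) (hn : 1 ≤ n) (u : ℝ) (hu : (n : ℝ) ≤ u)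
    (hu' : u ≤ n + 1) : ‖(u : ℂ) ^ (-s) - (n : ℂ) ^ (-s)‖ ≤ ‖s‖ / (n : ℝ) ^ 2 := by
  have hn0 : (0 : ℝ) < n := by exact_mod_cast hn
  have hs0 : s ≠ 0 := by
    intro h
    rw [h] at hs
    norm_num at hs
  have key : ∀ x ∈ Set.Icc (n : ℝ) (n + 1),
      HasDerivWithinAt (fun y : ℝ => (y : ℂ) ^ (-s)) (-s * (x : ℂ) ^ (-s - 1))
        (Set.Icc (n : ℝ) (n + 1)) x := by
    intro x hx
    have hx0 : x ≠ 0 := (hn0.trans_le hx.1).ne'
    have h := hasDerivAt_ofReal_cpow_const (x := x) hx0 (r := -s) (neg_ne_zero.2 hs0)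
    exact h.hasDerivWithinAt
  have hb : ∀ x ∈ Set.Icc (n : ℝ) (n + 1), ‖-s * (x : ℂ) ^ (-s - 1)‖ ≤ ‖s‖ / (n : ℝ) ^ 2 := by
    intro x hx
    rw [norm_mul, norm_neg, div_eq_mul_one_div]
    exact mul_le_mul_of_nonneg_left (ZBD_norm_le s hs n hn x hx.1) (norm_nonneg _)
  have h := Convex.norm_image_sub_le_of_norm_hasDerivWithin_le key hb (convex_Icc _ _)
    (Set.left_mem_Icc.2 (by linarith : (n : ℝ) ≤ n + 1)) (Set.mem_Icc.2 ⟨hu, hu'⟩)
  have h3 : ‖u - (n : ℝ)‖ ≤ 1 := by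
    rw [Real.norm_eq_abs, abs_le]
    constructor <;> linarith
  have h4 : 0 ≤ ‖s‖ / (n : ℝ) ^ 2 := by positivity
  simp only [Complex.ofReal_natCast] at h
  calc ‖(u : ℂ) ^ (-s) - (n : ℂ) ^ (-s)‖ ≤ ‖s‖ / (n : ℝ) ^ 2 * ‖u - (n : ℝ)‖ := h
    _ ≤ ‖s‖ / (n : ℝ) ^ 2 * 1 := mul_le_mul_of_nonneg_left h3 h4
    _ = _ := mul_one _

theorem ZBD_step (s : ℂ) (hs : 1 < s.re) (n : ℕ) (hn : 1 ≤ n) :
    ‖(n : ℂ) ^ (-s) - ((n : ℂ) ^ (1 - s) / (s - 1) - ((n + 1 : ℕ) : ℂ) ^ (1 - s) / (s - 1))‖ ≤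
      ‖s‖ / (n : ℝ) ^ 2 := by
  have hn0 : (0 : ℝ) < n := by exact_mod_cast hn
  have hs1 : s - 1 ≠ 0 := by
    intro h
    have : s = 1 := by linear_combination h
    rw [this] at hs
    norm_num at hs
  have key : ∀ x ∈ Set.Icc (n : ℝ) (n + 1),
      HasDerivWithinAt (fun y : ℝ => (y : ℂ) ^ (1 - s) / (s - 1) + (y : ℂ) * (n : ℂ) ^ (-s))
        (-((x : ℂ) ^ (-s)) + 1 * (n : ℂ) ^ (-s)) (Set.Icc (n : ℝ) (n + 1)) x := by
    intro x hx
    have hx0 : x ≠ 0 := (hn0.trans_le hx.1).ne'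
    have h := hasDerivAt_ofReal_cpow_const (x := x) hx0 (r := 1 - s) (by
      intro h
      apply hs1
      linear_combination -h)
    have h2 : HasDerivAt (fun y : ℝ => (y : ℂ) ^ (1 - s) / (s - 1)) (-((x : ℂ) ^ (-s))) x := by
      have h3 := h.div_const (s - 1)
      have e1 : (1 - s) - 1 = -s := by ring
      have e2 : (1 - s) * (x : ℂ) ^ ((1 - s) - 1) / (s - 1) = -((x : ℂ) ^ (-s)) := by
        rw [e1]
        field_simp
        ring
      rw [e2] at h3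
      exact h3
    have h3 : HasDerivAt (fun y : ℝ => (y : ℂ) * (n : ℂ) ^ (-s)) (1 * (n : ℂ) ^ (-s)) x :=
      (Complex.ofRealCLM.hasDerivAt (x := x)).mul_const _
    exact (h2.add h3).hasDerivWithinAt
  have hb : ∀ x ∈ Set.Icc (n : ℝ) (n + 1), ‖-((x : ℂ) ^ (-s)) + 1 * (n : ℂ) ^ (-s)‖ ≤
      ‖s‖ / (n : ℝ) ^ 2 := by
    intro x hx
    have e : -((x : ℂ) ^ (-s)) + 1 * (n : ℂ) ^ (-s) = -((x : ℂ) ^ (-s) - (n : ℂ) ^ (-s)) := by ring
    rw [e, norm_neg]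
    exact ZBD_diff s hs n hn x hx.1 hx.2
  have h := Convex.norm_image_sub_le_of_norm_hasDerivWithin_le key hb (convex_Icc _ _)
    (Set.left_mem_Icc.2 (by linarith : (n : ℝ) ≤ n + 1))
    (Set.right_mem_Icc.2 (by linarith : (n : ℝ) ≤ n + 1))
  have h3 : ‖(n : ℝ) + 1 - (n : ℝ)‖ = 1 := by
    rw [add_sub_cancel_left, norm_one]
  rw [h3, mul_one] at h
  refine le_trans (le_of_eq ?_) h
  congr 1
  push_cast
  ring

theorem ZBD_sq (N M : ℕ) (hN : 1 ≤ N) (hM : N ≤ M) :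
    ∑ n ∈ Finset.Ioc N M, 1 / (n : ℝ) ^ 2 ≤ 1 / (N : ℝ) - 1 / (M : ℝ) := by
  induction M, hM using Nat.le_induction with
  | base => simp
  | succ M hM ih =>
    have hM0 : (0 : ℝ) < M := by exact_mod_cast (by omega : 0 < M)
    rw [← Finset.insert_Ioc_right_eq_Ioc_add_one (by omega : N ≤ M), Finset.sum_insert (by simp)]
    have : 1 / ((M + 1 : ℕ) : ℝ) ^ 2 ≤ 1 / (M : ℝ) - 1 / ((M + 1 : ℕ) : ℝ) := by
      push_cast
      rw [div_sub_div _ _ hM0.ne' (by positivity), div_le_div_iff₀ (by positivity) (by positivity)]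
      nlinarith
    linarith

theorem ZBD_tail (s : ℂ) (hs : 1 < s.re) (N M : ℕ) (hN : 1 ≤ N) (hM : N ≤ M) :
    ‖∑ n ∈ Finset.Ioc N M, (n : ℂ) ^ (-s) - (((N + 1 : ℕ) : ℂ) ^ (1 - s) / (s - 1) -
      ((M + 1 : ℕ) : ℂ) ^ (1 - s) / (s - 1))‖ ≤ ∑ n ∈ Finset.Ioc N M, ‖s‖ / (n : ℝ) ^ 2 := by
  induction M, hM using Nat.le_induction with
  | base => simp
  | succ M hM ih =>
    rw [← Finset.insert_Ioc_right_eq_Ioc_add_one (by omega : N ≤ M), Finset.sum_insert (by simp),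
      Finset.sum_insert (by simp)]
    have h := ZBD_step s hs (M + 1) (by omega)
    refine le_trans (le_of_eq ?_) ((norm_add_le _ _).trans (add_le_add h ih))
    congr 1
    ring

theorem ZBD_head (s : ℂ) (hs : 1 < s.re) (N : ℕ) (hN : 1 ≤ N) :
    ‖∑ n ∈ Finset.Ioc 0 N, (n : ℂ) ^ (-s)‖ ≤ 1 + Real.log N := by
  refine (norm_sum_le _ _).trans ?_
  have h1 : ∀ n ∈ Finset.Ioc 0 N, ‖(n : ℂ) ^ (-s)‖ ≤ ((n : ℝ))⁻¹ := by
    intro n hn
    have hn1 : 0 < n := (Finset.mem_Ioc.1 hn).1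
    rw [Complex.norm_natCast_cpow_of_pos hn1, ← Real.rpow_neg_one]
    apply Real.rpow_le_rpow_of_exponent_le (by exact_mod_cast hn1)
    simp only [Complex.neg_re]
    linarith
  refine (Finset.sum_le_sum h1).trans ?_
  have h2 := harmonic_le_one_add_log N
  rw [harmonic_eq_sum_Icc] at h2
  push_cast at h2
  have e : Finset.Ioc 0 N = Finset.Icc 1 N := by
    ext n
    simp only [Finset.mem_Ioc, Finset.mem_Icc]
    omega
  rw [e]
  exact h2

theorem ZBD_main (s : ℂ) (hs : 1 < s.re) (N : ℕ) (hN : 1 ≤ N) :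
    ‖riemannZeta s‖ ≤ 1 / ‖s - 1‖ + (1 + Real.log N + ‖s‖ / N) := by
  have hs1 : s - 1 ≠ 0 := by
    intro h
    have : s = 1 := by linear_combination h
    rw [this] at hs
    norm_num at hs
  have hs1' : 0 < ‖s - 1‖ := norm_pos_iff.2 hs1
  have hsum : HasSum (fun n : ℕ => 1 / ((n : ℂ) + 1) ^ s) (riemannZeta s) := by
    rw [zeta_eq_tsum_one_div_nat_add_one_cpow hs]
    have h := (Complex.summable_one_div_nat_cpow (p := s)).2 hs
    have h2 := (summable_nat_add_iff 1).2 h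
    refine Summable.hasSum (h2.congr fun n => ?_)
    push_cast
    rfl
  have hlim := hsum.tendsto_sum_nat
  have hlim2 : Tendsto (fun M : ℕ => ‖∑ n ∈ Finset.range M, 1 / ((n : ℂ) + 1) ^ s‖) atTop
      (𝓝 ‖riemannZeta s‖) := hlim.norm
  have hg : Tendsto (fun M : ℕ => (1 + Real.log N + (1 / ‖s - 1‖ +
      ((M : ℝ) + 1) ^ (-(s.re - 1)) / ‖s - 1‖) + ‖s‖ / N)) atTop
      (𝓝 (1 + Real.log N + (1 / ‖s - 1‖ + 0 / ‖s - 1‖) + ‖s‖ / N)) := by
    have h1 : Tendsto (fun M : ℕ => ((M : ℝ) + 1) ^ (-(s.re - 1))) atTop (𝓝 0) :=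
      (tendsto_rpow_neg_atTop (by linarith : 0 < s.re - 1)).comp
        (tendsto_atTop_add_const_right _ _ tendsto_natCast_atTop_atTop)
    exact ((h1.div_const _).const_add _ |>.const_add _).add_const _
  have hle : ∀ᶠ M : ℕ in atTop, ‖∑ n ∈ Finset.range M, 1 / ((n : ℂ) + 1) ^ s‖ ≤
      1 + Real.log N + (1 / ‖s - 1‖ + ((M : ℝ) + 1) ^ (-(s.re - 1)) / ‖s - 1‖) + ‖s‖ / N := by
    filter_upwards [eventually_ge_atTop N] with M hM
    have e1 : ∑ n ∈ Finset.range M, 1 / ((n : ℂ) + 1) ^ s = ∑ n ∈ Finset.Ioc 0 M, (n : ℂ) ^ (-s) := by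
      have e0 : Finset.Ico (0 + 1) (M + 1) = Finset.Ioc 0 M := by
        ext n
        simp only [Finset.mem_Ico, Finset.mem_Ioc]
        omega
      rw [← e0, ← Finset.sum_Ico_add' (fun n : ℕ => (n : ℂ) ^ (-s)) 0 M 1, Finset.range_eq_Ico]
      refine Finset.sum_congr rfl fun n _ => ?_
      push_cast
      rw [Complex.cpow_neg, one_div]
    rw [e1]
    have e2 : Finset.Ioc 0 M = Finset.Ioc 0 N ∪ Finset.Ioc N M :=
      (Finset.Ioc_union_Ioc_eq_Ioc (Nat.zero_le N) hM).symm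
    have hd : Disjoint (Finset.Ioc 0 N) (Finset.Ioc N M) := by
      rw [Finset.disjoint_left]
      intro n h1 h2
      rw [Finset.mem_Ioc] at h1 h2
      omega
    rw [e2, Finset.sum_union hd]
    have hh := ZBD_head s hs N hN
    have ht := ZBD_tail s hs N M hN hM
    have hsq : ∑ n ∈ Finset.Ioc N M, ‖s‖ / (n : ℝ) ^ 2 ≤ ‖s‖ / N := by
      have e3 : ∑ n ∈ Finset.Ioc N M, ‖s‖ / (n : ℝ) ^ 2 =
          ‖s‖ * ∑ n ∈ Finset.Ioc N M, 1 / (n : ℝ) ^ 2 := by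
        rw [Finset.mul_sum]
        refine Finset.sum_congr rfl fun n _ => ?_
        ring
      rw [e3, div_eq_mul_one_div ‖s‖]
      apply mul_le_mul_of_nonneg_left _ (norm_nonneg _)
      have := ZBD_sq N M hN hM
      have h5 : 0 ≤ 1 / (M : ℝ) := by positivity
      linarith
    have hb : ∀ K : ℕ, ‖((K + 1 : ℕ) : ℂ) ^ (1 - s) / (s - 1)‖ =
        ((K : ℝ) + 1) ^ (-(s.re - 1)) / ‖s - 1‖ := by
      intro K
      rw [norm_div, Complex.norm_natCast_cpow_of_pos (Nat.succ_pos K)]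
      congr 1
      simp only [Complex.sub_re, Complex.one_re, neg_sub]
      push_cast
      rfl
    have h6 : ‖((N + 1 : ℕ) : ℂ) ^ (1 - s) / (s - 1)‖ ≤ 1 / ‖s - 1‖ := by
      rw [hb N]
      apply div_le_div_of_nonneg_right _ hs1'.le
      apply Real.rpow_le_one_of_one_le_of_nonpos
      · have : (0 : ℝ) ≤ N := Nat.cast_nonneg N
        linarith
      · linarith
    have h7 := hb M
    have h8 : ‖∑ n ∈ Finset.Ioc N M, (n : ℂ) ^ (-s)‖ ≤ ‖s‖ / N + (1 / ‖s - 1‖ +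
        ((M : ℝ) + 1) ^ (-(s.re - 1)) / ‖s - 1‖) := by
      have e4 : ∑ n ∈ Finset.Ioc N M, (n : ℂ) ^ (-s) =
          (∑ n ∈ Finset.Ioc N M, (n : ℂ) ^ (-s) - (((N + 1 : ℕ) : ℂ) ^ (1 - s) / (s - 1) -
            ((M + 1 : ℕ) : ℂ) ^ (1 - s) / (s - 1))) + (((N + 1 : ℕ) : ℂ) ^ (1 - s) / (s - 1) -
            ((M + 1 : ℕ) : ℂ) ^ (1 - s) / (s - 1)) := by ring
      rw [e4]
      refine (norm_add_le _ _).trans (add_le_add (ht.trans hsq) ?_)
      refine (norm_sub_le _ _).trans (add_le_add h6 h7.le)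
    refine (norm_add_le _ _).trans ?_
    linarith
  have := le_of_tendsto_of_tendsto hlim2 hg hle
  rw [zero_div, add_zero] at this
  linarith

theorem prf_ZBD : StZBD := by
  intro η hη
  refine ⟨3 + 4 / η, by have : 0 < 4 / η := by positivity
                        linarith, ?_⟩
  intro s hs1 hs2
  set τ : ℝ := |s.im| + 2 with hτ
  have hτ2 : 2 ≤ τ := by
    have := abs_nonneg s.im
    linarith
  set N : ℕ := ⌈τ⌉₊ with hN
  have hNτ : τ ≤ N := Nat.le_ceil τ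
  have hN1 : 1 ≤ N := by
    have : (1 : ℝ) ≤ N := by linarith
    exact_mod_cast this
  have hN0 : (0 : ℝ) < N := by exact_mod_cast hN1
  have hNlt : (N : ℝ) < τ + 1 := Nat.ceil_lt_add_one (by linarith)
  have hN2τ : (N : ℝ) ≤ 2 * τ := by linarith
  have h := ZBD_main s hs1 N hN1
  have hsn : ‖s‖ / N ≤ 1 := by
    rw [div_le_one hN0]
    refine le_trans (Complex.norm_le_abs_re_add_abs_im s) (le_trans ?_ hNτ)
    rw [abs_of_pos (by linarith : 0 < s.re)]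
    linarith
  have hlog : Real.log N ≤ 1 + 1 / η * τ ^ η := by
    calc Real.log N ≤ Real.log (2 * τ) := Real.log_le_log hN0 hN2τ
      _ = Real.log 2 + Real.log τ := Real.log_mul (by norm_num) (by linarith)
      _ ≤ 1 + τ ^ η / η := by
        have h1 := Real.log_le_rpow_div (by linarith : 0 ≤ τ) hη
        have h2 := Real.log_two_lt_d9
        linarith
      _ = 1 + 1 / η * τ ^ η := by ring
  have hτη : 1 ≤ τ ^ η := Real.one_le_rpow (by linarith) hη.le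
  have h4 : 0 < 1 / η := by positivity
  have h5 : 1 + Real.log N + ‖s‖ / N ≤ (3 + 4 / η) * τ ^ η := by
    have e : (3 + 4 / η) * τ ^ η = 3 * τ ^ η + 4 * (1 / η * τ ^ η) := by ring
    have h6 : 0 ≤ 1 / η * τ ^ η := by positivity
    rw [e]
    linarith
  linarith

end MPb51559.BG.A
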