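import Pool.Agent.Work.MP_b51559_nt.BG.A.StmtsU

set_option autoImplicit false

/-!
# Bounded gaps, part A: the real zeta series is at most `2 / (σ - 1)`
-/

namespace MPb51559.BG.A

open scoped BigOperators

/-- the telescoping inequality -/
theorem ZRB_step (a x : ℝ) (ha : 0 < a) (hx : 0 < x) :
    a * (x + 1) ^ (-(a + 1)) ≤ x ^ (-a) - (x + 1) ^ (-a) := by
  have hx1 : 0 < x + 1 := by linarith
  have h1 : Real.log (x / (x + 1)) ≤ x / (x + 1) - 1 := Real.log_le_sub_one_of_pos (by positivity)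
  rw [Real.log_div hx.ne' hx1.ne'] at h1
  have h2 : x / (x + 1) - 1 = -(1 / (x + 1)) := by
    field_simp
    ring
  rw [h2] at h1
  have h3 : x ^ (-a) = (x + 1) ^ (-a) * Real.exp (a * (Real.log (x + 1) - Real.log x)) := by
    rw [Real.rpow_def_of_pos hx, Real.rpow_def_of_pos hx1, ← Real.exp_add]
    congr 1
    ring
  have h4 : 1 + a * (1 / (x + 1)) ≤ Real.exp (a * (Real.log (x + 1) - Real.log x)) := by
    have h5 := Real.add_one_le_exp (a * (Real.log (x + 1) - Real.log x))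
    have h6 : a * (1 / (x + 1)) ≤ a * (Real.log (x + 1) - Real.log x) :=
      mul_le_mul_of_nonneg_left (by linarith) ha.le
    linarith
  have h5 : (x + 1) ^ (-(a + 1)) = (x + 1) ^ (-a) * (1 / (x + 1)) := by
    rw [neg_add, Real.rpow_add hx1, Real.rpow_neg_one, one_div]
  have h6 : 0 < (x + 1) ^ (-a) := Real.rpow_pos_of_pos hx1 _
  rw [h3, h5]
  have h7 := mul_le_mul_of_nonneg_left h4 h6.le
  nlinarith

/-- partial sums -/
theorem ZRB_part (a : ℝ) (ha : 0 < a) (N : ℕ) :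
    ∑ n ∈ Finset.range (N + 1), ((n : ℝ) + 1) ^ (-(a + 1)) ≤
      1 + (1 - ((N : ℝ) + 1) ^ (-a)) / a := by
  induction N with
  | zero => simp
  | succ N ih =>
    rw [Finset.sum_range_succ]
    have h1 := ZRB_step a ((N : ℝ) + 1) ha (by positivity)
    have h2 : ((N + 1 : ℕ) : ℝ) = (N : ℝ) + 1 := by push_cast; ring
    rw [h2]
    have h3 : ((N : ℝ) + 1 + 1) ^ (-(a + 1)) ≤
        (((N : ℝ) + 1) ^ (-a) - ((N : ℝ) + 1 + 1) ^ (-a)) / a := by
      rw [le_div_iff₀ ha]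
      linarith
    have h4 : 1 + (1 - ((N : ℝ) + 1 + 1) ^ (-a)) / a = 1 + (1 - ((N : ℝ) + 1) ^ (-a)) / a +
        (((N : ℝ) + 1) ^ (-a) - ((N : ℝ) + 1 + 1) ^ (-a)) / a := by
      field_simp
      ring
    rw [h4]
    linarith

theorem prf_ZRB : StZRB := by
  intro σ h1 h2
  have ha : 0 < σ - 1 := by linarith
  have h0 : ∀ n : ℕ, 0 ≤ ((n : ℝ) + 1) ^ (-σ) := fun n => Real.rpow_nonneg (by positivity) _
  have hb : ∀ N : ℕ, ∑ n ∈ Finset.range N, ((n : ℝ) + 1) ^ (-σ) ≤ 2 / (σ - 1) := by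
    intro N
    have h3 := ZRB_part (σ - 1) ha N
    have h4 : -(σ - 1 + 1) = -σ := by ring
    rw [h4] at h3
    have h5 : ∑ n ∈ Finset.range N, ((n : ℝ) + 1) ^ (-σ) ≤
        ∑ n ∈ Finset.range (N + 1), ((n : ℝ) + 1) ^ (-σ) := by
      rw [Finset.sum_range_succ]
      linarith [h0 N]
    have h6 : (1 - ((N : ℝ) + 1) ^ (-(σ - 1))) / (σ - 1) ≤ 1 / (σ - 1) := by
      refine div_le_div_of_nonneg_right ?_ ha.le
      have := Real.rpow_nonneg (show (0 : ℝ) ≤ (N : ℝ) + 1 by positivity) (-(σ - 1))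
      linarith
    have h7 : 1 + 1 / (σ - 1) ≤ 2 / (σ - 1) := by
      rw [le_div_iff₀ ha, add_mul, one_div, inv_mul_cancel₀ ha.ne']
      linarith
    linarith
  exact ⟨summable_of_sum_range_le h0 hb, Real.tsum_le_of_sum_range_le h0 hb⟩

end MPb51559.BG.A
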