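import Pool.Agent.Work.MP_b51559_nt.BG.A.SUM
import Pool.Agent.Work.MP_b51559_nt.BG.A.REC
import Pool.Agent.Work.MP_b51559_nt.BG.A.REB
import Pool.Agent.Work.MP_b51559_nt.BG.A.LGE
import Pool.Agent.Work.MP_b51559_nt.BG.A.HDS
import Pool.Agent.Work.MP_b51559_nt.BG.A.TLS
import Pool.Agent.Work.MP_b51559_nt.BG.A.CSU
import Pool.Agent.Work.MP_b51559_nt.BG.A.GDF
import Pool.Agent.Work.MP_b51559_nt.BG.A.TLC
import Pool.Agent.Work.MP_b51559_nt.BG.A.UBP
import Pool.Agent.Work.MP_b51559_nt.BG.A.PBD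
import Pool.Agent.Work.MP_b51559_nt.BG.A.ZRB
import Pool.Agent.Work.MP_b51559_nt.BG.A.ZBD
import Pool.Agent.Work.MP_b51559_nt.BG.A.TRP
import Pool.Agent.Work.MP_b51559_nt.BG.A.LIP
import Pool.Agent.Work.MP_b51559_nt.BG.A.MOB
import Pool.Agent.Work.MP_b51559_nt.BG.A.T41
import Pool.Agent.Work.MP_b51559_nt.BG.A.OPT
import Pool.Agent.Work.MP_b51559_nt.BG.A.LBA
import Pool.Agent.Work.MP_b51559_nt.BG.A.LBB
import Pool.Agent.Work.MP_b51559_nt.BG.A.LBP
import Pool.Agent.Work.MP_b51559_nt.BG.A.DKP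
import Pool.Agent.Work.MP_b51559_nt.BG.A.AllP
import Pool.Agent.Work.MP_b51559_nt.BG.A.AllS
import Pool.Agent.Work.MP_b51559_nt.BG.A.ABW
import Pool.Agent.Work.MP_b51559_nt.BG.A.THT
import Pool.Agent.Work.MP_b51559_nt.BG.A.PNW
import Pool.Agent.Work.MP_b51559_nt.BG.A.SWF
import Pool.Agent.Work.MP_b51559_nt.BG.A.APF

set_option autoImplicit false

/-!
# Part A of BG, everything except the item LBC

The prime number theorem in the form `PNTW` without hypotheses; Siegel-Walfisz from the one statement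
`StLBC` (lower bound for `L(s, χ)` near the real axis, `χ` quadratic).
-/

namespace MPb51559.BG.A

/-- summability -/
theorem all_SUM : StSUM := prf_SUM

/-- the upper bound for the derivatives of `L(s, χ)` -/
theorem all_UB : StUB :=
  prf_UBP (prf_HDS prf_LGE) (prf_TLC prf_CSU prf_GDF (prf_TLS prf_LGE))

/-- the trivial character -/
theorem all_TR : StTR := prf_TRP prf_PBD prf_ZRB prf_ZBD

/-- from `LBC` to the lower bound for `L(s, χ)` -/
theorem all_LB (hC : StLBC) : StLB :=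
  prf_LBP (prf_LBA all_UB all_TR prf_SUM (prf_LIP prf_SUM) prf_T41 prf_OPT)
    (prf_LBB all_UB all_TR prf_SUM (prf_LIP prf_SUM) prf_T41 prf_OPT) hC

/-- from `LBC` to the bound for the derivatives of `L'/L` -/
theorem all_DK (hC : StLBC) : StDK :=
  prf_DKP all_UB (all_LB hC) (prf_REC prf_SUM) prf_REB

/-- from `LBC` to Siegel-Walfisz for characters -/
theorem all_SW (hC : StLBC) : StSW := allP_sw (allP_ps (all_DK hC))

/-- from `LBC` to Siegel-Walfisz in the form of the interface -/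
theorem all_SWF (hC : StLBC) : MPb51559.BG.SWF := prf_SWF prf_ABW (all_SW hC)

/-- from `LBC` to Siegel-Walfisz in progressions -/
theorem all_APF (hC : StLBC) : StAPF := prf_APF (all_SW hC)

/-- the prime number theorem with weights -/
theorem bg_PNTW : MPb51559.BG.PNTW := prf_PNW prf_ABW prf_THT

end MPb51559.BG.A
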