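import Pool.Agent.Work.MP_b51559_nt.BG.A.StmtsL

/-!
# Bounded gaps, part A, item DKP: the derivatives of `L'/L`
-/

namespace MPb51559.BG.A

open scoped BigOperators

theorem prf_DKP (hUB : StUB) (hLB : StLB) (hREC : StREC) (hREB : StREB) : StDK := by
  intro η hη k
  set η' : ℝ := η / (2 * ((k : ℝ) + 1)) with hη'
  have hk0 : (0 : ℝ) < 2 * ((k : ℝ) + 1) := by positivity
  have hη'0 : 0 < η' := div_pos hη hk0
  choose Cf hCf1 hCf using fun j => hUB η' hη'0 j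
  obtain ⟨c, hc0, hc⟩ := hLB η' hη'0
  set C : ℝ := ∑ j ∈ Finset.range (k + 2), Cf j with hCdef
  have hCj : ∀ j, j ≤ k + 1 → Cf j ≤ C := by
    intro j hj
    exact Finset.single_le_sum (f := Cf) (fun i _ => by linarith [hCf1 i])
      (Finset.mem_range.2 (by omega))
  have hC1 : 1 ≤ C := le_trans (hCf1 0) (hCj 0 (by omega))
  set c' : ℝ := min c 1 with hc'
  have hc'0 : 0 < c' := lt_min hc0 one_pos
  have hc'1 : c' ≤ 1 := min_le_right _ _
  have hc'c : c' ≤ c := min_le_left _ _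
  have hcinv : 1 ≤ c'⁻¹ := (one_le_inv₀ hc'0).2 hc'1
  have hB1 : (1 : ℝ) ≤ 2 ^ (k + 1) * C * c'⁻¹ := by
    have h2 : (1 : ℝ) ≤ 2 ^ (k + 1) := one_le_pow₀ (by norm_num)
    have h3 : (1 : ℝ) ≤ 2 ^ (k + 1) * C := one_le_mul_of_one_le_of_one_le h2 hC1
    exact one_le_mul_of_one_le_of_one_le h3 hcinv
  refine ⟨(2 ^ (k + 1) * C * c'⁻¹) ^ (k + 1), one_le_pow₀ hB1, ?_⟩
  intro q _ χ hχ s hs1 hs2
  set Q : ℝ := (q : ℝ) * (|s.im| + 2) with hQ
  have hq1 : (1 : ℝ) ≤ (q : ℝ) := by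
    have := NeZero.one_le (n := q)
    exact_mod_cast this
  have hQ1 : 1 ≤ Q := by
    have : (1 : ℝ) ≤ |s.im| + 2 := by linarith [abs_nonneg s.im]
    exact one_le_mul_of_one_le_of_one_le hq1 this
  have hQ0 : 0 < Q := by linarith
  set Ev : ℝ := Q ^ η' with hEv
  have hE1 : 1 ≤ Ev := Real.one_le_rpow hQ1 hη'0.le
  have hE0 : 0 < Ev := by linarith
  have hEinv : Q ^ (-η') = Ev⁻¹ := Real.rpow_neg hQ0.le η'
  have hU : 1 ≤ C * Ev := one_le_mul_of_one_le_of_one_le hC1 hE1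
  have hV : 1 ≤ c'⁻¹ * Ev := one_le_mul_of_one_le_of_one_le hcinv hE1
  have hell : ∀ j, j ≤ k + 1 → ‖ell χ j s‖ ≤ C * Ev := by
    intro j hj
    refine (hCf j q χ hχ s hs1 hs2).trans ?_
    exact mul_le_mul_of_nonneg_right (hCj j hj) hE0.le
  have hlow : c' * Ev⁻¹ ≤ ‖ell χ 0 s‖ := by
    have h := hc q χ hχ s hs1 hs2
    rw [← hQ, hEinv] at h
    exact (mul_le_mul_of_nonneg_right hc'c (by positivity)).trans h
  have hmain := hREB (C * Ev) (c'⁻¹ * Ev) hU hV k (fun m => ‖dk χ m s‖) (fun m => norm_nonneg _)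
    (by
      intro m hm
      have hrec := hREC q χ m s hs1
      rw [Finset.sum_range_succ] at hrec
      simp only [Nat.choose_self, Nat.cast_one, one_mul, Nat.sub_self] at hrec
      have h1 : dk χ m s * ell χ 0 s = ell χ (m + 1) s -
          ∑ j ∈ Finset.range m, (m.choose j : ℂ) * (dk χ j s * ell χ (m - j) s) := by
        rw [hrec]; ring
      have h2 : ‖dk χ m s * ell χ 0 s‖ ≤ C * Ev +
          ∑ j ∈ Finset.range m, (m.choose j : ℝ) * (C * Ev * ‖dk χ j s‖) := by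
        rw [h1]
        refine (norm_sub_le _ _).trans (add_le_add (hell _ (by omega)) ?_)
        refine (norm_sum_le _ _).trans (Finset.sum_le_sum fun j hj => ?_)
        rw [norm_mul, norm_mul, Complex.norm_natCast]
        refine mul_le_mul_of_nonneg_left ?_ (Nat.cast_nonneg _)
        rw [mul_comm]
        exact mul_le_mul_of_nonneg_right (hell _ (by omega)) (norm_nonneg _)
      have h3 : ‖dk χ m s‖ * (c' * Ev⁻¹) ≤ ‖dk χ m s * ell χ 0 s‖ := by
        rw [norm_mul]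
        exact mul_le_mul_of_nonneg_left hlow (norm_nonneg _)
      have h4 : ‖dk χ m s‖ = (c'⁻¹ * Ev) * (‖dk χ m s‖ * (c' * Ev⁻¹)) := by
        field_simp
      show ‖dk χ m s‖ ≤ _
      rw [h4]
      exact mul_le_mul_of_nonneg_left (h3.trans h2) (by positivity)) k le_rfl
  refine hmain.trans (le_of_eq ?_)
  have h5 : (2 ^ (k + 1) * (C * Ev) * (c'⁻¹ * Ev)) = (2 ^ (k + 1) * C * c'⁻¹) * Ev ^ 2 := by ring
  rw [h5, mul_pow, ← pow_mul]
  congr 1
  rw [hEv, ← Real.rpow_natCast, ← Real.rpow_mul hQ0.le]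
  congr 1
  rw [hη']
  push_cast
  field_simp

end MPb51559.BG.A
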