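import Mathlib

/-!
# Bounded gaps, part A: the Siegel-Walfisz theorem (definitions and interface statements)

Captain helper19; co-captains helper84 (Siegel's theorem), helper60 (Perron formula, from the derivatives of
`L'/L` to `psi`), helper48 (upper bounds).

Everything takes place in `Re s > 1` (and at `s = 1`), except Siegel's theorem.
`q` is always positive (`[NeZero q]`), `χ` a Dirichlet character modulo `q` with complex values.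
-/

namespace MPb51559.BG.A

open scoped BigOperators ArithmeticFunction

/-- `psi(x, χ)`: the sum of `χ(n) Λ(n)` over `1 ≤ n ≤ x`. -/
noncomputable def psi {q : ℕ} (x : ℝ) (χ : DirichletCharacter ℂ q) : ℂ :=
  ∑ n ∈ Finset.Icc 1 ⌊x⌋₊, χ (n : ZMod q) * (ArithmeticFunction.vonMangoldt n : ℂ)

/-- the coefficients `χ(n) (log n)^j` -/
noncomputable def cell {q : ℕ} (χ : DirichletCharacter ℂ q) (j : ℕ) (n : ℕ) : ℂ :=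
  χ (n : ZMod q) * ((Real.log n : ℝ) : ℂ) ^ j

/-- the coefficients `χ(n) Λ(n) (log n)^k` -/
noncomputable def cdk {q : ℕ} (χ : DirichletCharacter ℂ q) (k : ℕ) (n : ℕ) : ℂ :=
  χ (n : ZMod q) * (ArithmeticFunction.vonMangoldt n : ℂ) * ((Real.log n : ℝ) : ℂ) ^ k

/-- `ell χ j s` = the sum of `χ(n) (log n)^j n^(-s)`, which is `(-1)^j` times the `j`-th derivative of `L(s, χ)`. -/
noncomputable def ell {q : ℕ} (χ : DirichletCharacter ℂ q) (j : ℕ) (s : ℂ) : ℂ := LSeries (cell χ j) s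

/-- `dk χ k s` = the sum of `χ(n) Λ(n) (log n)^k n^(-s)`. -/
noncomputable def dk {q : ℕ} (χ : DirichletCharacter ℂ q) (k : ℕ) (s : ℂ) : ℂ := LSeries (cdk χ k) s

/-- UB (upper bounds): all derivatives of `L(s, χ)` are at most `C (q (|t| + 2))^η` for `1 < Re s ≤ 2`, `χ` non-principal. -/
def StUB : Prop := ∀ η : ℝ, 0 < η → ∀ j : ℕ, ∃ C : ℝ, 1 ≤ C ∧ ∀ (q : ℕ) [NeZero q] (χ : DirichletCharacter ℂ q), χ ≠ 1 →
    ∀ s : ℂ, 1 < s.re → s.re ≤ 2 → ‖ell χ j s‖ ≤ C * ((q : ℝ) * (|s.im| + 2)) ^ η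

/-- TR (the principal character): `|L(s, χ₀)| ≤ C (q (|t| + 2))^η (1 + 1/|s - 1|)` for `1 < Re s ≤ 2`, and `≤ 2/(Re s - 1)`. -/
def StTR : Prop := (∀ η : ℝ, 0 < η → ∃ C : ℝ, 1 ≤ C ∧ ∀ (q : ℕ) [NeZero q], ∀ s : ℂ, 1 < s.re → s.re ≤ 2 →
      ‖ell (1 : DirichletCharacter ℂ q) 0 s‖ ≤ C * ((q : ℝ) * (|s.im| + 2)) ^ η * (1 + 1 / ‖s - 1‖)) ∧
    ∀ (q : ℕ) [NeZero q] (s : ℂ), 1 < s.re → s.re ≤ 2 → ‖ell (1 : DirichletCharacter ℂ q) 0 s‖ ≤ 2 / (s.re - 1)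

/-- SG (Siegel's theorem) for all non-principal quadratic characters, primitive or not. -/
def StSG : Prop := ∀ η : ℝ, 0 < η → ∃ c : ℝ, 0 < c ∧ ∀ (q : ℕ) [NeZero q] (χ : DirichletCharacter ℂ q), χ ≠ 1 → χ ^ 2 = 1 →
    c * (q : ℝ) ^ (-η) ≤ ‖DirichletCharacter.LFunction χ 1‖

/-- LB (lower bound): `|L(s, χ)| ≥ c (q (|t| + 2))^(-η)` for `1 < Re s ≤ 2`, `χ` non-principal. -/
def StLB : Prop := ∀ η : ℝ, 0 < η → ∃ c : ℝ, 0 < c ∧ ∀ (q : ℕ) [NeZero q] (χ : DirichletCharacter ℂ q), χ ≠ 1 →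
    ∀ s : ℂ, 1 < s.re → s.re ≤ 2 → c * ((q : ℝ) * (|s.im| + 2)) ^ (-η) ≤ ‖ell χ 0 s‖

/-- DK: the derivatives of `L'/L` are at most `C (q (|t| + 2))^η` for `1 < Re s ≤ 2`, `χ` non-principal. -/
def StDK : Prop := ∀ η : ℝ, 0 < η → ∀ k : ℕ, ∃ C : ℝ, 1 ≤ C ∧ ∀ (q : ℕ) [NeZero q] (χ : DirichletCharacter ℂ q), χ ≠ 1 →
    ∀ s : ℂ, 1 < s.re → s.re ≤ 2 → ‖dk χ k s‖ ≤ C * ((q : ℝ) * (|s.im| + 2)) ^ η

/-- PS: `|psi(x, χ)| ≤ C q^η x / (log x)^m` for all `x ≥ 2`, `χ` non-principal. -/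
def StPS : Prop := ∀ η : ℝ, 0 < η → ∀ m : ℕ, ∃ C : ℝ, 1 ≤ C ∧ ∀ (q : ℕ) [NeZero q] (χ : DirichletCharacter ℂ q), χ ≠ 1 →
    ∀ x : ℝ, 2 ≤ x → ‖psi x χ‖ ≤ C * (q : ℝ) ^ η * (x / Real.log x ^ m)

/-- SW (the SIEGEL-WALFISZ theorem): for `q ≤ (log x)^A` and `χ` non-principal modulo `q`:
`|psi(x, χ)| ≤ C x / (log x)^B`. -/
def StSW : Prop := ∀ A B : ℝ, 0 < A → 0 < B → ∃ C : ℝ, 1 ≤ C ∧ ∀ (q : ℕ) [NeZero q] (χ : DirichletCharacter ℂ q), χ ≠ 1 →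
    ∀ x : ℝ, 2 ≤ x → (q : ℝ) ≤ Real.log x ^ A → ‖psi x χ‖ ≤ C * (x / Real.log x ^ B)

end MPb51559.BG.A
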