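import Pool.Agent.Work.MP_b51559_nt.BG.A.StmtsS

set_option autoImplicit false

/-! # Siegel's theorem: assembly -/

namespace MPb51559.BG.A

open scoped BigOperators ArithmeticFunction ComplexOrder

namespace IFinS

theorem one_add_log_le {η : ℝ} (hη : 0 < η) {q : ℕ} (hq : 1 ≤ q) :
    1 + Real.log q ≤ (1 + 1 / η) * (q : ℝ) ^ η := by
  have h1 : (1 : ℝ) ≤ (q : ℝ) := by exact_mod_cast hq
  have h2 : Real.log q ≤ (q : ℝ) ^ η / η := Real.log_le_rpow_div (by linarith) hη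
  have h3 : (1 : ℝ) ≤ (q : ℝ) ^ η := Real.one_le_rpow h1 hη.le
  calc 1 + Real.log q ≤ (q : ℝ) ^ η + (q : ℝ) ^ η / η := add_le_add h3 h2
    _ = (1 + 1 / η) * (q : ℝ) ^ η := by ring

end IFinS

open IFinS

theorem pr_SgFin : SgFin := by
  intro hD hM hPb hL η hη
  by_cases hex : ∃ (q : ℕ) (_ : NeZero q) (χ : DirichletCharacter ℂ q), χ ≠ 1 ∧ χ ^ 2 = 1
  swap
  · refine ⟨1, one_pos, fun q _ χ h1 h2 => ?_⟩
    exact absurd ⟨q, inferInstance, χ, h1, h2⟩ hex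
  obtain ⟨q₁, hq₁, χ₁, σ, hχ₁, hχ₁q, hση, hσ1, hσ2, hF⟩ := hD (η / 9) (by positivity) hex
  obtain ⟨c, hc, hc2⟩ := hM q₁ χ₁ σ hχ₁ hχ₁q hσ1 hσ2
  obtain ⟨C, hC, hC2⟩ := hPb η hη
  have hL1 : 0 < ‖DirichletCharacter.LFunction χ₁ 1‖ :=
    norm_pos_iff.mpr (DirichletCharacter.LFunction_apply_one_ne_zero hχ₁)
  have hq₁1 : (1 : ℝ) ≤ (q₁ : ℝ) := by exact_mod_cast Nat.one_le_iff_ne_zero.mpr hq₁.out
  have hlog1 : 0 ≤ Real.log (q₁ : ℝ) := Real.log_nonneg hq₁1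
  have hCp : 0 < C := by linarith
  set c₁ : ℝ := ‖DirichletCharacter.LFunction χ₁ 1‖ / (C * (q₁ : ℝ) ^ η) with hc₁
  set c₂ : ℝ := c / ((1 + Real.log q₁) * (1 + 1 / (η / 9))) with hc₂
  have hc₁p : 0 < c₁ := by
    rw [hc₁]; positivity
  have hc₂p : 0 < c₂ := by
    rw [hc₂]; positivity
  refine ⟨min c₁ c₂, lt_min hc₁p hc₂p, fun q₂ _ χ₂ hχ₂ hχ₂q => ?_⟩
  have hq₂1' : 1 ≤ q₂ := Nat.one_le_iff_ne_zero.mpr (NeZero.ne q₂)
  have hq₂1 : (1 : ℝ) ≤ (q₂ : ℝ) := by exact_mod_cast hq₂1'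
  have hq₂p : (0 : ℝ) < (q₂ : ℝ) := by linarith
  have hrp : 0 < (q₂ : ℝ) ^ (-η) := Real.rpow_pos_of_pos hq₂p _
  by_cases hprd : prd χ₁ χ₂ = 1
  · have h1 := hL q₁ q₂ χ₁ χ₂ hχ₁ hχ₂ hχ₂q hprd
    have h2 := hC2 (q₁ * q₂) (mul_ne_zero (NeZero.ne q₁) (NeZero.ne q₂))
    have h3 : ((q₁ * q₂ : ℕ) : ℝ) ^ η = (q₁ : ℝ) ^ η * (q₂ : ℝ) ^ η := by
      push_cast
      exact Real.mul_rpow (by linarith) (by linarith)
    have h4 : ‖DirichletCharacter.LFunction χ₁ 1‖ ≤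
        ‖DirichletCharacter.LFunction χ₂ 1‖ * (C * ((q₁ : ℝ) ^ η * (q₂ : ℝ) ^ η)) := by
      refine h1.trans ?_
      rw [← h3]
      exact mul_le_mul_of_nonneg_left h2 (norm_nonneg _)
    have hq₁e : 0 < (q₁ : ℝ) ^ η := Real.rpow_pos_of_pos (by linarith) _
    have hq₂e : 0 < (q₂ : ℝ) ^ η := Real.rpow_pos_of_pos (by linarith) _
    calc min c₁ c₂ * (q₂ : ℝ) ^ (-η) ≤ c₁ * (q₂ : ℝ) ^ (-η) :=
          mul_le_mul_of_nonneg_right (min_le_left _ _) hrp.le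
      _ ≤ ‖DirichletCharacter.LFunction χ₂ 1‖ := by
          rw [hc₁, Real.rpow_neg hq₂p.le, div_mul_eq_mul_div, div_le_iff₀ (by positivity),
            ← div_eq_mul_inv, div_le_iff₀ hq₂e]
          calc ‖DirichletCharacter.LFunction χ₁ 1‖ ≤ _ := h4
            _ = _ := by ring
  · have h1 := hc2 q₂ χ₂ hχ₂ hχ₂q hprd (hF q₂ χ₂ hχ₂ hχ₂q hprd)
    have h2 : 1 + Real.log ((q₁ : ℝ) * q₂) ≤ (1 + Real.log q₁) * (1 + Real.log q₂) := by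
      rw [Real.log_mul (by linarith) (by linarith)]
      nlinarith [mul_nonneg hlog1 (Real.log_nonneg hq₂1)]
    have h3 : 1 + Real.log q₂ ≤ (1 + 1 / (η / 9)) * (q₂ : ℝ) ^ (η / 9) :=
      one_add_log_le (by positivity) hq₂1'
    have h4 : (q₂ : ℝ) ^ (-(8 * (η / 9))) ≤ (q₂ : ℝ) ^ (-(8 * (1 - σ))) :=
      Real.rpow_le_rpow_of_exponent_le hq₂1 (by linarith)
    have h5 : 1 + Real.log ((q₁ : ℝ) * q₂) ≤
        (1 + Real.log q₁) * ((1 + 1 / (η / 9)) * (q₂ : ℝ) ^ (η / 9)) :=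
      h2.trans (mul_le_mul_of_nonneg_left h3 (by linarith))
    have h6 : c * (q₂ : ℝ) ^ (-(8 * (η / 9))) ≤
        ((1 + Real.log q₁) * ((1 + 1 / (η / 9)) * (q₂ : ℝ) ^ (η / 9))) *
          ‖DirichletCharacter.LFunction χ₂ 1‖ :=
      (mul_le_mul_of_nonneg_left h4 hc.le).trans (h1.trans
        (mul_le_mul_of_nonneg_right h5 (norm_nonneg _)))
    have he : 0 < (q₂ : ℝ) ^ (η / 9) := Real.rpow_pos_of_pos hq₂p _
    have h7 : (q₂ : ℝ) ^ (-η) * (q₂ : ℝ) ^ (η / 9) = (q₂ : ℝ) ^ (-(8 * (η / 9))) := by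
      rw [← Real.rpow_add hq₂p]
      congr 1
      ring
    calc min c₁ c₂ * (q₂ : ℝ) ^ (-η) ≤ c₂ * (q₂ : ℝ) ^ (-η) :=
          mul_le_mul_of_nonneg_right (min_le_right _ _) hrp.le
      _ ≤ ‖DirichletCharacter.LFunction χ₂ 1‖ := by
          rw [hc₂, div_mul_eq_mul_div, div_le_iff₀ (by positivity)]
          refine le_of_mul_le_mul_right ?_ he
          calc c * (q₂ : ℝ) ^ (-η) * (q₂ : ℝ) ^ (η / 9)
              = c * ((q₂ : ℝ) ^ (-η) * (q₂ : ℝ) ^ (η / 9)) := by ring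
            _ = c * (q₂ : ℝ) ^ (-(8 * (η / 9))) := by rw [h7]
            _ ≤ _ := h6
            _ = _ := by ring

end MPb51559.BG.A
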