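import Pool.Agent.Work.MP_b51559_nt.BG.A.StmtsS

set_option autoImplicit false

/-! # Siegel's theorem, item SgFac -/

namespace MPb51559.BG.A

open scoped BigOperators ComplexOrder Topology

namespace ISSgFac

/-- one character: the L-series of `χ Λ` -/
theorem tw {q : ℕ} [NeZero q] (χ : DirichletCharacter ℂ q) {s : ℂ} (hs : 1 < s.re) :
    LSeriesSummable (fun n : ℕ => χ (n : ZMod q) * (ArithmeticFunction.vonMangoldt n : ℂ)) s ∧
    DirichletCharacter.LFunction χ s ≠ 0 ∧
    deriv (DirichletCharacter.LFunction χ) s = -(DirichletCharacter.LFunction χ s *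
      LSeries (fun n : ℕ => χ (n : ZMod q) * (ArithmeticFunction.vonMangoldt n : ℂ)) s) := by
  have h1 := DirichletCharacter.LSeriesSummable_twist_vonMangoldt χ hs
  have h2 := DirichletCharacter.LSeries_twist_vonMangoldt_eq χ hs
  have h3 := DirichletCharacter.LSeries_ne_zero_of_one_lt_re χ hs
  have h4 := DirichletCharacter.LFunction_eq_LSeries χ hs
  have h5 := DirichletCharacter.deriv_LFunction_eq_deriv_LSeries χ hs
  refine ⟨h1, ?_, ?_⟩
  · rw [h4]; exact h3
  · change LSeries (fun n : ℕ => χ (n : ZMod q) * (ArithmeticFunction.vonMangoldt n : ℂ)) s = _ at h2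
    rw [h5, h4, h2]
    field_simp

end ISSgFac

open ISSgFac

theorem pr_SgFac (h1 : SgPr) : SgFac := by
  intro q₁ q₂ _ _ χ₁ χ₂ s hs
  obtain ⟨hpr, -⟩ := h1 q₁ q₂ χ₁ χ₂
  obtain ⟨a1, b1, c1⟩ := tw χ₁ hs
  obtain ⟨a2, b2, c2⟩ := tw χ₂ hs
  obtain ⟨a3, b3, c3⟩ := tw (prd χ₁ χ₂) hs
  have a0 := ArithmeticFunction.LSeriesSummable_vonMangoldt hs
  have c0 := ArithmeticFunction.LSeries_vonMangoldt_eq_deriv_riemannZeta_div hs
  have b0 := riemannZeta_ne_zero_of_one_lt_re hs
  have hs1 : s ≠ 1 := by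
    rintro rfl
    simp at hs
  set g0 : ℕ → ℂ := fun n => (ArithmeticFunction.vonMangoldt n : ℂ) with hg0
  set g1 : ℕ → ℂ := fun n => χ₁ (n : ZMod q₁) * (ArithmeticFunction.vonMangoldt n : ℂ) with hg1
  set g2 : ℕ → ℂ := fun n => χ₂ (n : ZMod q₂) * (ArithmeticFunction.vonMangoldt n : ℂ) with hg2
  set g3 : ℕ → ℂ := fun n => prd χ₁ χ₂ (n : ZMod (q₁ * q₂)) *
    (ArithmeticFunction.vonMangoldt n : ℂ) with hg3
  have hgg : gg χ₁ χ₂ = g0 + g1 + g2 + g3 := by
    funext n
    simp only [gg, hg0, hg1, hg2, hg3, Pi.add_apply, hpr n]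
    ring
  have s01 := a0.add a1
  have s012 := s01.add a2
  have s0123 := s012.add a3
  have hL : LSeries (gg χ₁ χ₂) s = LSeries g0 s + LSeries g1 s + LSeries g2 s + LSeries g3 s := by
    rw [hgg, LSeries_add s012 a3, LSeries_add s01 a2, LSeries_add a0 a1]
  refine ⟨by rw [hgg]; exact s0123, ?_⟩
  have d0 : HasDerivAt riemannZeta (deriv riemannZeta s) s :=
    (differentiableAt_riemannZeta hs1).hasDerivAt
  have d1 := (DirichletCharacter.differentiableAt_LFunction χ₁ s (Or.inl hs1)).hasDerivAt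
  have d2 := (DirichletCharacter.differentiableAt_LFunction χ₂ s (Or.inl hs1)).hasDerivAt
  have d3 := (DirichletCharacter.differentiableAt_LFunction (prd χ₁ χ₂) s (Or.inl hs1)).hasDerivAt
  have hd : HasDerivAt (fun z : ℂ => riemannZeta z * PP χ₁ χ₂ z)
      (deriv riemannZeta s * PP χ₁ χ₂ s + riemannZeta s *
        ((deriv (DirichletCharacter.LFunction χ₁) s * DirichletCharacter.LFunction χ₂ s +
          DirichletCharacter.LFunction χ₁ s * deriv (DirichletCharacter.LFunction χ₂) s) *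
          DirichletCharacter.LFunction (prd χ₁ χ₂) s +
          DirichletCharacter.LFunction χ₁ s * DirichletCharacter.LFunction χ₂ s *
          deriv (DirichletCharacter.LFunction (prd χ₁ χ₂)) s)) s :=
    d0.mul ((d1.mul d2).mul d3)
  have c0' : deriv riemannZeta s = -(riemannZeta s * LSeries g0 s) := by
    change LSeries g0 s = _ at c0
    rw [c0]
    field_simp
  rw [hd.deriv, hL, c0', c1, c2, c3]
  simp only [PP]
  ring

end MPb51559.BG.A
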