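import Pool.Agent.Work.MP_b51559_nt.BG.A.StmtsS

/-!
# Bounded gaps, part A, item SgPb: the product over the primes dividing `N`
-/

set_option autoImplicit false

namespace MPb51559.BG.A

namespace ISSgPb

theorem fac3 {p : ℕ} (hp : p.Prime) : (1 + (p : ℝ)⁻¹) / (1 - (p : ℝ)⁻¹) ≤ 3 := by
  have h2 : (2 : ℝ) ≤ p := by exact_mod_cast hp.two_le
  have h3 : (p : ℝ)⁻¹ ≤ 1 / 2 := by
    rw [inv_le_comm₀ (by linarith) (by norm_num)]
    linarith
  rw [div_le_iff₀ (by linarith)]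
  linarith

theorem fac0 {p : ℕ} (hp : p.Prime) : 0 ≤ (1 + (p : ℝ)⁻¹) / (1 - (p : ℝ)⁻¹) := by
  have h2 : (2 : ℝ) ≤ p := by exact_mod_cast hp.two_le
  have h3 : (p : ℝ)⁻¹ ≤ 1 / 2 := by
    rw [inv_le_comm₀ (by linarith) (by norm_num)]
    linarith
  have h4 : 0 ≤ (p : ℝ)⁻¹ := by positivity
  exact div_nonneg (by linarith) (by linarith)

end ISSgPb

open ISSgPb in
theorem pr_SgPb : SgPb := by
  intro η hη
  obtain ⟨p₀, hp₀⟩ : ∃ p₀ : ℕ, (3 : ℝ) ^ (1 / η) ≤ p₀ := ⟨_, Nat.le_ceil _⟩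
  refine ⟨3 ^ p₀, one_le_pow₀ (by norm_num), ?_⟩
  intro N hN
  have h1 : ∀ p ∈ N.primeFactors, (1 + (p : ℝ)⁻¹) / (1 - (p : ℝ)⁻¹) ≤
      (if p < p₀ then (3 : ℝ) else 1) * (p : ℝ) ^ η := by
    intro p hp
    have hpp := Nat.prime_of_mem_primeFactors hp
    have h2 : (1 : ℝ) ≤ p := by exact_mod_cast hpp.one_lt.le
    have h3 : 1 ≤ (p : ℝ) ^ η := Real.one_le_rpow h2 hη.le
    split_ifs with hlt
    · linarith [fac3 hpp]
    · have h4 : (p₀ : ℝ) ≤ p := by exact_mod_cast (not_lt.1 hlt)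
      have h5 : (3 : ℝ) ≤ (p : ℝ) ^ η := by
        calc (3 : ℝ) = ((3 : ℝ) ^ (1 / η)) ^ η := by
              rw [← Real.rpow_mul (by norm_num), one_div_mul_cancel hη.ne', Real.rpow_one]
          _ ≤ (p : ℝ) ^ η := Real.rpow_le_rpow (by positivity) (hp₀.trans h4) hη.le
      linarith [fac3 hpp]
  have h2 : ∏ p ∈ N.primeFactors, (if p < p₀ then (3 : ℝ) else 1) ≤ 3 ^ p₀ := by
    rw [Finset.prod_ite, Finset.prod_const, Finset.prod_const_one, mul_one]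
    refine pow_le_pow_right₀ (by norm_num) ?_
    calc (N.primeFactors.filter fun p => p < p₀).card ≤ (Finset.range p₀).card :=
          Finset.card_le_card fun p hp => Finset.mem_range.2 (Finset.mem_filter.1 hp).2
      _ = p₀ := Finset.card_range p₀
  have h3 : ∏ p ∈ N.primeFactors, (p : ℝ) ^ η ≤ (N : ℝ) ^ η := by
    rw [Real.finsetProd_rpow _ _ (fun p _ => Nat.cast_nonneg p)]
    refine Real.rpow_le_rpow (Finset.prod_nonneg fun p _ => Nat.cast_nonneg p) ?_ hη.le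
    have : ∏ p ∈ N.primeFactors, p ≤ N :=
      Nat.le_of_dvd (Nat.pos_of_ne_zero hN) (Nat.prod_primeFactors_dvd N)
    rw [← Nat.cast_prod]
    exact Nat.cast_le.2 this
  calc ∏ p ∈ N.primeFactors, ((1 + (p : ℝ)⁻¹) / (1 - (p : ℝ)⁻¹))
      ≤ ∏ p ∈ N.primeFactors, ((if p < p₀ then (3 : ℝ) else 1) * (p : ℝ) ^ η) :=
        Finset.prod_le_prod (fun p hp => fac0 (Nat.prime_of_mem_primeFactors hp)) h1
    _ = (∏ p ∈ N.primeFactors, (if p < p₀ then (3 : ℝ) else 1)) *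
          ∏ p ∈ N.primeFactors, (p : ℝ) ^ η := Finset.prod_mul_distrib
    _ ≤ 3 ^ p₀ * (N : ℝ) ^ η := by
        refine mul_le_mul h2 h3 ?_ (by positivity)
        exact Finset.prod_nonneg fun p _ => Real.rpow_nonneg (Nat.cast_nonneg p) _

end MPb51559.BG.A
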