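import Pool.Agent.Work.MP_b51559_nt.BG.A.StmtsP

/-!
# Bounded gaps, part A, item P01: the Mellin transform of `max 0 (1 - u)`
-/

namespace MPb51559.BG.A

open scoped BigOperators
open MeasureTheory Complex Set

theorem prf_P01 : StP01 := by
  intro s hs
  have h1 := hasMellin_one_Ioc hs
  have h2 := hasMellin_cpow_Ioc 1 (s := s) (by rw [one_re]; linarith)
  have h3 := hasMellin_sub h1.1 h2.1
  rw [h1.2, h2.2] at h3
  have hEq : EqOn (fun t : ℝ => (indicator (Ioc 0 1) (fun _ => 1 : ℝ → ℂ) t -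
      indicator (Ioc 0 1) (fun t : ℝ => (t : ℂ) ^ (1 : ℂ)) t))
      (fun u : ℝ => ((max 0 (1 - u) : ℝ) : ℂ)) (Ioi 0) := by
    intro u hu
    have hu0 : (0 : ℝ) < u := hu
    simp only
    by_cases h : u ≤ 1
    · rw [indicator_of_mem (show u ∈ Ioc (0 : ℝ) 1 from ⟨hu0, h⟩),
        indicator_of_mem (show u ∈ Ioc (0 : ℝ) 1 from ⟨hu0, h⟩), cpow_one,
        max_eq_right (by linarith)]
      push_cast
      ring
    · rw [indicator_of_notMem (show u ∉ Ioc (0 : ℝ) 1 from fun hh => h hh.2),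
        indicator_of_notMem (show u ∉ Ioc (0 : ℝ) 1 from fun hh => h hh.2),
        max_eq_left (by linarith)]
      push_cast
      ring
  have hEq2 : EqOn (fun t : ℝ => (t : ℂ) ^ (s - 1) • (indicator (Ioc 0 1) (fun _ => 1 : ℝ → ℂ) t -
      indicator (Ioc 0 1) (fun t : ℝ => (t : ℂ) ^ (1 : ℂ)) t))
      (fun t : ℝ => (t : ℂ) ^ (s - 1) • ((max 0 (1 - t) : ℝ) : ℂ)) (Ioi 0) := by
    intro u hu
    have := hEq hu
    simp only at this ⊢
    rw [this]
  have hval : 1 / s - 1 / (s + 1) = 1 / (s * (s + 1)) := by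
    have hs0 : s ≠ 0 := by
      intro h
      rw [h, zero_re] at hs
      exact lt_irrefl _ hs
    have hs1 : s + 1 ≠ 0 := by
      intro h
      have := congrArg Complex.re h
      rw [add_re, one_re, zero_re] at this
      linarith
    field_simp
    ring
  refine ⟨?_, ?_⟩
  · exact IntegrableOn.congr_fun h3.1 hEq2 measurableSet_Ioi
  · rw [← hval, ← h3.2]
    exact (setIntegral_congr_fun measurableSet_Ioi hEq2).symm

end MPb51559.BG.A
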