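import Pool.Agent.Work.MP_b51559_nt.BG.A.StmtsP

set_option autoImplicit false

/-! # MP_b51559_nt, BG part A, item P11: partial summation -/

namespace MPb51559.BG.A

theorem P11_ind (a : ℕ → ℂ) (g : ℕ → ℝ) (M N : ℕ) (B : ℝ)
    (hS : ∀ n, M ≤ n → n ≤ N → ‖∑ k ∈ Finset.Icc 1 n, a k‖ ≤ B)
    (hg : ∀ n, M < n → n < N → g (n + 1) ≤ g n) (n : ℕ) (hn : M + 1 ≤ n) : n ≤ N →
    ‖∑ k ∈ Finset.Ioc M n, a k * ((g k : ℝ) : ℂ) -
      ((∑ k ∈ Finset.Icc 1 n, a k) - ∑ k ∈ Finset.Icc 1 M, a k) * ((g n : ℝ) : ℂ)‖ ≤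
      2 * B * (g (M + 1) - g n) := by
  induction n, hn using Nat.le_induction with
  | base =>
    intro _
    have h1 : Finset.Ioc M (M + 1) = {M + 1} := by
      ext x
      simp only [Finset.mem_Ioc, Finset.mem_singleton]
      omega
    rw [h1, Finset.sum_singleton, Finset.sum_Icc_succ_top (by omega)]
    simp
  | succ n hn ih =>
    intro hnN
    have h1 := ih (by omega)
    have h2 : ‖(∑ k ∈ Finset.Icc 1 n, a k) - ∑ k ∈ Finset.Icc 1 M, a k‖ ≤ 2 * B := by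
      have h3 := norm_sub_le (∑ k ∈ Finset.Icc 1 n, a k) (∑ k ∈ Finset.Icc 1 M, a k)
      have h4 := hS n (by omega) (by omega)
      have h5 := hS M le_rfl (by omega)
      linarith
    have h3 : g (n + 1) ≤ g n := hg n (by omega) (by omega)
    have h4 : ∑ k ∈ Finset.Ioc M (n + 1), a k * ((g k : ℝ) : ℂ) -
        ((∑ k ∈ Finset.Icc 1 (n + 1), a k) - ∑ k ∈ Finset.Icc 1 M, a k) * ((g (n + 1) : ℝ) : ℂ) =
        (∑ k ∈ Finset.Ioc M n, a k * ((g k : ℝ) : ℂ) -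
          ((∑ k ∈ Finset.Icc 1 n, a k) - ∑ k ∈ Finset.Icc 1 M, a k) * ((g n : ℝ) : ℂ)) +
        ((∑ k ∈ Finset.Icc 1 n, a k) - ∑ k ∈ Finset.Icc 1 M, a k) *
          ((g n - g (n + 1) : ℝ) : ℂ) := by
      rw [Finset.sum_Ioc_succ_top (by omega), Finset.sum_Icc_succ_top (by omega)]
      push_cast
      ring
    rw [h4]
    refine (norm_add_le _ _).trans ?_
    have h5 : ‖((∑ k ∈ Finset.Icc 1 n, a k) - ∑ k ∈ Finset.Icc 1 M, a k) *
        ((g n - g (n + 1) : ℝ) : ℂ)‖ ≤ 2 * B * (g n - g (n + 1)) := by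
      rw [norm_mul, Complex.norm_real, Real.norm_of_nonneg (by linarith)]
      exact mul_le_mul_of_nonneg_right h2 (by linarith)
    linarith

theorem prf_P11 : StP11 := by
  intro a g M N B hB hS hg0 hg hg1
  rcases Nat.lt_or_ge M N with hMN | hMN
  · have h1 := P11_ind a g M N B hS hg N hMN le_rfl
    have h2 : ‖(∑ k ∈ Finset.Icc 1 N, a k) - ∑ k ∈ Finset.Icc 1 M, a k‖ ≤ 2 * B := by
      have h3 := norm_sub_le (∑ k ∈ Finset.Icc 1 N, a k) (∑ k ∈ Finset.Icc 1 M, a k)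
      have h4 := hS N hMN.le le_rfl
      have h5 := hS M le_rfl hMN.le
      linarith
    have h3 : ‖((∑ k ∈ Finset.Icc 1 N, a k) - ∑ k ∈ Finset.Icc 1 M, a k) * ((g N : ℝ) : ℂ)‖ ≤
        2 * B * g N := by
      rw [norm_mul, Complex.norm_real, Real.norm_of_nonneg (hg0 N hMN le_rfl)]
      exact mul_le_mul_of_nonneg_right h2 (hg0 N hMN le_rfl)
    have h4 := norm_add_le (∑ k ∈ Finset.Ioc M N, a k * ((g k : ℝ) : ℂ) -
      ((∑ k ∈ Finset.Icc 1 N, a k) - ∑ k ∈ Finset.Icc 1 M, a k) * ((g N : ℝ) : ℂ))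
      (((∑ k ∈ Finset.Icc 1 N, a k) - ∑ k ∈ Finset.Icc 1 M, a k) * ((g N : ℝ) : ℂ))
    rw [sub_add_cancel] at h4
    linarith
  · rw [Finset.Ioc_eq_empty_of_le hMN, Finset.sum_empty, norm_zero]
    positivity

end MPb51559.BG.A
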