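import Pool.Agent.Work.MP_b51559_nt.BG.A.StmtsU

set_option autoImplicit false

/-!
# Item PBD: products over the prime divisors (helper18)
-/

namespace MPb51559.BG.A

/-- the weight of a prime -/
noncomputable def PBD_w (η : ℝ) (N p : ℕ) : ℝ := (if p < N then 2 else 1) * (p : ℝ) ^ η

theorem PBD_two_le (η : ℝ) (hη : 0 < η) (N : ℕ) (hN : (2 : ℝ) ^ (1 / η) ≤ N) (p : ℕ) (hp : 1 ≤ p) :
    2 ≤ PBD_w η N p := by
  have hp1 : (1 : ℝ) ≤ p := by exact_mod_cast hp
  have h1 : (1 : ℝ) ≤ (p : ℝ) ^ η := Real.one_le_rpow hp1 hη.le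
  unfold PBD_w
  split_ifs with h
  · linarith
  · have h2 : (2 : ℝ) ^ (1 / η) ≤ p := hN.trans (by exact_mod_cast not_lt.mp h)
    have h3 : ((2 : ℝ) ^ (1 / η)) ^ η ≤ (p : ℝ) ^ η :=
      Real.rpow_le_rpow (by positivity) h2 hη.le
    rw [← Real.rpow_mul (by norm_num), one_div_mul_cancel hη.ne', Real.rpow_one] at h3
    linarith

theorem PBD_prod (η : ℝ) (hη : 0 < η) (N q : ℕ) (hq : 1 ≤ q) :
    ∏ p ∈ q.primeFactors, PBD_w η N p ≤ 2 ^ N * (q : ℝ) ^ η := by
  unfold PBD_w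
  rw [Finset.prod_mul_distrib]
  have h1 : ∏ p ∈ q.primeFactors, (if p < N then (2 : ℝ) else 1) ≤ 2 ^ N := by
    rw [← Finset.prod_filter, Finset.prod_const]
    refine pow_le_pow_right₀ (by norm_num) ?_
    have h2 : q.primeFactors.filter (fun p => p < N) ⊆ Finset.range N := by
      intro p hp
      exact Finset.mem_range.mpr (Finset.mem_filter.mp hp).2
    simpa using Finset.card_le_card h2
  have h2 : ∏ p ∈ q.primeFactors, (p : ℝ) ^ η ≤ (q : ℝ) ^ η := by
    rw [Real.finsetProd_rpow _ _ (fun p _ => Nat.cast_nonneg p)]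
    refine Real.rpow_le_rpow (Finset.prod_nonneg fun p _ => Nat.cast_nonneg p) ?_ hη.le
    have h3 : ∏ p ∈ q.primeFactors, p ≤ q := Nat.le_of_dvd hq (Nat.prod_primeFactors_dvd q)
    rw [← Nat.cast_prod]
    exact Nat.cast_le.mpr h3
  have h3 : 0 ≤ ∏ p ∈ q.primeFactors, (p : ℝ) ^ η :=
    Finset.prod_nonneg fun p _ => Real.rpow_nonneg (Nat.cast_nonneg p) _
  exact mul_le_mul h1 h2 h3 (by positivity)

theorem prf_PBD : StPBD := by
  intro η hη
  set N : ℕ := ⌈(2 : ℝ) ^ (1 / η)⌉₊ with hNdef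
  have hN : (2 : ℝ) ^ (1 / η) ≤ N := Nat.le_ceil _
  refine ⟨2 ^ N, one_le_pow₀ (by norm_num), fun q hq => ?_⟩
  have hq0 : (0 : ℝ) < q := by exact_mod_cast hq
  have hprod := PBD_prod η hη N q hq
  have hp1 : ∀ p ∈ q.primeFactors, 1 ≤ p := fun p hp => (Nat.prime_of_mem_primeFactors hp).one_lt.le
  have hp2 : ∀ p ∈ q.primeFactors, (1 : ℝ) / p ≤ 1 / 2 := by
    intro p hp
    have h2 : (2 : ℝ) ≤ p := by exact_mod_cast (Nat.prime_of_mem_primeFactors hp).two_le
    exact one_div_le_one_div_of_le (by norm_num) h2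
  have hw : ∀ p ∈ q.primeFactors, 2 ≤ PBD_w η N p := fun p hp => PBD_two_le η hη N hN p (hp1 p hp)
  constructor
  · refine le_trans (Finset.prod_le_prod (fun p _ => by positivity) fun p hp => ?_) hprod
    have := hp2 p hp
    have := hw p hp
    linarith
  · have h1 : ((2 : ℝ) ^ N)⁻¹ * (q : ℝ) ^ (-η) = (2 ^ N * (q : ℝ) ^ η)⁻¹ := by
      rw [Real.rpow_neg hq0.le, mul_inv]
    rw [h1]
    have hpos : 0 < ∏ p ∈ q.primeFactors, PBD_w η N p :=
      Finset.prod_pos fun p hp => by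
        have := hw p hp
        linarith
    refine le_trans (inv_anti₀ hpos hprod) ?_
    rw [← Finset.prod_inv_distrib]
    refine Finset.prod_le_prod (fun p hp => ?_) fun p hp => ?_
    · have := hw p hp
      positivity
    · have h2 := hw p hp
      have h3 : (PBD_w η N p)⁻¹ ≤ 2⁻¹ := inv_anti₀ (by norm_num) h2
      have h4 := hp2 p hp
      linarith

end MPb51559.BG.A
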