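import Pool.Agent.Work.MP_b51559_nt.BG.A.Defs

/-!
# Bounded gaps, part A, statements L: the lower bound of `L(s, χ)` and the derivatives of `L'/L` (captain helper19)

Each `def StXXX` is one item; its docstring contains the complete proof.  File `BG/A/XXX.lean`, import
`Pool.Agent.Work.MP_b51559_nt.BG.A.StmtsL` (and landed files if useful), main theorem `prf_XXX` in the namespace
`MPb51559.BG.A`, with the hypotheses named in the docstring (`(hUB : StUB)` ...).  Prefix auxiliary lemmas with `XXX_`.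
Notation in the docstrings: `Q = q (|Im s| + 2) ≥ 2`.
-/

namespace MPb51559.BG.A

open scoped BigOperators

/-- SUM (no hypotheses).  (1), (2): `|χ(n)| ≤ 1`, `Λ(n) ≤ log n`, `(log n)^j` is `O(n^ε)`; or: `cell χ j` is `logMul^[j]` of `χ` at all `n` (`LSeries.logMul`,
`LSeriesSummable_logMul_of_lt_re`, `LSeries.absicssaOfAbsConv_logPowMul`, `DirichletCharacter.LSeriesSummable_of_one_lt_re`), `cdk χ j` of `n ↦ χ(n) Λ(n)` (`LSeriesSummable_twist_vonMangoldt`); `(Real.log n : ℂ) = Complex.log n`.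
(3): `LFunction_eq_LSeries`, `cell χ 0 = χ`.  (4): `deriv_LFunction_eq_deriv_LSeries`, `LSeries_deriv`, `logMul χ = cell χ 1`. -/
def StSUM : Prop := ∀ (q : ℕ) [NeZero q] (χ : DirichletCharacter ℂ q) (j : ℕ) (s : ℂ), 1 < s.re →
    LSeriesSummable (cell χ j) s ∧ LSeriesSummable (cdk χ j) s ∧ ell χ 0 s = DirichletCharacter.LFunction χ s ∧
      deriv (DirichletCharacter.LFunction χ) s = - ell χ 1 s

/-- REC (the recursion; uses StSUM).  `χ(n) (log n)^(k+1) = Σ_(ab = n) χ(a) Λ(a) χ(b) (log a + log b)^k` because `Σ_(a | n) Λ(a) = log n` (`ArithmeticFunction.vonMangoldt_sum` or `convolution_twist_vonMangoldt`) and `χ(ab) = χ(a) χ(b)`,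
`log n = log a + log b`; expand by the binomial theorem: `χ(n) (log n)^(k+1) = Σ_(j ≤ k) binom(k, j) Σ_(ab = n) cdk χ j a * cell χ (k - j) b`, i.e. `cell χ (k+1) = Σ_j binom(k,j) • (cdk χ j ⍟ cell χ (k-j))` at `n ≠ 0`.  `LSeries_convolution'` (SUM), `LSeries_sum`. -/
def StREC : Prop := ∀ (q : ℕ) [NeZero q] (χ : DirichletCharacter ℂ q) (k : ℕ) (s : ℂ), 1 < s.re →
    ell χ (k + 1) s = ∑ j ∈ Finset.range (k + 1), (k.choose j : ℂ) * (dk χ j s * ell χ (k - j) s)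

/-- REB (the recursion bound, real numbers; no hypotheses).  Strong induction on `k`, claim `d k ≤ (2^(k+1) U V)^(k+1)`.  `W_k = 2^(k+1) U V ≥ 1` is increasing in `k`.  `d k ≤ V (U + Σ_(j<k) binom(k,j) U d_j)`, `d_j ≤ (2^k U V)^k` for `j < k` (`W_j ≤ 2^k U V`, `j + 1 ≤ k`, base `≥ 1`),
`Σ_(j<k) binom(k,j) ≤ 2^k`, so `d k ≤ U V (1 + 2^k (2^k U V)^k) ≤ U V 2^(k+1) (2^(k+1) U V)^k = (2^(k+1) U V)^(k+1)`. -/
def StREB : Prop := ∀ (U V : ℝ), 1 ≤ U → 1 ≤ V → ∀ (K : ℕ) (d : ℕ → ℝ), (∀ k, 0 ≤ d k) →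
    (∀ k ≤ K, d k ≤ V * (U + ∑ j ∈ Finset.range k, (k.choose j : ℝ) * (U * d j))) → ∀ k ≤ K, d k ≤ (2 ^ (k + 1) * U * V) ^ (k + 1)

/-- DK (uses StUB, StLB, StSUM, StREC, StREB).  Given `η, k`; put `η' = η / (2 (k+1))`, `C` = the maximum of the constants of UB for `η'` and `j ≤ k + 1`, `c` from LB for `η'`, WLOG `c ≤ 1`; for `χ ≠ 1`, `1 < Re s ≤ 2` put `U = C Q^η'`, `V = c⁻¹ Q^η'`.  By REC (the term `j = k` is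
`dk χ k s * ell χ 0 s`): `|dk χ k| |ell χ 0| ≤ |ell χ (k+1)| + Σ_(j<k) binom(k,j) |dk χ j| |ell χ (k-j)|`, all `|ell| ≤ U` and `1/|ell χ 0| ≤ V`, for this `k` and all smaller ones; so REB with `d j = |dk χ j s|`, `K = k`: `|dk χ k s| ≤ (2^(k+1) C c⁻¹ Q^(2η'))^(k+1) = (2^(k+1) C c⁻¹)^(k+1) Q^η`. -/
def StDKP : Prop := StDK

/-- LIP (Lipschitz bound; uses StSUM).  `LFunction χ` is entire (`differentiable_LFunction`), its derivative is `- ell χ 1` for `Re s > 1` (SUM).  The set `{1 < Re s ≤ 2, |Im s| ≤ T}` is convex: `Convex.norm_image_sub_le_of_norm_deriv_le` gives the claim for `s, s'` with real parts `> 1`;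
for real parts `≥ 1` move `s, s'` to `s + ε (2 - s.re) ...` or: `(1-ε) s + ε p`, `(1-ε) s' + ε p` with `p = 2` (real parts `> 1`, imaginary parts `≤ T`) and let `ε → 0` (continuity). -/
def StLIP : Prop := ∀ (q : ℕ) [NeZero q] (χ : DirichletCharacter ℂ q), χ ≠ 1 → ∀ M T : ℝ, 0 ≤ T →
    (∀ s : ℂ, 1 < s.re → s.re ≤ 2 → |s.im| ≤ T → ‖ell χ 1 s‖ ≤ M) →
    ∀ s s' : ℂ, 1 ≤ s.re → s.re ≤ 2 → |s.im| ≤ T → 1 ≤ s'.re → s'.re ≤ 2 → |s'.im| ≤ T →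
      ‖DirichletCharacter.LFunction χ s - DirichletCharacter.LFunction χ s'‖ ≤ M * ‖s - s'‖

/-- MOB (uses StTR and StSUM).  `LSeries.mul_mu_eq_one`: `L(χ) L(χ μ) = 1` for `Re s > 1`; `|Σ χ(n) μ(n) n^(-s)| ≤ Σ n^(-Re s) = |ell 1 0 (Re s)|` for the character modulo `1` (all its values at natural numbers are `1`), which is `≤ 2/(Re s - 1)` by the second part of TR. -/
def StMOB : Prop := ∀ (q : ℕ) [NeZero q] (χ : DirichletCharacter ℂ q) (s : ℂ), 1 < s.re → s.re ≤ 2 → (s.re - 1) / 2 ≤ ‖ell χ 0 s‖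

/-- T41 (three-four-one; uses StSUM).  `DirichletCharacter.norm_LSeries_product_ge_one` (or `norm_LFunction_product_ge_one`), norm of a product. -/
def StT41 : Prop := ∀ (q : ℕ) [NeZero q] (χ : DirichletCharacter ℂ q) (x y : ℝ), 0 < x →
    1 ≤ ‖ell (1 : DirichletCharacter ℂ q) 0 (1 + x)‖ ^ 3 * ‖ell χ 0 (1 + x + y * Complex.I)‖ ^ 4 * ‖ell (χ ^ 2) 0 (1 + x + 2 * y * Complex.I)‖

/-- OPT (optimisation, real numbers; no hypotheses).  Put `R = κ E ≥ 1`, `x₀ = δ / R^8`, `0 < x₀ ≤ 1`.  For `x₀ ≤ x ≤ 1`: `f(x)^4 ≥ x^3 δ / R ≥ δ^4 / R^25 ≥ (δ / R^7)^4`, so `f(x) ≥ δ / R^7` (`f ≥ 0`, `pow_le_pow_left` contraposition).  For `0 < x < x₀`: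
`f(x) ≥ f(x₀) - x₀ C E ≥ δ / R^7 - δ C E / R^8 = (δ / R^7)(1 - C/κ) ≥ δ / (2 R^7)`. -/
def StOPT : Prop := ∀ (κ C E δ : ℝ) (f : ℝ → ℝ), 1 ≤ κ → 0 ≤ C → 2 * C ≤ κ → 1 ≤ E → 0 < δ → δ ≤ 1 → (∀ x, 0 ≤ f x) →
    (∀ x, 0 < x → x ≤ 1 → x ^ 3 * δ ≤ κ * E * f x ^ 4) → (∀ x x', 0 < x → x < x' → x' ≤ 1 → f x' - f x ≤ (x' - x) * (C * E)) →
    ∀ x, 0 < x → x ≤ 1 → δ / (2 * (κ * E) ^ 7) ≤ f x

/-- LBA (lower bound, `χ² ≠ 1`; uses StUB, StTR, StSUM, StLIP, StT41, StOPT).  Let `η' = min(η, 1)/7`, `C` the maximum of the UB constants for `η'` and `j = 0, 1`.  Fix `χ` and `y`; `f(x) = |ell χ 0 (1 + x + i y)|`, `Q = q (|y| + 2)`, `E = Q^η' ≥ 1`.  T41, `|ell 1 0 (1+x)| ≤ 2/x` (TR, second part),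
`|ell χ² 0 (1+x+2iy)| ≤ C (q (2|y|+2))^η' ≤ 2 C E` (UB for `χ² ≠ 1`; `2^η' ≤ 2`): `x^3 ≤ 16 C E f(x)^4`.  Lipschitz: LIP with `T = |y|`, `M = C E` (UB, `j = 1`; `(|Im s| + 2) ≤ |y| + 2`; `|f(x') - f(x)| ≤ |L(1+x'+iy) - L(1+x+iy)|`).  OPT with `κ = 16 C`, `δ = 1`: `f(x) ≥ 1 / (2 (16 C)^7 E^7)`, and
`E^7 = Q^(7η') ≤ Q^η`.  So `c = 1/(2 (16 C)^7)`. -/
def StLBA : Prop := ∀ η : ℝ, 0 < η → ∃ c : ℝ, 0 < c ∧ ∀ (q : ℕ) [NeZero q] (χ : DirichletCharacter ℂ q), χ ≠ 1 → χ ^ 2 ≠ 1 →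
    ∀ s : ℂ, 1 < s.re → s.re ≤ 2 → c * ((q : ℝ) * (|s.im| + 2)) ^ (-η) ≤ ‖ell χ 0 s‖

/-- LBB (lower bound, `χ² = 1`, `|t| ≥ δ`; uses StUB, StTR, StSUM, StLIP, StT41, StOPT).  As LBA with `C` also at least the TR constant for `η'`: `|ell χ₀ 0 (1+x+2iy)| ≤ C (q (2|y|+2))^η' (1 + 1/|x + 2iy|) ≤ 2 C E (1 + 1/(2δ)) ≤ 4 C E/δ` (`|x + 2iy| ≥ 2|y| ≥ 2δ`, `δ ≤ 1`), where `χ² = χ₀` is the
principal character.  So `x^3 δ ≤ 32 C E f(x)^4`; OPT with `κ = 32 C` and this `δ`: `f(x) ≥ δ / (2 (32 C)^7 E^7)`. -/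
def StLBB : Prop := ∀ η : ℝ, 0 < η → ∃ c : ℝ, 0 < c ∧ ∀ (q : ℕ) [NeZero q] (χ : DirichletCharacter ℂ q), χ ≠ 1 → χ ^ 2 = 1 →
    ∀ δ : ℝ, 0 < δ → δ ≤ 1 → ∀ s : ℂ, 1 < s.re → s.re ≤ 2 → δ ≤ |s.im| → c * δ * ((q : ℝ) * (|s.im| + 2)) ^ (-η) ≤ ‖ell χ 0 s‖

/-- LBC (lower bound near the real axis, `χ² = 1`; uses StUB, StSG, StSUM, StLIP, StMOB).  Let `η' = min(η, 1)/2`, `c₁` from SG for `η'`, `C` from UB for `η'` and `j = 1`; put `δ = c q^(-η)`, `c ≤ 1` small (below).  `|Im s| ≤ δ ≤ 1`.  If `Re s - 1 ≥ δ`: MOB gives `≥ δ/2`... so take `c` a third of it: precisely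
put `δ₀ = c₀ q^(-η)` with `c₀ = min(1, c₁/(12 C))`, and `c = c₀/2`.  If `Re s - 1 ≥ δ₀`: MOB gives `|ell χ 0 s| ≥ δ₀/2 = c q^(-η)`.  If `Re s - 1 < δ₀` (and `|Im s| ≤ δ₀`): `|s - 1| ≤ 2 δ₀`; LIP with `T = 1`, `M = C (3q)^η' ≤ 3 C q^η'`: `|L(s) - L(1)| ≤ 6 C q^η' δ₀ ≤ (c₁/2) q^(η' - η) ≤ (c₁/2) q^(-η')`, so
`|L(s)| ≥ (c₁/2) q^(-η') ≥ c q^(-η)` (`c ≤ c₁/24`, `q ≥ 1`, `η' ≤ η`). -/
def StLBC : Prop := ∀ η : ℝ, 0 < η → ∃ c : ℝ, 0 < c ∧ c ≤ 1 ∧ ∀ (q : ℕ) [NeZero q] (χ : DirichletCharacter ℂ q), χ ≠ 1 → χ ^ 2 = 1 →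
    ∀ s : ℂ, 1 < s.re → s.re ≤ 2 → |s.im| ≤ c * (q : ℝ) ^ (-η) → c * (q : ℝ) ^ (-η) ≤ ‖ell χ 0 s‖

/-- LBP (assembly of LB; uses StLBA, StLBB, StLBC).  If `χ² ≠ 1`: LBA.  If `χ² = 1`: `η' = η/2`, `c₁` from LBC, `c₂` from LBB for `η'`, `δ = c₁ q^(-η') ≤ 1`.  `|Im s| ≤ δ`: `|ell χ 0 s| ≥ c₁ q^(-η') ≥ c₁ Q^(-η)` (`Q ≥ q ≥ 1`).  Otherwise `≥ c₂ δ Q^(-η') ≥ c₁ c₂ Q^(-η)`.  `c` = the minimum. -/
def StLBP : Prop := StLB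

/-- APF (progressions; uses StSW).  Orthogonality (`DirichletCharacter.sum_char_inv_mul_char_eq`, `a` a unit): `Σ_(n ≤ x, n ≡ a) Λ(n) = (1/φ(q)) Σ_χ χ(a)⁻¹ psi(x, χ)`; the principal character gives `psi(x, χ₀)/φ(q)`, the other `φ(q) - 1` ones are bounded by SW, `|χ(a)⁻¹| = 1`. -/
def StAPF : Prop := ∀ A B : ℝ, 0 < A → 0 < B → ∃ C : ℝ, 1 ≤ C ∧ ∀ (q : ℕ) [NeZero q] (a : ZMod q), IsUnit a →
    ∀ x : ℝ, 2 ≤ x → (q : ℝ) ≤ Real.log x ^ A →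
    ‖((∑ n ∈ (Finset.Icc 1 ⌊x⌋₊).filter (fun n : ℕ => (n : ZMod q) = a), ArithmeticFunction.vonMangoldt n : ℝ) : ℂ) -
        psi x (1 : DirichletCharacter ℂ q) / (q.totient : ℂ)‖ ≤ C * (x / Real.log x ^ B)

end MPb51559.BG.A
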