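import Pool.Agent.Work.MP_b51559_nt.BG.A.Defs

/-!
# Bounded gaps, part A, (P): from the derivatives of `L'/L` to `psi` (captain helper60)

`StDK → StPS → StSW`.  Every item is independent; the Props listed under HYPOTHESES are hypotheses of the
item.  Perron's formula of order one comes from Mathlib's Mellin inversion.
-/

namespace MPb51559.BG.A

open scoped BigOperators ArithmeticFunction
open MeasureTheory Complex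

/-- `wsum a x` = the sum of `a(n) (x - n)` over `1 ≤ n ≤ x` -/
noncomputable def wsum (a : ℕ → ℂ) (x : ℝ) : ℂ := ∑ n ∈ Finset.Icc 1 ⌊x⌋₊, a n * (((x - n : ℝ)) : ℂ)

/-- `ssum a x` = the sum of `a(n)` over `1 ≤ n ≤ x` -/
noncomputable def ssum (a : ℕ → ℂ) (x : ℝ) : ℂ := ∑ n ∈ Finset.Icc 1 ⌊x⌋₊, a n

/-- `ker c t = 1 / (s (s + 1))`, `s = c + i t` -/
noncomputable def ker (c t : ℝ) : ℂ := 1 / (((c : ℂ) + t * I) * ((c : ℂ) + t * I + 1))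

/-- P01 (Mellin transform of `max 0 (1 - u)`).  HYPOTHESES: none.
Proof.  On `(0, ∞)` the function `u ↦ max 0 (1 - u)` equals
`indicator (Ioc 0 1) (fun _ => 1) u - indicator (Ioc 0 1) (fun u => (u : ℂ) ^ (1 : ℂ)) u`.  By `hasMellin_one_Ioc` and
`hasMellin_cpow_Ioc 1` (Mathlib) these have Mellin transforms `1/s` and `1/(s+1)` for `Re s > 0`; `hasMellin_sub`
gives `1/s - 1/(s+1) = 1/(s(s+1))`.  The Mellin transform and `MellinConvergent` only see the values on `Ioi 0`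
(`setIntegral_congr_fun`, `IntegrableOn.congr_fun`). -/
def StP01 : Prop := ∀ s : ℂ, 0 < s.re →
  HasMellin (fun u : ℝ => ((max 0 (1 - u) : ℝ) : ℂ)) s (1 / (s * (s + 1)))

/-- P02 (the kernel).  HYPOTHESES: none.
Proof.  `‖c + i t‖^2 = c^2 + t^2 ≥ 1 + t^2` and `‖c + 1 + i t‖^2 = (c+1)^2 + t^2 ≥ 1 + t^2`
(`Complex.sq_norm`, `Complex.normSq_apply`), so the product of the two norms is `≥ 1 + t^2`.
`ker c` is continuous (the denominators do not vanish, their real parts are positive), so it is integrable by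
comparison with `integrable_inv_one_add_sq`. -/
def StP02 : Prop := ∀ c : ℝ, 1 ≤ c → (∀ t : ℝ, ‖ker c t‖ ≤ (1 + t ^ 2)⁻¹) ∧ Integrable (fun t : ℝ => ker c t)

/-- P03 (Perron kernel of order one).  HYPOTHESES: StP01, StP02.
Proof.  `mellinInv_mellin_eq` (Mathlib) with `f u = max 0 (1 - u)`, `σ = c`: `MellinConvergent` from StP01,
`VerticalIntegrable (mellin f) c` because `mellin f (c + t I) = ker c t` (StP01) is integrable in `t` (StP02), `f` is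
continuous.  Unfold `mellinInv`: `(1 / (2 π)) • ∫ t, (u : ℂ) ^ (-(c + t I)) • mellin f (c + t I) = f u`. -/
def StP03 : Prop := ∀ c : ℝ, 1 ≤ c → ∀ u : ℝ, 0 < u →
  ∫ t : ℝ, (u : ℂ) ^ (-((c : ℂ) + t * I)) * ker c t = ((2 * Real.pi * max 0 (1 - u) : ℝ) : ℂ)

/-- P04 (Perron's formula of order one for a Dirichlet series).  HYPOTHESES: StP02, StP03.
Proof.  Let `F n t = LSeries.term a (c + t I) n * (x : ℂ) ^ (c + t I) * ker c t`.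
`‖F n t‖ = ‖LSeries.term a c n‖ * x ^ c * ‖ker c t‖` (`LSeries.norm_term_eq`, `Complex.norm_cpow_eq_rpow_re_of_pos`),
so each `F n` is integrable (`F n` is a continuous function of `t` times `ker c t`; or: measurable and dominated by
a constant times `‖ker c t‖`), and `∑ n, ∫ ‖F n t‖` converges because `LSeriesSummable a c` means that
`LSeries.term a c` is summable, hence absolutely summable.  By `hasSum_integral_of_summable_integral_norm`,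
`∫ ∑' n, F n t = ∑' n, ∫ F n t`.  Left: `∑' n, F n t = LSeries a (c + t I) * x ^ (c + t I) * ker c t` (`tsum_mul_right`).
Right: for `n = 0` it is `0`; for `n ≥ 1`, `x ^ s / n ^ s = (n / x) ^ (-s)` for the positive reals `n, x`
(`Complex.cpow_neg`, `Complex.div_cpow` for nonnegative reals: `Complex.ofReal_div`, `Complex.mul_cpow_ofReal_nonneg`,
`Complex.inv_cpow`; or write everything as `exp (s log (x/n))`), so by StP03 with `u = n / x`: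
`∫ F n t = a n * (2 π max 0 (1 - n / x))`, which vanishes for `n > x`.  So the sum is the finite sum over
`1 ≤ n ≤ ⌊x⌋₊` of `a n * 2 π (1 - n/x)` (`tsum_eq_sum`); multiply by `x / (2 π)`. -/
def StP04 : Prop := ∀ (a : ℕ → ℂ) (c x : ℝ), 1 ≤ c → 0 < x → LSeriesSummable a (c : ℂ) →
  wsum a x = ((x / (2 * Real.pi) : ℝ) : ℂ) *
    ∫ t : ℝ, LSeries a ((c : ℂ) + t * I) * (x : ℂ) ^ ((c : ℂ) + t * I) * ker c t

/-- P05 (the bound for the weighted sum).  HYPOTHESES: StP02, StP04.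
Proof.  `c = 1 + 1/log x`, `log x > 1` since `x ≥ 3`, so `1 < c ≤ 2`.  `‖x ^ (c + i t)‖ = x ^ c = x * exp 1`
(`x ^ (1/log x) = exp 1`).  By StP04, StP02 and `norm_integral_le_of_norm_le`,
`‖wsum a x‖ ≤ (x / (2 π)) ∫ M (|t| + 2)^(1/2) * (exp 1 * x) * (1 + t^2)⁻¹ dt = C M x^2` with
`C = exp 1 / (2 π) * ∫ (|t| + 2)^(1/2) (1 + t^2)⁻¹ dt`.  The last integrand is integrable: `(1 + |t|)^2 ≤ 2 (1 + t^2)` and
`|t| + 2 ≤ 2 (1 + |t|)` give `(|t| + 2)^(1/2) (1 + t^2)⁻¹ ≤ 4 (1 + |t|)^(-3/2)`, integrable by `integrable_one_add_norm`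
(`3/2 > 1 = finrank ℝ ℝ`).  Take `max 1` of the constant. -/
def StP05 : Prop := ∃ C : ℝ, 1 ≤ C ∧ ∀ (a : ℕ → ℂ) (x M : ℝ), 3 ≤ x → 0 ≤ M →
  LSeriesSummable a ((1 + 1 / Real.log x : ℝ) : ℂ) →
  (∀ t : ℝ, ‖LSeries a (((1 + 1 / Real.log x : ℝ) : ℂ) + t * I)‖ ≤ M * (|t| + 2) ^ (1 / 2 : ℝ)) →
  ‖wsum a x‖ ≤ C * M * x ^ 2

/-- P06 (the coefficients).  HYPOTHESES: none.
Proof.  `‖χ n‖ ≤ 1` (`DirichletCharacter.norm_le_one`), `0 ≤ Λ n ≤ log n` (`ArithmeticFunction.vonMangoldt_le_log`), so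
`‖cdk χ K n‖ ≤ (log n)^(K+1)`.  For `Re s > 1` put `δ = (Re s - 1)/2 > 0` and use
`LSeriesSummable_of_le_const_mul_rpow` with `x = 1 + δ < Re s`: `(log n)^(K+1) ≤ C n^δ` for `n ≥ 1`, by
`Real.log_le_rpow_div` with exponent `δ/(K+1)`: `log n ≤ n^(δ/(K+1)) (K+1)/δ`. -/
def StP06 : Prop := ∀ (q : ℕ) [NeZero q] (χ : DirichletCharacter ℂ q) (K : ℕ),
  (∀ n : ℕ, ‖cdk χ K n‖ ≤ Real.log n ^ (K + 1)) ∧ ∀ s : ℂ, 1 < s.re → LSeriesSummable (cdk χ K) s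

/-- P07 (bound for the weighted sums of `χ(n) Λ(n) (log n)^K`).  HYPOTHESES: StDK, StP05, StP06.
Proof.  Let `η' = min η (1/2)`.  StDK for `η'` and `K` gives `C1`: for `1 < Re s ≤ 2`,
`‖dk χ K s‖ ≤ C1 (q (|t| + 2))^η' = C1 q^η' (|t| + 2)^η' ≤ C1 q^η (|t| + 2)^(1/2)` (`q ≥ 1`, `|t| + 2 ≥ 1`,
`Real.mul_rpow`, `Real.rpow_le_rpow_of_exponent_le`).  Apply StP05 with `a = cdk χ K` (`dk χ K s = LSeries (cdk χ K) s`),
`M = C1 q^η`; the point `s = 1 + 1/log x + i t` has `1 < Re s ≤ 2` as `log x ≥ 1` (`x ≥ 3 > e`: `Real.exp_one_lt_d9`, or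
`Real.exp_one_lt_three`).  Summability by StP06. -/
def StP07 : Prop := ∀ η : ℝ, 0 < η → ∀ K : ℕ, ∃ C : ℝ, 1 ≤ C ∧ ∀ (q : ℕ) [NeZero q] (χ : DirichletCharacter ℂ q), χ ≠ 1 →
  ∀ x : ℝ, 3 ≤ x → ‖wsum (cdk χ K) x‖ ≤ C * (q : ℝ) ^ η * x ^ 2

/-- P08 (differencing).  HYPOTHESES: none.
Proof.  Let `A = ⌊x⌋₊ ≤ B = ⌊x + h⌋₊`.  `Icc 1 B` is the disjoint union of `Icc 1 A` and `Ioc A B`, so
`wsum a (x+h) - wsum a x = h * ssum a x + ∑ n ∈ Ioc A B, a n * (x + h - n)`.  For `n ∈ Ioc A B`: `x < n ≤ x + h`, so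
`0 ≤ x + h - n ≤ h` and `‖a n‖ ≤ M`, and the number of such `n` is `B - A ≤ h + 1` (`B ≤ x + h`, `A > x - 1`).  Hence
`h ‖ssum a x‖ ≤ ‖wsum a (x+h)‖ + ‖wsum a x‖ + (h + 1) h M`. -/
def StP08 : Prop := ∀ (a : ℕ → ℂ) (x h M : ℝ), 0 < x → 0 < h → 0 ≤ M →
  (∀ n : ℕ, 1 ≤ n → (n : ℝ) ≤ x + h → ‖a n‖ ≤ M) →
  h * ‖ssum a x‖ ≤ ‖wsum a (x + h)‖ + ‖wsum a x‖ + h * (h + 1) * M

/-- P09 (logarithms).  HYPOTHESES: none.
Proof.  `K = 0` trivial (`C = 1`, `x ^ (1/4) ≥ 1`).  `K ≥ 1`: `Real.log_le_rpow_div` with exponent `1/(4K)`: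
`log x ≤ 4 K x^(1/(4K))`, and the `K`-th power is `(4K)^K x^(1/4)` (`Real.rpow_natCast`, `Real.rpow_mul`). -/
def StP09 : Prop := ∀ K : ℕ, ∃ C : ℝ, 1 ≤ C ∧ ∀ x : ℝ, 1 ≤ x → Real.log x ^ K ≤ C * x ^ (1 / 4 : ℝ)

/-- P10 (bound for the sharp sums of `χ(n) Λ(n) (log n)^(2K)`).  HYPOTHESES: StP06, StP07, StP08, StP09.
Proof.  Let `C1` be the constant of StP07 for `η` and `2K`.  `L = log x ≥ 1`, `h = x / L^K ≤ x`, and for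
`1 ≤ n ≤ x + h ≤ 2x`: `‖cdk χ (2K) n‖ ≤ (log (2x))^(2K+1) ≤ (2L)^(2K+1) = M` (`log 2 ≤ 1 ≤ L`).  StP08:
`h ‖S‖ ≤ C1 q^η (4 x^2 + x^2) + h (h + 1) M`, divide by `h`:
`‖S‖ ≤ 5 C1 q^η x L^K + (x / L^K + 1) 2^(2K+1) L^(2K+1) = 5 C1 q^η x L^K + 2^(2K+1) x L^(K+1) + 2^(2K+1) L^(2K+1)`.
`L^K ≤ L^(K+1)`, `q^η ≥ 1`, and `L^(2K+1) = L^(K+1) L^K ≤ L^(K+1) C2 x^(1/4) ≤ C2 L^(K+1) x` (StP09).  So
`C = 5 C1 + 2^(2K+1) (1 + C2)` works. -/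
def StP10 : Prop := ∀ η : ℝ, 0 < η → ∀ K : ℕ, ∃ C : ℝ, 1 ≤ C ∧ ∀ (q : ℕ) [NeZero q] (χ : DirichletCharacter ℂ q), χ ≠ 1 →
  ∀ x : ℝ, 3 ≤ x → ‖ssum (cdk χ (2 * K)) x‖ ≤ C * (q : ℝ) ^ η * x * Real.log x ^ (K + 1)

/-- P11 (partial summation).  HYPOTHESES: none.
Proof.  Let `S n = ∑ k ∈ Icc 1 n, a k`.  For `n ≥ 1`, `a n = S n - S (n - 1)`, so by induction on `N ≥ M + 1`
`∑ n ∈ Ioc M N, a n g n = S N g N - S M g (M+1) + ∑ n ∈ Ioo M N, S n (g n - g (n+1))`.  For `N > M` the norm is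
`≤ B g N + B g (M+1) + B (g (M+1) - g N) = 2 B g (M+1)`.  (Simplest: prove by induction on `N` the statement
`‖∑ n ∈ Ioc M N, a n g n - (S N - S M) g N‖ ≤ ...`, or define `D n = S n - S M` with `‖D n‖ ≤ 2B`, `D M = 0`:
`∑ n ∈ Ioc M N, a n g n = D N g N + ∑ n ∈ Ioo M N, D n (g n - g (n+1))`, of norm
`≤ 2B g N + 2B (g (M+1) - g N) = 2B g (M+1)`.)  For `N ≤ M` the sum is empty. -/
def StP11 : Prop := ∀ (a : ℕ → ℂ) (g : ℕ → ℝ) (M N : ℕ) (B : ℝ), 0 ≤ B →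
  (∀ n, M ≤ n → n ≤ N → ‖∑ k ∈ Finset.Icc 1 n, a k‖ ≤ B) →
  (∀ n, M < n → n ≤ N → 0 ≤ g n) → (∀ n, M < n → n < N → g (n + 1) ≤ g n) → 0 ≤ g (M + 1) →
  ‖∑ n ∈ Finset.Ioc M N, a n * ((g n : ℝ) : ℂ)‖ ≤ 2 * B * g (M + 1)

/-- P12 (trivial bound).  HYPOTHESES: none.
Proof.  `‖χ n‖ ≤ 1`, `0 ≤ Λ n ≤ log n ≤ log x` for `1 ≤ n ≤ x`, and there are `⌊x⌋₊ ≤ x` terms. -/
def StP12 : Prop := ∀ (q : ℕ) [NeZero q] (χ : DirichletCharacter ℂ q) (x : ℝ), 1 ≤ x → ‖psi x χ‖ ≤ x * Real.log x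

/-- P13 (PS for `x ≥ 9`).  HYPOTHESES: StP09, StP10, StP11, StP12.
Proof.  `K = m + 1`, `a = cdk χ (2K)`, `g n = (log n)^(-2K)` (`= ((log n)^(2K))⁻¹`), `M = ⌊√x⌋₊ ≥ 3`, `N = ⌊x⌋₊`, `L = log x ≥ 1`.
For `n > M ≥ 1`, `a n g n = χ n Λ n` (`log n ≠ 0`).  So `psi x χ = psi (√x) χ + ∑ n ∈ Ioc M N, a n g n`.
For `M ≤ n ≤ N`: `3 ≤ n ≤ x` and StP10 at the real number `n` gives
`‖∑ k ∈ Icc 1 n, a k‖ ≤ B := C1 q^η x L^(K+1)`.  `g` is nonnegative and decreasing on `n ≥ 2`.  StP11: the second sum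
is `≤ 2 B g (M+1)`, and `M + 1 ≥ √x` so `g (M+1) ≤ (L/2)^(-2K) = 4^K L^(-2K)`.  Hence it is
`≤ 2 C1 4^K q^η x L^(K+1-2K) = 2 C1 4^K q^η x L^(-m)` (`K + 1 - 2K = 1 - K = -m`).  The first: StP12,
`‖psi (√x) χ‖ ≤ √x log √x ≤ √x L`, and `L^(m+1) ≤ C2 x^(1/4) ≤ C2 √x` (StP09), so `√x L ≤ C2 x / L^m`. -/
def StP13 : Prop := ∀ η : ℝ, 0 < η → ∀ m : ℕ, ∃ C : ℝ, 1 ≤ C ∧ ∀ (q : ℕ) [NeZero q] (χ : DirichletCharacter ℂ q), χ ≠ 1 →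
  ∀ x : ℝ, 9 ≤ x → ‖psi x χ‖ ≤ C * (q : ℝ) ^ η * (x / Real.log x ^ m)

/-- P14 (PS).  HYPOTHESES: StP12, StP13.  Proof.  `x ≥ 9`: StP13.  `2 ≤ x < 9`: StP12,
`‖psi x χ‖ ≤ x log x`, and `log x ≤ 3` (`x ≤ 9 ≤ e^3`), `log x > 0`: `x log x = (x / (log x)^m) (log x)^(m+1) ≤ 3^(m+1) x/(log x)^m`,
and `q^η ≥ 1`. -/
def StP14 : Prop := StPS

/-- P15 (SW).  HYPOTHESES: StPS.
Proof.  Given `A, B`, put `η = 1/A` and `m = ⌈B⌉₊ + 1`, `C` from StPS.  If `q ≤ (log x)^A` then `1 ≤ q` gives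
`log x ≥ 1` (otherwise `0 < log x < 1` and `(log x)^A < 1`).  `q^η ≤ ((log x)^A)^(1/A) = log x`.  So
`‖psi x χ‖ ≤ C log x * x / (log x)^m = C x / (log x)^(m-1) ≤ C x / (log x)^B` since `m - 1 ≥ B` and `log x ≥ 1`. -/
def StP15 : Prop := StSW

end MPb51559.BG.A
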