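import Pool.Agent.Work.MP_b51559_nt.BG.A.Defs

set_option autoImplicit false

/-!
# Bounded gaps, part A: Siegel's theorem (statements)

Captain of this file: helper84.  Proof of Estermann (Davenport, Multiplicative Number Theory, chapter 21),
for all non-principal quadratic characters, primitive or not.

`χ₁`, `χ₂` are quadratic (`χ ^ 2 = 1`) and non-principal (`χ ≠ 1`), `prd χ₁ χ₂` is their product at the
level `q₁ q₂`, `PP χ₁ χ₂ s = L(s, χ₁) L(s, χ₂) L(s, χ₁χ₂)` and `F = ζ PP`.  The Taylor coefficients of `F`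
at `2` (in powers of `2 - s`) are nonnegative, and `F(s) - PP(1)/(s-1)` is entire and bounded by
`C (q₁ q₂)^2` on the circle `|s - 2| = 3/2`.  So `F(σ) ≥ c - PP(1) (C q₁ q₂)^(8(1-σ)) / (1-σ)`
for `7/8 ≤ σ < 1`.  Dichotomy: `χ₁` and `σ` can be chosen such that `F(σ) ≤ 0` for all `χ₂`.

Inequalities between complex numbers are those of `ComplexOrder` (`0 ≤ z` means that `z` is real and
nonnegative).
-/

namespace MPb51559.BG.A

open scoped BigOperators ArithmeticFunction ComplexOrder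

/-- the product of two characters, at the level `q₁ q₂` -/
noncomputable def prd {q₁ q₂ : ℕ} (χ₁ : DirichletCharacter ℂ q₁) (χ₂ : DirichletCharacter ℂ q₂) :
    DirichletCharacter ℂ (q₁ * q₂) :=
  DirichletCharacter.changeLevel (dvd_mul_right q₁ q₂) χ₁ *
    DirichletCharacter.changeLevel (dvd_mul_left q₂ q₁) χ₂

/-- partial sums of a character -/
noncomputable def xs {q : ℕ} (χ : DirichletCharacter ℂ q) (t : ℝ) : ℂ :=
  ∑ k ∈ Finset.Icc 1 ⌊t⌋₊, χ (k : ZMod q)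

/-- `L(s, χ₁) L(s, χ₂) L(s, χ₁χ₂)` -/
noncomputable def PP {q₁ q₂ : ℕ} [NeZero q₁] [NeZero q₂] (χ₁ : DirichletCharacter ℂ q₁)
    (χ₂ : DirichletCharacter ℂ q₂) (s : ℂ) : ℂ :=
  DirichletCharacter.LFunction χ₁ s * DirichletCharacter.LFunction χ₂ s *
    DirichletCharacter.LFunction (prd χ₁ χ₂) s

/-! ### A. one character -/

/-- SX.  Partial sums.  Second part: `⌊t⌋ ≤ t` terms of norm at most `1`.  First part: the function
`k ↦ χ k` has period `q` and its sum over a period is `0` (`MulChar.sum_eq_zero_of_ne_one`; the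
residues `1, .., q` or `0, .., q - 1` represent `ZMod q`), so if `⌊t⌋ = a q + b` with `b < q` the sum is
the sum of `b` terms of norm at most `1` (`DirichletCharacter.norm_le_one`). -/
def SgX : Prop := ∀ (q : ℕ) [NeZero q] (χ : DirichletCharacter ℂ q), χ ≠ 1 → ∀ t : ℝ, 0 ≤ t →
  ‖xs χ t‖ ≤ q ∧ ‖xs χ t‖ ≤ t

/-- SMel.  Integral representation for `Re s > 0` (uses `SgX`).  For `Re s > 1` it is
`DirichletCharacter.LFunction_eq_LSeries` and `LSeries_eq_mul_integral` with `r = 0`.  Both sides are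
analytic on the half plane `0 < Re s`: `DirichletCharacter.differentiable_LFunction`, and the integral is
`mellin f (-s)` with `f t = xs χ t` for `t > 1` and `f t = 0` for `t ≤ 1`, bounded by `q` and zero near
`0` (`mellin_differentiableAt_of_isBigO_rpow` with `a = 0` and any `b < -Re s`; `xs` is measurable, being
a function of `⌊t⌋₊`, and bounded, hence locally integrable).  The half plane is convex: use the identity
theorem `AnalyticOnNhd.eqOn_of_preconnected_of_eventuallyEq` at the point `2`. -/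
def SgMel : Prop := ∀ (q : ℕ) [NeZero q] (χ : DirichletCharacter ℂ q), χ ≠ 1 → ∀ s : ℂ, 0 < s.re →
  DirichletCharacter.LFunction χ s = s * ∫ t in Set.Ioi (1 : ℝ), xs χ t * (t : ℂ) ^ (-(s + 1))

/-- SBd.  Upper bounds (uses `SgX`, `SgMel`).  `‖t^(-(s+1))‖ = t^(-(Re s + 1))` for `t > 0`, and
`∫_1^∞ q t^(-σ-1) dt = q / σ` (`integral_Ioi_rpow_of_lt`).  Second part, `s = 1`:
`∫_1^∞ ‖xs χ t‖ t^(-2) dt ≤ ∫_1^q t · t^(-2) dt + ∫_q^∞ q t^(-2) dt = log q + 1`. -/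
def SgBd : Prop := ∀ (q : ℕ) [NeZero q] (χ : DirichletCharacter ℂ q), χ ≠ 1 →
  (∀ s : ℂ, 0 < s.re → ‖DirichletCharacter.LFunction χ s‖ ≤ q * ‖s‖ / s.re) ∧
  ‖DirichletCharacter.LFunction χ 1‖ ≤ 1 + Real.log q

/-- SRe.  `L(σ, χ)` is real for quadratic `χ` and `σ > 0` (uses `SgMel`).  The values of `χ` are
`0, 1, -1` (`MulChar.isQuadratic_iff_sq_eq_one` or directly: for a unit `a` the square of `χ a` is `1`),
so `xs χ t` is real, and `t^(-(σ+1))` is real for `t > 0`; the integral of a real valued function is real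
(`integral_ofReal`, or `integral_im`, or invariance under conjugation). -/
def SgRe : Prop := ∀ (q : ℕ) [NeZero q] (χ : DirichletCharacter ℂ q), χ ≠ 1 → χ ^ 2 = 1 → ∀ σ : ℝ,
  0 < σ → (DirichletCharacter.LFunction χ (σ : ℂ)).im = 0

/-- S2.  The value at `2`.  `L(2, χ) = ∑ χ(n) n^(-2)` (`DirichletCharacter.LFunction_eq_LSeries`), the term
for `n = 1` is `1`, and the sum of the norms of all others is at most `ζ(2) - 1 = π^2/6 - 1 < 0.65`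
(`hasSum_zeta_two`, `Real.pi_lt_d2`). -/
def Sg2 : Prop := ∀ (q : ℕ) [NeZero q] (χ : DirichletCharacter ℂ q),
  1 / 3 ≤ (DirichletCharacter.LFunction χ 2).re

/-- SIvt.  Positivity (uses `SgRe`, `Sg2`).  The function `t ↦ (L(t, χ)).re` is continuous on `[σ, 2]` (or
`[2, σ]`), positive at `2`, and has no zero between `2` and `σ`: by `SgRe` a zero of the real part is a
zero of `L`; for `t < 1` there is none by hypothesis, for `t ≥ 1` none by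
`DirichletCharacter.LFunction_ne_zero_of_one_le_re`.  Intermediate value theorem. -/
def SgIvt : Prop := ∀ (q : ℕ) [NeZero q] (χ : DirichletCharacter ℂ q), χ ≠ 1 → χ ^ 2 = 1 → ∀ σ : ℝ,
  0 < σ → (∀ t : ℝ, σ ≤ t → t < 1 → DirichletCharacter.LFunction χ (t : ℂ) ≠ 0) →
  0 < (DirichletCharacter.LFunction χ (σ : ℂ)).re

/-- SZn.  `ζ` is negative to the left of `1`: `(s - 1) ζ(s)` tends to `1` (`riemannZeta_residue_one`), so for
real `σ < 1` close to `1` the real part of `(σ - 1) ζ(σ)` is at least `1/2`. -/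
def SgZn : Prop := ∃ δ : ℝ, 0 < δ ∧ ∀ σ : ℝ, 1 - δ < σ → σ < 1 → (riemannZeta (σ : ℂ)).re < 0

/-! ### B. two characters -/

/-- SPr.  The product character.  `DirichletCharacter.changeLevel_eq_cast_of_dvd` gives the value at units;
if `n` is not coprime to `q₁ q₂` then it is not coprime to `q₁` or not coprime to `q₂`, and both sides are
`0` (`MulChar.map_nonunit`).  Quadratic characters: `changeLevel` is a homomorphism of groups.  The values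
of `χ₁`, `χ₂` are `0, 1, -1`, so both factors are nonnegative. -/
def SgPr : Prop := ∀ (q₁ q₂ : ℕ) [NeZero q₁] [NeZero q₂] (χ₁ : DirichletCharacter ℂ q₁)
  (χ₂ : DirichletCharacter ℂ q₂),
  (∀ n : ℕ, prd χ₁ χ₂ (n : ZMod (q₁ * q₂)) = χ₁ (n : ZMod q₁) * χ₂ (n : ZMod q₂)) ∧
  (χ₁ ^ 2 = 1 → χ₂ ^ 2 = 1 → prd χ₁ χ₂ ^ 2 = 1 ∧
    ∀ n : ℕ, (0 : ℂ) ≤ (1 + χ₁ (n : ZMod q₁)) * (1 + χ₂ (n : ZMod q₂)))

/-- the coefficients of `-F'/F` -/
noncomputable def gg {q₁ q₂ : ℕ} (χ₁ : DirichletCharacter ℂ q₁) (χ₂ : DirichletCharacter ℂ q₂)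
    (n : ℕ) : ℂ :=
  (ArithmeticFunction.vonMangoldt n : ℂ) * ((1 + χ₁ (n : ZMod q₁)) * (1 + χ₂ (n : ZMod q₂)))

/-- SFac.  Logarithmic derivative of `F = ζ PP` for `Re s > 1` (uses `SgPr`).  By `SgPr`
`gg = Λ + χ₁ Λ + χ₂ Λ + (prd χ₁ χ₂) Λ`; the four L-series are absolutely convergent
(`ArithmeticFunction.LSeriesSummable_vonMangoldt`, `DirichletCharacter.LSeriesSummable_twist_vonMangoldt`) with
sums `-ζ'/ζ` (`ArithmeticFunction.LSeries_vonMangoldt_eq_deriv_riemannZeta_div`) and `-L'/L`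
(`DirichletCharacter.LSeries_twist_vonMangoldt_eq`, `DirichletCharacter.deriv_LFunction_eq_deriv_LSeries`); the
four factors of `F` do not vanish (`riemannZeta_ne_zero_of_one_lt_re`,
`DirichletCharacter.LSeries_ne_zero_of_one_lt_re`), and `(f₁f₂f₃f₄)' = f₁f₂f₃f₄ ∑ fᵢ'/fᵢ`. -/
def SgFac : Prop := ∀ (q₁ q₂ : ℕ) [NeZero q₁] [NeZero q₂] (χ₁ : DirichletCharacter ℂ q₁)
  (χ₂ : DirichletCharacter ℂ q₂), ∀ s : ℂ, 1 < s.re → LSeriesSummable (gg χ₁ χ₂) s ∧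
    deriv (fun z : ℂ => riemannZeta z * PP χ₁ χ₂ z) s =
      -(riemannZeta s * PP χ₁ χ₂ s * LSeries (gg χ₁ χ₂) s)

/-- SPosA.  Signs of the derivatives.  `G = LSeries g` is analytic near `2` and
`0 ≤ (-1)^n G^(n)(2)` for all `n` (`LSeries.iteratedDeriv_alternating`; `abscissaOfAbsConv g ≤ 3/2 < 2` by
`LSeriesSummable.abscissaOfAbsConv_le`).  `F` is analytic on the open set `{1 < Re s}`
(`DifferentiableOn.analyticAt`).  Strong induction: `F^(n+1)(2)` is the `n`-th derivative at `2` of `F' = -F G`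
(`iteratedDeriv_succ'`, `Filter.EventuallyEq.iteratedDeriv`), so by Leibniz (`iteratedDeriv_fun_mul`)
`(-1)^(n+1) F^(n+1)(2) = ∑_{k ≤ n} binom(n, k) ((-1)^k F^(k)(2)) ((-1)^(n-k) G^(n-k)(2)) ≥ 0`. -/
def SgPosA : Prop := ∀ (F : ℂ → ℂ) (g : ℕ → ℂ), (∀ n, 0 ≤ g n) →
  (∀ s : ℂ, 1 < s.re → LSeriesSummable g s) → DifferentiableOn ℂ F {s | 1 < s.re} →
  (∀ s : ℂ, 1 < s.re → deriv F s = -(F s * LSeries g s)) → 0 ≤ F 2 →
  ∀ n : ℕ, 0 ≤ (-1) ^ n * iteratedDeriv n F 2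

/-- SF2.  The value of `F` at `2` (uses `SgRe`, `Sg2`, `SgPr`): the four factors are real,
`ζ(2) = π^2/6 ≥ 1` (`riemannZeta_two`), the other three are at least `1/3`. -/
def SgF2 : Prop := ∀ (q₁ q₂ : ℕ) [NeZero q₁] [NeZero q₂] (χ₁ : DirichletCharacter ℂ q₁)
  (χ₂ : DirichletCharacter ℂ q₂), χ₁ ≠ 1 → χ₂ ≠ 1 → prd χ₁ χ₂ ≠ 1 → χ₁ ^ 2 = 1 → χ₂ ^ 2 = 1 →
  1 / 27 ≤ (riemannZeta 2 * PP χ₁ χ₂ 2).re ∧ 0 ≤ riemannZeta 2 * PP χ₁ χ₂ 2

/-- SPosF.  Signs of the derivatives of `F` (uses `SgPosA`, `SgFac`, `SgPr`, `SgF2`).  Apply `SgPosA` to `F`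
and `g = gg χ₁ χ₂`: `gg ≥ 0` by `SgPr` and `ArithmeticFunction.vonMangoldt_nonneg`; `F` is differentiable for
`s ≠ 1` (`differentiableAt_riemannZeta`, `DirichletCharacter.differentiable_LFunction`). -/
def SgPosF : Prop := ∀ (q₁ q₂ : ℕ) [NeZero q₁] [NeZero q₂] (χ₁ : DirichletCharacter ℂ q₁)
  (χ₂ : DirichletCharacter ℂ q₂), χ₁ ≠ 1 → χ₂ ≠ 1 → prd χ₁ χ₂ ≠ 1 → χ₁ ^ 2 = 1 → χ₂ ^ 2 = 1 →
  ∀ n : ℕ, 0 ≤ (-1) ^ n * iteratedDeriv n (fun s : ℂ => riemannZeta s * PP χ₁ χ₂ s) 2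

/-! ### C. the inequality of Estermann -/

/-- SG1.  The function `F(s) - P(1)/(s-1)` is entire and bounded on the circle.  Let
`Z = DirichletCharacter.LFunctionTrivChar₁ 1`: entire (`DirichletCharacter.differentiable_LFunctionTrivChar₁`), equal to
`(s - 1) ζ(s)` for `s ≠ 1` (`DirichletCharacter.LFunction_modOne_eq`) and to `1` at `1`.  `G = dslope (Z P) 1` is
entire (`Complex.differentiableOn_dslope` with the set `univ`) and
`G s = (Z(s) P(s) - P(1)) / (s - 1) = ζ(s) P(s) - P(1)/(s - 1)` for `s ≠ 1`.  On the circle `‖s - 1‖ ≥ 1/2`, `ζ` is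
bounded there by a constant `C₀` (compactness, continuity away from `1`), and `1` lies in the closed disc, so
`‖G s‖ ≤ C₀ M + 2 M`. -/
def SgG1 : Prop := ∃ C : ℝ, 1 ≤ C ∧ ∀ (P : ℂ → ℂ) (M : ℝ), Differentiable ℂ P → 0 ≤ M →
  (∀ s ∈ Metric.closedBall (2 : ℂ) (3 / 2), ‖P s‖ ≤ M) → ∃ G : ℂ → ℂ, Differentiable ℂ G ∧
    (∀ s : ℂ, s ≠ 1 → G s = riemannZeta s * P s - P 1 / (s - 1)) ∧
    ∀ s ∈ Metric.sphere (2 : ℂ) (3 / 2), ‖G s‖ ≤ C * M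

/-- SCof.  Taylor coefficients (uses `SgG1`).  Near `2` we have `G = F - P(1)/(s-1)`, and the `n`-th derivative of
`1/(s-1)` at `2` is `(-1)^n n!` (induction: the `n`-th derivative is `(-1)^n n! (s-1)^(-n-1)`; or
`iteratedDeriv_fun_inv`/`iter_deriv_inv` and translation), so `b n - P 1 = (-1)^n G^(n)(2) / n!`
(`Filter.EventuallyEq.iteratedDeriv_eq`, `iteratedDeriv_fun_sub`; everything is analytic near `2`).  First part:
Cauchy's estimate `Complex.norm_iteratedDeriv_le_of_forall_mem_sphere_norm_le` with `R = 3/2`.  Second part: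
`Complex.hasSum_taylorSeries_of_entire` and `(s - 2)^n = (-1)^n (2 - s)^n`. -/
def SgCof : Prop := ∃ C : ℝ, 1 ≤ C ∧ ∀ (P : ℂ → ℂ) (M : ℝ), Differentiable ℂ P → 0 ≤ M →
  (∀ s ∈ Metric.closedBall (2 : ℂ) (3 / 2), ‖P s‖ ≤ M) → ∀ b : ℕ → ℂ,
  (∀ n : ℕ, b n = (-1) ^ n * iteratedDeriv n (fun s : ℂ => riemannZeta s * P s) 2 / (n.factorial : ℂ)) →
  (∀ n : ℕ, ‖b n - P 1‖ ≤ C * M * (2 / 3) ^ n) ∧
  ∀ s : ℂ, s ≠ 1 → HasSum (fun n : ℕ => (b n - P 1) * (2 - s) ^ n)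
    (riemannZeta s * P s - P 1 / (s - 1))

/-- SNum.  Real series.  Let `x = 1 + δ ≤ 9/8` and `K = ⌈log (8 D / c) / log (4/3)⌉`, a natural number with `1 ≤ K`,
`(4/3)^K ≥ 8 D / c` and `K ≤ 1 + log (8 D / c) / log (4/3) ≤ 4 log 2 + 4 log (8 D / c) = 4 log (16 D / c)`
(since `log (4/3) ≥ 1/4` and `4 log 2 ≥ 1`).  Tail: `|b n - λ| x^n ≤ D (2x/3)^n ≤ D (3/4)^n`, so the sum over `n ≥ K`
is at least `-4 D (3/4)^K ≥ -c/2`.  Head: `∑_{n < K} (b n - λ) x^n ≥ b 0 - λ ∑_{n < K} x^n = b 0 - λ (x^K - 1)/δ`.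
So `S ≥ c/2 - λ (x^K - 1)/δ`, and `x^K ≤ e^(δ K) ≤ (16 D / c)^(4 δ)`. -/
def SgNum : Prop := ∀ (b : ℕ → ℝ) (lam D c δ S : ℝ), (∀ n, 0 ≤ b n) → 0 ≤ lam → 0 < c → c ≤ 1 →
  c ≤ b 0 → 1 ≤ D → (∀ n : ℕ, |b n - lam| ≤ D * (2 / 3) ^ n) → 0 < δ → δ ≤ 1 / 8 →
  HasSum (fun n : ℕ => (b n - lam) * (1 + δ) ^ n) S →
  c / 2 - lam * (16 * D / c) ^ (4 * δ) / δ ≤ S - lam / δ

/-- SEst.  The inequality of Estermann (uses `SgCof`, `SgNum`; `C` is `16` times the constant of `SgCof`).  Let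
`δ = 1 - σ`, `b n` the coefficients of `SgCof`; they are real and nonnegative by hypothesis, `b 0 = ζ(2) P(2)`.
Take real parts in `SgCof` at `s = σ` (`2 - s = 1 + δ` is real, `P 1 = lam` is real):
`S = (ζ(σ) P(σ)).re + lam/δ`.  Apply `SgNum` with `D = C M`. -/
def SgEst : Prop := ∃ C : ℝ, 1 ≤ C ∧ ∀ (P : ℂ → ℂ) (M lam c : ℝ), Differentiable ℂ P → 1 ≤ M →
  (∀ s ∈ Metric.closedBall (2 : ℂ) (3 / 2), ‖P s‖ ≤ M) → P 1 = (lam : ℂ) → 0 ≤ lam → 0 < c → c ≤ 1 →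
  c ≤ (riemannZeta 2 * P 2).re →
  (∀ n : ℕ, 0 ≤ (-1) ^ n * iteratedDeriv n (fun s : ℂ => riemannZeta s * P s) 2) →
  ∀ σ : ℝ, 7 / 8 ≤ σ → σ < 1 →
  c / 2 - lam * (C * M / c) ^ (4 * (1 - σ)) / (1 - σ) ≤ (riemannZeta (σ : ℂ) * P (σ : ℂ)).re

/-! ### D. the theorem of Siegel -/

/-- SDich.  The dichotomy (uses `SgRe`, `SgIvt`, `SgZn`, `SgPr`).  Let `η' = min η (1/8) δ` with `δ` from `SgZn`.
(1) Some quadratic non-principal `χ₁` has a real zero `β` with `1 - η' < β < 1`: take this `χ₁` and `σ = β`;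
`PP χ₁ χ₂ β = 0`.  (2) There is no such character: take any `χ₁` (there is one by hypothesis) and
`σ = 1 - η'/2`.  By `SgIvt` and `SgRe` the three factors of `PP χ₁ χ₂ σ` are real and positive (`prd χ₁ χ₂` is
quadratic by `SgPr`), and `(ζ(σ)).re < 0`, so the real part of the product is negative. -/
def SgDich : Prop := ∀ η : ℝ, 0 < η →
  (∃ (q : ℕ) (_ : NeZero q) (χ : DirichletCharacter ℂ q), χ ≠ 1 ∧ χ ^ 2 = 1) →
  ∃ (q₁ : ℕ) (_ : NeZero q₁) (χ₁ : DirichletCharacter ℂ q₁) (σ : ℝ), χ₁ ≠ 1 ∧ χ₁ ^ 2 = 1 ∧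
    1 - η < σ ∧ 7 / 8 ≤ σ ∧ σ < 1 ∧ ∀ (q₂ : ℕ) [NeZero q₂] (χ₂ : DirichletCharacter ℂ q₂),
      χ₂ ≠ 1 → χ₂ ^ 2 = 1 → prd χ₁ χ₂ ≠ 1 → (riemannZeta (σ : ℂ) * PP χ₁ χ₂ (σ : ℂ)).re ≤ 0

/-- SMain.  Lower bound when the product is not principal (uses `SgBd`, `SgRe`, `SgIvt`, `SgF2`, `SgPosF`, `SgEst`).
`P = PP χ₁ χ₂` is entire; on the closed disc `‖s‖ ≤ 7/2`, `Re s ≥ 1/2`, so by `SgBd` `‖L(s, χ)‖ ≤ 7 q` and
`‖P s‖ ≤ M = 343 (q₁ q₂)^2`.  `P 1 = lam` is real and positive (`SgRe`, `SgIvt` for `σ = 1`).  `SgEst` with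
`c = 1/27` and the hypothesis `(F(σ)).re ≤ 0` give `(1/54) (1 - σ) ≤ lam (27 C M)^(4(1-σ))`.  Now
`(27 C M)^(4(1-σ)) = A q₂^(8(1-σ))` with `A = (27 C 343 q₁^2)^(4(1-σ))`, and
`lam ≤ ‖L(1, χ₁)‖ ‖L(1, χ₂)‖ (1 + log (q₁ q₂))` by `SgBd`; `‖L(1, χ₁)‖ > 0`.  The constant is
`c = (1 - σ) / (54 A ‖L(1, χ₁)‖)`. -/
def SgMain : Prop := ∀ (q₁ : ℕ) [NeZero q₁] (χ₁ : DirichletCharacter ℂ q₁) (σ : ℝ), χ₁ ≠ 1 →
  χ₁ ^ 2 = 1 → 7 / 8 ≤ σ → σ < 1 → ∃ c : ℝ, 0 < c ∧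
  ∀ (q₂ : ℕ) [NeZero q₂] (χ₂ : DirichletCharacter ℂ q₂), χ₂ ≠ 1 → χ₂ ^ 2 = 1 → prd χ₁ χ₂ ≠ 1 →
    (riemannZeta (σ : ℂ) * PP χ₁ χ₂ (σ : ℂ)).re ≤ 0 →
    c * (q₂ : ℝ) ^ (-(8 * (1 - σ))) ≤
      (1 + Real.log ((q₁ : ℝ) * q₂)) * ‖DirichletCharacter.LFunction χ₂ 1‖

/-- SPb.  The product over the primes dividing `N`.  Let `p₀` be a natural number with `5 ≤ p₀^η`, `2 ≤ p₀`.  For
`p ≥ p₀`: `(1 + 1/p)/(1 - 1/p) = 1 + 2/(p - 1) ≤ 3 ≤ p^η`.  For `p < p₀` the factor is at most `3`.  So every factor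
is at most `(if p < p₀ then 3 else 1) * p^η` (as `p^η ≥ 1`), the product of the first factors is at most `3^p₀`, and
the product of the primes dividing `N` is at most `N` (`Nat.prod_primeFactors_dvd`). -/
def SgPb : Prop := ∀ η : ℝ, 0 < η → ∃ C : ℝ, 1 ≤ C ∧ ∀ N : ℕ, N ≠ 0 →
  ∏ p ∈ N.primeFactors, ((1 + (p : ℝ)⁻¹) / (1 - (p : ℝ)⁻¹)) ≤ C * (N : ℝ) ^ η

/-- SLift.  The case where `χ₁χ₂` is principal: the two characters induce the same character `χ'` at the level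
`N = q₁ q₂` (the inverse of the quadratic character `changeLevel χ₂` is itself).  By
`DirichletCharacter.LFunction_changeLevel` at `s = 1`,
`L(1, χ') = L(1, χ₁) ∏_{p ∣ N} (1 - χ₁(p)/p) = L(1, χ₂) ∏_{p ∣ N} (1 - χ₂(p)/p)`; take norms and use
`‖1 - χ₁(p)/p‖ ≥ 1 - 1/p > 0` and `‖1 - χ₂(p)/p‖ ≤ 1 + 1/p`. -/
def SgLift : Prop := ∀ (q₁ q₂ : ℕ) [NeZero q₁] [NeZero q₂] (χ₁ : DirichletCharacter ℂ q₁)
  (χ₂ : DirichletCharacter ℂ q₂), χ₁ ≠ 1 → χ₂ ≠ 1 → χ₂ ^ 2 = 1 → prd χ₁ χ₂ = 1 →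
  ‖DirichletCharacter.LFunction χ₁ 1‖ ≤ ‖DirichletCharacter.LFunction χ₂ 1‖ *
    ∏ p ∈ (q₁ * q₂).primeFactors, ((1 + (p : ℝ)⁻¹) / (1 - (p : ℝ)⁻¹))

/-- SFin.  Siegel's theorem (written by the captain; uses `SgDich`, `SgMain`, `SgPb`, `SgLift`).  If there is no
non-principal quadratic character the statement is vacuous.  Otherwise take `χ₁`, `σ` from `SgDich` for
`η' = η/9`.  If `prd χ₁ χ₂ = 1`: `SgLift` and `SgPb` for `η`.  If not: `SgMain` gives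
`‖L(1, χ₂)‖ ≥ c q₂^(-8 η/9) / ((1 + log q₁) (1 + log q₂))` and `1 + log q₂ ≤ (1 + 9/η) q₂^(η/9)`. -/
def SgFin : Prop := SgDich → SgMain → SgPb → SgLift → StSG

end MPb51559.BG.A
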