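import Pool.Agent.Work.MP_b51559_nt.BG.A.Defs

/-!
# Bounded gaps, part A, statements U: upper bounds (captain helper19)

Each `def StXXX` is one item; its docstring contains the complete proof.  File `BG/A/XXX.lean`, import
`Pool.Agent.Work.MP_b51559_nt.BG.A.StmtsU` (and landed files if useful), main theorem `prf_XXX` in the namespace
`MPb51559.BG.A`, with the hypotheses named in the docstring.  Prefix auxiliary lemmas with `XXX_`.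
-/

namespace MPb51559.BG.A

open scoped BigOperators

/-- CSU (character sums; no hypotheses).  The sum over `q` consecutive integers is the sum over all residues, `0` for `χ ≠ 1` (`MulChar.sum_eq_zero_of_ne_one`); write `b - a = q m + r`, `r < q`, the remaining `r` terms have absolute value at most `1` (`DirichletCharacter.norm_le_one`). -/
def StCSU : Prop := ∀ (q : ℕ) [NeZero q] (χ : DirichletCharacter ℂ q), χ ≠ 1 → ∀ a b : ℕ, ‖∑ n ∈ Finset.Ico a b, χ (n : ZMod q)‖ ≤ q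

/-- GDF (differences; no hypotheses).  `g(u) = (log u)^j u^(-s)` on `[n, n+1]` has the derivative `j (log u)^(j-1) u^(-1-s) - s (log u)^j u^(-s-1)`; for `u ≥ 3` `log u ≥ 1`, so its absolute value is at most `(j + |s|) (log u)^j u^(- Re s - 1) ≤ (j + |s|) (log (n+1))^j / n^2`; mean value inequality
(`Convex.norm_image_sub_le_of_norm_hasDerivWithin_le` or `norm_image_sub_le_of_norm_deriv_le_segment`). -/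
def StGDF : Prop := ∀ (j : ℕ) (s : ℂ), 1 < s.re → ∀ n : ℕ, 3 ≤ n →
    ‖((Real.log ((n + 1 : ℕ) : ℝ) : ℝ) : ℂ) ^ j * ((n + 1 : ℕ) : ℂ) ^ (-s) - ((Real.log (n : ℝ) : ℝ) : ℂ) ^ j * (n : ℂ) ^ (-s)‖ ≤
      (j + ‖s‖) * (Real.log ((n : ℝ) + 1) ^ j / (n : ℝ) ^ 2)

/-- LGE (no hypotheses).  `log (n+1) ≤ (n+1)^(η/j) j/η ≤ 2^(η/j) (j/η) n^(η/j)` (`Real.log_le_rpow_div`), `j ≥ 1`; `j = 0` clear. -/
def StLGE : Prop := ∀ η : ℝ, 0 < η → ∀ j : ℕ, ∃ C : ℝ, 1 ≤ C ∧ ∀ n : ℕ, 1 ≤ n → Real.log ((n : ℝ) + 1) ^ j ≤ C * (n : ℝ) ^ η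

/-- HDS (head; uses StLGE).  `(log n)^j ≤ (log (n+1))^j ≤ C n^(η/2) ≤ C N^(η/2)` and `Σ_(n ≤ N) 1/n ≤ 1 + log N ≤ C' N^(η/2)` (`harmonic_le_one_add_log`, `Real.log_le_rpow_div`). -/
def StHDS : Prop := ∀ η : ℝ, 0 < η → ∀ j : ℕ, ∃ C : ℝ, 1 ≤ C ∧ ∀ N : ℕ, 1 ≤ N →
    ∑ n ∈ Finset.Icc 1 N, Real.log (n : ℝ) ^ j / (n : ℝ) ≤ C * (N : ℝ) ^ η

/-- TLS (tail sums; uses StLGE).  The terms are at most `C n^(η - 2)`, and `n^(η-2) ≤ ((n-1)^(η-1) - n^(η-1))/(1-η)` for `n ≥ 2` (mean value theorem; telescoping), so the sum over `n ≥ N` is at most `C (N^(η-2) + N^(η-1)/(1-η)) ≤ 3 C N^(η-1)` for `η ≤ 1/2`. -/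
def StTLS : Prop := ∀ η : ℝ, 0 < η → η ≤ 1 / 2 → ∀ j : ℕ, ∃ C : ℝ, 1 ≤ C ∧ ∀ N : ℕ, 1 ≤ N →
    Summable (fun n : ℕ => Real.log ((n : ℝ) + N + 1) ^ j / ((n : ℝ) + N) ^ 2) ∧
      ∑' n : ℕ, Real.log ((n : ℝ) + N + 1) ^ j / ((n : ℝ) + N) ^ 2 ≤ C * (N : ℝ) ^ (η - 1)

/-- TLC (tail of the `L`-series; uses StCSU, StGDF, StTLS; summability as in StSUM of `StmtsL`, prove it or take `(hSUM : ...)` from there by importing `StmtsL`).  Let `g(n) = (log n)^j n^(-s)`, `X(m) = Σ_(N < n ≤ m) χ(n)`, `|X(m)| ≤ q` (CSU).  For `M > N`: `Σ_(N < n ≤ M) χ(n) g(n) = X(M) g(M) - Σ_(N < n < M) X(n) (g(n+1) - g(n))`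
(`Finset.sum_range_by_parts` or induction on `M`), `g(M) → 0`.  So the tail is at most `q (j + |s|) Σ_(n > N) (log (n+1))^j / n^2 ≤ q (j + |s|) C N^(η-1)` (GDF for `n ≥ N + 1 ≥ 3`, TLS), and `q (j + |s|) ≤ q (j + 2 + |Im s|) ≤ (j+1) q (|Im s| + 2) ≤ (j+1) N`. -/
def StTLC : Prop := ∀ η : ℝ, 0 < η → η ≤ 1 / 2 → ∀ j : ℕ, ∃ C : ℝ, 1 ≤ C ∧ ∀ (q : ℕ) [NeZero q] (χ : DirichletCharacter ℂ q), χ ≠ 1 →
    ∀ s : ℂ, 1 < s.re → s.re ≤ 2 → ∀ N : ℕ, 2 ≤ N → (q : ℝ) * (|s.im| + 2) ≤ N →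
      ‖ell χ j s - ∑ n ∈ Finset.Icc 1 N, cell χ j n * (n : ℂ) ^ (-s)‖ ≤ C * (N : ℝ) ^ η

/-- UBP (StUB; uses StHDS, StTLC).  We may assume `η ≤ 1/2` (`Q = q (|Im s| + 2) ≥ 1`).  `N = ⌈Q⌉₊`, `2 ≤ Q ≤ N ≤ 2 Q`.  The head is at most `Σ_(n ≤ N) (log n)^j / n ≤ C N^η` (`|n^(-s)| = n^(-Re s) ≤ 1/n`), the tail at most `C N^η` (TLC), `N^η ≤ 2 Q^η`. -/
def StUBP : Prop := StUB

/-- PBD (products over prime divisors; no hypotheses).  Let `p₀` be a natural number with `p^η ≥ 2` for all `p ≥ p₀`.  `1 + 1/p ≤ 2`, so `∏_(p | q) (1 + 1/p) ≤ ∏_(p | q, p < p₀) 2 * ∏_(p | q, p ≥ p₀) p^η ≤ 2^p₀ (∏_(p | q) p)^η ≤ 2^p₀ q^η` (`Nat.prod_primeFactors_dvd`).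
`1 - 1/p ≥ 1/2`: in the same way `≥ 2^(-p₀) q^(-η)`. -/
def StPBD : Prop := ∀ η : ℝ, 0 < η → ∃ C : ℝ, 1 ≤ C ∧ ∀ q : ℕ, 1 ≤ q →
    ∏ p ∈ q.primeFactors, (1 + 1 / (p : ℝ)) ≤ C * (q : ℝ) ^ η ∧ C⁻¹ * (q : ℝ) ^ (-η) ≤ ∏ p ∈ q.primeFactors, (1 - 1 / (p : ℝ))

/-- ZRB (no hypotheses).  `Σ_(n ≥ 1) n^(-σ) ≤ 1 + 1/(σ-1) = σ/(σ-1) ≤ 2/(σ-1)`: `n^(-σ) ≤ ((n-1)^(1-σ) - n^(1-σ))/(σ-1)` for `n ≥ 2` (or compare with the integral; see also `ZetaAsymptotics`, `zeta_eq_tsum_one_div_nat_add_one_cpow`). -/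
def StZRB : Prop := ∀ σ : ℝ, 1 < σ → σ ≤ 2 → Summable (fun n : ℕ => ((n : ℝ) + 1) ^ (-σ)) ∧ ∑' n : ℕ, ((n : ℝ) + 1) ^ (-σ) ≤ 2 / (σ - 1)

/-- ZBD (zeta near the line; no hypotheses).  Let `N ≥ 1` be a natural number.  For `n > N`: `|n^(-s) - ∫_n^(n+1) u^(-s) du| ≤ |s| / n^2` (the derivative of `u^(-s)` is at most `|s| u^(-2)`), so `|Σ_(n > N) n^(-s) - (N+1)^(1-s)/(s-1)| ≤ |s| Σ_(n > N) 1/n^2 ≤ |s|/N` (`∫_(N+1)^∞ u^(-s) du = (N+1)^(1-s)/(s-1)`), and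
`|Σ_(n ≤ N) n^(-s)| ≤ 1 + log N`, `|(N+1)^(1-s)| ≤ 1`.  With `N = ⌈|Im s| + 2⌉₊ ≥ |s|`: `|ζ(s)| ≤ 1/|s-1| + 2 + log N`, and `log N ≤ C (|Im s| + 2)^η`.  (Other way: `LSeries_eq_mul_integral'` with `f = 1`: `ζ(s) = s/(s-1) - s ∫_1^∞ {u} u^(-s-1) du`, split the integral at `N`.) -/
def StZBD : Prop := ∀ η : ℝ, 0 < η → ∃ C : ℝ, 1 ≤ C ∧ ∀ s : ℂ, 1 < s.re → s.re ≤ 2 → ‖riemannZeta s‖ ≤ 1 / ‖s - 1‖ + C * (|s.im| + 2) ^ η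

/-- TRP (StTR; uses StPBD, StZRB, StZBD).  `ell 1 0 s = LFunction 1 s = ∏_(p | q) (1 - p^(-s)) * ζ(s)` (`LFunctionTrivChar_eq_mul_riemannZeta`, `LFunction_eq_LSeries`), `|1 - p^(-s)| ≤ 1 + 1/p`, PBD, ZBD, `1/|s-1| + C T^η ≤ C T^η (1 + 1/|s-1|)` for `T = |Im s| + 2 ≥ 1`.  Second part:
`|χ₀(n)| ≤ 1`, `norm_tsum_le_tsum_norm`, ZRB. -/
def StTRP : Prop := StTR

end MPb51559.BG.A
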