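import Pool.Agent.Work.MP_b51559_nt.BG.A.Defs
import Pool.Agent.Work.MP_b51559_nt.BG.Defs

/-!
# Bounded gaps, part A, statements W: smooth weights, prime number theorem (captain helper19)

Each `def StXXX` is one item; its docstring contains the complete proof.  File `BG/A/XXX.lean`, import
`Pool.Agent.Work.MP_b51559_nt.BG.A.StmtsW` (and landed files if useful), main theorem `prf_XXX` in the namespace
`MPb51559.BG.A`, with the hypotheses named in the docstring.  Prefix auxiliary lemmas with `XXX_`.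
-/

namespace MPb51559.BG.A

open scoped BigOperators
open Filter Topology MeasureTheory

/-- ABW (Abel summation with a weight; no hypotheses).  For `n ≥ 1`, `n ≤ 2x`: `w(n/x) = - ∫_(1)^(2) 1[n ≤ u x] w'(u) du` (if `n/x ≥ 1` it is `-(w(2) - w(n/x))` and `w(2) = 0`; if `n/x < 1` both sides are `0`, `w(1) = w(2) = 0`).  Multiply by `a n` and sum over `1 ≤ n ≤ ⌊2x⌋` (the term `n = 0` is
`a 0 * w 0 = 0`); `Σ_(n ≤ 2x) a n 1[n ≤ u x] = Σ_(n ∈ Icc 1 ⌊u x⌋₊) a n` for `u ≤ 2`.  (Finite sum of integrals; indicator of `Icc (n/x) 2`.) -/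
def StABW : Prop := ∀ (w : ℝ → ℝ), Wc w → ∀ (a : ℕ → ℂ) (x : ℝ), 0 < x →
    ∑ n ∈ Finset.range (⌊2 * x⌋₊ + 1), a n * ((w ((n : ℝ) / x) : ℝ) : ℂ) =
      - ∫ u in (1 : ℝ)..2, (∑ n ∈ Finset.Icc 1 ⌊u * x⌋₊, a n) * ((deriv w u : ℝ) : ℂ)

/-- SWF (Siegel-Walfisz with a smooth weight, no exceptional characters; uses StABW, StSW).  ABW with `a n = χ(n) Λ(n)`: `|psC w x χ| ≤ sup |w'| * sup_(1 ≤ u ≤ 2) |psi(ux, χ)|` (the sum in the integral is `psi (u x) χ`; `deriv w` is continuous, bounded on `[1,2]`).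
SW with exponents `B + 1` and `A + 1` (positive): for `x ≥ 3`, `q ≤ (log x)^B ≤ (log (ux))^(B+1)`, `|psi(ux,χ)| ≤ C u x/(log (ux))^(A+1) ≤ 2 C x/(log x)^(A+1)`; so `|psC| ≤ C' x/(log x)^(A+1) ≤ x/(log x)^A` as soon as `log x ≥ C'`. -/
def StSWF : Prop := ∀ (w : ℝ → ℝ), Wc w → ∀ (A B : ℕ), ∃ x0 : ℝ, ∀ x ≥ x0, ∀ (q : ℕ) [NeZero q],
    (q : ℝ) ≤ Real.log x ^ B → ∀ χ : DirichletCharacter ℂ q, χ ≠ 1 → ‖psC w x χ‖ ≤ x / Real.log x ^ A

/-- THT (prime number theorem for theta; import `Pool.Agent.Work.WI.W5`: `WI.psi_tendsto`, `WI.psi_sub_theta_div`). -/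
def StTHT : Prop := Tendsto (fun x : ℝ => Chebyshev.theta x / x) atTop (𝓝 1)

/-- PNW (PNTW of `BG/Defs.lean`; uses StABW, StTHT).  `Wt w` implies `Wc w`.  ABW with `a n = log n` for `n` prime, `0` otherwise: `thW w x 1 0 = - ∫_1^2 θ(u x) w'(u) du` (`ZMod 1` is a subsingleton; the real and the complex integral).  `θ(ux)/x → u` uniformly for `1 ≤ u ≤ 2` (THT), `w'` is continuous, so
`thW w x 1 0 / x → - ∫_1^2 u w'(u) du = ∫_1^2 w(u) du` (`intervalIntegral.integral_mul_deriv_eq_deriv_mul`, `w(1) = w(2) = 0`) `= ∫ w` (support). -/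
def StPNW : Prop := PNTW

end MPb51559.BG.A
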